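import Pool.Agent.Gen.F5.X12CD3Cm3.S000
import Pool.Agent.Gen.F5.X12CD3Cm3.S001
import Pool.Agent.Gen.F5.X12CD3Cm3.S002
import Pool.Agent.Gen.F5.X12CD3Cm3.S003
import Pool.Agent.Gen.F5.X12CD3Cm3.S004
import Pool.Agent.Gen.F5.X12CD3Cm3.S005
import Pool.Agent.Gen.F5.X12CD3Cm3.S006
import Pool.Agent.Gen.F5.X12CD3Cm3.S007
import Pool.Agent.Gen.F5.X12CD3Cm3.S008
import Pool.Agent.Gen.F5.X12CD3Cm3.S009
import Pool.Agent.Gen.F5.X12CD3Cm3.S010
import Pool.Agent.Gen.F5.X12CD3Cm3.S011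

set_option autoImplicit false
set_option maxRecDepth 100000

namespace Pool.Agent.Gen.F5.X12CD3Cm3

open Pool.Agent.Helper72.F5

def n0 : Cl (O (nat_lit 3)) (R (nat_lit 14353))
    (p (nat_lit 0x8e8f8f0d8d1a) (nat_lit 0) (p (nat_lit 0xe0f0e8d0c9a) (nat_lit 0) (p (nat_lit 0x8d8d0e0c8c1a) (nat_lit 0) (p (nat_lit 0xd0c8d8c0b9a) (nat_lit 0) (p (nat_lit 0x2680d2680d0c8d0b8b0a) (nat_lit 0) (p (nat_lit 0x10000c) (nat_lit 0) (p (nat_lit 0x100004) (nat_lit 0) (p (nat_lit 0x1fc004) (nat_lit 0) (p (nat_lit 0xb0014) (nat_lit 1) (p (nat_lit 0x20000c) (nat_lit 0) (p (nat_lit 0x380c2) (nat_lit 1) (p (nat_lit 0x3c4aa) (nat_lit 7) (p (nat_lit 0xd1) (nat_lit 1) (p (nat_lit 0x111) (nat_lit 1) (p (nat_lit 0x109) (nat_lit 0) (p (nat_lit 0x101) (nat_lit 0) (p (nat_lit 0x119) (nat_lit 0) (p (nat_lit 0xc1) (nat_lit 0) (p (nat_lit 0x81) (nat_lit 1) (p (nat_lit 0x41) (nat_lit 1) (p (nat_lit 0x8a0b0a89089a)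 (nat_lit 0) (p (nat_lit 0x98a8a08881a) (nat_lit 0) (p (nat_lit 0x89088988079a) (nat_lit 0) (p (nat_lit 0x8880907871a) (nat_lit 0) (p (nat_lit 0x80000800080887068a) (nat_lit 0) (p (nat_lit 0x8888068602) (nat_lit 0) (p (nat_lit 0x807860582) (nat_lit 0) (p (nat_lit 0x8607058502) (nat_lit 0) (p (nat_lit 0x586850482) (nat_lit 0) (p (nat_lit 0x160014) (nat_lit 0) (p (nat_lit 0x68612) (nat_lit 0) (p (nat_lit 0x50592) (nat_lit 0) (p (nat_lit 0x40512) (nat_lit 0) (p (nat_lit 0x50312) (nat_lit 0) (p (nat_lit 0x38292) (nat_lit 0) (p (nat_lit 0x28212) (nat_lit 0) (p (nat_lit 0x38112) (nat_lit 0) (p (nat_lit 0x20092) (nat_lit 0) (p (nat_lit 0x10012) (nat_lit 0) pn))))))))))))))))))))))))))))))))))))))) :=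
  Cl.node (nat_lit 0xc9) (nat_lit 2) (by decide +kernel) (ClAll.succ (ClAll.succ ClAll.zero s618) s619)

def n1 : Cl (O (nat_lit 3)) (R (nat_lit 14353))
    (p (nat_lit 0xe0f0e8d0c9a) (nat_lit 0) (p (nat_lit 0x8d8d0e0c8c1a) (nat_lit 0) (p (nat_lit 0xd0c8d8c0b9a) (nat_lit 0) (p (nat_lit 0x2680d2680d0c8d0b8b0a) (nat_lit 0) (p (nat_lit 0x10000c) (nat_lit 0) (p (nat_lit 0x100004) (nat_lit 0) (p (nat_lit 0x1fc004) (nat_lit 0) (p (nat_lit 0xb0014) (nat_lit 1) (p (nat_lit 0x20000c) (nat_lit 0) (p (nat_lit 0x380c2) (nat_lit 1) (p (nat_lit 0x3c4aa) (nat_lit 7) (p (nat_lit 0xd1) (nat_lit 1) (p (nat_lit 0x111) (nat_lit 1) (p (nat_lit 0x109) (nat_lit 0) (p (nat_lit 0x101) (nat_lit 0) (p (nat_lit 0x119) (nat_lit 0) (p (nat_lit 0xc1) (nat_lit 0) (p (nat_lit 0x81) (nat_lit 1) (p (nat_lit 0x41) (nat_lit 1) (p (nat_lit 0x8a0b0a89089a) (nat_lit 0) (p (nat_lit 0x98a8a08881a) (nat_lit 0) (p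 (nat_lit 0x89088988079a) (nat_lit 0) (p (nat_lit 0x8880907871a) (nat_lit 0) (p (nat_lit 0x80000800080887068a) (nat_lit 0) (p (nat_lit 0x8888068602) (nat_lit 0) (p (nat_lit 0x807860582) (nat_lit 0) (p (nat_lit 0x8607058502) (nat_lit 0) (p (nat_lit 0x586850482) (nat_lit 0) (p (nat_lit 0x160014) (nat_lit 0) (p (nat_lit 0x68612) (nat_lit 0) (p (nat_lit 0x50592) (nat_lit 0) (p (nat_lit 0x40512) (nat_lit 0) (p (nat_lit 0x50312) (nat_lit 0) (p (nat_lit 0x38292) (nat_lit 0) (p (nat_lit 0x28212) (nat_lit 0) (p (nat_lit 0x38112) (nat_lit 0) (p (nat_lit 0x20092) (nat_lit 0) (p (nat_lit 0x10012) (nat_lit 0) pn)))))))))))))))))))))))))))))))))))))) :=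
  Cl.node (nat_lit 0x8e8f8f0d8d1a) (nat_lit 1) (by decide +kernel) (ClAll.succ ClAll.zero n0)

def n2 : Cl (O (nat_lit 3)) (R (nat_lit 14353))
    (p (nat_lit 0x8d8d0e0c8c1a) (nat_lit 0) (p (nat_lit 0xd0c8d8c0b9a) (nat_lit 0) (p (nat_lit 0x2680d2680d0c8d0b8b0a) (nat_lit 0) (p (nat_lit 0x10000c) (nat_lit 0) (p (nat_lit 0x100004) (nat_lit 0) (p (nat_lit 0x1fc004) (nat_lit 0) (p (nat_lit 0xb0014) (nat_lit 1) (p (nat_lit 0x20000c) (nat_lit 0) (p (nat_lit 0x380c2) (nat_lit 1) (p (nat_lit 0x3c4aa) (nat_lit 7) (p (nat_lit 0xd1) (nat_lit 1) (p (nat_lit 0x111) (nat_lit 1) (p (nat_lit 0x109) (nat_lit 0) (p (nat_lit 0x101) (nat_lit 0) (p (nat_lit 0x119) (nat_lit 0) (p (nat_lit 0xc1) (nat_lit 0) (p (nat_lit 0x81) (nat_lit 1) (p (nat_lit 0x41) (nat_lit 1) (p (nat_lit 0x8a0b0a89089a) (nat_lit 0) (p (nat_lit 0x98a8a08881a) (nat_lit 0) (p (nat_lit 0x89088988079a) (nat_lit 0) (p (nat_lit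 0x8880907871a) (nat_lit 0) (p (nat_lit 0x80000800080887068a) (nat_lit 0) (p (nat_lit 0x8888068602) (nat_lit 0) (p (nat_lit 0x807860582) (nat_lit 0) (p (nat_lit 0x8607058502) (nat_lit 0) (p (nat_lit 0x586850482) (nat_lit 0) (p (nat_lit 0x160014) (nat_lit 0) (p (nat_lit 0x68612) (nat_lit 0) (p (nat_lit 0x50592) (nat_lit 0) (p (nat_lit 0x40512) (nat_lit 0) (p (nat_lit 0x50312) (nat_lit 0) (p (nat_lit 0x38292) (nat_lit 0) (p (nat_lit 0x28212) (nat_lit 0) (p (nat_lit 0x38112) (nat_lit 0) (p (nat_lit 0x20092) (nat_lit 0) (p (nat_lit 0x10012) (nat_lit 0) pn))))))))))))))))))))))))))))))))))))) :=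
  Cl.node (nat_lit 0xe0f0e8d0c9a) (nat_lit 1) (by decide +kernel) (ClAll.succ ClAll.zero n1)

def n3 : Cl (O (nat_lit 3)) (R (nat_lit 14353))
    (p (nat_lit 0xd0c8d8c0b9a) (nat_lit 0) (p (nat_lit 0x2680d2680d0c8d0b8b0a) (nat_lit 0) (p (nat_lit 0x10000c) (nat_lit 0) (p (nat_lit 0x100004) (nat_lit 0) (p (nat_lit 0x1fc004) (nat_lit 0) (p (nat_lit 0xb0014) (nat_lit 1) (p (nat_lit 0x20000c) (nat_lit 0) (p (nat_lit 0x380c2) (nat_lit 1) (p (nat_lit 0x3c4aa) (nat_lit 7) (p (nat_lit 0xd1) (nat_lit 1) (p (nat_lit 0x111) (nat_lit 1) (p (nat_lit 0x109) (nat_lit 0) (p (nat_lit 0x101) (nat_lit 0) (p (nat_lit 0x119) (nat_lit 0) (p (nat_lit 0xc1) (nat_lit 0) (p (nat_lit 0x81) (nat_lit 1) (p (nat_lit 0x41) (nat_lit 1) (p (nat_lit 0x8a0b0a89089a) (nat_lit 0) (p (nat_lit 0x98a8a08881a) (nat_lit 0) (p (nat_lit 0x89088988079a) (nat_lit 0) (p (nat_lit 0x8880907871a) (nat_lit 0) (p (nat_lit 0x80000800080887068a)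 (nat_lit 0) (p (nat_lit 0x8888068602) (nat_lit 0) (p (nat_lit 0x807860582) (nat_lit 0) (p (nat_lit 0x8607058502) (nat_lit 0) (p (nat_lit 0x586850482) (nat_lit 0) (p (nat_lit 0x160014) (nat_lit 0) (p (nat_lit 0x68612) (nat_lit 0) (p (nat_lit 0x50592) (nat_lit 0) (p (nat_lit 0x40512) (nat_lit 0) (p (nat_lit 0x50312) (nat_lit 0) (p (nat_lit 0x38292) (nat_lit 0) (p (nat_lit 0x28212) (nat_lit 0) (p (nat_lit 0x38112) (nat_lit 0) (p (nat_lit 0x20092) (nat_lit 0) (p (nat_lit 0x10012) (nat_lit 0) pn)))))))))))))))))))))))))))))))))))) :=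
  Cl.node (nat_lit 0x8d8d0e0c8c1a) (nat_lit 1) (by decide +kernel) (ClAll.succ ClAll.zero n2)

def n4 : Cl (O (nat_lit 3)) (R (nat_lit 14353))
    (p (nat_lit 0x101) (nat_lit 0) (p (nat_lit 0xc1) (nat_lit 1) (p (nat_lit 0x10000c) (nat_lit 0) (p (nat_lit 0x100004) (nat_lit 0) (p (nat_lit 0x200004) (nat_lit 0) (p (nat_lit 0x20000c) (nat_lit 0) (p (nat_lit 0x380c2) (nat_lit 0) (p (nat_lit 0x444aa) (nat_lit 7) (p (nat_lit 0xd1) (nat_lit 1) (p (nat_lit 0x111) (nat_lit 1) (p (nat_lit 0x109) (nat_lit 0) (p (nat_lit 0x101) (nat_lit 0) (p (nat_lit 0x119) (nat_lit 0) (p (nat_lit 0xc9) (nat_lit 0) (p (nat_lit 0x89) (nat_lit 1) (p (nat_lit 0x41) (nat_lit 0) (p (nat_lit 0x8a0b0a89089a) (nat_lit 0) (p (nat_lit 0x98a8a08881a) (nat_lit 0) (p (nat_lit 0x89088988079a) (nat_lit 0) (p (nat_lit 0x8880907871a) (nat_lit 0) (p (nat_lit 0x80000800080887068a) (nat_lit 0) (p (nat_lit 0x8888068602)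 (nat_lit 0) (p (nat_lit 0x807860582) (nat_lit 0) (p (nat_lit 0x8607058502) (nat_lit 0) (p (nat_lit 0x586850482) (nat_lit 0) (p (nat_lit 0x160014) (nat_lit 0) (p (nat_lit 0x68612) (nat_lit 0) (p (nat_lit 0x50592) (nat_lit 0) (p (nat_lit 0x40512) (nat_lit 0) (p (nat_lit 0x50312) (nat_lit 0) (p (nat_lit 0x38292) (nat_lit 0) (p (nat_lit 0x28212) (nat_lit 0) (p (nat_lit 0x38112) (nat_lit 0) (p (nat_lit 0x20092) (nat_lit 0) (p (nat_lit 0x10012) (nat_lit 0) pn))))))))))))))))))))))))))))))))))) :=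
  Cl.node (nat_lit 0x8000c) (nat_lit 2) (by decide +kernel) (ClAll.succ (ClAll.succ ClAll.zero s220) s221)

def n5 : Cl (O (nat_lit 3)) (R (nat_lit 14353))
    (p (nat_lit 0xc1) (nat_lit 1) (p (nat_lit 0xc9) (nat_lit 0) (p (nat_lit 0x100004) (nat_lit 0) (p (nat_lit 0x10000c) (nat_lit 0) (p (nat_lit 0x20000c) (nat_lit 0) (p (nat_lit 0x200004) (nat_lit 0) (p (nat_lit 0x380c2) (nat_lit 0) (p (nat_lit 0x3c4aa) (nat_lit 7) (p (nat_lit 0xd1) (nat_lit 1) (p (nat_lit 0x111) (nat_lit 1) (p (nat_lit 0x109) (nat_lit 0) (p (nat_lit 0x101) (nat_lit 0) (p (nat_lit 0x119) (nat_lit 0) (p (nat_lit 0xc1) (nat_lit 0) (p (nat_lit 0x81) (nat_lit 1) (p (nat_lit 0x41) (nat_lit 1) (p (nat_lit 0x8a0b0a89089a) (nat_lit 0) (p (nat_lit 0x98a8a08881a) (nat_lit 0) (p (nat_lit 0x89088988079a) (nat_lit 0) (p (nat_lit 0x8880907871a) (nat_lit 0) (p (nat_lit 0x80000800080887068a) (nat_lit 0) (p (nat_lit 0x8888068602)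 (nat_lit 0) (p (nat_lit 0x807860582) (nat_lit 0) (p (nat_lit 0x8607058502) (nat_lit 0) (p (nat_lit 0x586850482) (nat_lit 0) (p (nat_lit 0x160014) (nat_lit 0) (p (nat_lit 0x68612) (nat_lit 0) (p (nat_lit 0x50592) (nat_lit 0) (p (nat_lit 0x40512) (nat_lit 0) (p (nat_lit 0x50312) (nat_lit 0) (p (nat_lit 0x38292) (nat_lit 0) (p (nat_lit 0x28212) (nat_lit 0) (p (nat_lit 0x38112) (nat_lit 0) (p (nat_lit 0x20092) (nat_lit 0) (p (nat_lit 0x10012) (nat_lit 0) pn))))))))))))))))))))))))))))))))))) :=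
  Cl.node (nat_lit 0x8000c) (nat_lit 2) (by decide +kernel) (ClAll.succ (ClAll.succ ClAll.zero s604) s605)

def n6 : Cl (O (nat_lit 3)) (R (nat_lit 14353))
    (p (nat_lit 0x101) (nat_lit 1) (p (nat_lit 0xc9) (nat_lit 1) (p (nat_lit 0x100004) (nat_lit 0) (p (nat_lit 0x10000c) (nat_lit 0) (p (nat_lit 0x20000c) (nat_lit 0) (p (nat_lit 0x200004) (nat_lit 0) (p (nat_lit 0x380c2) (nat_lit 0) (p (nat_lit 0x3c4aa) (nat_lit 7) (p (nat_lit 0xd1) (nat_lit 1) (p (nat_lit 0x111) (nat_lit 1) (p (nat_lit 0x109) (nat_lit 0) (p (nat_lit 0x101) (nat_lit 0) (p (nat_lit 0x119) (nat_lit 0) (p (nat_lit 0xc1) (nat_lit 0) (p (nat_lit 0x81) (nat_lit 1) (p (nat_lit 0x41) (nat_lit 1) (p (nat_lit 0x8a0b0a89089a) (nat_lit 0) (p (nat_lit 0x98a8a08881a) (nat_lit 0) (p (nat_lit 0x89088988079a) (nat_lit 0) (p (nat_lit 0x8880907871a) (nat_lit 0) (p (nat_lit 0x80000800080887068a) (nat_lit 0) (p (nat_lit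 0x8888068602) (nat_lit 0) (p (nat_lit 0x807860582) (nat_lit 0) (p (nat_lit 0x8607058502) (nat_lit 0) (p (nat_lit 0x586850482) (nat_lit 0) (p (nat_lit 0x160014) (nat_lit 0) (p (nat_lit 0x68612) (nat_lit 0) (p (nat_lit 0x50592) (nat_lit 0) (p (nat_lit 0x40512) (nat_lit 0) (p (nat_lit 0x50312) (nat_lit 0) (p (nat_lit 0x38292) (nat_lit 0) (p (nat_lit 0x28212) (nat_lit 0) (p (nat_lit 0x38112) (nat_lit 0) (p (nat_lit 0x20092) (nat_lit 0) (p (nat_lit 0x10012) (nat_lit 0) pn))))))))))))))))))))))))))))))))))) :=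
  Cl.node (nat_lit 0x8000c) (nat_lit 2) (by decide +kernel) (ClAll.succ (ClAll.succ ClAll.zero s607) s608)

def n7 : Cl (O (nat_lit 3)) (R (nat_lit 14353))
    (p (nat_lit 0x2680d2680d0c8d0b8b0a) (nat_lit 0) (p (nat_lit 0x10000c) (nat_lit 0) (p (nat_lit 0x100004) (nat_lit 0) (p (nat_lit 0x1fc004) (nat_lit 0) (p (nat_lit 0xb0014) (nat_lit 1) (p (nat_lit 0x20000c) (nat_lit 0) (p (nat_lit 0x380c2) (nat_lit 1) (p (nat_lit 0x3c4aa) (nat_lit 7) (p (nat_lit 0xd1) (nat_lit 1) (p (nat_lit 0x111) (nat_lit 1) (p (nat_lit 0x109) (nat_lit 0) (p (nat_lit 0x101) (nat_lit 0) (p (nat_lit 0x119) (nat_lit 0) (p (nat_lit 0xc1) (nat_lit 0) (p (nat_lit 0x81) (nat_lit 1) (p (nat_lit 0x41) (nat_lit 1) (p (nat_lit 0x8a0b0a89089a) (nat_lit 0) (p (nat_lit 0x98a8a08881a) (nat_lit 0) (p (nat_lit 0x89088988079a) (nat_lit 0) (p (nat_lit 0x8880907871a) (nat_lit 0) (p (nat_lit 0x80000800080887068a) (nat_lit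 0) (p (nat_lit 0x8888068602) (nat_lit 0) (p (nat_lit 0x807860582) (nat_lit 0) (p (nat_lit 0x8607058502) (nat_lit 0) (p (nat_lit 0x586850482) (nat_lit 0) (p (nat_lit 0x160014) (nat_lit 0) (p (nat_lit 0x68612) (nat_lit 0) (p (nat_lit 0x50592) (nat_lit 0) (p (nat_lit 0x40512) (nat_lit 0) (p (nat_lit 0x50312) (nat_lit 0) (p (nat_lit 0x38292) (nat_lit 0) (p (nat_lit 0x28212) (nat_lit 0) (p (nat_lit 0x38112) (nat_lit 0) (p (nat_lit 0x20092) (nat_lit 0) (p (nat_lit 0x10012) (nat_lit 0) pn))))))))))))))))))))))))))))))))))) :=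
  Cl.node (nat_lit 0xd0c8d8c0b9a) (nat_lit 1) (by decide +kernel) (ClAll.succ ClAll.zero n3)

def n8 : Cl (O (nat_lit 3)) (R (nat_lit 14353))
    (p (nat_lit 0x10000c) (nat_lit 0) (p (nat_lit 0x108014) (nat_lit 0) (p (nat_lit 0x100004) (nat_lit 1) (p (nat_lit 0x200004) (nat_lit 0) (p (nat_lit 0x20000c) (nat_lit 0) (p (nat_lit 0x380c2) (nat_lit 0) (p (nat_lit 0x444aa) (nat_lit 7) (p (nat_lit 0x81) (nat_lit 1) (p (nat_lit 0xc9) (nat_lit 1) (p (nat_lit 0x109) (nat_lit 1) (p (nat_lit 0x101) (nat_lit 0) (p (nat_lit 0x119) (nat_lit 0) (p (nat_lit 0xd1) (nat_lit 0) (p (nat_lit 0x89) (nat_lit 0) (p (nat_lit 0x41) (nat_lit 0) (p (nat_lit 0x8a0b0a89089a) (nat_lit 0) (p (nat_lit 0x98a8a08881a) (nat_lit 0) (p (nat_lit 0x89088988079a) (nat_lit 0) (p (nat_lit 0x8880907871a) (nat_lit 0) (p (nat_lit 0x80000800080887068a) (nat_lit 0) (p (nat_lit 0x8888068602) (nat_lit 0) (p (nat_lit 0x807860582)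 (nat_lit 0) (p (nat_lit 0x8607058502) (nat_lit 0) (p (nat_lit 0x586850482) (nat_lit 0) (p (nat_lit 0x160014) (nat_lit 0) (p (nat_lit 0x68612) (nat_lit 0) (p (nat_lit 0x50592) (nat_lit 0) (p (nat_lit 0x40512) (nat_lit 0) (p (nat_lit 0x50312) (nat_lit 0) (p (nat_lit 0x38292) (nat_lit 0) (p (nat_lit 0x28212) (nat_lit 0) (p (nat_lit 0x38112) (nat_lit 0) (p (nat_lit 0x20092) (nat_lit 0) (p (nat_lit 0x10012) (nat_lit 0) pn)))))))))))))))))))))))))))))))))) :=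
  Cl.node (nat_lit 0x84014) (nat_lit 2) (by decide +kernel) (ClAll.succ (ClAll.succ ClAll.zero s13) s14)

def n9 : Cl (O (nat_lit 3)) (R (nat_lit 14353))
    (p (nat_lit 0x89) (nat_lit 1) (p (nat_lit 0x10000c) (nat_lit 0) (p (nat_lit 0x100004) (nat_lit 0) (p (nat_lit 0x200004) (nat_lit 0) (p (nat_lit 0x20000c) (nat_lit 0) (p (nat_lit 0x380c2) (nat_lit 0) (p (nat_lit 0x444aa) (nat_lit 7) (p (nat_lit 0x111) (nat_lit 0) (p (nat_lit 0xc9) (nat_lit 1) (p (nat_lit 0x81) (nat_lit 0) (p (nat_lit 0x101) (nat_lit 1) (p (nat_lit 0x119) (nat_lit 0) (p (nat_lit 0xd1) (nat_lit 0) (p (nat_lit 0x89) (nat_lit 0) (p (nat_lit 0x41) (nat_lit 0) (p (nat_lit 0x8a0b0a89089a) (nat_lit 0) (p (nat_lit 0x98a8a08881a) (nat_lit 0) (p (nat_lit 0x89088988079a) (nat_lit 0) (p (nat_lit 0x8880907871a) (nat_lit 0) (p (nat_lit 0x80000800080887068a) (nat_lit 0) (p (nat_lit 0x8888068602) (nat_lit 0) (p (nat_lit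 0x807860582) (nat_lit 0) (p (nat_lit 0x8607058502) (nat_lit 0) (p (nat_lit 0x586850482) (nat_lit 0) (p (nat_lit 0x160014) (nat_lit 0) (p (nat_lit 0x68612) (nat_lit 0) (p (nat_lit 0x50592) (nat_lit 0) (p (nat_lit 0x40512) (nat_lit 0) (p (nat_lit 0x50312) (nat_lit 0) (p (nat_lit 0x38292) (nat_lit 0) (p (nat_lit 0x28212) (nat_lit 0) (p (nat_lit 0x38112) (nat_lit 0) (p (nat_lit 0x20092) (nat_lit 0) (p (nat_lit 0x10012) (nat_lit 0) pn)))))))))))))))))))))))))))))))))) :=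
  Cl.node (nat_lit 0xc9) (nat_lit 2) (by decide +kernel) (ClAll.succ (ClAll.succ ClAll.zero s49) s50)

def n10 : Cl (O (nat_lit 3)) (R (nat_lit 14353))
    (p (nat_lit 0x119) (nat_lit 0) (p (nat_lit 0x100004) (nat_lit 0) (p (nat_lit 0x10000c) (nat_lit 0) (p (nat_lit 0x20000c) (nat_lit 0) (p (nat_lit 0x200004) (nat_lit 0) (p (nat_lit 0x380c2) (nat_lit 0) (p (nat_lit 0x444aa) (nat_lit 7) (p (nat_lit 0x109) (nat_lit 1) (p (nat_lit 0x101) (nat_lit 0) (p (nat_lit 0x81) (nat_lit 1) (p (nat_lit 0xc1) (nat_lit 1) (p (nat_lit 0x119) (nat_lit 1) (p (nat_lit 0xd1) (nat_lit 0) (p (nat_lit 0x89) (nat_lit 0) (p (nat_lit 0x41) (nat_lit 0) (p (nat_lit 0x8a0b0a89089a) (nat_lit 0) (p (nat_lit 0x98a8a08881a) (nat_lit 0) (p (nat_lit 0x89088988079a) (nat_lit 0) (p (nat_lit 0x8880907871a) (nat_lit 0) (p (nat_lit 0x80000800080887068a) (nat_lit 0) (p (nat_lit 0x8888068602) (nat_lit 0) (p (nat_lit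 0x807860582) (nat_lit 0) (p (nat_lit 0x8607058502) (nat_lit 0) (p (nat_lit 0x586850482) (nat_lit 0) (p (nat_lit 0x160014) (nat_lit 0) (p (nat_lit 0x68612) (nat_lit 0) (p (nat_lit 0x50592) (nat_lit 0) (p (nat_lit 0x40512) (nat_lit 0) (p (nat_lit 0x50312) (nat_lit 0) (p (nat_lit 0x38292) (nat_lit 0) (p (nat_lit 0x28212) (nat_lit 0) (p (nat_lit 0x38112) (nat_lit 0) (p (nat_lit 0x20092) (nat_lit 0) (p (nat_lit 0x10012) (nat_lit 0) pn)))))))))))))))))))))))))))))))))) :=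
  Cl.node (nat_lit 0x101) (nat_lit 2) (by decide +kernel) (ClAll.succ (ClAll.succ ClAll.zero s156) s157)

def n11 : Cl (O (nat_lit 3)) (R (nat_lit 14353))
    (p (nat_lit 0xc1) (nat_lit 0) (p (nat_lit 0x10000c) (nat_lit 0) (p (nat_lit 0x100004) (nat_lit 0) (p (nat_lit 0x200004) (nat_lit 0) (p (nat_lit 0x20000c) (nat_lit 0) (p (nat_lit 0x380c2) (nat_lit 0) (p (nat_lit 0x444aa) (nat_lit 7) (p (nat_lit 0xd1) (nat_lit 1) (p (nat_lit 0x111) (nat_lit 1) (p (nat_lit 0x109) (nat_lit 0) (p (nat_lit 0x101) (nat_lit 0) (p (nat_lit 0x119) (nat_lit 0) (p (nat_lit 0xc9) (nat_lit 0) (p (nat_lit 0x89) (nat_lit 1) (p (nat_lit 0x41) (nat_lit 0) (p (nat_lit 0x8a0b0a89089a) (nat_lit 0) (p (nat_lit 0x98a8a08881a) (nat_lit 0) (p (nat_lit 0x89088988079a) (nat_lit 0) (p (nat_lit 0x8880907871a) (nat_lit 0) (p (nat_lit 0x80000800080887068a) (nat_lit 0) (p (nat_lit 0x8888068602) (nat_lit 0) (p (nat_lit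 0x807860582) (nat_lit 0) (p (nat_lit 0x8607058502) (nat_lit 0) (p (nat_lit 0x586850482) (nat_lit 0) (p (nat_lit 0x160014) (nat_lit 0) (p (nat_lit 0x68612) (nat_lit 0) (p (nat_lit 0x50592) (nat_lit 0) (p (nat_lit 0x40512) (nat_lit 0) (p (nat_lit 0x50312) (nat_lit 0) (p (nat_lit 0x38292) (nat_lit 0) (p (nat_lit 0x28212) (nat_lit 0) (p (nat_lit 0x38112) (nat_lit 0) (p (nat_lit 0x20092) (nat_lit 0) (p (nat_lit 0x10012) (nat_lit 0) pn)))))))))))))))))))))))))))))))))) :=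
  Cl.node (nat_lit 0x80004) (nat_lit 2) (by decide +kernel) (ClAll.succ (ClAll.succ ClAll.zero s218) s219)

def n12 : Cl (O (nat_lit 3)) (R (nat_lit 14353))
    (p (nat_lit 0xc1) (nat_lit 1) (p (nat_lit 0x10000c) (nat_lit 0) (p (nat_lit 0x100004) (nat_lit 0) (p (nat_lit 0x200004) (nat_lit 0) (p (nat_lit 0x20000c) (nat_lit 0) (p (nat_lit 0x380c2) (nat_lit 0) (p (nat_lit 0x444aa) (nat_lit 7) (p (nat_lit 0xd1) (nat_lit 1) (p (nat_lit 0x111) (nat_lit 1) (p (nat_lit 0x109) (nat_lit 0) (p (nat_lit 0x101) (nat_lit 0) (p (nat_lit 0x119) (nat_lit 0) (p (nat_lit 0xc9) (nat_lit 0) (p (nat_lit 0x89) (nat_lit 1) (p (nat_lit 0x41) (nat_lit 0) (p (nat_lit 0x8a0b0a89089a) (nat_lit 0) (p (nat_lit 0x98a8a08881a) (nat_lit 0) (p (nat_lit 0x89088988079a) (nat_lit 0) (p (nat_lit 0x8880907871a) (nat_lit 0) (p (nat_lit 0x80000800080887068a) (nat_lit 0) (p (nat_lit 0x8888068602) (nat_lit 0) (p (nat_lit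 0x807860582) (nat_lit 0) (p (nat_lit 0x8607058502) (nat_lit 0) (p (nat_lit 0x586850482) (nat_lit 0) (p (nat_lit 0x160014) (nat_lit 0) (p (nat_lit 0x68612) (nat_lit 0) (p (nat_lit 0x50592) (nat_lit 0) (p (nat_lit 0x40512) (nat_lit 0) (p (nat_lit 0x50312) (nat_lit 0) (p (nat_lit 0x38292) (nat_lit 0) (p (nat_lit 0x28212) (nat_lit 0) (p (nat_lit 0x38112) (nat_lit 0) (p (nat_lit 0x20092) (nat_lit 0) (p (nat_lit 0x10012) (nat_lit 0) pn)))))))))))))))))))))))))))))))))) :=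
  Cl.node (nat_lit 0x101) (nat_lit 2) (by decide +kernel) (ClAll.succ (ClAll.succ ClAll.zero n4) s222)

def n13 : Cl (O (nat_lit 3)) (R (nat_lit 14353))
    (p (nat_lit 0xc9) (nat_lit 0) (p (nat_lit 0xc1) (nat_lit 0) (p (nat_lit 0x10000c) (nat_lit 0) (p (nat_lit 0x100004) (nat_lit 0) (p (nat_lit 0x200004) (nat_lit 0) (p (nat_lit 0x20000c) (nat_lit 0) (p (nat_lit 0x380c2) (nat_lit 0) (p (nat_lit 0x444aa) (nat_lit 7) (p (nat_lit 0xd1) (nat_lit 1) (p (nat_lit 0x109) (nat_lit 1) (p (nat_lit 0x101) (nat_lit 0) (p (nat_lit 0x119) (nat_lit 0) (p (nat_lit 0xc9) (nat_lit 0) (p (nat_lit 0x89) (nat_lit 1) (p (nat_lit 0x41) (nat_lit 0) (p (nat_lit 0x8a0b0a89089a) (nat_lit 0) (p (nat_lit 0x98a8a08881a) (nat_lit 0) (p (nat_lit 0x89088988079a) (nat_lit 0) (p (nat_lit 0x8880907871a) (nat_lit 0) (p (nat_lit 0x80000800080887068a) (nat_lit 0) (p (nat_lit 0x8888068602) (nat_lit 0) (p (nat_lit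 0x807860582) (nat_lit 0) (p (nat_lit 0x8607058502) (nat_lit 0) (p (nat_lit 0x586850482) (nat_lit 0) (p (nat_lit 0x160014) (nat_lit 0) (p (nat_lit 0x68612) (nat_lit 0) (p (nat_lit 0x50592) (nat_lit 0) (p (nat_lit 0x40512) (nat_lit 0) (p (nat_lit 0x50312) (nat_lit 0) (p (nat_lit 0x38292) (nat_lit 0) (p (nat_lit 0x28212) (nat_lit 0) (p (nat_lit 0x38112) (nat_lit 0) (p (nat_lit 0x20092) (nat_lit 0) (p (nat_lit 0x10012) (nat_lit 0) pn)))))))))))))))))))))))))))))))))) :=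
  Cl.node (nat_lit 0x80004) (nat_lit 2) (by decide +kernel) (ClAll.succ (ClAll.succ ClAll.zero s263) s264)

def n14 : Cl (O (nat_lit 3)) (R (nat_lit 14353))
    (p (nat_lit 0xc9) (nat_lit 0) (p (nat_lit 0x100004) (nat_lit 0) (p (nat_lit 0x10000c) (nat_lit 0) (p (nat_lit 0x20000c) (nat_lit 0) (p (nat_lit 0x200004) (nat_lit 0) (p (nat_lit 0x380c2) (nat_lit 0) (p (nat_lit 0x3c4aa) (nat_lit 7) (p (nat_lit 0xd1) (nat_lit 1) (p (nat_lit 0x111) (nat_lit 1) (p (nat_lit 0x109) (nat_lit 0) (p (nat_lit 0x101) (nat_lit 0) (p (nat_lit 0x119) (nat_lit 0) (p (nat_lit 0xc1) (nat_lit 0) (p (nat_lit 0x81) (nat_lit 1) (p (nat_lit 0x41) (nat_lit 1) (p (nat_lit 0x8a0b0a89089a) (nat_lit 0) (p (nat_lit 0x98a8a08881a) (nat_lit 0) (p (nat_lit 0x89088988079a) (nat_lit 0) (p (nat_lit 0x8880907871a) (nat_lit 0) (p (nat_lit 0x80000800080887068a) (nat_lit 0) (p (nat_lit 0x8888068602) (nat_lit 0) (p (nat_lit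 0x807860582) (nat_lit 0) (p (nat_lit 0x8607058502) (nat_lit 0) (p (nat_lit 0x586850482) (nat_lit 0) (p (nat_lit 0x160014) (nat_lit 0) (p (nat_lit 0x68612) (nat_lit 0) (p (nat_lit 0x50592) (nat_lit 0) (p (nat_lit 0x40512) (nat_lit 0) (p (nat_lit 0x50312) (nat_lit 0) (p (nat_lit 0x38292) (nat_lit 0) (p (nat_lit 0x28212) (nat_lit 0) (p (nat_lit 0x38112) (nat_lit 0) (p (nat_lit 0x20092) (nat_lit 0) (p (nat_lit 0x10012) (nat_lit 0) pn)))))))))))))))))))))))))))))))))) :=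
  Cl.node (nat_lit 0xc1) (nat_lit 2) (by decide +kernel) (ClAll.succ (ClAll.succ ClAll.zero s603) n5)

def n15 : Cl (O (nat_lit 3)) (R (nat_lit 14353))
    (p (nat_lit 0xc9) (nat_lit 1) (p (nat_lit 0x100004) (nat_lit 0) (p (nat_lit 0x10000c) (nat_lit 0) (p (nat_lit 0x20000c) (nat_lit 0) (p (nat_lit 0x200004) (nat_lit 0) (p (nat_lit 0x380c2) (nat_lit 0) (p (nat_lit 0x3c4aa) (nat_lit 7) (p (nat_lit 0xd1) (nat_lit 1) (p (nat_lit 0x111) (nat_lit 1) (p (nat_lit 0x109) (nat_lit 0) (p (nat_lit 0x101) (nat_lit 0) (p (nat_lit 0x119) (nat_lit 0) (p (nat_lit 0xc1) (nat_lit 0) (p (nat_lit 0x81) (nat_lit 1) (p (nat_lit 0x41) (nat_lit 1) (p (nat_lit 0x8a0b0a89089a) (nat_lit 0) (p (nat_lit 0x98a8a08881a) (nat_lit 0) (p (nat_lit 0x89088988079a) (nat_lit 0) (p (nat_lit 0x8880907871a) (nat_lit 0) (p (nat_lit 0x80000800080887068a) (nat_lit 0) (p (nat_lit 0x8888068602) (nat_lit 0) (p (nat_lit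 0x807860582) (nat_lit 0) (p (nat_lit 0x8607058502) (nat_lit 0) (p (nat_lit 0x586850482) (nat_lit 0) (p (nat_lit 0x160014) (nat_lit 0) (p (nat_lit 0x68612) (nat_lit 0) (p (nat_lit 0x50592) (nat_lit 0) (p (nat_lit 0x40512) (nat_lit 0) (p (nat_lit 0x50312) (nat_lit 0) (p (nat_lit 0x38292) (nat_lit 0) (p (nat_lit 0x28212) (nat_lit 0) (p (nat_lit 0x38112) (nat_lit 0) (p (nat_lit 0x20092) (nat_lit 0) (p (nat_lit 0x10012) (nat_lit 0) pn)))))))))))))))))))))))))))))))))) :=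
  Cl.node (nat_lit 0x101) (nat_lit 2) (by decide +kernel) (ClAll.succ (ClAll.succ ClAll.zero s606) n6)

def n16 : Cl (O (nat_lit 3)) (R (nat_lit 14353))
    (p (nat_lit 0x10000c) (nat_lit 1) (p (nat_lit 0x100004) (nat_lit 0) (p (nat_lit 0x200004) (nat_lit 0) (p (nat_lit 0xb0014) (nat_lit 0) (p (nat_lit 0x20000c) (nat_lit 0) (p (nat_lit 0x380c2) (nat_lit 1) (p (nat_lit 0x3c4aa) (nat_lit 7) (p (nat_lit 0xd1) (nat_lit 1) (p (nat_lit 0x111) (nat_lit 1) (p (nat_lit 0x109) (nat_lit 0) (p (nat_lit 0x101) (nat_lit 0) (p (nat_lit 0x119) (nat_lit 0) (p (nat_lit 0xc1) (nat_lit 0) (p (nat_lit 0x81) (nat_lit 1) (p (nat_lit 0x41) (nat_lit 1) (p (nat_lit 0x8a0b0a89089a) (nat_lit 0) (p (nat_lit 0x98a8a08881a) (nat_lit 0) (p (nat_lit 0x89088988079a) (nat_lit 0) (p (nat_lit 0x8880907871a) (nat_lit 0) (p (nat_lit 0x80000800080887068a) (nat_lit 0) (p (nat_lit 0x8888068602) (nat_lit 0) (p (nat_lit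 0x807860582) (nat_lit 0) (p (nat_lit 0x8607058502) (nat_lit 0) (p (nat_lit 0x586850482) (nat_lit 0) (p (nat_lit 0x160014) (nat_lit 0) (p (nat_lit 0x68612) (nat_lit 0) (p (nat_lit 0x50592) (nat_lit 0) (p (nat_lit 0x40512) (nat_lit 0) (p (nat_lit 0x50312) (nat_lit 0) (p (nat_lit 0x38292) (nat_lit 0) (p (nat_lit 0x28212) (nat_lit 0) (p (nat_lit 0x38112) (nat_lit 0) (p (nat_lit 0x20092) (nat_lit 0) (p (nat_lit 0x10012) (nat_lit 0) pn)))))))))))))))))))))))))))))))))) :=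
  Cl.node (nat_lit 0x58014) (nat_lit 2) (by decide +kernel) (ClAll.succ (ClAll.succ ClAll.zero s614) s615)

def n17 : Cl (O (nat_lit 3)) (R (nat_lit 14353))
    (p (nat_lit 0x10000c) (nat_lit 0) (p (nat_lit 0x100004) (nat_lit 0) (p (nat_lit 0x1fc004) (nat_lit 0) (p (nat_lit 0xb0014) (nat_lit 1) (p (nat_lit 0x20000c) (nat_lit 0) (p (nat_lit 0x380c2) (nat_lit 1) (p (nat_lit 0x3c4aa) (nat_lit 7) (p (nat_lit 0xd1) (nat_lit 1) (p (nat_lit 0x111) (nat_lit 1) (p (nat_lit 0x109) (nat_lit 0) (p (nat_lit 0x101) (nat_lit 0) (p (nat_lit 0x119) (nat_lit 0) (p (nat_lit 0xc1) (nat_lit 0) (p (nat_lit 0x81) (nat_lit 1) (p (nat_lit 0x41) (nat_lit 1) (p (nat_lit 0x8a0b0a89089a) (nat_lit 0) (p (nat_lit 0x98a8a08881a) (nat_lit 0) (p (nat_lit 0x89088988079a) (nat_lit 0) (p (nat_lit 0x8880907871a) (nat_lit 0) (p (nat_lit 0x80000800080887068a) (nat_lit 0) (p (nat_lit 0x8888068602) (nat_lit 0) (p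 (nat_lit 0x807860582) (nat_lit 0) (p (nat_lit 0x8607058502) (nat_lit 0) (p (nat_lit 0x586850482) (nat_lit 0) (p (nat_lit 0x160014) (nat_lit 0) (p (nat_lit 0x68612) (nat_lit 0) (p (nat_lit 0x50592) (nat_lit 0) (p (nat_lit 0x40512) (nat_lit 0) (p (nat_lit 0x50312) (nat_lit 0) (p (nat_lit 0x38292) (nat_lit 0) (p (nat_lit 0x28212) (nat_lit 0) (p (nat_lit 0x38112) (nat_lit 0) (p (nat_lit 0x20092) (nat_lit 0) (p (nat_lit 0x10012) (nat_lit 0) pn)))))))))))))))))))))))))))))))))) :=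
  Cl.node (nat_lit 0x2680d2680d0c8d0b8b0a) (nat_lit 1) (by decide +kernel) (ClAll.succ ClAll.zero n7)

def n18 : Cl (O (nat_lit 3)) (R (nat_lit 14353))
    (p (nat_lit 0x119) (nat_lit 1) (p (nat_lit 0x10000c) (nat_lit 0) (p (nat_lit 0x100004) (nat_lit 0) (p (nat_lit 0x20000c) (nat_lit 0) (p (nat_lit 0x200004) (nat_lit 0) (p (nat_lit 0x380c2) (nat_lit 0) (p (nat_lit 0x3c4aa) (nat_lit 7) (p (nat_lit 0xd1) (nat_lit 1) (p (nat_lit 0xc9) (nat_lit 0) (p (nat_lit 0x109) (nat_lit 1) (p (nat_lit 0x101) (nat_lit 0) (p (nat_lit 0x119) (nat_lit 0) (p (nat_lit 0xc1) (nat_lit 0) (p (nat_lit 0x81) (nat_lit 1) (p (nat_lit 0x41) (nat_lit 1) (p (nat_lit 0x8a0b0a89089a) (nat_lit 0) (p (nat_lit 0x98a8a08881a) (nat_lit 0) (p (nat_lit 0x89088988079a) (nat_lit 0) (p (nat_lit 0x8880907871a) (nat_lit 0) (p (nat_lit 0x80000800080887068a) (nat_lit 0) (p (nat_lit 0x8888068602) (nat_lit 0) (p (nat_lit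 0x807860582) (nat_lit 0) (p (nat_lit 0x8607058502) (nat_lit 0) (p (nat_lit 0x586850482) (nat_lit 0) (p (nat_lit 0x160014) (nat_lit 0) (p (nat_lit 0x68612) (nat_lit 0) (p (nat_lit 0x50592) (nat_lit 0) (p (nat_lit 0x40512) (nat_lit 0) (p (nat_lit 0x50312) (nat_lit 0) (p (nat_lit 0x38292) (nat_lit 0) (p (nat_lit 0x28212) (nat_lit 0) (p (nat_lit 0x38112) (nat_lit 0) (p (nat_lit 0x20092) (nat_lit 0) (p (nat_lit 0x10012) (nat_lit 0) pn)))))))))))))))))))))))))))))))))) :=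
  Cl.node (nat_lit 0xc1) (nat_lit 2) (by decide +kernel) (ClAll.succ (ClAll.succ ClAll.zero s643) s644)

def n19 : Cl (O (nat_lit 3)) (R (nat_lit 14353))
    (p (nat_lit 0x8000c) (nat_lit 0) (p (nat_lit 0xc1) (nat_lit 0) (p (nat_lit 0x10000c) (nat_lit 0) (p (nat_lit 0x100004) (nat_lit 0) (p (nat_lit 0x20000c) (nat_lit 0) (p (nat_lit 0x200004) (nat_lit 0) (p (nat_lit 0x380c2) (nat_lit 0) (p (nat_lit 0x3c4aa) (nat_lit 7) (p (nat_lit 0xd1) (nat_lit 1) (p (nat_lit 0xc9) (nat_lit 0) (p (nat_lit 0x101) (nat_lit 1) (p (nat_lit 0x119) (nat_lit 0) (p (nat_lit 0xc1) (nat_lit 0) (p (nat_lit 0x81) (nat_lit 1) (p (nat_lit 0x41) (nat_lit 1) (p (nat_lit 0x8a0b0a89089a) (nat_lit 0) (p (nat_lit 0x98a8a08881a) (nat_lit 0) (p (nat_lit 0x89088988079a) (nat_lit 0) (p (nat_lit 0x8880907871a) (nat_lit 0) (p (nat_lit 0x80000800080887068a) (nat_lit 0) (p (nat_lit 0x8888068602) (nat_lit 0) (p (nat_lit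 0x807860582) (nat_lit 0) (p (nat_lit 0x8607058502) (nat_lit 0) (p (nat_lit 0x586850482) (nat_lit 0) (p (nat_lit 0x160014) (nat_lit 0) (p (nat_lit 0x68612) (nat_lit 0) (p (nat_lit 0x50592) (nat_lit 0) (p (nat_lit 0x40512) (nat_lit 0) (p (nat_lit 0x50312) (nat_lit 0) (p (nat_lit 0x38292) (nat_lit 0) (p (nat_lit 0x28212) (nat_lit 0) (p (nat_lit 0x38112) (nat_lit 0) (p (nat_lit 0x20092) (nat_lit 0) (p (nat_lit 0x10012) (nat_lit 0) pn)))))))))))))))))))))))))))))))))) :=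
  Cl.node (nat_lit 0x3cc2a) (nat_lit 12) (by decide +kernel) (ClAll.succ (ClAll.succ (ClAll.succ (ClAll.succ (ClAll.succ (ClAll.succ (ClAll.succ (ClAll.succ (ClAll.succ (ClAll.succ (ClAll.succ (ClAll.succ ClAll.zero s679) s680) s681) s682) s683) s684) s685) s686) s687) s688) s689) s690)

def n20 : Cl (O (nat_lit 3)) (R (nat_lit 14353))
    (p (nat_lit 0x10000c) (nat_lit 0) (p (nat_lit 0x100004) (nat_lit 0) (p (nat_lit 0x200004) (nat_lit 0) (p (nat_lit 0x20000c) (nat_lit 0) (p (nat_lit 0x380c2) (nat_lit 0) (p (nat_lit 0x444aa) (nat_lit 7) (p (nat_lit 0x81) (nat_lit 1) (p (nat_lit 0xc9) (nat_lit 1) (p (nat_lit 0x109) (nat_lit 1) (p (nat_lit 0x101) (nat_lit 0) (p (nat_lit 0x119) (nat_lit 0) (p (nat_lit 0xd1) (nat_lit 0) (p (nat_lit 0x89) (nat_lit 0) (p (nat_lit 0x41) (nat_lit 0) (p (nat_lit 0x8a0b0a89089a) (nat_lit 0) (p (nat_lit 0x98a8a08881a) (nat_lit 0) (p (nat_lit 0x89088988079a)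 (nat_lit 0) (p (nat_lit 0x8880907871a) (nat_lit 0) (p (nat_lit 0x80000800080887068a) (nat_lit 0) (p (nat_lit 0x8888068602) (nat_lit 0) (p (nat_lit 0x807860582) (nat_lit 0) (p (nat_lit 0x8607058502) (nat_lit 0) (p (nat_lit 0x586850482) (nat_lit 0) (p (nat_lit 0x160014) (nat_lit 0) (p (nat_lit 0x68612) (nat_lit 0) (p (nat_lit 0x50592) (nat_lit 0) (p (nat_lit 0x40512) (nat_lit 0) (p (nat_lit 0x50312) (nat_lit 0) (p (nat_lit 0x38292) (nat_lit 0) (p (nat_lit 0x28212) (nat_lit 0) (p (nat_lit 0x38112) (nat_lit 0) (p (nat_lit 0x20092) (nat_lit 0) (p (nat_lit 0x10012) (nat_lit 0) pn))))))))))))))))))))))))))))))))) :=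
  Cl.node (nat_lit 0x81) (nat_lit 2) (by decide +kernel) (ClAll.succ (ClAll.succ ClAll.zero s10) s11)

def n21 : Cl (O (nat_lit 3)) (R (nat_lit 14353))
    (p (nat_lit 0x108014) (nat_lit 0) (p (nat_lit 0x100004) (nat_lit 1) (p (nat_lit 0x200004) (nat_lit 0) (p (nat_lit 0x20000c) (nat_lit 0) (p (nat_lit 0x380c2) (nat_lit 0) (p (nat_lit 0x444aa) (nat_lit 7) (p (nat_lit 0x81) (nat_lit 1) (p (nat_lit 0xc9) (nat_lit 1) (p (nat_lit 0x109) (nat_lit 1) (p (nat_lit 0x101) (nat_lit 0) (p (nat_lit 0x119) (nat_lit 0) (p (nat_lit 0xd1) (nat_lit 0) (p (nat_lit 0x89) (nat_lit 0) (p (nat_lit 0x41) (nat_lit 0) (p (nat_lit 0x8a0b0a89089a) (nat_lit 0) (p (nat_lit 0x98a8a08881a) (nat_lit 0) (p (nat_lit 0x89088988079a) (nat_lit 0) (p (nat_lit 0x8880907871a) (nat_lit 0) (p (nat_lit 0x80000800080887068a) (nat_lit 0) (p (nat_lit 0x8888068602) (nat_lit 0) (p (nat_lit 0x807860582) (nat_lit 0) (p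 (nat_lit 0x8607058502) (nat_lit 0) (p (nat_lit 0x586850482) (nat_lit 0) (p (nat_lit 0x160014) (nat_lit 0) (p (nat_lit 0x68612) (nat_lit 0) (p (nat_lit 0x50592) (nat_lit 0) (p (nat_lit 0x40512) (nat_lit 0) (p (nat_lit 0x50312) (nat_lit 0) (p (nat_lit 0x38292) (nat_lit 0) (p (nat_lit 0x28212) (nat_lit 0) (p (nat_lit 0x38112) (nat_lit 0) (p (nat_lit 0x20092) (nat_lit 0) (p (nat_lit 0x10012) (nat_lit 0) pn))))))))))))))))))))))))))))))))) :=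
  Cl.node (nat_lit 0x10000c) (nat_lit 2) (by decide +kernel) (ClAll.succ (ClAll.succ ClAll.zero n8) s15)

def n22 : Cl (O (nat_lit 3)) (R (nat_lit 14353))
    (p (nat_lit 0x10000c) (nat_lit 0) (p (nat_lit 0x100004) (nat_lit 0) (p (nat_lit 0x200004) (nat_lit 0) (p (nat_lit 0x20000c) (nat_lit 0) (p (nat_lit 0x380c2) (nat_lit 0) (p (nat_lit 0x444aa) (nat_lit 7) (p (nat_lit 0x111) (nat_lit 0) (p (nat_lit 0xc9) (nat_lit 1) (p (nat_lit 0x81) (nat_lit 0) (p (nat_lit 0x101) (nat_lit 1) (p (nat_lit 0x119) (nat_lit 0) (p (nat_lit 0xd1) (nat_lit 0) (p (nat_lit 0x89) (nat_lit 0) (p (nat_lit 0x41) (nat_lit 0) (p (nat_lit 0x8a0b0a89089a) (nat_lit 0) (p (nat_lit 0x98a8a08881a) (nat_lit 0) (p (nat_lit 0x89088988079a) (nat_lit 0) (p (nat_lit 0x8880907871a) (nat_lit 0) (p (nat_lit 0x80000800080887068a) (nat_lit 0) (p (nat_lit 0x8888068602) (nat_lit 0) (p (nat_lit 0x807860582) (nat_lit 0)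 (p (nat_lit 0x8607058502) (nat_lit 0) (p (nat_lit 0x586850482) (nat_lit 0) (p (nat_lit 0x160014) (nat_lit 0) (p (nat_lit 0x68612) (nat_lit 0) (p (nat_lit 0x50592) (nat_lit 0) (p (nat_lit 0x40512) (nat_lit 0) (p (nat_lit 0x50312) (nat_lit 0) (p (nat_lit 0x38292) (nat_lit 0) (p (nat_lit 0x28212) (nat_lit 0) (p (nat_lit 0x38112) (nat_lit 0) (p (nat_lit 0x20092) (nat_lit 0) (p (nat_lit 0x10012) (nat_lit 0) pn))))))))))))))))))))))))))))))))) :=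
  Cl.node (nat_lit 0x89) (nat_lit 2) (by decide +kernel) (ClAll.succ (ClAll.succ ClAll.zero s48) n9)

def n23 : Cl (O (nat_lit 3)) (R (nat_lit 14353))
    (p (nat_lit 0x100004) (nat_lit 0) (p (nat_lit 0x10000c) (nat_lit 0) (p (nat_lit 0x20000c) (nat_lit 0) (p (nat_lit 0x200004) (nat_lit 0) (p (nat_lit 0x380c2) (nat_lit 0) (p (nat_lit 0x444aa) (nat_lit 7) (p (nat_lit 0x109) (nat_lit 1) (p (nat_lit 0x101) (nat_lit 0) (p (nat_lit 0x81) (nat_lit 1) (p (nat_lit 0xc1) (nat_lit 1) (p (nat_lit 0x119) (nat_lit 1) (p (nat_lit 0xd1) (nat_lit 0) (p (nat_lit 0x89) (nat_lit 0) (p (nat_lit 0x41) (nat_lit 0) (p (nat_lit 0x8a0b0a89089a) (nat_lit 0) (p (nat_lit 0x98a8a08881a) (nat_lit 0) (p (nat_lit 0x89088988079a) (nat_lit 0) (p (nat_lit 0x8880907871a) (nat_lit 0) (p (nat_lit 0x80000800080887068a) (nat_lit 0) (p (nat_lit 0x8888068602) (nat_lit 0) (p (nat_lit 0x807860582) (nat_lit 0) (p (nat_lit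 0x8607058502) (nat_lit 0) (p (nat_lit 0x586850482) (nat_lit 0) (p (nat_lit 0x160014) (nat_lit 0) (p (nat_lit 0x68612) (nat_lit 0) (p (nat_lit 0x50592) (nat_lit 0) (p (nat_lit 0x40512) (nat_lit 0) (p (nat_lit 0x50312) (nat_lit 0) (p (nat_lit 0x38292) (nat_lit 0) (p (nat_lit 0x28212) (nat_lit 0) (p (nat_lit 0x38112) (nat_lit 0) (p (nat_lit 0x20092) (nat_lit 0) (p (nat_lit 0x10012) (nat_lit 0) pn))))))))))))))))))))))))))))))))) :=
  Cl.node (nat_lit 0x119) (nat_lit 2) (by decide +kernel) (ClAll.succ (ClAll.succ ClAll.zero n10) s158)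

def n24 : Cl (O (nat_lit 3)) (R (nat_lit 14353))
    (p (nat_lit 0x10000c) (nat_lit 0) (p (nat_lit 0x100004) (nat_lit 0) (p (nat_lit 0x200004) (nat_lit 0) (p (nat_lit 0x20000c) (nat_lit 0) (p (nat_lit 0x380c2) (nat_lit 0) (p (nat_lit 0x444aa) (nat_lit 7) (p (nat_lit 0xd1) (nat_lit 1) (p (nat_lit 0x111) (nat_lit 1) (p (nat_lit 0x109) (nat_lit 0) (p (nat_lit 0x101) (nat_lit 0) (p (nat_lit 0x119) (nat_lit 0) (p (nat_lit 0xc9) (nat_lit 0) (p (nat_lit 0x89) (nat_lit 1) (p (nat_lit 0x41) (nat_lit 0) (p (nat_lit 0x8a0b0a89089a) (nat_lit 0) (p (nat_lit 0x98a8a08881a) (nat_lit 0) (p (nat_lit 0x89088988079a) (nat_lit 0) (p (nat_lit 0x8880907871a) (nat_lit 0) (p (nat_lit 0x80000800080887068a) (nat_lit 0) (p (nat_lit 0x8888068602) (nat_lit 0) (p (nat_lit 0x807860582) (nat_lit 0) (p (nat_lit 0x8607058502) (nat_lit 0) (p (nat_lit 0x586850482) (nat_lit 0) (p (nat_lit 0x160014) (nat_lit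 0) (p (nat_lit 0x68612) (nat_lit 0) (p (nat_lit 0x50592) (nat_lit 0) (p (nat_lit 0x40512) (nat_lit 0) (p (nat_lit 0x50312) (nat_lit 0) (p (nat_lit 0x38292) (nat_lit 0) (p (nat_lit 0x28212) (nat_lit 0) (p (nat_lit 0x38112) (nat_lit 0) (p (nat_lit 0x20092) (nat_lit 0) (p (nat_lit 0x10012) (nat_lit 0) pn))))))))))))))))))))))))))))))))) :=
  Cl.node (nat_lit 0xc1) (nat_lit 2) (by decide +kernel) (ClAll.succ (ClAll.succ ClAll.zero n11) n12)

def n25 : Cl (O (nat_lit 3)) (R (nat_lit 14353))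
    (p (nat_lit 0x108014) (nat_lit 0) (p (nat_lit 0x100004) (nat_lit 1) (p (nat_lit 0x200004) (nat_lit 0) (p (nat_lit 0x20000c) (nat_lit 0) (p (nat_lit 0x380c2) (nat_lit 0) (p (nat_lit 0x444aa) (nat_lit 7) (p (nat_lit 0xd1) (nat_lit 1) (p (nat_lit 0x111) (nat_lit 1) (p (nat_lit 0x109) (nat_lit 0) (p (nat_lit 0x101) (nat_lit 0) (p (nat_lit 0x119) (nat_lit 0) (p (nat_lit 0xc9) (nat_lit 0) (p (nat_lit 0x89) (nat_lit 1) (p (nat_lit 0x41) (nat_lit 0) (p (nat_lit 0x8a0b0a89089a) (nat_lit 0) (p (nat_lit 0x98a8a08881a) (nat_lit 0) (p (nat_lit 0x89088988079a) (nat_lit 0) (p (nat_lit 0x8880907871a) (nat_lit 0) (p (nat_lit 0x80000800080887068a) (nat_lit 0) (p (nat_lit 0x8888068602) (nat_lit 0) (p (nat_lit 0x807860582) (nat_lit 0) (p (nat_lit 0x8607058502) (nat_lit 0) (p (nat_lit 0x586850482) (nat_lit 0) (p (nat_lit 0x160014) (nat_lit 0) (p (nat_lit 0x68612) (nat_lit 0) (p (nat_lit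 0x50592) (nat_lit 0) (p (nat_lit 0x40512) (nat_lit 0) (p (nat_lit 0x50312) (nat_lit 0) (p (nat_lit 0x38292) (nat_lit 0) (p (nat_lit 0x28212) (nat_lit 0) (p (nat_lit 0x38112) (nat_lit 0) (p (nat_lit 0x20092) (nat_lit 0) (p (nat_lit 0x10012) (nat_lit 0) pn))))))))))))))))))))))))))))))))) :=
  Cl.node (nat_lit 0x84014) (nat_lit 2) (by decide +kernel) (ClAll.succ (ClAll.succ ClAll.zero s224) s225)

def n26 : Cl (O (nat_lit 3)) (R (nat_lit 14353))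
    (p (nat_lit 0x10000c) (nat_lit 0) (p (nat_lit 0x100004) (nat_lit 0) (p (nat_lit 0x200004) (nat_lit 0) (p (nat_lit 0x20000c) (nat_lit 0) (p (nat_lit 0x380c2) (nat_lit 1) (p (nat_lit 0x444aa) (nat_lit 7) (p (nat_lit 0xd1) (nat_lit 1) (p (nat_lit 0x111) (nat_lit 1) (p (nat_lit 0x109) (nat_lit 0) (p (nat_lit 0x101) (nat_lit 0) (p (nat_lit 0x119) (nat_lit 0) (p (nat_lit 0xc9) (nat_lit 0) (p (nat_lit 0x89) (nat_lit 1) (p (nat_lit 0x41) (nat_lit 0) (p (nat_lit 0x8a0b0a89089a) (nat_lit 0) (p (nat_lit 0x98a8a08881a) (nat_lit 0) (p (nat_lit 0x89088988079a) (nat_lit 0) (p (nat_lit 0x8880907871a) (nat_lit 0) (p (nat_lit 0x80000800080887068a) (nat_lit 0) (p (nat_lit 0x8888068602) (nat_lit 0) (p (nat_lit 0x807860582) (nat_lit 0) (p (nat_lit 0x8607058502) (nat_lit 0) (p (nat_lit 0x586850482) (nat_lit 0) (p (nat_lit 0x160014) (nat_lit 0) (p (nat_lit 0x68612) (nat_lit 0) (p (nat_lit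 0x50592) (nat_lit 0) (p (nat_lit 0x40512) (nat_lit 0) (p (nat_lit 0x50312) (nat_lit 0) (p (nat_lit 0x38292) (nat_lit 0) (p (nat_lit 0x28212) (nat_lit 0) (p (nat_lit 0x38112) (nat_lit 0) (p (nat_lit 0x20092) (nat_lit 0) (p (nat_lit 0x10012) (nat_lit 0) pn))))))))))))))))))))))))))))))))) :=
  Cl.node (nat_lit 0xc1) (nat_lit 2) (by decide +kernel) (ClAll.succ (ClAll.succ ClAll.zero s229) s230)

def n27 : Cl (O (nat_lit 3)) (R (nat_lit 14353))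
    (p (nat_lit 0x108014) (nat_lit 0) (p (nat_lit 0x100004) (nat_lit 1) (p (nat_lit 0x200004) (nat_lit 0) (p (nat_lit 0x20000c) (nat_lit 0) (p (nat_lit 0x380c2) (nat_lit 1) (p (nat_lit 0x444aa) (nat_lit 7) (p (nat_lit 0xd1) (nat_lit 1) (p (nat_lit 0x111) (nat_lit 1) (p (nat_lit 0x109) (nat_lit 0) (p (nat_lit 0x101) (nat_lit 0) (p (nat_lit 0x119) (nat_lit 0) (p (nat_lit 0xc9) (nat_lit 0) (p (nat_lit 0x89) (nat_lit 1) (p (nat_lit 0x41) (nat_lit 0) (p (nat_lit 0x8a0b0a89089a) (nat_lit 0) (p (nat_lit 0x98a8a08881a) (nat_lit 0) (p (nat_lit 0x89088988079a) (nat_lit 0) (p (nat_lit 0x8880907871a) (nat_lit 0) (p (nat_lit 0x80000800080887068a) (nat_lit 0) (p (nat_lit 0x8888068602) (nat_lit 0) (p (nat_lit 0x807860582) (nat_lit 0) (p (nat_lit 0x8607058502) (nat_lit 0) (p (nat_lit 0x586850482) (nat_lit 0) (p (nat_lit 0x160014) (nat_lit 0) (p (nat_lit 0x68612) (nat_lit 0) (p (nat_lit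 0x50592) (nat_lit 0) (p (nat_lit 0x40512) (nat_lit 0) (p (nat_lit 0x50312) (nat_lit 0) (p (nat_lit 0x38292) (nat_lit 0) (p (nat_lit 0x28212) (nat_lit 0) (p (nat_lit 0x38112) (nat_lit 0) (p (nat_lit 0x20092) (nat_lit 0) (p (nat_lit 0x10012) (nat_lit 0) pn))))))))))))))))))))))))))))))))) :=
  Cl.node (nat_lit 0x84014) (nat_lit 2) (by decide +kernel) (ClAll.succ (ClAll.succ ClAll.zero s232) s233)

def n28 : Cl (O (nat_lit 3)) (R (nat_lit 14353))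
    (p (nat_lit 0xc1) (nat_lit 0) (p (nat_lit 0x10000c) (nat_lit 0) (p (nat_lit 0x100004) (nat_lit 0) (p (nat_lit 0x200004) (nat_lit 0) (p (nat_lit 0x20000c) (nat_lit 0) (p (nat_lit 0x380c2) (nat_lit 0) (p (nat_lit 0x444aa) (nat_lit 7) (p (nat_lit 0xd1) (nat_lit 1) (p (nat_lit 0x109) (nat_lit 1) (p (nat_lit 0x101) (nat_lit 0) (p (nat_lit 0x119) (nat_lit 0) (p (nat_lit 0xc9) (nat_lit 0) (p (nat_lit 0x89) (nat_lit 1) (p (nat_lit 0x41) (nat_lit 0) (p (nat_lit 0x8a0b0a89089a) (nat_lit 0) (p (nat_lit 0x98a8a08881a) (nat_lit 0) (p (nat_lit 0x89088988079a) (nat_lit 0) (p (nat_lit 0x8880907871a) (nat_lit 0) (p (nat_lit 0x80000800080887068a) (nat_lit 0) (p (nat_lit 0x8888068602) (nat_lit 0) (p (nat_lit 0x807860582) (nat_lit 0) (p (nat_lit 0x8607058502) (nat_lit 0) (p (nat_lit 0x586850482) (nat_lit 0) (p (nat_lit 0x160014) (nat_lit 0) (p (nat_lit 0x68612) (nat_lit 0) (p (nat_lit 0x50592)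 (nat_lit 0) (p (nat_lit 0x40512) (nat_lit 0) (p (nat_lit 0x50312) (nat_lit 0) (p (nat_lit 0x38292) (nat_lit 0) (p (nat_lit 0x28212) (nat_lit 0) (p (nat_lit 0x38112) (nat_lit 0) (p (nat_lit 0x20092) (nat_lit 0) (p (nat_lit 0x10012) (nat_lit 0) pn))))))))))))))))))))))))))))))))) :=
  Cl.node (nat_lit 0xc9) (nat_lit 2) (by decide +kernel) (ClAll.succ (ClAll.succ ClAll.zero n13) s265)

def n29 : Cl (O (nat_lit 3)) (R (nat_lit 14353))
    (p (nat_lit 0xc1) (nat_lit 0) (p (nat_lit 0x10000c) (nat_lit 0) (p (nat_lit 0x100004) (nat_lit 0) (p (nat_lit 0x200004) (nat_lit 0) (p (nat_lit 0x20000c) (nat_lit 0) (p (nat_lit 0x380c2) (nat_lit 1) (p (nat_lit 0x444aa) (nat_lit 7) (p (nat_lit 0xd1) (nat_lit 1) (p (nat_lit 0x109) (nat_lit 1) (p (nat_lit 0x101) (nat_lit 0) (p (nat_lit 0x119) (nat_lit 0) (p (nat_lit 0xc9) (nat_lit 0) (p (nat_lit 0x89) (nat_lit 1) (p (nat_lit 0x41) (nat_lit 0)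 (p (nat_lit 0x8a0b0a89089a) (nat_lit 0) (p (nat_lit 0x98a8a08881a) (nat_lit 0) (p (nat_lit 0x89088988079a) (nat_lit 0) (p (nat_lit 0x8880907871a) (nat_lit 0) (p (nat_lit 0x80000800080887068a) (nat_lit 0) (p (nat_lit 0x8888068602) (nat_lit 0) (p (nat_lit 0x807860582) (nat_lit 0) (p (nat_lit 0x8607058502) (nat_lit 0) (p (nat_lit 0x586850482) (nat_lit 0) (p (nat_lit 0x160014) (nat_lit 0) (p (nat_lit 0x68612) (nat_lit 0) (p (nat_lit 0x50592) (nat_lit 0) (p (nat_lit 0x40512) (nat_lit 0) (p (nat_lit 0x50312) (nat_lit 0) (p (nat_lit 0x38292) (nat_lit 0) (p (nat_lit 0x28212) (nat_lit 0) (p (nat_lit 0x38112) (nat_lit 0) (p (nat_lit 0x20092) (nat_lit 0) (p (nat_lit 0x10012) (nat_lit 0) pn))))))))))))))))))))))))))))))))) :=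
  Cl.node (nat_lit 0xc9) (nat_lit 2) (by decide +kernel) (ClAll.succ (ClAll.succ ClAll.zero s271) s272)

def n30 : Cl (O (nat_lit 3)) (R (nat_lit 14353))
    (p (nat_lit 0x100004) (nat_lit 0) (p (nat_lit 0x10000c) (nat_lit 0) (p (nat_lit 0x20000c) (nat_lit 0) (p (nat_lit 0x200004) (nat_lit 0) (p (nat_lit 0x380c2) (nat_lit 0) (p (nat_lit 0x3c4aa) (nat_lit 7) (p (nat_lit 0xd1) (nat_lit 1) (p (nat_lit 0x111) (nat_lit 1) (p (nat_lit 0x109) (nat_lit 0) (p (nat_lit 0x101) (nat_lit 0) (p (nat_lit 0x119) (nat_lit 0) (p (nat_lit 0xc1) (nat_lit 0) (p (nat_lit 0x81) (nat_lit 1) (p (nat_lit 0x41) (nat_lit 1) (p (nat_lit 0x8a0b0a89089a) (nat_lit 0) (p (nat_lit 0x98a8a08881a) (nat_lit 0) (p (nat_lit 0x89088988079a) (nat_lit 0) (p (nat_lit 0x8880907871a) (nat_lit 0) (p (nat_lit 0x80000800080887068a) (nat_lit 0) (p (nat_lit 0x8888068602) (nat_lit 0) (p (nat_lit 0x807860582) (nat_lit 0)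 (p (nat_lit 0x8607058502) (nat_lit 0) (p (nat_lit 0x586850482) (nat_lit 0) (p (nat_lit 0x160014) (nat_lit 0) (p (nat_lit 0x68612) (nat_lit 0) (p (nat_lit 0x50592) (nat_lit 0) (p (nat_lit 0x40512) (nat_lit 0) (p (nat_lit 0x50312) (nat_lit 0) (p (nat_lit 0x38292) (nat_lit 0) (p (nat_lit 0x28212) (nat_lit 0) (p (nat_lit 0x38112) (nat_lit 0) (p (nat_lit 0x20092) (nat_lit 0) (p (nat_lit 0x10012) (nat_lit 0) pn))))))))))))))))))))))))))))))))) :=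
  Cl.node (nat_lit 0xc9) (nat_lit 2) (by decide +kernel) (ClAll.succ (ClAll.succ ClAll.zero n14) n15)

def n31 : Cl (O (nat_lit 3)) (R (nat_lit 14353))
    (p (nat_lit 0x100004) (nat_lit 0) (p (nat_lit 0x200004) (nat_lit 0) (p (nat_lit 0xb0014) (nat_lit 0) (p (nat_lit 0x20000c) (nat_lit 0) (p (nat_lit 0x380c2) (nat_lit 1) (p (nat_lit 0x3c4aa) (nat_lit 7) (p (nat_lit 0xd1) (nat_lit 1) (p (nat_lit 0x111) (nat_lit 1) (p (nat_lit 0x109) (nat_lit 0) (p (nat_lit 0x101) (nat_lit 0) (p (nat_lit 0x119) (nat_lit 0) (p (nat_lit 0xc1) (nat_lit 0) (p (nat_lit 0x81) (nat_lit 1) (p (nat_lit 0x41) (nat_lit 1) (p (nat_lit 0x8a0b0a89089a) (nat_lit 0) (p (nat_lit 0x98a8a08881a) (nat_lit 0) (p (nat_lit 0x89088988079a) (nat_lit 0) (p (nat_lit 0x8880907871a) (nat_lit 0) (p (nat_lit 0x80000800080887068a) (nat_lit 0) (p (nat_lit 0x8888068602) (nat_lit 0) (p (nat_lit 0x807860582) (nat_lit 0) (p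 (nat_lit 0x8607058502) (nat_lit 0) (p (nat_lit 0x586850482) (nat_lit 0) (p (nat_lit 0x160014) (nat_lit 0) (p (nat_lit 0x68612) (nat_lit 0) (p (nat_lit 0x50592) (nat_lit 0) (p (nat_lit 0x40512) (nat_lit 0) (p (nat_lit 0x50312) (nat_lit 0) (p (nat_lit 0x38292) (nat_lit 0) (p (nat_lit 0x28212) (nat_lit 0) (p (nat_lit 0x38112) (nat_lit 0) (p (nat_lit 0x20092) (nat_lit 0) (p (nat_lit 0x10012) (nat_lit 0) pn))))))))))))))))))))))))))))))))) :=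
  Cl.node (nat_lit 0x10000c) (nat_lit 2) (by decide +kernel) (ClAll.succ (ClAll.succ ClAll.zero s613) n16)

def n32 : Cl (O (nat_lit 3)) (R (nat_lit 14353))
    (p (nat_lit 0x100004) (nat_lit 0) (p (nat_lit 0x1fc004) (nat_lit 0) (p (nat_lit 0xb0014) (nat_lit 1) (p (nat_lit 0x20000c) (nat_lit 0) (p (nat_lit 0x380c2) (nat_lit 1) (p (nat_lit 0x3c4aa) (nat_lit 7) (p (nat_lit 0xd1) (nat_lit 1) (p (nat_lit 0x111) (nat_lit 1) (p (nat_lit 0x109) (nat_lit 0) (p (nat_lit 0x101) (nat_lit 0) (p (nat_lit 0x119) (nat_lit 0) (p (nat_lit 0xc1) (nat_lit 0) (p (nat_lit 0x81) (nat_lit 1) (p (nat_lit 0x41) (nat_lit 1) (p (nat_lit 0x8a0b0a89089a) (nat_lit 0) (p (nat_lit 0x98a8a08881a) (nat_lit 0) (p (nat_lit 0x89088988079a) (nat_lit 0) (p (nat_lit 0x8880907871a) (nat_lit 0) (p (nat_lit 0x80000800080887068a) (nat_lit 0) (p (nat_lit 0x8888068602) (nat_lit 0) (p (nat_lit 0x807860582) (nat_lit 0)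 (p (nat_lit 0x8607058502) (nat_lit 0) (p (nat_lit 0x586850482) (nat_lit 0) (p (nat_lit 0x160014) (nat_lit 0) (p (nat_lit 0x68612) (nat_lit 0) (p (nat_lit 0x50592) (nat_lit 0) (p (nat_lit 0x40512) (nat_lit 0) (p (nat_lit 0x50312) (nat_lit 0) (p (nat_lit 0x38292) (nat_lit 0) (p (nat_lit 0x28212) (nat_lit 0) (p (nat_lit 0x38112) (nat_lit 0) (p (nat_lit 0x20092) (nat_lit 0) (p (nat_lit 0x10012) (nat_lit 0) pn))))))))))))))))))))))))))))))))) :=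
  Cl.node (nat_lit 0x10000c) (nat_lit 2) (by decide +kernel) (ClAll.succ (ClAll.succ ClAll.zero n17) s620)

def n33 : Cl (O (nat_lit 3)) (R (nat_lit 14353))
    (p (nat_lit 0xc9) (nat_lit 0) (p (nat_lit 0x100004) (nat_lit 0) (p (nat_lit 0x200004) (nat_lit 0) (p (nat_lit 0xb0014) (nat_lit 0) (p (nat_lit 0x380c2) (nat_lit 1) (p (nat_lit 0x3c4aa) (nat_lit 10) (p (nat_lit 0xd1) (nat_lit 1) (p (nat_lit 0x111) (nat_lit 1) (p (nat_lit 0x109) (nat_lit 0) (p (nat_lit 0x101) (nat_lit 0) (p (nat_lit 0x119) (nat_lit 0) (p (nat_lit 0xc1) (nat_lit 0) (p (nat_lit 0x81) (nat_lit 1) (p (nat_lit 0x41) (nat_lit 1) (p (nat_lit 0x8a0b0a89089a) (nat_lit 0) (p (nat_lit 0x98a8a08881a) (nat_lit 0) (p (nat_lit 0x89088988079a) (nat_lit 0) (p (nat_lit 0x8880907871a) (nat_lit 0) (p (nat_lit 0x80000800080887068a) (nat_lit 0) (p (nat_lit 0x8888068602) (nat_lit 0) (p (nat_lit 0x807860582) (nat_lit 0) (p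 (nat_lit 0x8607058502) (nat_lit 0) (p (nat_lit 0x586850482) (nat_lit 0) (p (nat_lit 0x160014) (nat_lit 0) (p (nat_lit 0x68612) (nat_lit 0) (p (nat_lit 0x50592) (nat_lit 0) (p (nat_lit 0x40512) (nat_lit 0) (p (nat_lit 0x50312) (nat_lit 0) (p (nat_lit 0x38292) (nat_lit 0) (p (nat_lit 0x28212) (nat_lit 0) (p (nat_lit 0x38112) (nat_lit 0) (p (nat_lit 0x20092) (nat_lit 0) (p (nat_lit 0x10012) (nat_lit 0) pn))))))))))))))))))))))))))))))))) :=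
  Cl.node (nat_lit 0xc1) (nat_lit 2) (by decide +kernel) (ClAll.succ (ClAll.succ ClAll.zero s627) s628)

def n34 : Cl (O (nat_lit 3)) (R (nat_lit 14353))
    (p (nat_lit 0x10000c) (nat_lit 0) (p (nat_lit 0x100004) (nat_lit 0) (p (nat_lit 0x20000c) (nat_lit 0) (p (nat_lit 0x200004) (nat_lit 0) (p (nat_lit 0x380c2) (nat_lit 0) (p (nat_lit 0x3c4aa) (nat_lit 7) (p (nat_lit 0xd1) (nat_lit 1) (p (nat_lit 0xc9) (nat_lit 0) (p (nat_lit 0x109) (nat_lit 1) (p (nat_lit 0x101) (nat_lit 0) (p (nat_lit 0x119) (nat_lit 0) (p (nat_lit 0xc1) (nat_lit 0) (p (nat_lit 0x81) (nat_lit 1) (p (nat_lit 0x41) (nat_lit 1) (p (nat_lit 0x8a0b0a89089a) (nat_lit 0) (p (nat_lit 0x98a8a08881a) (nat_lit 0) (p (nat_lit 0x89088988079a) (nat_lit 0) (p (nat_lit 0x8880907871a) (nat_lit 0) (p (nat_lit 0x80000800080887068a) (nat_lit 0) (p (nat_lit 0x8888068602) (nat_lit 0) (p (nat_lit 0x807860582) (nat_lit 0) (p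 (nat_lit 0x8607058502) (nat_lit 0) (p (nat_lit 0x586850482) (nat_lit 0) (p (nat_lit 0x160014) (nat_lit 0) (p (nat_lit 0x68612) (nat_lit 0) (p (nat_lit 0x50592) (nat_lit 0) (p (nat_lit 0x40512) (nat_lit 0) (p (nat_lit 0x50312) (nat_lit 0) (p (nat_lit 0x38292) (nat_lit 0) (p (nat_lit 0x28212) (nat_lit 0) (p (nat_lit 0x38112) (nat_lit 0) (p (nat_lit 0x20092) (nat_lit 0) (p (nat_lit 0x10012) (nat_lit 0) pn))))))))))))))))))))))))))))))))) :=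
  Cl.node (nat_lit 0x119) (nat_lit 2) (by decide +kernel) (ClAll.succ (ClAll.succ ClAll.zero s642) n18)

def n35 : Cl (O (nat_lit 3)) (R (nat_lit 14353))
    (p (nat_lit 0xc1) (nat_lit 1) (p (nat_lit 0x119) (nat_lit 1) (p (nat_lit 0x20000c) (nat_lit 0) (p (nat_lit 0x200004) (nat_lit 0) (p (nat_lit 0x380c2) (nat_lit 1) (p (nat_lit 0x3c4aa) (nat_lit 7) (p (nat_lit 0xd1) (nat_lit 1) (p (nat_lit 0xc9) (nat_lit 0) (p (nat_lit 0x109) (nat_lit 1) (p (nat_lit 0x101) (nat_lit 0) (p (nat_lit 0x119) (nat_lit 0) (p (nat_lit 0xc1) (nat_lit 0) (p (nat_lit 0x81) (nat_lit 1) (p (nat_lit 0x41) (nat_lit 1) (p (nat_lit 0x8a0b0a89089a) (nat_lit 0) (p (nat_lit 0x98a8a08881a) (nat_lit 0) (p (nat_lit 0x89088988079a) (nat_lit 0) (p (nat_lit 0x8880907871a) (nat_lit 0) (p (nat_lit 0x80000800080887068a) (nat_lit 0) (p (nat_lit 0x8888068602) (nat_lit 0) (p (nat_lit 0x807860582) (nat_lit 0) (p (nat_lit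 0x8607058502) (nat_lit 0) (p (nat_lit 0x586850482) (nat_lit 0) (p (nat_lit 0x160014) (nat_lit 0) (p (nat_lit 0x68612) (nat_lit 0) (p (nat_lit 0x50592) (nat_lit 0) (p (nat_lit 0x40512) (nat_lit 0) (p (nat_lit 0x50312) (nat_lit 0) (p (nat_lit 0x38292) (nat_lit 0) (p (nat_lit 0x28212) (nat_lit 0) (p (nat_lit 0x38112) (nat_lit 0) (p (nat_lit 0x20092) (nat_lit 0) (p (nat_lit 0x10012) (nat_lit 0) pn))))))))))))))))))))))))))))))))) :=
  Cl.node (nat_lit 0x100004) (nat_lit 2) (by decide +kernel) (ClAll.succ (ClAll.succ ClAll.zero s651) s652)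

def n36 : Cl (O (nat_lit 3)) (R (nat_lit 14353))
    (p (nat_lit 0xc1) (nat_lit 0) (p (nat_lit 0x10000c) (nat_lit 0) (p (nat_lit 0x100004) (nat_lit 0) (p (nat_lit 0x20000c) (nat_lit 0) (p (nat_lit 0x200004) (nat_lit 0) (p (nat_lit 0x380c2) (nat_lit 0) (p (nat_lit 0x3c4aa) (nat_lit 7) (p (nat_lit 0xd1) (nat_lit 1) (p (nat_lit 0xc9) (nat_lit 0) (p (nat_lit 0x101) (nat_lit 1) (p (nat_lit 0x119) (nat_lit 0) (p (nat_lit 0xc1) (nat_lit 0) (p (nat_lit 0x81) (nat_lit 1) (p (nat_lit 0x41) (nat_lit 1) (p (nat_lit 0x8a0b0a89089a) (nat_lit 0) (p (nat_lit 0x98a8a08881a) (nat_lit 0) (p (nat_lit 0x89088988079a) (nat_lit 0) (p (nat_lit 0x8880907871a) (nat_lit 0) (p (nat_lit 0x80000800080887068a) (nat_lit 0) (p (nat_lit 0x8888068602) (nat_lit 0) (p (nat_lit 0x807860582) (nat_lit 0) (p (nat_lit 0x8607058502) (nat_lit 0) (p (nat_lit 0x586850482) (nat_lit 0) (p (nat_lit 0x160014) (nat_lit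 0) (p (nat_lit 0x68612) (nat_lit 0) (p (nat_lit 0x50592) (nat_lit 0) (p (nat_lit 0x40512) (nat_lit 0) (p (nat_lit 0x50312) (nat_lit 0) (p (nat_lit 0x38292) (nat_lit 0) (p (nat_lit 0x28212) (nat_lit 0) (p (nat_lit 0x38112) (nat_lit 0) (p (nat_lit 0x20092) (nat_lit 0) (p (nat_lit 0x10012) (nat_lit 0) pn))))))))))))))))))))))))))))))))) :=
  Cl.node (nat_lit 0x8000c) (nat_lit 2) (by decide +kernel) (ClAll.succ (ClAll.succ ClAll.zero n19) s691)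

def n37 : Cl (O (nat_lit 3)) (R (nat_lit 14353))
    (p (nat_lit 0x119) (nat_lit 0) (p (nat_lit 0x101) (nat_lit 0) (p (nat_lit 0x100004) (nat_lit 0) (p (nat_lit 0x200004) (nat_lit 0) (p (nat_lit 0x20000c) (nat_lit 0) (p (nat_lit 0x380c2) (nat_lit 1) (p (nat_lit 0x3c4aa) (nat_lit 7) (p (nat_lit 0x111) (nat_lit 1) (p (nat_lit 0x109) (nat_lit 0) (p (nat_lit 0xc9) (nat_lit 1) (p (nat_lit 0x119) (nat_lit 1) (p (nat_lit 0xc1) (nat_lit 0) (p (nat_lit 0x81) (nat_lit 1) (p (nat_lit 0x41) (nat_lit 1) (p (nat_lit 0x8a0b0a89089a) (nat_lit 0) (p (nat_lit 0x98a8a08881a) (nat_lit 0) (p (nat_lit 0x89088988079a) (nat_lit 0) (p (nat_lit 0x8880907871a) (nat_lit 0) (p (nat_lit 0x80000800080887068a) (nat_lit 0) (p (nat_lit 0x8888068602) (nat_lit 0) (p (nat_lit 0x807860582) (nat_lit 0) (p (nat_lit 0x8607058502) (nat_lit 0) (p (nat_lit 0x586850482) (nat_lit 0) (p (nat_lit 0x160014) (nat_lit 0)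 (p (nat_lit 0x68612) (nat_lit 0) (p (nat_lit 0x50592) (nat_lit 0) (p (nat_lit 0x40512) (nat_lit 0) (p (nat_lit 0x50312) (nat_lit 0) (p (nat_lit 0x38292) (nat_lit 0) (p (nat_lit 0x28212) (nat_lit 0) (p (nat_lit 0x38112) (nat_lit 0) (p (nat_lit 0x20092) (nat_lit 0) (p (nat_lit 0x10012) (nat_lit 0) pn))))))))))))))))))))))))))))))))) :=
  Cl.node (nat_lit 0x111) (nat_lit 2) (by decide +kernel) (ClAll.succ (ClAll.succ ClAll.zero s756) s757)

def n38 : Cl (O (nat_lit 3)) (R (nat_lit 14353))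
    (p (nat_lit 0x100004) (nat_lit 0) (p (nat_lit 0x200004) (nat_lit 0) (p (nat_lit 0x20000c) (nat_lit 0) (p (nat_lit 0x380c2) (nat_lit 0) (p (nat_lit 0x444aa) (nat_lit 7) (p (nat_lit 0x81) (nat_lit 1) (p (nat_lit 0xc9) (nat_lit 1) (p (nat_lit 0x109) (nat_lit 1) (p (nat_lit 0x101) (nat_lit 0) (p (nat_lit 0x119) (nat_lit 0) (p (nat_lit 0xd1) (nat_lit 0) (p (nat_lit 0x89) (nat_lit 0) (p (nat_lit 0x41) (nat_lit 0) (p (nat_lit 0x8a0b0a89089a) (nat_lit 0) (p (nat_lit 0x98a8a08881a) (nat_lit 0) (p (nat_lit 0x89088988079a) (nat_lit 0) (p (nat_lit 0x8880907871a) (nat_lit 0) (p (nat_lit 0x80000800080887068a) (nat_lit 0) (p (nat_lit 0x8888068602) (nat_lit 0) (p (nat_lit 0x807860582) (nat_lit 0) (p (nat_lit 0x8607058502) (nat_lit 0) (p (nat_lit 0x586850482) (nat_lit 0) (p (nat_lit 0x160014) (nat_lit 0) (p (nat_lit 0x68612) (nat_lit 0) (p (nat_lit 0x50592) (nat_lit 0) (p (nat_lit 0x40512)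 (nat_lit 0) (p (nat_lit 0x50312) (nat_lit 0) (p (nat_lit 0x38292) (nat_lit 0) (p (nat_lit 0x28212) (nat_lit 0) (p (nat_lit 0x38112) (nat_lit 0) (p (nat_lit 0x20092) (nat_lit 0) (p (nat_lit 0x10012) (nat_lit 0) pn)))))))))))))))))))))))))))))))) :=
  Cl.node (nat_lit 0x10000c) (nat_lit 2) (by decide +kernel) (ClAll.succ (ClAll.succ ClAll.zero n20) s12)

def n39 : Cl (O (nat_lit 3)) (R (nat_lit 14353))
    (p (nat_lit 0x100004) (nat_lit 1) (p (nat_lit 0x200004) (nat_lit 0) (p (nat_lit 0x20000c) (nat_lit 0) (p (nat_lit 0x380c2) (nat_lit 0) (p (nat_lit 0x444aa) (nat_lit 7) (p (nat_lit 0x81) (nat_lit 1) (p (nat_lit 0xc9) (nat_lit 1) (p (nat_lit 0x109) (nat_lit 1) (p (nat_lit 0x101) (nat_lit 0) (p (nat_lit 0x119) (nat_lit 0) (p (nat_lit 0xd1) (nat_lit 0) (p (nat_lit 0x89) (nat_lit 0) (p (nat_lit 0x41) (nat_lit 0) (p (nat_lit 0x8a0b0a89089a) (nat_lit 0) (p (nat_lit 0x98a8a08881a)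 (nat_lit 0) (p (nat_lit 0x89088988079a) (nat_lit 0) (p (nat_lit 0x8880907871a) (nat_lit 0) (p (nat_lit 0x80000800080887068a) (nat_lit 0) (p (nat_lit 0x8888068602) (nat_lit 0) (p (nat_lit 0x807860582) (nat_lit 0) (p (nat_lit 0x8607058502) (nat_lit 0) (p (nat_lit 0x586850482) (nat_lit 0) (p (nat_lit 0x160014) (nat_lit 0) (p (nat_lit 0x68612) (nat_lit 0) (p (nat_lit 0x50592) (nat_lit 0) (p (nat_lit 0x40512) (nat_lit 0) (p (nat_lit 0x50312) (nat_lit 0) (p (nat_lit 0x38292) (nat_lit 0) (p (nat_lit 0x28212) (nat_lit 0) (p (nat_lit 0x38112) (nat_lit 0) (p (nat_lit 0x20092) (nat_lit 0) (p (nat_lit 0x10012) (nat_lit 0) pn)))))))))))))))))))))))))))))))) :=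
  Cl.node (nat_lit 0x108014) (nat_lit 2) (by decide +kernel) (ClAll.succ (ClAll.succ ClAll.zero n21) s16)

def n40 : Cl (O (nat_lit 3)) (R (nat_lit 14353))
    (p (nat_lit 0x100004) (nat_lit 0) (p (nat_lit 0x200004) (nat_lit 0) (p (nat_lit 0x20000c) (nat_lit 0) (p (nat_lit 0x380c2) (nat_lit 1) (p (nat_lit 0x444aa) (nat_lit 7) (p (nat_lit 0x81) (nat_lit 1) (p (nat_lit 0xc9) (nat_lit 1) (p (nat_lit 0x109) (nat_lit 1) (p (nat_lit 0x101) (nat_lit 0) (p (nat_lit 0x119) (nat_lit 0) (p (nat_lit 0xd1) (nat_lit 0) (p (nat_lit 0x89) (nat_lit 0) (p (nat_lit 0x41) (nat_lit 0) (p (nat_lit 0x8a0b0a89089a) (nat_lit 0) (p (nat_lit 0x98a8a08881a) (nat_lit 0) (p (nat_lit 0x89088988079a) (nat_lit 0) (p (nat_lit 0x8880907871a) (nat_lit 0) (p (nat_lit 0x80000800080887068a) (nat_lit 0) (p (nat_lit 0x8888068602) (nat_lit 0) (p (nat_lit 0x807860582) (nat_lit 0) (p (nat_lit 0x8607058502) (nat_lit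 0) (p (nat_lit 0x586850482) (nat_lit 0) (p (nat_lit 0x160014) (nat_lit 0) (p (nat_lit 0x68612) (nat_lit 0) (p (nat_lit 0x50592) (nat_lit 0) (p (nat_lit 0x40512) (nat_lit 0) (p (nat_lit 0x50312) (nat_lit 0) (p (nat_lit 0x38292) (nat_lit 0) (p (nat_lit 0x28212) (nat_lit 0) (p (nat_lit 0x38112) (nat_lit 0) (p (nat_lit 0x20092) (nat_lit 0) (p (nat_lit 0x10012) (nat_lit 0) pn)))))))))))))))))))))))))))))))) :=
  Cl.node (nat_lit 0x10000c) (nat_lit 2) (by decide +kernel) (ClAll.succ (ClAll.succ ClAll.zero s19) s20)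

def n41 : Cl (O (nat_lit 3)) (R (nat_lit 14353))
    (p (nat_lit 0x100004) (nat_lit 0) (p (nat_lit 0x200004) (nat_lit 0) (p (nat_lit 0x20000c) (nat_lit 0) (p (nat_lit 0x380c2) (nat_lit 0) (p (nat_lit 0x444aa) (nat_lit 7) (p (nat_lit 0x111) (nat_lit 0) (p (nat_lit 0xc9) (nat_lit 1) (p (nat_lit 0x81) (nat_lit 0) (p (nat_lit 0x101) (nat_lit 1) (p (nat_lit 0x119) (nat_lit 0) (p (nat_lit 0xd1) (nat_lit 0) (p (nat_lit 0x89) (nat_lit 0) (p (nat_lit 0x41) (nat_lit 0) (p (nat_lit 0x8a0b0a89089a) (nat_lit 0) (p (nat_lit 0x98a8a08881a) (nat_lit 0) (p (nat_lit 0x89088988079a) (nat_lit 0) (p (nat_lit 0x8880907871a) (nat_lit 0) (p (nat_lit 0x80000800080887068a) (nat_lit 0) (p (nat_lit 0x8888068602) (nat_lit 0) (p (nat_lit 0x807860582) (nat_lit 0) (p (nat_lit 0x8607058502) (nat_lit 0) (p (nat_lit 0x586850482) (nat_lit 0) (p (nat_lit 0x160014) (nat_lit 0) (p (nat_lit 0x68612) (nat_lit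 0) (p (nat_lit 0x50592) (nat_lit 0) (p (nat_lit 0x40512) (nat_lit 0) (p (nat_lit 0x50312) (nat_lit 0) (p (nat_lit 0x38292) (nat_lit 0) (p (nat_lit 0x28212) (nat_lit 0) (p (nat_lit 0x38112) (nat_lit 0) (p (nat_lit 0x20092) (nat_lit 0) (p (nat_lit 0x10012) (nat_lit 0) pn)))))))))))))))))))))))))))))))) :=
  Cl.node (nat_lit 0x10000c) (nat_lit 2) (by decide +kernel) (ClAll.succ (ClAll.succ ClAll.zero n22) s51)

def n42 : Cl (O (nat_lit 3)) (R (nat_lit 14353))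
    (p (nat_lit 0x10000c) (nat_lit 0) (p (nat_lit 0x20000c) (nat_lit 0) (p (nat_lit 0x200004) (nat_lit 0) (p (nat_lit 0x380c2) (nat_lit 0) (p (nat_lit 0x444aa) (nat_lit 7) (p (nat_lit 0x109) (nat_lit 1) (p (nat_lit 0x101) (nat_lit 0) (p (nat_lit 0x81) (nat_lit 1) (p (nat_lit 0xc1) (nat_lit 1) (p (nat_lit 0x119) (nat_lit 1) (p (nat_lit 0xd1) (nat_lit 0) (p (nat_lit 0x89) (nat_lit 0) (p (nat_lit 0x41) (nat_lit 0) (p (nat_lit 0x8a0b0a89089a) (nat_lit 0) (p (nat_lit 0x98a8a08881a) (nat_lit 0) (p (nat_lit 0x89088988079a) (nat_lit 0) (p (nat_lit 0x8880907871a) (nat_lit 0) (p (nat_lit 0x80000800080887068a) (nat_lit 0) (p (nat_lit 0x8888068602) (nat_lit 0) (p (nat_lit 0x807860582) (nat_lit 0) (p (nat_lit 0x8607058502) (nat_lit 0) (p (nat_lit 0x586850482) (nat_lit 0) (p (nat_lit 0x160014) (nat_lit 0) (p (nat_lit 0x68612) (nat_lit 0) (p (nat_lit 0x50592) (nat_lit 0) (p (nat_lit 0x40512)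 (nat_lit 0) (p (nat_lit 0x50312) (nat_lit 0) (p (nat_lit 0x38292) (nat_lit 0) (p (nat_lit 0x28212) (nat_lit 0) (p (nat_lit 0x38112) (nat_lit 0) (p (nat_lit 0x20092) (nat_lit 0) (p (nat_lit 0x10012) (nat_lit 0) pn)))))))))))))))))))))))))))))))) :=
  Cl.node (nat_lit 0x100004) (nat_lit 2) (by decide +kernel) (ClAll.succ (ClAll.succ ClAll.zero n23) s159)

def n43 : Cl (O (nat_lit 3)) (R (nat_lit 14353))
    (p (nat_lit 0x100004) (nat_lit 0) (p (nat_lit 0x200004) (nat_lit 0) (p (nat_lit 0x20000c) (nat_lit 0) (p (nat_lit 0x380c2) (nat_lit 0) (p (nat_lit 0x444aa) (nat_lit 7) (p (nat_lit 0xd1) (nat_lit 1) (p (nat_lit 0x111) (nat_lit 1) (p (nat_lit 0x109) (nat_lit 0) (p (nat_lit 0x101) (nat_lit 0) (p (nat_lit 0x119) (nat_lit 0) (p (nat_lit 0xc9) (nat_lit 0) (p (nat_lit 0x89) (nat_lit 1) (p (nat_lit 0x41) (nat_lit 0) (p (nat_lit 0x8a0b0a89089a) (nat_lit 0) (p (nat_lit 0x98a8a08881a)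 (nat_lit 0) (p (nat_lit 0x89088988079a) (nat_lit 0) (p (nat_lit 0x8880907871a) (nat_lit 0) (p (nat_lit 0x80000800080887068a) (nat_lit 0) (p (nat_lit 0x8888068602) (nat_lit 0) (p (nat_lit 0x807860582) (nat_lit 0) (p (nat_lit 0x8607058502) (nat_lit 0) (p (nat_lit 0x586850482) (nat_lit 0) (p (nat_lit 0x160014) (nat_lit 0) (p (nat_lit 0x68612) (nat_lit 0) (p (nat_lit 0x50592) (nat_lit 0) (p (nat_lit 0x40512) (nat_lit 0) (p (nat_lit 0x50312) (nat_lit 0) (p (nat_lit 0x38292) (nat_lit 0) (p (nat_lit 0x28212) (nat_lit 0) (p (nat_lit 0x38112) (nat_lit 0) (p (nat_lit 0x20092) (nat_lit 0) (p (nat_lit 0x10012) (nat_lit 0) pn)))))))))))))))))))))))))))))))) :=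
  Cl.node (nat_lit 0x10000c) (nat_lit 2) (by decide +kernel) (ClAll.succ (ClAll.succ ClAll.zero n24) s223)

def n44 : Cl (O (nat_lit 3)) (R (nat_lit 14353))
    (p (nat_lit 0x100004) (nat_lit 1) (p (nat_lit 0x200004) (nat_lit 0) (p (nat_lit 0x20000c) (nat_lit 0) (p (nat_lit 0x380c2) (nat_lit 0) (p (nat_lit 0x444aa) (nat_lit 7) (p (nat_lit 0xd1) (nat_lit 1) (p (nat_lit 0x111) (nat_lit 1) (p (nat_lit 0x109) (nat_lit 0) (p (nat_lit 0x101) (nat_lit 0) (p (nat_lit 0x119) (nat_lit 0) (p (nat_lit 0xc9) (nat_lit 0) (p (nat_lit 0x89) (nat_lit 1) (p (nat_lit 0x41) (nat_lit 0) (p (nat_lit 0x8a0b0a89089a) (nat_lit 0) (p (nat_lit 0x98a8a08881a) (nat_lit 0) (p (nat_lit 0x89088988079a) (nat_lit 0) (p (nat_lit 0x8880907871a) (nat_lit 0) (p (nat_lit 0x80000800080887068a) (nat_lit 0) (p (nat_lit 0x8888068602) (nat_lit 0) (p (nat_lit 0x807860582) (nat_lit 0) (p (nat_lit 0x8607058502) (nat_lit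 0) (p (nat_lit 0x586850482) (nat_lit 0) (p (nat_lit 0x160014) (nat_lit 0) (p (nat_lit 0x68612) (nat_lit 0) (p (nat_lit 0x50592) (nat_lit 0) (p (nat_lit 0x40512) (nat_lit 0) (p (nat_lit 0x50312) (nat_lit 0) (p (nat_lit 0x38292) (nat_lit 0) (p (nat_lit 0x28212) (nat_lit 0) (p (nat_lit 0x38112) (nat_lit 0) (p (nat_lit 0x20092) (nat_lit 0) (p (nat_lit 0x10012) (nat_lit 0) pn)))))))))))))))))))))))))))))))) :=
  Cl.node (nat_lit 0x108014) (nat_lit 2) (by decide +kernel) (ClAll.succ (ClAll.succ ClAll.zero n25) s226)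

def n45 : Cl (O (nat_lit 3)) (R (nat_lit 14353))
    (p (nat_lit 0x100004) (nat_lit 0) (p (nat_lit 0x200004) (nat_lit 0) (p (nat_lit 0x20000c) (nat_lit 0) (p (nat_lit 0x380c2) (nat_lit 1) (p (nat_lit 0x444aa) (nat_lit 7) (p (nat_lit 0xd1) (nat_lit 1) (p (nat_lit 0x111) (nat_lit 1) (p (nat_lit 0x109) (nat_lit 0) (p (nat_lit 0x101) (nat_lit 0) (p (nat_lit 0x119) (nat_lit 0) (p (nat_lit 0xc9) (nat_lit 0) (p (nat_lit 0x89) (nat_lit 1) (p (nat_lit 0x41) (nat_lit 0) (p (nat_lit 0x8a0b0a89089a) (nat_lit 0) (p (nat_lit 0x98a8a08881a) (nat_lit 0) (p (nat_lit 0x89088988079a) (nat_lit 0) (p (nat_lit 0x8880907871a) (nat_lit 0) (p (nat_lit 0x80000800080887068a) (nat_lit 0) (p (nat_lit 0x8888068602) (nat_lit 0) (p (nat_lit 0x807860582) (nat_lit 0) (p (nat_lit 0x8607058502) (nat_lit 0) (p (nat_lit 0x586850482) (nat_lit 0) (p (nat_lit 0x160014) (nat_lit 0) (p (nat_lit 0x68612) (nat_lit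 0) (p (nat_lit 0x50592) (nat_lit 0) (p (nat_lit 0x40512) (nat_lit 0) (p (nat_lit 0x50312) (nat_lit 0) (p (nat_lit 0x38292) (nat_lit 0) (p (nat_lit 0x28212) (nat_lit 0) (p (nat_lit 0x38112) (nat_lit 0) (p (nat_lit 0x20092) (nat_lit 0) (p (nat_lit 0x10012) (nat_lit 0) pn)))))))))))))))))))))))))))))))) :=
  Cl.node (nat_lit 0x10000c) (nat_lit 2) (by decide +kernel) (ClAll.succ (ClAll.succ ClAll.zero n26) s231)

def n46 : Cl (O (nat_lit 3)) (R (nat_lit 14353))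
    (p (nat_lit 0x100004) (nat_lit 1) (p (nat_lit 0x200004) (nat_lit 0) (p (nat_lit 0x20000c) (nat_lit 0) (p (nat_lit 0x380c2) (nat_lit 1) (p (nat_lit 0x444aa) (nat_lit 7) (p (nat_lit 0xd1) (nat_lit 1) (p (nat_lit 0x111) (nat_lit 1) (p (nat_lit 0x109) (nat_lit 0) (p (nat_lit 0x101) (nat_lit 0) (p (nat_lit 0x119) (nat_lit 0) (p (nat_lit 0xc9) (nat_lit 0) (p (nat_lit 0x89) (nat_lit 1) (p (nat_lit 0x41) (nat_lit 0) (p (nat_lit 0x8a0b0a89089a) (nat_lit 0) (p (nat_lit 0x98a8a08881a) (nat_lit 0) (p (nat_lit 0x89088988079a) (nat_lit 0) (p (nat_lit 0x8880907871a) (nat_lit 0) (p (nat_lit 0x80000800080887068a) (nat_lit 0) (p (nat_lit 0x8888068602) (nat_lit 0) (p (nat_lit 0x807860582) (nat_lit 0) (p (nat_lit 0x8607058502) (nat_lit 0) (p (nat_lit 0x586850482) (nat_lit 0) (p (nat_lit 0x160014) (nat_lit 0) (p (nat_lit 0x68612) (nat_lit 0) (p (nat_lit 0x50592) (nat_lit 0) (p (nat_lit 0x40512)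 (nat_lit 0) (p (nat_lit 0x50312) (nat_lit 0) (p (nat_lit 0x38292) (nat_lit 0) (p (nat_lit 0x28212) (nat_lit 0) (p (nat_lit 0x38112) (nat_lit 0) (p (nat_lit 0x20092) (nat_lit 0) (p (nat_lit 0x10012) (nat_lit 0) pn)))))))))))))))))))))))))))))))) :=
  Cl.node (nat_lit 0x108014) (nat_lit 2) (by decide +kernel) (ClAll.succ (ClAll.succ ClAll.zero n27) s234)

def n47 : Cl (O (nat_lit 3)) (R (nat_lit 14353))
    (p (nat_lit 0x10000c) (nat_lit 0) (p (nat_lit 0x100004) (nat_lit 0) (p (nat_lit 0x200004) (nat_lit 0) (p (nat_lit 0x20000c) (nat_lit 0) (p (nat_lit 0x380c2) (nat_lit 0) (p (nat_lit 0x444aa) (nat_lit 7) (p (nat_lit 0xd1) (nat_lit 1) (p (nat_lit 0x109) (nat_lit 1) (p (nat_lit 0x101) (nat_lit 0) (p (nat_lit 0x119) (nat_lit 0) (p (nat_lit 0xc9) (nat_lit 0) (p (nat_lit 0x89) (nat_lit 1) (p (nat_lit 0x41) (nat_lit 0) (p (nat_lit 0x8a0b0a89089a) (nat_lit 0) (p (nat_lit 0x98a8a08881a)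 (nat_lit 0) (p (nat_lit 0x89088988079a) (nat_lit 0) (p (nat_lit 0x8880907871a) (nat_lit 0) (p (nat_lit 0x80000800080887068a) (nat_lit 0) (p (nat_lit 0x8888068602) (nat_lit 0) (p (nat_lit 0x807860582) (nat_lit 0) (p (nat_lit 0x8607058502) (nat_lit 0) (p (nat_lit 0x586850482) (nat_lit 0) (p (nat_lit 0x160014) (nat_lit 0) (p (nat_lit 0x68612) (nat_lit 0) (p (nat_lit 0x50592) (nat_lit 0) (p (nat_lit 0x40512) (nat_lit 0) (p (nat_lit 0x50312) (nat_lit 0) (p (nat_lit 0x38292) (nat_lit 0) (p (nat_lit 0x28212) (nat_lit 0) (p (nat_lit 0x38112) (nat_lit 0) (p (nat_lit 0x20092) (nat_lit 0) (p (nat_lit 0x10012) (nat_lit 0) pn)))))))))))))))))))))))))))))))) :=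
  Cl.node (nat_lit 0xc1) (nat_lit 2) (by decide +kernel) (ClAll.succ (ClAll.succ ClAll.zero n28) s266)

def n48 : Cl (O (nat_lit 3)) (R (nat_lit 14353))
    (p (nat_lit 0x10000c) (nat_lit 0) (p (nat_lit 0x100004) (nat_lit 0) (p (nat_lit 0x200004) (nat_lit 0) (p (nat_lit 0x20000c) (nat_lit 0) (p (nat_lit 0x380c2) (nat_lit 1) (p (nat_lit 0x444aa) (nat_lit 7) (p (nat_lit 0xd1) (nat_lit 1) (p (nat_lit 0x109) (nat_lit 1) (p (nat_lit 0x101) (nat_lit 0) (p (nat_lit 0x119) (nat_lit 0) (p (nat_lit 0xc9) (nat_lit 0) (p (nat_lit 0x89) (nat_lit 1) (p (nat_lit 0x41) (nat_lit 0) (p (nat_lit 0x8a0b0a89089a) (nat_lit 0) (p (nat_lit 0x98a8a08881a) (nat_lit 0) (p (nat_lit 0x89088988079a) (nat_lit 0) (p (nat_lit 0x8880907871a) (nat_lit 0) (p (nat_lit 0x80000800080887068a) (nat_lit 0) (p (nat_lit 0x8888068602) (nat_lit 0) (p (nat_lit 0x807860582) (nat_lit 0) (p (nat_lit 0x8607058502) (nat_lit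 0) (p (nat_lit 0x586850482) (nat_lit 0) (p (nat_lit 0x160014) (nat_lit 0) (p (nat_lit 0x68612) (nat_lit 0) (p (nat_lit 0x50592) (nat_lit 0) (p (nat_lit 0x40512) (nat_lit 0) (p (nat_lit 0x50312) (nat_lit 0) (p (nat_lit 0x38292) (nat_lit 0) (p (nat_lit 0x28212) (nat_lit 0) (p (nat_lit 0x38112) (nat_lit 0) (p (nat_lit 0x20092) (nat_lit 0) (p (nat_lit 0x10012) (nat_lit 0) pn)))))))))))))))))))))))))))))))) :=
  Cl.node (nat_lit 0xc1) (nat_lit 2) (by decide +kernel) (ClAll.succ (ClAll.succ ClAll.zero n29) s273)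

def n49 : Cl (O (nat_lit 3)) (R (nat_lit 14353))
    (p (nat_lit 0x10000c) (nat_lit 0) (p (nat_lit 0x20000c) (nat_lit 0) (p (nat_lit 0x200004) (nat_lit 0) (p (nat_lit 0x380c2) (nat_lit 0) (p (nat_lit 0x3c4aa) (nat_lit 7) (p (nat_lit 0xd1) (nat_lit 1) (p (nat_lit 0x111) (nat_lit 1) (p (nat_lit 0x109) (nat_lit 0) (p (nat_lit 0x101) (nat_lit 0) (p (nat_lit 0x119) (nat_lit 0) (p (nat_lit 0xc1) (nat_lit 0) (p (nat_lit 0x81) (nat_lit 1) (p (nat_lit 0x41) (nat_lit 1) (p (nat_lit 0x8a0b0a89089a) (nat_lit 0) (p (nat_lit 0x98a8a08881a) (nat_lit 0) (p (nat_lit 0x89088988079a) (nat_lit 0) (p (nat_lit 0x8880907871a) (nat_lit 0) (p (nat_lit 0x80000800080887068a) (nat_lit 0) (p (nat_lit 0x8888068602) (nat_lit 0) (p (nat_lit 0x807860582) (nat_lit 0) (p (nat_lit 0x8607058502) (nat_lit 0) (p (nat_lit 0x586850482) (nat_lit 0) (p (nat_lit 0x160014) (nat_lit 0) (p (nat_lit 0x68612) (nat_lit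 0) (p (nat_lit 0x50592) (nat_lit 0) (p (nat_lit 0x40512) (nat_lit 0) (p (nat_lit 0x50312) (nat_lit 0) (p (nat_lit 0x38292) (nat_lit 0) (p (nat_lit 0x28212) (nat_lit 0) (p (nat_lit 0x38112) (nat_lit 0) (p (nat_lit 0x20092) (nat_lit 0) (p (nat_lit 0x10012) (nat_lit 0) pn)))))))))))))))))))))))))))))))) :=
  Cl.node (nat_lit 0x100004) (nat_lit 2) (by decide +kernel) (ClAll.succ (ClAll.succ ClAll.zero n30) s609)

def n50 : Cl (O (nat_lit 3)) (R (nat_lit 14353))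
    (p (nat_lit 0x200004) (nat_lit 0) (p (nat_lit 0xb0014) (nat_lit 0) (p (nat_lit 0x20000c) (nat_lit 0) (p (nat_lit 0x380c2) (nat_lit 1) (p (nat_lit 0x3c4aa) (nat_lit 7) (p (nat_lit 0xd1) (nat_lit 1) (p (nat_lit 0x111) (nat_lit 1) (p (nat_lit 0x109) (nat_lit 0) (p (nat_lit 0x101) (nat_lit 0) (p (nat_lit 0x119) (nat_lit 0) (p (nat_lit 0xc1) (nat_lit 0) (p (nat_lit 0x81) (nat_lit 1) (p (nat_lit 0x41) (nat_lit 1) (p (nat_lit 0x8a0b0a89089a) (nat_lit 0) (p (nat_lit 0x98a8a08881a) (nat_lit 0) (p (nat_lit 0x89088988079a) (nat_lit 0) (p (nat_lit 0x8880907871a) (nat_lit 0) (p (nat_lit 0x80000800080887068a) (nat_lit 0) (p (nat_lit 0x8888068602) (nat_lit 0) (p (nat_lit 0x807860582) (nat_lit 0) (p (nat_lit 0x8607058502) (nat_lit 0) (p (nat_lit 0x586850482) (nat_lit 0) (p (nat_lit 0x160014) (nat_lit 0) (p (nat_lit 0x68612) (nat_lit 0) (p (nat_lit 0x50592) (nat_lit 0) (p (nat_lit 0x40512)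 (nat_lit 0) (p (nat_lit 0x50312) (nat_lit 0) (p (nat_lit 0x38292) (nat_lit 0) (p (nat_lit 0x28212) (nat_lit 0) (p (nat_lit 0x38112) (nat_lit 0) (p (nat_lit 0x20092) (nat_lit 0) (p (nat_lit 0x10012) (nat_lit 0) pn)))))))))))))))))))))))))))))))) :=
  Cl.node (nat_lit 0x100004) (nat_lit 2) (by decide +kernel) (ClAll.succ (ClAll.succ ClAll.zero n31) s616)

def n51 : Cl (O (nat_lit 3)) (R (nat_lit 14353))
    (p (nat_lit 0x1fc004) (nat_lit 0) (p (nat_lit 0xb0014) (nat_lit 1) (p (nat_lit 0x20000c) (nat_lit 0) (p (nat_lit 0x380c2) (nat_lit 1) (p (nat_lit 0x3c4aa) (nat_lit 7) (p (nat_lit 0xd1) (nat_lit 1) (p (nat_lit 0x111) (nat_lit 1) (p (nat_lit 0x109) (nat_lit 0) (p (nat_lit 0x101) (nat_lit 0) (p (nat_lit 0x119) (nat_lit 0) (p (nat_lit 0xc1) (nat_lit 0) (p (nat_lit 0x81) (nat_lit 1) (p (nat_lit 0x41) (nat_lit 1) (p (nat_lit 0x8a0b0a89089a) (nat_lit 0) (p (nat_lit 0x98a8a08881a)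 (nat_lit 0) (p (nat_lit 0x89088988079a) (nat_lit 0) (p (nat_lit 0x8880907871a) (nat_lit 0) (p (nat_lit 0x80000800080887068a) (nat_lit 0) (p (nat_lit 0x8888068602) (nat_lit 0) (p (nat_lit 0x807860582) (nat_lit 0) (p (nat_lit 0x8607058502) (nat_lit 0) (p (nat_lit 0x586850482) (nat_lit 0) (p (nat_lit 0x160014) (nat_lit 0) (p (nat_lit 0x68612) (nat_lit 0) (p (nat_lit 0x50592) (nat_lit 0) (p (nat_lit 0x40512) (nat_lit 0) (p (nat_lit 0x50312) (nat_lit 0) (p (nat_lit 0x38292) (nat_lit 0) (p (nat_lit 0x28212) (nat_lit 0) (p (nat_lit 0x38112) (nat_lit 0) (p (nat_lit 0x20092) (nat_lit 0) (p (nat_lit 0x10012) (nat_lit 0) pn)))))))))))))))))))))))))))))))) :=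
  Cl.node (nat_lit 0x100004) (nat_lit 2) (by decide +kernel) (ClAll.succ (ClAll.succ ClAll.zero n32) s621)

def n52 : Cl (O (nat_lit 3)) (R (nat_lit 14353))
    (p (nat_lit 0x100004) (nat_lit 0) (p (nat_lit 0x200004) (nat_lit 0) (p (nat_lit 0xb0014) (nat_lit 0) (p (nat_lit 0x380c2) (nat_lit 1) (p (nat_lit 0x3c4aa) (nat_lit 10) (p (nat_lit 0xd1) (nat_lit 1) (p (nat_lit 0x111) (nat_lit 1) (p (nat_lit 0x109) (nat_lit 0) (p (nat_lit 0x101) (nat_lit 0) (p (nat_lit 0x119) (nat_lit 0) (p (nat_lit 0xc1) (nat_lit 0) (p (nat_lit 0x81) (nat_lit 1) (p (nat_lit 0x41) (nat_lit 1) (p (nat_lit 0x8a0b0a89089a) (nat_lit 0) (p (nat_lit 0x98a8a08881a) (nat_lit 0) (p (nat_lit 0x89088988079a) (nat_lit 0) (p (nat_lit 0x8880907871a) (nat_lit 0) (p (nat_lit 0x80000800080887068a) (nat_lit 0) (p (nat_lit 0x8888068602) (nat_lit 0) (p (nat_lit 0x807860582) (nat_lit 0) (p (nat_lit 0x8607058502) (nat_lit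 0) (p (nat_lit 0x586850482) (nat_lit 0) (p (nat_lit 0x160014) (nat_lit 0) (p (nat_lit 0x68612) (nat_lit 0) (p (nat_lit 0x50592) (nat_lit 0) (p (nat_lit 0x40512) (nat_lit 0) (p (nat_lit 0x50312) (nat_lit 0) (p (nat_lit 0x38292) (nat_lit 0) (p (nat_lit 0x28212) (nat_lit 0) (p (nat_lit 0x38112) (nat_lit 0) (p (nat_lit 0x20092) (nat_lit 0) (p (nat_lit 0x10012) (nat_lit 0) pn)))))))))))))))))))))))))))))))) :=
  Cl.node (nat_lit 0xc9) (nat_lit 2) (by decide +kernel) (ClAll.succ (ClAll.succ ClAll.zero n33) s629)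

def n53 : Cl (O (nat_lit 3)) (R (nat_lit 14353))
    (p (nat_lit 0x100004) (nat_lit 0) (p (nat_lit 0x20000c) (nat_lit 0) (p (nat_lit 0x200004) (nat_lit 0) (p (nat_lit 0x380c2) (nat_lit 0) (p (nat_lit 0x3c4aa) (nat_lit 7) (p (nat_lit 0xd1) (nat_lit 1) (p (nat_lit 0xc9) (nat_lit 0) (p (nat_lit 0x109) (nat_lit 1) (p (nat_lit 0x101) (nat_lit 0) (p (nat_lit 0x119) (nat_lit 0) (p (nat_lit 0xc1) (nat_lit 0) (p (nat_lit 0x81) (nat_lit 1) (p (nat_lit 0x41) (nat_lit 1) (p (nat_lit 0x8a0b0a89089a) (nat_lit 0) (p (nat_lit 0x98a8a08881a) (nat_lit 0) (p (nat_lit 0x89088988079a) (nat_lit 0) (p (nat_lit 0x8880907871a) (nat_lit 0) (p (nat_lit 0x80000800080887068a) (nat_lit 0) (p (nat_lit 0x8888068602) (nat_lit 0) (p (nat_lit 0x807860582) (nat_lit 0) (p (nat_lit 0x8607058502) (nat_lit 0) (p (nat_lit 0x586850482) (nat_lit 0) (p (nat_lit 0x160014) (nat_lit 0) (p (nat_lit 0x68612) (nat_lit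 0) (p (nat_lit 0x50592) (nat_lit 0) (p (nat_lit 0x40512) (nat_lit 0) (p (nat_lit 0x50312) (nat_lit 0) (p (nat_lit 0x38292) (nat_lit 0) (p (nat_lit 0x28212) (nat_lit 0) (p (nat_lit 0x38112) (nat_lit 0) (p (nat_lit 0x20092) (nat_lit 0) (p (nat_lit 0x10012) (nat_lit 0) pn)))))))))))))))))))))))))))))))) :=
  Cl.node (nat_lit 0x10000c) (nat_lit 2) (by decide +kernel) (ClAll.succ (ClAll.succ ClAll.zero n34) s645)

def n54 : Cl (O (nat_lit 3)) (R (nat_lit 14353))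
    (p (nat_lit 0x119) (nat_lit 1) (p (nat_lit 0x20000c) (nat_lit 0) (p (nat_lit 0x200004) (nat_lit 0) (p (nat_lit 0x380c2) (nat_lit 1) (p (nat_lit 0x3c4aa) (nat_lit 7) (p (nat_lit 0xd1) (nat_lit 1) (p (nat_lit 0xc9) (nat_lit 0) (p (nat_lit 0x109) (nat_lit 1) (p (nat_lit 0x101) (nat_lit 0) (p (nat_lit 0x119) (nat_lit 0) (p (nat_lit 0xc1) (nat_lit 0) (p (nat_lit 0x81) (nat_lit 1) (p (nat_lit 0x41) (nat_lit 1) (p (nat_lit 0x8a0b0a89089a) (nat_lit 0) (p (nat_lit 0x98a8a08881a) (nat_lit 0) (p (nat_lit 0x89088988079a) (nat_lit 0) (p (nat_lit 0x8880907871a) (nat_lit 0) (p (nat_lit 0x80000800080887068a) (nat_lit 0) (p (nat_lit 0x8888068602) (nat_lit 0) (p (nat_lit 0x807860582) (nat_lit 0) (p (nat_lit 0x8607058502) (nat_lit 0) (p (nat_lit 0x586850482) (nat_lit 0) (p (nat_lit 0x160014) (nat_lit 0) (p (nat_lit 0x68612) (nat_lit 0) (p (nat_lit 0x50592) (nat_lit 0) (p (nat_lit 0x40512)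 (nat_lit 0) (p (nat_lit 0x50312) (nat_lit 0) (p (nat_lit 0x38292) (nat_lit 0) (p (nat_lit 0x28212) (nat_lit 0) (p (nat_lit 0x38112) (nat_lit 0) (p (nat_lit 0x20092) (nat_lit 0) (p (nat_lit 0x10012) (nat_lit 0) pn)))))))))))))))))))))))))))))))) :=
  Cl.node (nat_lit 0xc1) (nat_lit 2) (by decide +kernel) (ClAll.succ (ClAll.succ ClAll.zero s650) n35)

def n55 : Cl (O (nat_lit 3)) (R (nat_lit 14353))
    (p (nat_lit 0x10000c) (nat_lit 0) (p (nat_lit 0x100004) (nat_lit 0) (p (nat_lit 0x20000c) (nat_lit 0) (p (nat_lit 0x200004) (nat_lit 0) (p (nat_lit 0x380c2) (nat_lit 0) (p (nat_lit 0x3c4aa) (nat_lit 7) (p (nat_lit 0xd1) (nat_lit 1) (p (nat_lit 0xc9) (nat_lit 0) (p (nat_lit 0x101) (nat_lit 1) (p (nat_lit 0x119) (nat_lit 0) (p (nat_lit 0xc1) (nat_lit 0) (p (nat_lit 0x81) (nat_lit 1) (p (nat_lit 0x41) (nat_lit 1) (p (nat_lit 0x8a0b0a89089a) (nat_lit 0) (p (nat_lit 0x98a8a08881a)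 (nat_lit 0) (p (nat_lit 0x89088988079a) (nat_lit 0) (p (nat_lit 0x8880907871a) (nat_lit 0) (p (nat_lit 0x80000800080887068a) (nat_lit 0) (p (nat_lit 0x8888068602) (nat_lit 0) (p (nat_lit 0x807860582) (nat_lit 0) (p (nat_lit 0x8607058502) (nat_lit 0) (p (nat_lit 0x586850482) (nat_lit 0) (p (nat_lit 0x160014) (nat_lit 0) (p (nat_lit 0x68612) (nat_lit 0) (p (nat_lit 0x50592) (nat_lit 0) (p (nat_lit 0x40512) (nat_lit 0) (p (nat_lit 0x50312) (nat_lit 0) (p (nat_lit 0x38292) (nat_lit 0) (p (nat_lit 0x28212) (nat_lit 0) (p (nat_lit 0x38112) (nat_lit 0) (p (nat_lit 0x20092) (nat_lit 0) (p (nat_lit 0x10012) (nat_lit 0) pn)))))))))))))))))))))))))))))))) :=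
  Cl.node (nat_lit 0xc1) (nat_lit 2) (by decide +kernel) (ClAll.succ (ClAll.succ ClAll.zero n36) s692)

def n56 : Cl (O (nat_lit 3)) (R (nat_lit 14353))
    (p (nat_lit 0x101) (nat_lit 0) (p (nat_lit 0x100004) (nat_lit 0) (p (nat_lit 0x200004) (nat_lit 0) (p (nat_lit 0x20000c) (nat_lit 0) (p (nat_lit 0x380c2) (nat_lit 1) (p (nat_lit 0x3c4aa) (nat_lit 7) (p (nat_lit 0x111) (nat_lit 1) (p (nat_lit 0x109) (nat_lit 0) (p (nat_lit 0xc9) (nat_lit 1) (p (nat_lit 0x119) (nat_lit 1) (p (nat_lit 0xc1) (nat_lit 0) (p (nat_lit 0x81) (nat_lit 1) (p (nat_lit 0x41) (nat_lit 1) (p (nat_lit 0x8a0b0a89089a) (nat_lit 0) (p (nat_lit 0x98a8a08881a) (nat_lit 0) (p (nat_lit 0x89088988079a) (nat_lit 0) (p (nat_lit 0x8880907871a) (nat_lit 0) (p (nat_lit 0x80000800080887068a) (nat_lit 0) (p (nat_lit 0x8888068602) (nat_lit 0) (p (nat_lit 0x807860582) (nat_lit 0) (p (nat_lit 0x8607058502) (nat_lit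 0) (p (nat_lit 0x586850482) (nat_lit 0) (p (nat_lit 0x160014) (nat_lit 0) (p (nat_lit 0x68612) (nat_lit 0) (p (nat_lit 0x50592) (nat_lit 0) (p (nat_lit 0x40512) (nat_lit 0) (p (nat_lit 0x50312) (nat_lit 0) (p (nat_lit 0x38292) (nat_lit 0) (p (nat_lit 0x28212) (nat_lit 0) (p (nat_lit 0x38112) (nat_lit 0) (p (nat_lit 0x20092) (nat_lit 0) (p (nat_lit 0x10012) (nat_lit 0) pn)))))))))))))))))))))))))))))))) :=
  Cl.node (nat_lit 0x119) (nat_lit 2) (by decide +kernel) (ClAll.succ (ClAll.succ ClAll.zero n37) s758)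

def n57 : Cl (O (nat_lit 3)) (R (nat_lit 14353))
    (p (nat_lit 0x200004) (nat_lit 0) (p (nat_lit 0x20000c) (nat_lit 0) (p (nat_lit 0x380c2) (nat_lit 0) (p (nat_lit 0x444aa) (nat_lit 7) (p (nat_lit 0x81) (nat_lit 1) (p (nat_lit 0xc9) (nat_lit 1) (p (nat_lit 0x109) (nat_lit 1) (p (nat_lit 0x101) (nat_lit 0) (p (nat_lit 0x119) (nat_lit 0) (p (nat_lit 0xd1) (nat_lit 0) (p (nat_lit 0x89) (nat_lit 0) (p (nat_lit 0x41) (nat_lit 0) (p (nat_lit 0x8a0b0a89089a) (nat_lit 0) (p (nat_lit 0x98a8a08881a) (nat_lit 0) (p (nat_lit 0x89088988079a) (nat_lit 0) (p (nat_lit 0x8880907871a) (nat_lit 0) (p (nat_lit 0x80000800080887068a) (nat_lit 0) (p (nat_lit 0x8888068602) (nat_lit 0) (p (nat_lit 0x807860582) (nat_lit 0) (p (nat_lit 0x8607058502) (nat_lit 0) (p (nat_lit 0x586850482) (nat_lit 0) (p (nat_lit 0x160014) (nat_lit 0) (p (nat_lit 0x68612) (nat_lit 0) (p (nat_lit 0x50592) (nat_lit 0)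 (p (nat_lit 0x40512) (nat_lit 0) (p (nat_lit 0x50312) (nat_lit 0) (p (nat_lit 0x38292) (nat_lit 0) (p (nat_lit 0x28212) (nat_lit 0) (p (nat_lit 0x38112) (nat_lit 0) (p (nat_lit 0x20092) (nat_lit 0) (p (nat_lit 0x10012) (nat_lit 0) pn))))))))))))))))))))))))))))))) :=
  Cl.node (nat_lit 0x100004) (nat_lit 2) (by decide +kernel) (ClAll.succ (ClAll.succ ClAll.zero n38) n39)

def n58 : Cl (O (nat_lit 3)) (R (nat_lit 14353))
    (p (nat_lit 0x200004) (nat_lit 0) (p (nat_lit 0x20000c) (nat_lit 0) (p (nat_lit 0x380c2) (nat_lit 1) (p (nat_lit 0x444aa) (nat_lit 7) (p (nat_lit 0x81) (nat_lit 1) (p (nat_lit 0xc9) (nat_lit 1) (p (nat_lit 0x109) (nat_lit 1) (p (nat_lit 0x101) (nat_lit 0) (p (nat_lit 0x119) (nat_lit 0) (p (nat_lit 0xd1) (nat_lit 0) (p (nat_lit 0x89) (nat_lit 0) (p (nat_lit 0x41) (nat_lit 0) (p (nat_lit 0x8a0b0a89089a) (nat_lit 0) (p (nat_lit 0x98a8a08881a) (nat_lit 0)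 (p (nat_lit 0x89088988079a) (nat_lit 0) (p (nat_lit 0x8880907871a) (nat_lit 0) (p (nat_lit 0x80000800080887068a) (nat_lit 0) (p (nat_lit 0x8888068602) (nat_lit 0) (p (nat_lit 0x807860582) (nat_lit 0) (p (nat_lit 0x8607058502) (nat_lit 0) (p (nat_lit 0x586850482) (nat_lit 0) (p (nat_lit 0x160014) (nat_lit 0) (p (nat_lit 0x68612) (nat_lit 0) (p (nat_lit 0x50592) (nat_lit 0) (p (nat_lit 0x40512) (nat_lit 0) (p (nat_lit 0x50312) (nat_lit 0) (p (nat_lit 0x38292) (nat_lit 0) (p (nat_lit 0x28212) (nat_lit 0) (p (nat_lit 0x38112) (nat_lit 0) (p (nat_lit 0x20092) (nat_lit 0) (p (nat_lit 0x10012) (nat_lit 0) pn))))))))))))))))))))))))))))))) :=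
  Cl.node (nat_lit 0x100004) (nat_lit 2) (by decide +kernel) (ClAll.succ (ClAll.succ ClAll.zero n40) s21)

def n59 : Cl (O (nat_lit 3)) (R (nat_lit 14353))
    (p (nat_lit 0x200004) (nat_lit 0) (p (nat_lit 0x20000c) (nat_lit 0) (p (nat_lit 0x380c2) (nat_lit 0) (p (nat_lit 0x444aa) (nat_lit 7) (p (nat_lit 0x111) (nat_lit 0) (p (nat_lit 0xc9) (nat_lit 1) (p (nat_lit 0x81) (nat_lit 0) (p (nat_lit 0x101) (nat_lit 1) (p (nat_lit 0x119) (nat_lit 0) (p (nat_lit 0xd1) (nat_lit 0) (p (nat_lit 0x89) (nat_lit 0) (p (nat_lit 0x41) (nat_lit 0) (p (nat_lit 0x8a0b0a89089a) (nat_lit 0) (p (nat_lit 0x98a8a08881a) (nat_lit 0) (p (nat_lit 0x89088988079a) (nat_lit 0) (p (nat_lit 0x8880907871a) (nat_lit 0) (p (nat_lit 0x80000800080887068a) (nat_lit 0) (p (nat_lit 0x8888068602) (nat_lit 0) (p (nat_lit 0x807860582) (nat_lit 0) (p (nat_lit 0x8607058502) (nat_lit 0) (p (nat_lit 0x586850482) (nat_lit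 0) (p (nat_lit 0x160014) (nat_lit 0) (p (nat_lit 0x68612) (nat_lit 0) (p (nat_lit 0x50592) (nat_lit 0) (p (nat_lit 0x40512) (nat_lit 0) (p (nat_lit 0x50312) (nat_lit 0) (p (nat_lit 0x38292) (nat_lit 0) (p (nat_lit 0x28212) (nat_lit 0) (p (nat_lit 0x38112) (nat_lit 0) (p (nat_lit 0x20092) (nat_lit 0) (p (nat_lit 0x10012) (nat_lit 0) pn))))))))))))))))))))))))))))))) :=
  Cl.node (nat_lit 0x100004) (nat_lit 2) (by decide +kernel) (ClAll.succ (ClAll.succ ClAll.zero n41) s52)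

def n60 : Cl (O (nat_lit 3)) (R (nat_lit 14353))
    (p (nat_lit 0x200004) (nat_lit 0) (p (nat_lit 0x20000c) (nat_lit 0) (p (nat_lit 0x380c2) (nat_lit 1) (p (nat_lit 0x444aa) (nat_lit 7) (p (nat_lit 0x111) (nat_lit 0) (p (nat_lit 0xc9) (nat_lit 1) (p (nat_lit 0x81) (nat_lit 0) (p (nat_lit 0x101) (nat_lit 1) (p (nat_lit 0x119) (nat_lit 0) (p (nat_lit 0xd1) (nat_lit 0) (p (nat_lit 0x89) (nat_lit 0) (p (nat_lit 0x41) (nat_lit 0) (p (nat_lit 0x8a0b0a89089a) (nat_lit 0) (p (nat_lit 0x98a8a08881a) (nat_lit 0) (p (nat_lit 0x89088988079a) (nat_lit 0) (p (nat_lit 0x8880907871a) (nat_lit 0) (p (nat_lit 0x80000800080887068a) (nat_lit 0) (p (nat_lit 0x8888068602) (nat_lit 0) (p (nat_lit 0x807860582) (nat_lit 0) (p (nat_lit 0x8607058502) (nat_lit 0) (p (nat_lit 0x586850482) (nat_lit 0) (p (nat_lit 0x160014) (nat_lit 0) (p (nat_lit 0x68612) (nat_lit 0) (p (nat_lit 0x50592) (nat_lit 0)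 (p (nat_lit 0x40512) (nat_lit 0) (p (nat_lit 0x50312) (nat_lit 0) (p (nat_lit 0x38292) (nat_lit 0) (p (nat_lit 0x28212) (nat_lit 0) (p (nat_lit 0x38112) (nat_lit 0) (p (nat_lit 0x20092) (nat_lit 0) (p (nat_lit 0x10012) (nat_lit 0) pn))))))))))))))))))))))))))))))) :=
  Cl.node (nat_lit 0x100004) (nat_lit 2) (by decide +kernel) (ClAll.succ (ClAll.succ ClAll.zero s55) s56)

def n61 : Cl (O (nat_lit 3)) (R (nat_lit 14353))
    (p (nat_lit 0x101) (nat_lit 1) (p (nat_lit 0xb0014) (nat_lit 0) (p (nat_lit 0x380c2) (nat_lit 0) (p (nat_lit 0x44c2a) (nat_lit 0) (p (nat_lit 0x109) (nat_lit 0) (p (nat_lit 0x101) (nat_lit 0) (p (nat_lit 0x81) (nat_lit 1) (p (nat_lit 0xc1) (nat_lit 1) (p (nat_lit 0x119) (nat_lit 1) (p (nat_lit 0xd1) (nat_lit 0) (p (nat_lit 0x89) (nat_lit 0) (p (nat_lit 0x41) (nat_lit 0) (p (nat_lit 0x8a0b0a89089a) (nat_lit 0) (p (nat_lit 0x98a8a08881a) (nat_lit 0) (p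 (nat_lit 0x89088988079a) (nat_lit 0) (p (nat_lit 0x8880907871a) (nat_lit 0) (p (nat_lit 0x80000800080887068a) (nat_lit 0) (p (nat_lit 0x8888068602) (nat_lit 0) (p (nat_lit 0x807860582) (nat_lit 0) (p (nat_lit 0x8607058502) (nat_lit 0) (p (nat_lit 0x586850482) (nat_lit 0) (p (nat_lit 0x160014) (nat_lit 0) (p (nat_lit 0x68612) (nat_lit 0) (p (nat_lit 0x50592) (nat_lit 0) (p (nat_lit 0x40512) (nat_lit 0) (p (nat_lit 0x50312) (nat_lit 0) (p (nat_lit 0x38292) (nat_lit 0) (p (nat_lit 0x28212) (nat_lit 0) (p (nat_lit 0x38112) (nat_lit 0) (p (nat_lit 0x20092) (nat_lit 0) (p (nat_lit 0x10012) (nat_lit 0) pn))))))))))))))))))))))))))))))) :=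
  Cl.node (nat_lit 0x444aa) (nat_lit 12) (by decide +kernel) (ClAll.succ (ClAll.succ (ClAll.succ (ClAll.succ (ClAll.succ (ClAll.succ (ClAll.succ (ClAll.succ (ClAll.succ (ClAll.succ (ClAll.succ (ClAll.succ ClAll.zero s124) s125) s126) s127) s128) s129) s130) s131) s132) s133) s134) s135)

def n62 : Cl (O (nat_lit 3)) (R (nat_lit 14353))
    (p (nat_lit 0x20000c) (nat_lit 0) (p (nat_lit 0x200004) (nat_lit 0) (p (nat_lit 0x380c2) (nat_lit 0) (p (nat_lit 0x444aa) (nat_lit 7) (p (nat_lit 0x109) (nat_lit 1) (p (nat_lit 0x101) (nat_lit 0) (p (nat_lit 0x81) (nat_lit 1) (p (nat_lit 0xc1) (nat_lit 1) (p (nat_lit 0x119) (nat_lit 1) (p (nat_lit 0xd1) (nat_lit 0) (p (nat_lit 0x89) (nat_lit 0) (p (nat_lit 0x41) (nat_lit 0) (p (nat_lit 0x8a0b0a89089a) (nat_lit 0) (p (nat_lit 0x98a8a08881a) (nat_lit 0) (p (nat_lit 0x89088988079a) (nat_lit 0) (p (nat_lit 0x8880907871a) (nat_lit 0) (p (nat_lit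 0x80000800080887068a) (nat_lit 0) (p (nat_lit 0x8888068602) (nat_lit 0) (p (nat_lit 0x807860582) (nat_lit 0) (p (nat_lit 0x8607058502) (nat_lit 0) (p (nat_lit 0x586850482) (nat_lit 0) (p (nat_lit 0x160014) (nat_lit 0) (p (nat_lit 0x68612) (nat_lit 0) (p (nat_lit 0x50592) (nat_lit 0) (p (nat_lit 0x40512) (nat_lit 0) (p (nat_lit 0x50312) (nat_lit 0) (p (nat_lit 0x38292) (nat_lit 0) (p (nat_lit 0x28212) (nat_lit 0) (p (nat_lit 0x38112) (nat_lit 0) (p (nat_lit 0x20092) (nat_lit 0) (p (nat_lit 0x10012) (nat_lit 0) pn))))))))))))))))))))))))))))))) :=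
  Cl.node (nat_lit 0x10000c) (nat_lit 2) (by decide +kernel) (ClAll.succ (ClAll.succ ClAll.zero n42) s160)

def n63 : Cl (O (nat_lit 3)) (R (nat_lit 14353))
    (p (nat_lit 0x200004) (nat_lit 0) (p (nat_lit 0x20000c) (nat_lit 0) (p (nat_lit 0x380c2) (nat_lit 0) (p (nat_lit 0x444aa) (nat_lit 7) (p (nat_lit 0xd1) (nat_lit 1) (p (nat_lit 0x111) (nat_lit 1) (p (nat_lit 0x109) (nat_lit 0) (p (nat_lit 0x101) (nat_lit 0) (p (nat_lit 0x119) (nat_lit 0) (p (nat_lit 0xc9) (nat_lit 0) (p (nat_lit 0x89) (nat_lit 1) (p (nat_lit 0x41) (nat_lit 0) (p (nat_lit 0x8a0b0a89089a) (nat_lit 0) (p (nat_lit 0x98a8a08881a) (nat_lit 0) (p (nat_lit 0x89088988079a) (nat_lit 0) (p (nat_lit 0x8880907871a) (nat_lit 0) (p (nat_lit 0x80000800080887068a) (nat_lit 0) (p (nat_lit 0x8888068602) (nat_lit 0) (p (nat_lit 0x807860582) (nat_lit 0) (p (nat_lit 0x8607058502) (nat_lit 0) (p (nat_lit 0x586850482) (nat_lit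 0) (p (nat_lit 0x160014) (nat_lit 0) (p (nat_lit 0x68612) (nat_lit 0) (p (nat_lit 0x50592) (nat_lit 0) (p (nat_lit 0x40512) (nat_lit 0) (p (nat_lit 0x50312) (nat_lit 0) (p (nat_lit 0x38292) (nat_lit 0) (p (nat_lit 0x28212) (nat_lit 0) (p (nat_lit 0x38112) (nat_lit 0) (p (nat_lit 0x20092) (nat_lit 0) (p (nat_lit 0x10012) (nat_lit 0) pn))))))))))))))))))))))))))))))) :=
  Cl.node (nat_lit 0x100004) (nat_lit 2) (by decide +kernel) (ClAll.succ (ClAll.succ ClAll.zero n43) n44)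

def n64 : Cl (O (nat_lit 3)) (R (nat_lit 14353))
    (p (nat_lit 0x200004) (nat_lit 0) (p (nat_lit 0x20000c) (nat_lit 0) (p (nat_lit 0x380c2) (nat_lit 1) (p (nat_lit 0x444aa) (nat_lit 7) (p (nat_lit 0xd1) (nat_lit 1) (p (nat_lit 0x111) (nat_lit 1) (p (nat_lit 0x109) (nat_lit 0) (p (nat_lit 0x101) (nat_lit 0) (p (nat_lit 0x119) (nat_lit 0) (p (nat_lit 0xc9) (nat_lit 0) (p (nat_lit 0x89) (nat_lit 1) (p (nat_lit 0x41) (nat_lit 0) (p (nat_lit 0x8a0b0a89089a) (nat_lit 0) (p (nat_lit 0x98a8a08881a) (nat_lit 0) (p (nat_lit 0x89088988079a) (nat_lit 0) (p (nat_lit 0x8880907871a) (nat_lit 0) (p (nat_lit 0x80000800080887068a) (nat_lit 0) (p (nat_lit 0x8888068602) (nat_lit 0) (p (nat_lit 0x807860582) (nat_lit 0) (p (nat_lit 0x8607058502) (nat_lit 0) (p (nat_lit 0x586850482) (nat_lit 0) (p (nat_lit 0x160014) (nat_lit 0) (p (nat_lit 0x68612) (nat_lit 0) (p (nat_lit 0x50592) (nat_lit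 0) (p (nat_lit 0x40512) (nat_lit 0) (p (nat_lit 0x50312) (nat_lit 0) (p (nat_lit 0x38292) (nat_lit 0) (p (nat_lit 0x28212) (nat_lit 0) (p (nat_lit 0x38112) (nat_lit 0) (p (nat_lit 0x20092) (nat_lit 0) (p (nat_lit 0x10012) (nat_lit 0) pn))))))))))))))))))))))))))))))) :=
  Cl.node (nat_lit 0x100004) (nat_lit 2) (by decide +kernel) (ClAll.succ (ClAll.succ ClAll.zero n45) n46)

def n65 : Cl (O (nat_lit 3)) (R (nat_lit 14353))
    (p (nat_lit 0x100004) (nat_lit 0) (p (nat_lit 0x200004) (nat_lit 0) (p (nat_lit 0x20000c) (nat_lit 0) (p (nat_lit 0x380c2) (nat_lit 0) (p (nat_lit 0x444aa) (nat_lit 7) (p (nat_lit 0xd1) (nat_lit 1) (p (nat_lit 0x109) (nat_lit 1) (p (nat_lit 0x101) (nat_lit 0) (p (nat_lit 0x119) (nat_lit 0) (p (nat_lit 0xc9) (nat_lit 0) (p (nat_lit 0x89) (nat_lit 1) (p (nat_lit 0x41) (nat_lit 0) (p (nat_lit 0x8a0b0a89089a) (nat_lit 0) (p (nat_lit 0x98a8a08881a) (nat_lit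 0) (p (nat_lit 0x89088988079a) (nat_lit 0) (p (nat_lit 0x8880907871a) (nat_lit 0) (p (nat_lit 0x80000800080887068a) (nat_lit 0) (p (nat_lit 0x8888068602) (nat_lit 0) (p (nat_lit 0x807860582) (nat_lit 0) (p (nat_lit 0x8607058502) (nat_lit 0) (p (nat_lit 0x586850482) (nat_lit 0) (p (nat_lit 0x160014) (nat_lit 0) (p (nat_lit 0x68612) (nat_lit 0) (p (nat_lit 0x50592) (nat_lit 0) (p (nat_lit 0x40512) (nat_lit 0) (p (nat_lit 0x50312) (nat_lit 0) (p (nat_lit 0x38292) (nat_lit 0) (p (nat_lit 0x28212) (nat_lit 0) (p (nat_lit 0x38112) (nat_lit 0) (p (nat_lit 0x20092) (nat_lit 0) (p (nat_lit 0x10012) (nat_lit 0) pn))))))))))))))))))))))))))))))) :=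
  Cl.node (nat_lit 0x10000c) (nat_lit 2) (by decide +kernel) (ClAll.succ (ClAll.succ ClAll.zero n47) s267)

def n66 : Cl (O (nat_lit 3)) (R (nat_lit 14353))
    (p (nat_lit 0x100004) (nat_lit 0) (p (nat_lit 0x200004) (nat_lit 0) (p (nat_lit 0x20000c) (nat_lit 0) (p (nat_lit 0x380c2) (nat_lit 1) (p (nat_lit 0x444aa) (nat_lit 7) (p (nat_lit 0xd1) (nat_lit 1) (p (nat_lit 0x109) (nat_lit 1) (p (nat_lit 0x101) (nat_lit 0) (p (nat_lit 0x119) (nat_lit 0) (p (nat_lit 0xc9) (nat_lit 0) (p (nat_lit 0x89) (nat_lit 1) (p (nat_lit 0x41) (nat_lit 0) (p (nat_lit 0x8a0b0a89089a) (nat_lit 0) (p (nat_lit 0x98a8a08881a) (nat_lit 0) (p (nat_lit 0x89088988079a) (nat_lit 0) (p (nat_lit 0x8880907871a) (nat_lit 0) (p (nat_lit 0x80000800080887068a) (nat_lit 0) (p (nat_lit 0x8888068602) (nat_lit 0) (p (nat_lit 0x807860582) (nat_lit 0) (p (nat_lit 0x8607058502) (nat_lit 0) (p (nat_lit 0x586850482)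 (nat_lit 0) (p (nat_lit 0x160014) (nat_lit 0) (p (nat_lit 0x68612) (nat_lit 0) (p (nat_lit 0x50592) (nat_lit 0) (p (nat_lit 0x40512) (nat_lit 0) (p (nat_lit 0x50312) (nat_lit 0) (p (nat_lit 0x38292) (nat_lit 0) (p (nat_lit 0x28212) (nat_lit 0) (p (nat_lit 0x38112) (nat_lit 0) (p (nat_lit 0x20092) (nat_lit 0) (p (nat_lit 0x10012) (nat_lit 0) pn))))))))))))))))))))))))))))))) :=
  Cl.node (nat_lit 0x10000c) (nat_lit 2) (by decide +kernel) (ClAll.succ (ClAll.succ ClAll.zero n48) s274)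

def n67 : Cl (O (nat_lit 3)) (R (nat_lit 14353))
    (p (nat_lit 0x10000c) (nat_lit 0) (p (nat_lit 0x20000c) (nat_lit 0) (p (nat_lit 0x200004) (nat_lit 0) (p (nat_lit 0x380c2) (nat_lit 0) (p (nat_lit 0x444aa) (nat_lit 7) (p (nat_lit 0x111) (nat_lit 1) (p (nat_lit 0xd1) (nat_lit 1) (p (nat_lit 0xc1) (nat_lit 0) (p (nat_lit 0x119) (nat_lit 1) (p (nat_lit 0xc9) (nat_lit 0) (p (nat_lit 0x89) (nat_lit 1) (p (nat_lit 0x41) (nat_lit 0) (p (nat_lit 0x8a0b0a89089a) (nat_lit 0) (p (nat_lit 0x98a8a08881a) (nat_lit 0) (p (nat_lit 0x89088988079a) (nat_lit 0) (p (nat_lit 0x8880907871a) (nat_lit 0) (p (nat_lit 0x80000800080887068a) (nat_lit 0) (p (nat_lit 0x8888068602) (nat_lit 0) (p (nat_lit 0x807860582) (nat_lit 0) (p (nat_lit 0x8607058502) (nat_lit 0) (p (nat_lit 0x586850482) (nat_lit 0) (p (nat_lit 0x160014) (nat_lit 0) (p (nat_lit 0x68612) (nat_lit 0) (p (nat_lit 0x50592) (nat_lit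 0) (p (nat_lit 0x40512) (nat_lit 0) (p (nat_lit 0x50312) (nat_lit 0) (p (nat_lit 0x38292) (nat_lit 0) (p (nat_lit 0x28212) (nat_lit 0) (p (nat_lit 0x38112) (nat_lit 0) (p (nat_lit 0x20092) (nat_lit 0) (p (nat_lit 0x10012) (nat_lit 0) pn))))))))))))))))))))))))))))))) :=
  Cl.node (nat_lit 0x100004) (nat_lit 2) (by decide +kernel) (ClAll.succ (ClAll.succ ClAll.zero s312) s313)

def n68 : Cl (O (nat_lit 3)) (R (nat_lit 14353))
    (p (nat_lit 0x20000c) (nat_lit 0) (p (nat_lit 0x200004) (nat_lit 0) (p (nat_lit 0x380c2) (nat_lit 0) (p (nat_lit 0x3c4aa) (nat_lit 7) (p (nat_lit 0xd1) (nat_lit 1) (p (nat_lit 0x111) (nat_lit 1) (p (nat_lit 0x109) (nat_lit 0) (p (nat_lit 0x101) (nat_lit 0) (p (nat_lit 0x119) (nat_lit 0) (p (nat_lit 0xc1) (nat_lit 0) (p (nat_lit 0x81) (nat_lit 1) (p (nat_lit 0x41) (nat_lit 1) (p (nat_lit 0x8a0b0a89089a) (nat_lit 0) (p (nat_lit 0x98a8a08881a) (nat_lit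 0) (p (nat_lit 0x89088988079a) (nat_lit 0) (p (nat_lit 0x8880907871a) (nat_lit 0) (p (nat_lit 0x80000800080887068a) (nat_lit 0) (p (nat_lit 0x8888068602) (nat_lit 0) (p (nat_lit 0x807860582) (nat_lit 0) (p (nat_lit 0x8607058502) (nat_lit 0) (p (nat_lit 0x586850482) (nat_lit 0) (p (nat_lit 0x160014) (nat_lit 0) (p (nat_lit 0x68612) (nat_lit 0) (p (nat_lit 0x50592) (nat_lit 0) (p (nat_lit 0x40512) (nat_lit 0) (p (nat_lit 0x50312) (nat_lit 0) (p (nat_lit 0x38292) (nat_lit 0) (p (nat_lit 0x28212) (nat_lit 0) (p (nat_lit 0x38112) (nat_lit 0) (p (nat_lit 0x20092) (nat_lit 0) (p (nat_lit 0x10012) (nat_lit 0) pn))))))))))))))))))))))))))))))) :=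
  Cl.node (nat_lit 0x10000c) (nat_lit 2) (by decide +kernel) (ClAll.succ (ClAll.succ ClAll.zero n49) s610)

def n69 : Cl (O (nat_lit 3)) (R (nat_lit 14353))
    (p (nat_lit 0xb0014) (nat_lit 0) (p (nat_lit 0x20000c) (nat_lit 0) (p (nat_lit 0x380c2) (nat_lit 1) (p (nat_lit 0x3c4aa) (nat_lit 7) (p (nat_lit 0xd1) (nat_lit 1) (p (nat_lit 0x111) (nat_lit 1) (p (nat_lit 0x109) (nat_lit 0) (p (nat_lit 0x101) (nat_lit 0) (p (nat_lit 0x119) (nat_lit 0) (p (nat_lit 0xc1) (nat_lit 0) (p (nat_lit 0x81) (nat_lit 1) (p (nat_lit 0x41) (nat_lit 1) (p (nat_lit 0x8a0b0a89089a) (nat_lit 0) (p (nat_lit 0x98a8a08881a) (nat_lit 0) (p (nat_lit 0x89088988079a) (nat_lit 0) (p (nat_lit 0x8880907871a) (nat_lit 0) (p (nat_lit 0x80000800080887068a) (nat_lit 0) (p (nat_lit 0x8888068602) (nat_lit 0) (p (nat_lit 0x807860582) (nat_lit 0) (p (nat_lit 0x8607058502) (nat_lit 0) (p (nat_lit 0x586850482) (nat_lit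 0) (p (nat_lit 0x160014) (nat_lit 0) (p (nat_lit 0x68612) (nat_lit 0) (p (nat_lit 0x50592) (nat_lit 0) (p (nat_lit 0x40512) (nat_lit 0) (p (nat_lit 0x50312) (nat_lit 0) (p (nat_lit 0x38292) (nat_lit 0) (p (nat_lit 0x28212) (nat_lit 0) (p (nat_lit 0x38112) (nat_lit 0) (p (nat_lit 0x20092) (nat_lit 0) (p (nat_lit 0x10012) (nat_lit 0) pn))))))))))))))))))))))))))))))) :=
  Cl.node (nat_lit 0x200004) (nat_lit 2) (by decide +kernel) (ClAll.succ (ClAll.succ ClAll.zero n50) s617)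

def n70 : Cl (O (nat_lit 3)) (R (nat_lit 14353))
    (p (nat_lit 0xb0014) (nat_lit 1) (p (nat_lit 0x20000c) (nat_lit 0) (p (nat_lit 0x380c2) (nat_lit 1) (p (nat_lit 0x3c4aa) (nat_lit 7) (p (nat_lit 0xd1) (nat_lit 1) (p (nat_lit 0x111) (nat_lit 1) (p (nat_lit 0x109) (nat_lit 0) (p (nat_lit 0x101) (nat_lit 0) (p (nat_lit 0x119) (nat_lit 0) (p (nat_lit 0xc1) (nat_lit 0) (p (nat_lit 0x81) (nat_lit 1) (p (nat_lit 0x41) (nat_lit 1) (p (nat_lit 0x8a0b0a89089a) (nat_lit 0) (p (nat_lit 0x98a8a08881a) (nat_lit 0) (p (nat_lit 0x89088988079a) (nat_lit 0) (p (nat_lit 0x8880907871a) (nat_lit 0) (p (nat_lit 0x80000800080887068a) (nat_lit 0) (p (nat_lit 0x8888068602) (nat_lit 0) (p (nat_lit 0x807860582) (nat_lit 0) (p (nat_lit 0x8607058502) (nat_lit 0) (p (nat_lit 0x586850482) (nat_lit 0) (p (nat_lit 0x160014) (nat_lit 0) (p (nat_lit 0x68612) (nat_lit 0) (p (nat_lit 0x50592) (nat_lit 0)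 (p (nat_lit 0x40512) (nat_lit 0) (p (nat_lit 0x50312) (nat_lit 0) (p (nat_lit 0x38292) (nat_lit 0) (p (nat_lit 0x28212) (nat_lit 0) (p (nat_lit 0x38112) (nat_lit 0) (p (nat_lit 0x20092) (nat_lit 0) (p (nat_lit 0x10012) (nat_lit 0) pn))))))))))))))))))))))))))))))) :=
  Cl.node (nat_lit 0x1fc004) (nat_lit 2) (by decide +kernel) (ClAll.succ (ClAll.succ ClAll.zero n51) s622)

def n71 : Cl (O (nat_lit 3)) (R (nat_lit 14353))
    (p (nat_lit 0x200004) (nat_lit 0) (p (nat_lit 0xb0014) (nat_lit 0) (p (nat_lit 0x380c2) (nat_lit 1) (p (nat_lit 0x3c4aa) (nat_lit 10) (p (nat_lit 0xd1) (nat_lit 1) (p (nat_lit 0x111) (nat_lit 1) (p (nat_lit 0x109) (nat_lit 0) (p (nat_lit 0x101) (nat_lit 0) (p (nat_lit 0x119) (nat_lit 0) (p (nat_lit 0xc1) (nat_lit 0) (p (nat_lit 0x81) (nat_lit 1) (p (nat_lit 0x41) (nat_lit 1) (p (nat_lit 0x8a0b0a89089a) (nat_lit 0) (p (nat_lit 0x98a8a08881a) (nat_lit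 0) (p (nat_lit 0x89088988079a) (nat_lit 0) (p (nat_lit 0x8880907871a) (nat_lit 0) (p (nat_lit 0x80000800080887068a) (nat_lit 0) (p (nat_lit 0x8888068602) (nat_lit 0) (p (nat_lit 0x807860582) (nat_lit 0) (p (nat_lit 0x8607058502) (nat_lit 0) (p (nat_lit 0x586850482) (nat_lit 0) (p (nat_lit 0x160014) (nat_lit 0) (p (nat_lit 0x68612) (nat_lit 0) (p (nat_lit 0x50592) (nat_lit 0) (p (nat_lit 0x40512) (nat_lit 0) (p (nat_lit 0x50312) (nat_lit 0) (p (nat_lit 0x38292) (nat_lit 0) (p (nat_lit 0x28212) (nat_lit 0) (p (nat_lit 0x38112) (nat_lit 0) (p (nat_lit 0x20092) (nat_lit 0) (p (nat_lit 0x10012) (nat_lit 0) pn))))))))))))))))))))))))))))))) :=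
  Cl.node (nat_lit 0x100004) (nat_lit 2) (by decide +kernel) (ClAll.succ (ClAll.succ ClAll.zero n52) s630)

def n72 : Cl (O (nat_lit 3)) (R (nat_lit 14353))
    (p (nat_lit 0x20000c) (nat_lit 0) (p (nat_lit 0x200004) (nat_lit 0) (p (nat_lit 0x380c2) (nat_lit 0) (p (nat_lit 0x3c4aa) (nat_lit 7) (p (nat_lit 0xd1) (nat_lit 1) (p (nat_lit 0xc9) (nat_lit 0) (p (nat_lit 0x109) (nat_lit 1) (p (nat_lit 0x101) (nat_lit 0) (p (nat_lit 0x119) (nat_lit 0) (p (nat_lit 0xc1) (nat_lit 0) (p (nat_lit 0x81) (nat_lit 1) (p (nat_lit 0x41) (nat_lit 1) (p (nat_lit 0x8a0b0a89089a) (nat_lit 0) (p (nat_lit 0x98a8a08881a) (nat_lit 0) (p (nat_lit 0x89088988079a) (nat_lit 0) (p (nat_lit 0x8880907871a) (nat_lit 0) (p (nat_lit 0x80000800080887068a) (nat_lit 0) (p (nat_lit 0x8888068602) (nat_lit 0) (p (nat_lit 0x807860582) (nat_lit 0) (p (nat_lit 0x8607058502) (nat_lit 0) (p (nat_lit 0x586850482) (nat_lit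 0) (p (nat_lit 0x160014) (nat_lit 0) (p (nat_lit 0x68612) (nat_lit 0) (p (nat_lit 0x50592) (nat_lit 0) (p (nat_lit 0x40512) (nat_lit 0) (p (nat_lit 0x50312) (nat_lit 0) (p (nat_lit 0x38292) (nat_lit 0) (p (nat_lit 0x28212) (nat_lit 0) (p (nat_lit 0x38112) (nat_lit 0) (p (nat_lit 0x20092) (nat_lit 0) (p (nat_lit 0x10012) (nat_lit 0) pn))))))))))))))))))))))))))))))) :=
  Cl.node (nat_lit 0x100004) (nat_lit 2) (by decide +kernel) (ClAll.succ (ClAll.succ ClAll.zero n53) s646)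

def n73 : Cl (O (nat_lit 3)) (R (nat_lit 14353))
    (p (nat_lit 0x20000c) (nat_lit 0) (p (nat_lit 0x200004) (nat_lit 0) (p (nat_lit 0x380c2) (nat_lit 1) (p (nat_lit 0x3c4aa) (nat_lit 7) (p (nat_lit 0xd1) (nat_lit 1) (p (nat_lit 0xc9) (nat_lit 0) (p (nat_lit 0x109) (nat_lit 1) (p (nat_lit 0x101) (nat_lit 0) (p (nat_lit 0x119) (nat_lit 0) (p (nat_lit 0xc1) (nat_lit 0) (p (nat_lit 0x81) (nat_lit 1) (p (nat_lit 0x41) (nat_lit 1) (p (nat_lit 0x8a0b0a89089a) (nat_lit 0) (p (nat_lit 0x98a8a08881a) (nat_lit 0) (p (nat_lit 0x89088988079a) (nat_lit 0) (p (nat_lit 0x8880907871a) (nat_lit 0) (p (nat_lit 0x80000800080887068a) (nat_lit 0) (p (nat_lit 0x8888068602) (nat_lit 0) (p (nat_lit 0x807860582) (nat_lit 0) (p (nat_lit 0x8607058502) (nat_lit 0) (p (nat_lit 0x586850482) (nat_lit 0) (p (nat_lit 0x160014) (nat_lit 0) (p (nat_lit 0x68612) (nat_lit 0) (p (nat_lit 0x50592) (nat_lit 0)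 (p (nat_lit 0x40512) (nat_lit 0) (p (nat_lit 0x50312) (nat_lit 0) (p (nat_lit 0x38292) (nat_lit 0) (p (nat_lit 0x28212) (nat_lit 0) (p (nat_lit 0x38112) (nat_lit 0) (p (nat_lit 0x20092) (nat_lit 0) (p (nat_lit 0x10012) (nat_lit 0) pn))))))))))))))))))))))))))))))) :=
  Cl.node (nat_lit 0x119) (nat_lit 2) (by decide +kernel) (ClAll.succ (ClAll.succ ClAll.zero s649) n54)

def n74 : Cl (O (nat_lit 3)) (R (nat_lit 14353))
    (p (nat_lit 0x100004) (nat_lit 0) (p (nat_lit 0x20000c) (nat_lit 0) (p (nat_lit 0x200004) (nat_lit 0) (p (nat_lit 0x380c2) (nat_lit 0) (p (nat_lit 0x3c4aa) (nat_lit 7) (p (nat_lit 0xd1) (nat_lit 1) (p (nat_lit 0xc9) (nat_lit 0) (p (nat_lit 0x101) (nat_lit 1) (p (nat_lit 0x119) (nat_lit 0) (p (nat_lit 0xc1) (nat_lit 0) (p (nat_lit 0x81) (nat_lit 1) (p (nat_lit 0x41) (nat_lit 1) (p (nat_lit 0x8a0b0a89089a) (nat_lit 0) (p (nat_lit 0x98a8a08881a) (nat_lit 0)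 (p (nat_lit 0x89088988079a) (nat_lit 0) (p (nat_lit 0x8880907871a) (nat_lit 0) (p (nat_lit 0x80000800080887068a) (nat_lit 0) (p (nat_lit 0x8888068602) (nat_lit 0) (p (nat_lit 0x807860582) (nat_lit 0) (p (nat_lit 0x8607058502) (nat_lit 0) (p (nat_lit 0x586850482) (nat_lit 0) (p (nat_lit 0x160014) (nat_lit 0) (p (nat_lit 0x68612) (nat_lit 0) (p (nat_lit 0x50592) (nat_lit 0) (p (nat_lit 0x40512) (nat_lit 0) (p (nat_lit 0x50312) (nat_lit 0) (p (nat_lit 0x38292) (nat_lit 0) (p (nat_lit 0x28212) (nat_lit 0) (p (nat_lit 0x38112) (nat_lit 0) (p (nat_lit 0x20092) (nat_lit 0) (p (nat_lit 0x10012) (nat_lit 0) pn))))))))))))))))))))))))))))))) :=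
  Cl.node (nat_lit 0x10000c) (nat_lit 2) (by decide +kernel) (ClAll.succ (ClAll.succ ClAll.zero n55) s693)

def n75 : Cl (O (nat_lit 3)) (R (nat_lit 14353))
    (p (nat_lit 0xc1) (nat_lit 0) (p (nat_lit 0x20000c) (nat_lit 0) (p (nat_lit 0x200004) (nat_lit 0) (p (nat_lit 0x380c2) (nat_lit 1) (p (nat_lit 0x3c4aa) (nat_lit 7) (p (nat_lit 0xd1) (nat_lit 1) (p (nat_lit 0xc9) (nat_lit 0) (p (nat_lit 0x101) (nat_lit 1) (p (nat_lit 0x119) (nat_lit 0) (p (nat_lit 0xc1) (nat_lit 0) (p (nat_lit 0x81) (nat_lit 1) (p (nat_lit 0x41) (nat_lit 1) (p (nat_lit 0x8a0b0a89089a) (nat_lit 0) (p (nat_lit 0x98a8a08881a) (nat_lit 0) (p (nat_lit 0x89088988079a) (nat_lit 0) (p (nat_lit 0x8880907871a) (nat_lit 0) (p (nat_lit 0x80000800080887068a) (nat_lit 0) (p (nat_lit 0x8888068602) (nat_lit 0) (p (nat_lit 0x807860582) (nat_lit 0) (p (nat_lit 0x8607058502) (nat_lit 0) (p (nat_lit 0x586850482) (nat_lit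 0) (p (nat_lit 0x160014) (nat_lit 0) (p (nat_lit 0x68612) (nat_lit 0) (p (nat_lit 0x50592) (nat_lit 0) (p (nat_lit 0x40512) (nat_lit 0) (p (nat_lit 0x50312) (nat_lit 0) (p (nat_lit 0x38292) (nat_lit 0) (p (nat_lit 0x28212) (nat_lit 0) (p (nat_lit 0x38112) (nat_lit 0) (p (nat_lit 0x20092) (nat_lit 0) (p (nat_lit 0x10012) (nat_lit 0) pn))))))))))))))))))))))))))))))) :=
  Cl.node (nat_lit 0x3cc2a) (nat_lit 12) (by decide +kernel) (ClAll.succ (ClAll.succ (ClAll.succ (ClAll.succ (ClAll.succ (ClAll.succ (ClAll.succ (ClAll.succ (ClAll.succ (ClAll.succ (ClAll.succ (ClAll.succ ClAll.zero s697) s698) s699) s700) s701) s702) s703) s704) s705) s706) s707) s708)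

def n76 : Cl (O (nat_lit 3)) (R (nat_lit 14353))
    (p (nat_lit 0x200004) (nat_lit 0) (p (nat_lit 0x20000c) (nat_lit 0) (p (nat_lit 0xb0014) (nat_lit 0) (p (nat_lit 0x380c2) (nat_lit 1) (p (nat_lit 0x3c4aa) (nat_lit 7) (p (nat_lit 0x111) (nat_lit 1) (p (nat_lit 0xd1) (nat_lit 1) (p (nat_lit 0xc9) (nat_lit 0) (p (nat_lit 0x119) (nat_lit 1) (p (nat_lit 0xc1) (nat_lit 0) (p (nat_lit 0x81) (nat_lit 1) (p (nat_lit 0x41) (nat_lit 1) (p (nat_lit 0x8a0b0a89089a) (nat_lit 0) (p (nat_lit 0x98a8a08881a) (nat_lit 0) (p (nat_lit 0x89088988079a) (nat_lit 0) (p (nat_lit 0x8880907871a) (nat_lit 0) (p (nat_lit 0x80000800080887068a) (nat_lit 0) (p (nat_lit 0x8888068602) (nat_lit 0) (p (nat_lit 0x807860582) (nat_lit 0) (p (nat_lit 0x8607058502) (nat_lit 0) (p (nat_lit 0x586850482) (nat_lit 0) (p (nat_lit 0x160014) (nat_lit 0) (p (nat_lit 0x68612) (nat_lit 0) (p (nat_lit 0x50592) (nat_lit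 0) (p (nat_lit 0x40512) (nat_lit 0) (p (nat_lit 0x50312) (nat_lit 0) (p (nat_lit 0x38292) (nat_lit 0) (p (nat_lit 0x28212) (nat_lit 0) (p (nat_lit 0x38112) (nat_lit 0) (p (nat_lit 0x20092) (nat_lit 0) (p (nat_lit 0x10012) (nat_lit 0) pn))))))))))))))))))))))))))))))) :=
  Cl.node (nat_lit 0x100004) (nat_lit 2) (by decide +kernel) (ClAll.succ (ClAll.succ ClAll.zero s727) s728)

def n77 : Cl (O (nat_lit 3)) (R (nat_lit 14353))
    (p (nat_lit 0x100004) (nat_lit 0) (p (nat_lit 0x200004) (nat_lit 0) (p (nat_lit 0x20000c) (nat_lit 0) (p (nat_lit 0x380c2) (nat_lit 1) (p (nat_lit 0x3c4aa) (nat_lit 7) (p (nat_lit 0x111) (nat_lit 1) (p (nat_lit 0x109) (nat_lit 0) (p (nat_lit 0xc9) (nat_lit 1) (p (nat_lit 0x119) (nat_lit 1) (p (nat_lit 0xc1) (nat_lit 0) (p (nat_lit 0x81) (nat_lit 1) (p (nat_lit 0x41) (nat_lit 1) (p (nat_lit 0x8a0b0a89089a) (nat_lit 0) (p (nat_lit 0x98a8a08881a) (nat_lit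 0) (p (nat_lit 0x89088988079a) (nat_lit 0) (p (nat_lit 0x8880907871a) (nat_lit 0) (p (nat_lit 0x80000800080887068a) (nat_lit 0) (p (nat_lit 0x8888068602) (nat_lit 0) (p (nat_lit 0x807860582) (nat_lit 0) (p (nat_lit 0x8607058502) (nat_lit 0) (p (nat_lit 0x586850482) (nat_lit 0) (p (nat_lit 0x160014) (nat_lit 0) (p (nat_lit 0x68612) (nat_lit 0) (p (nat_lit 0x50592) (nat_lit 0) (p (nat_lit 0x40512) (nat_lit 0) (p (nat_lit 0x50312) (nat_lit 0) (p (nat_lit 0x38292) (nat_lit 0) (p (nat_lit 0x28212) (nat_lit 0) (p (nat_lit 0x38112) (nat_lit 0) (p (nat_lit 0x20092) (nat_lit 0) (p (nat_lit 0x10012) (nat_lit 0) pn))))))))))))))))))))))))))))))) :=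
  Cl.node (nat_lit 0x101) (nat_lit 2) (by decide +kernel) (ClAll.succ (ClAll.succ ClAll.zero n56) s759)

def n78 : Cl (O (nat_lit 3)) (R (nat_lit 14353))
    (p (nat_lit 0x20000c) (nat_lit 0) (p (nat_lit 0x380c2) (nat_lit 0) (p (nat_lit 0x444aa) (nat_lit 7) (p (nat_lit 0x81) (nat_lit 1) (p (nat_lit 0xc9) (nat_lit 1) (p (nat_lit 0x109) (nat_lit 1) (p (nat_lit 0x101) (nat_lit 0) (p (nat_lit 0x119) (nat_lit 0) (p (nat_lit 0xd1) (nat_lit 0) (p (nat_lit 0x89) (nat_lit 0) (p (nat_lit 0x41) (nat_lit 0) (p (nat_lit 0x8a0b0a89089a) (nat_lit 0) (p (nat_lit 0x98a8a08881a) (nat_lit 0) (p (nat_lit 0x89088988079a) (nat_lit 0) (p (nat_lit 0x8880907871a) (nat_lit 0) (p (nat_lit 0x80000800080887068a) (nat_lit 0) (p (nat_lit 0x8888068602) (nat_lit 0) (p (nat_lit 0x807860582) (nat_lit 0) (p (nat_lit 0x8607058502) (nat_lit 0) (p (nat_lit 0x586850482) (nat_lit 0) (p (nat_lit 0x160014) (nat_lit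 0) (p (nat_lit 0x68612) (nat_lit 0) (p (nat_lit 0x50592) (nat_lit 0) (p (nat_lit 0x40512) (nat_lit 0) (p (nat_lit 0x50312) (nat_lit 0) (p (nat_lit 0x38292) (nat_lit 0) (p (nat_lit 0x28212) (nat_lit 0) (p (nat_lit 0x38112) (nat_lit 0) (p (nat_lit 0x20092) (nat_lit 0) (p (nat_lit 0x10012) (nat_lit 0) pn)))))))))))))))))))))))))))))) :=
  Cl.node (nat_lit 0x200004) (nat_lit 2) (by decide +kernel) (ClAll.succ (ClAll.succ ClAll.zero n57) s17)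

def n79 : Cl (O (nat_lit 3)) (R (nat_lit 14353))
    (p (nat_lit 0x20000c) (nat_lit 0) (p (nat_lit 0x380c2) (nat_lit 1) (p (nat_lit 0x444aa) (nat_lit 7) (p (nat_lit 0x81) (nat_lit 1) (p (nat_lit 0xc9) (nat_lit 1) (p (nat_lit 0x109) (nat_lit 1) (p (nat_lit 0x101) (nat_lit 0) (p (nat_lit 0x119) (nat_lit 0) (p (nat_lit 0xd1) (nat_lit 0) (p (nat_lit 0x89) (nat_lit 0) (p (nat_lit 0x41) (nat_lit 0) (p (nat_lit 0x8a0b0a89089a) (nat_lit 0) (p (nat_lit 0x98a8a08881a) (nat_lit 0) (p (nat_lit 0x89088988079a) (nat_lit 0) (p (nat_lit 0x8880907871a) (nat_lit 0) (p (nat_lit 0x80000800080887068a) (nat_lit 0) (p (nat_lit 0x8888068602) (nat_lit 0) (p (nat_lit 0x807860582) (nat_lit 0) (p (nat_lit 0x8607058502) (nat_lit 0) (p (nat_lit 0x586850482) (nat_lit 0) (p (nat_lit 0x160014) (nat_lit 0) (p (nat_lit 0x68612) (nat_lit 0) (p (nat_lit 0x50592) (nat_lit 0) (p (nat_lit 0x40512) (nat_lit 0)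 (p (nat_lit 0x50312) (nat_lit 0) (p (nat_lit 0x38292) (nat_lit 0) (p (nat_lit 0x28212) (nat_lit 0) (p (nat_lit 0x38112) (nat_lit 0) (p (nat_lit 0x20092) (nat_lit 0) (p (nat_lit 0x10012) (nat_lit 0) pn)))))))))))))))))))))))))))))) :=
  Cl.node (nat_lit 0x200004) (nat_lit 2) (by decide +kernel) (ClAll.succ (ClAll.succ ClAll.zero n58) s22)

def n80 : Cl (O (nat_lit 3)) (R (nat_lit 14353))
    (p (nat_lit 0x20000c) (nat_lit 0) (p (nat_lit 0x380c2) (nat_lit 0) (p (nat_lit 0x444aa) (nat_lit 7) (p (nat_lit 0x111) (nat_lit 0) (p (nat_lit 0xc9) (nat_lit 1) (p (nat_lit 0x81) (nat_lit 0) (p (nat_lit 0x101) (nat_lit 1) (p (nat_lit 0x119) (nat_lit 0) (p (nat_lit 0xd1) (nat_lit 0) (p (nat_lit 0x89) (nat_lit 0) (p (nat_lit 0x41) (nat_lit 0) (p (nat_lit 0x8a0b0a89089a) (nat_lit 0) (p (nat_lit 0x98a8a08881a) (nat_lit 0) (p (nat_lit 0x89088988079a) (nat_lit 0) (p (nat_lit 0x8880907871a)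 (nat_lit 0) (p (nat_lit 0x80000800080887068a) (nat_lit 0) (p (nat_lit 0x8888068602) (nat_lit 0) (p (nat_lit 0x807860582) (nat_lit 0) (p (nat_lit 0x8607058502) (nat_lit 0) (p (nat_lit 0x586850482) (nat_lit 0) (p (nat_lit 0x160014) (nat_lit 0) (p (nat_lit 0x68612) (nat_lit 0) (p (nat_lit 0x50592) (nat_lit 0) (p (nat_lit 0x40512) (nat_lit 0) (p (nat_lit 0x50312) (nat_lit 0) (p (nat_lit 0x38292) (nat_lit 0) (p (nat_lit 0x28212) (nat_lit 0) (p (nat_lit 0x38112) (nat_lit 0) (p (nat_lit 0x20092) (nat_lit 0) (p (nat_lit 0x10012) (nat_lit 0) pn)))))))))))))))))))))))))))))) :=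
  Cl.node (nat_lit 0x200004) (nat_lit 2) (by decide +kernel) (ClAll.succ (ClAll.succ ClAll.zero n59) s53)

def n81 : Cl (O (nat_lit 3)) (R (nat_lit 14353))
    (p (nat_lit 0x20000c) (nat_lit 0) (p (nat_lit 0x380c2) (nat_lit 1) (p (nat_lit 0x444aa) (nat_lit 7) (p (nat_lit 0x111) (nat_lit 0) (p (nat_lit 0xc9) (nat_lit 1) (p (nat_lit 0x81) (nat_lit 0) (p (nat_lit 0x101) (nat_lit 1) (p (nat_lit 0x119) (nat_lit 0) (p (nat_lit 0xd1) (nat_lit 0) (p (nat_lit 0x89) (nat_lit 0) (p (nat_lit 0x41) (nat_lit 0) (p (nat_lit 0x8a0b0a89089a) (nat_lit 0) (p (nat_lit 0x98a8a08881a) (nat_lit 0) (p (nat_lit 0x89088988079a) (nat_lit 0) (p (nat_lit 0x8880907871a) (nat_lit 0) (p (nat_lit 0x80000800080887068a) (nat_lit 0) (p (nat_lit 0x8888068602) (nat_lit 0) (p (nat_lit 0x807860582) (nat_lit 0) (p (nat_lit 0x8607058502) (nat_lit 0) (p (nat_lit 0x586850482) (nat_lit 0) (p (nat_lit 0x160014) (nat_lit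 0) (p (nat_lit 0x68612) (nat_lit 0) (p (nat_lit 0x50592) (nat_lit 0) (p (nat_lit 0x40512) (nat_lit 0) (p (nat_lit 0x50312) (nat_lit 0) (p (nat_lit 0x38292) (nat_lit 0) (p (nat_lit 0x28212) (nat_lit 0) (p (nat_lit 0x38112) (nat_lit 0) (p (nat_lit 0x20092) (nat_lit 0) (p (nat_lit 0x10012) (nat_lit 0) pn)))))))))))))))))))))))))))))) :=
  Cl.node (nat_lit 0x200004) (nat_lit 2) (by decide +kernel) (ClAll.succ (ClAll.succ ClAll.zero n60) s57)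

def n82 : Cl (O (nat_lit 3)) (R (nat_lit 14353))
    (p (nat_lit 0x20000c) (nat_lit 0) (p (nat_lit 0x380c2) (nat_lit 0) (p (nat_lit 0x444aa) (nat_lit 7) (p (nat_lit 0xc9) (nat_lit 1) (p (nat_lit 0xc1) (nat_lit 0) (p (nat_lit 0x81) (nat_lit 1) (p (nat_lit 0x101) (nat_lit 1) (p (nat_lit 0x119) (nat_lit 0) (p (nat_lit 0xd1) (nat_lit 0) (p (nat_lit 0x89) (nat_lit 0) (p (nat_lit 0x41) (nat_lit 0) (p (nat_lit 0x8a0b0a89089a) (nat_lit 0) (p (nat_lit 0x98a8a08881a) (nat_lit 0) (p (nat_lit 0x89088988079a) (nat_lit 0) (p (nat_lit 0x8880907871a) (nat_lit 0) (p (nat_lit 0x80000800080887068a) (nat_lit 0) (p (nat_lit 0x8888068602) (nat_lit 0) (p (nat_lit 0x807860582) (nat_lit 0) (p (nat_lit 0x8607058502) (nat_lit 0) (p (nat_lit 0x586850482) (nat_lit 0) (p (nat_lit 0x160014) (nat_lit 0) (p (nat_lit 0x68612) (nat_lit 0) (p (nat_lit 0x50592) (nat_lit 0) (p (nat_lit 0x40512) (nat_lit 0)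 (p (nat_lit 0x50312) (nat_lit 0) (p (nat_lit 0x38292) (nat_lit 0) (p (nat_lit 0x28212) (nat_lit 0) (p (nat_lit 0x38112) (nat_lit 0) (p (nat_lit 0x20092) (nat_lit 0) (p (nat_lit 0x10012) (nat_lit 0) pn)))))))))))))))))))))))))))))) :=
  Cl.node (nat_lit 0x200004) (nat_lit 2) (by decide +kernel) (ClAll.succ (ClAll.succ ClAll.zero s84) s85)

def n83 : Cl (O (nat_lit 3)) (R (nat_lit 14353))
    (p (nat_lit 0xb0014) (nat_lit 0) (p (nat_lit 0x380c2) (nat_lit 0) (p (nat_lit 0x44c2a) (nat_lit 0) (p (nat_lit 0x109) (nat_lit 0) (p (nat_lit 0x101) (nat_lit 0) (p (nat_lit 0x81) (nat_lit 1) (p (nat_lit 0xc1) (nat_lit 1) (p (nat_lit 0x119) (nat_lit 1) (p (nat_lit 0xd1) (nat_lit 0) (p (nat_lit 0x89) (nat_lit 0) (p (nat_lit 0x41) (nat_lit 0) (p (nat_lit 0x8a0b0a89089a) (nat_lit 0) (p (nat_lit 0x98a8a08881a) (nat_lit 0) (p (nat_lit 0x89088988079a) (nat_lit 0) (p (nat_lit 0x8880907871a) (nat_lit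 0) (p (nat_lit 0x80000800080887068a) (nat_lit 0) (p (nat_lit 0x8888068602) (nat_lit 0) (p (nat_lit 0x807860582) (nat_lit 0) (p (nat_lit 0x8607058502) (nat_lit 0) (p (nat_lit 0x586850482) (nat_lit 0) (p (nat_lit 0x160014) (nat_lit 0) (p (nat_lit 0x68612) (nat_lit 0) (p (nat_lit 0x50592) (nat_lit 0) (p (nat_lit 0x40512) (nat_lit 0) (p (nat_lit 0x50312) (nat_lit 0) (p (nat_lit 0x38292) (nat_lit 0) (p (nat_lit 0x28212) (nat_lit 0) (p (nat_lit 0x38112) (nat_lit 0) (p (nat_lit 0x20092) (nat_lit 0) (p (nat_lit 0x10012) (nat_lit 0) pn)))))))))))))))))))))))))))))) :=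
  Cl.node (nat_lit 0x101) (nat_lit 2) (by decide +kernel) (ClAll.succ (ClAll.succ ClAll.zero s123) n61)

def n84 : Cl (O (nat_lit 3)) (R (nat_lit 14353))
    (p (nat_lit 0x200004) (nat_lit 0) (p (nat_lit 0x380c2) (nat_lit 0) (p (nat_lit 0x444aa) (nat_lit 7) (p (nat_lit 0x109) (nat_lit 1) (p (nat_lit 0x101) (nat_lit 0) (p (nat_lit 0x81) (nat_lit 1) (p (nat_lit 0xc1) (nat_lit 1) (p (nat_lit 0x119) (nat_lit 1) (p (nat_lit 0xd1) (nat_lit 0) (p (nat_lit 0x89) (nat_lit 0) (p (nat_lit 0x41) (nat_lit 0) (p (nat_lit 0x8a0b0a89089a) (nat_lit 0) (p (nat_lit 0x98a8a08881a) (nat_lit 0) (p (nat_lit 0x89088988079a) (nat_lit 0) (p (nat_lit 0x8880907871a) (nat_lit 0) (p (nat_lit 0x80000800080887068a) (nat_lit 0) (p (nat_lit 0x8888068602) (nat_lit 0) (p (nat_lit 0x807860582) (nat_lit 0) (p (nat_lit 0x8607058502) (nat_lit 0) (p (nat_lit 0x586850482) (nat_lit 0) (p (nat_lit 0x160014) (nat_lit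 0) (p (nat_lit 0x68612) (nat_lit 0) (p (nat_lit 0x50592) (nat_lit 0) (p (nat_lit 0x40512) (nat_lit 0) (p (nat_lit 0x50312) (nat_lit 0) (p (nat_lit 0x38292) (nat_lit 0) (p (nat_lit 0x28212) (nat_lit 0) (p (nat_lit 0x38112) (nat_lit 0) (p (nat_lit 0x20092) (nat_lit 0) (p (nat_lit 0x10012) (nat_lit 0) pn)))))))))))))))))))))))))))))) :=
  Cl.node (nat_lit 0x20000c) (nat_lit 2) (by decide +kernel) (ClAll.succ (ClAll.succ ClAll.zero n62) s161)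

def n85 : Cl (O (nat_lit 3)) (R (nat_lit 14353))
    (p (nat_lit 0x20000c) (nat_lit 0) (p (nat_lit 0x380c2) (nat_lit 0) (p (nat_lit 0x444aa) (nat_lit 7) (p (nat_lit 0xd1) (nat_lit 1) (p (nat_lit 0x111) (nat_lit 1) (p (nat_lit 0x109) (nat_lit 0) (p (nat_lit 0x101) (nat_lit 0) (p (nat_lit 0x119) (nat_lit 0) (p (nat_lit 0xc9) (nat_lit 0) (p (nat_lit 0x89) (nat_lit 1) (p (nat_lit 0x41) (nat_lit 0) (p (nat_lit 0x8a0b0a89089a) (nat_lit 0) (p (nat_lit 0x98a8a08881a) (nat_lit 0) (p (nat_lit 0x89088988079a) (nat_lit 0) (p (nat_lit 0x8880907871a) (nat_lit 0) (p (nat_lit 0x80000800080887068a) (nat_lit 0) (p (nat_lit 0x8888068602) (nat_lit 0) (p (nat_lit 0x807860582) (nat_lit 0) (p (nat_lit 0x8607058502) (nat_lit 0) (p (nat_lit 0x586850482) (nat_lit 0) (p (nat_lit 0x160014) (nat_lit 0) (p (nat_lit 0x68612) (nat_lit 0) (p (nat_lit 0x50592) (nat_lit 0) (p (nat_lit 0x40512) (nat_lit 0)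 (p (nat_lit 0x50312) (nat_lit 0) (p (nat_lit 0x38292) (nat_lit 0) (p (nat_lit 0x28212) (nat_lit 0) (p (nat_lit 0x38112) (nat_lit 0) (p (nat_lit 0x20092) (nat_lit 0) (p (nat_lit 0x10012) (nat_lit 0) pn)))))))))))))))))))))))))))))) :=
  Cl.node (nat_lit 0x200004) (nat_lit 2) (by decide +kernel) (ClAll.succ (ClAll.succ ClAll.zero n63) s227)

def n86 : Cl (O (nat_lit 3)) (R (nat_lit 14353))
    (p (nat_lit 0x20000c) (nat_lit 0) (p (nat_lit 0x380c2) (nat_lit 1) (p (nat_lit 0x444aa) (nat_lit 7) (p (nat_lit 0xd1) (nat_lit 1) (p (nat_lit 0x111) (nat_lit 1) (p (nat_lit 0x109) (nat_lit 0) (p (nat_lit 0x101) (nat_lit 0) (p (nat_lit 0x119) (nat_lit 0) (p (nat_lit 0xc9) (nat_lit 0) (p (nat_lit 0x89) (nat_lit 1) (p (nat_lit 0x41) (nat_lit 0) (p (nat_lit 0x8a0b0a89089a) (nat_lit 0) (p (nat_lit 0x98a8a08881a) (nat_lit 0) (p (nat_lit 0x89088988079a) (nat_lit 0) (p (nat_lit 0x8880907871a)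 (nat_lit 0) (p (nat_lit 0x80000800080887068a) (nat_lit 0) (p (nat_lit 0x8888068602) (nat_lit 0) (p (nat_lit 0x807860582) (nat_lit 0) (p (nat_lit 0x8607058502) (nat_lit 0) (p (nat_lit 0x586850482) (nat_lit 0) (p (nat_lit 0x160014) (nat_lit 0) (p (nat_lit 0x68612) (nat_lit 0) (p (nat_lit 0x50592) (nat_lit 0) (p (nat_lit 0x40512) (nat_lit 0) (p (nat_lit 0x50312) (nat_lit 0) (p (nat_lit 0x38292) (nat_lit 0) (p (nat_lit 0x28212) (nat_lit 0) (p (nat_lit 0x38112) (nat_lit 0) (p (nat_lit 0x20092) (nat_lit 0) (p (nat_lit 0x10012) (nat_lit 0) pn)))))))))))))))))))))))))))))) :=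
  Cl.node (nat_lit 0x200004) (nat_lit 2) (by decide +kernel) (ClAll.succ (ClAll.succ ClAll.zero n64) s235)

def n87 : Cl (O (nat_lit 3)) (R (nat_lit 14353))
    (p (nat_lit 0x200004) (nat_lit 0) (p (nat_lit 0x20000c) (nat_lit 0) (p (nat_lit 0x380c2) (nat_lit 0) (p (nat_lit 0x444aa) (nat_lit 7) (p (nat_lit 0xd1) (nat_lit 1) (p (nat_lit 0x109) (nat_lit 1) (p (nat_lit 0x101) (nat_lit 0) (p (nat_lit 0x119) (nat_lit 0) (p (nat_lit 0xc9) (nat_lit 0) (p (nat_lit 0x89) (nat_lit 1) (p (nat_lit 0x41) (nat_lit 0) (p (nat_lit 0x8a0b0a89089a) (nat_lit 0) (p (nat_lit 0x98a8a08881a) (nat_lit 0) (p (nat_lit 0x89088988079a) (nat_lit 0) (p (nat_lit 0x8880907871a) (nat_lit 0) (p (nat_lit 0x80000800080887068a) (nat_lit 0) (p (nat_lit 0x8888068602) (nat_lit 0) (p (nat_lit 0x807860582) (nat_lit 0) (p (nat_lit 0x8607058502) (nat_lit 0) (p (nat_lit 0x586850482) (nat_lit 0) (p (nat_lit 0x160014)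 (nat_lit 0) (p (nat_lit 0x68612) (nat_lit 0) (p (nat_lit 0x50592) (nat_lit 0) (p (nat_lit 0x40512) (nat_lit 0) (p (nat_lit 0x50312) (nat_lit 0) (p (nat_lit 0x38292) (nat_lit 0) (p (nat_lit 0x28212) (nat_lit 0) (p (nat_lit 0x38112) (nat_lit 0) (p (nat_lit 0x20092) (nat_lit 0) (p (nat_lit 0x10012) (nat_lit 0) pn)))))))))))))))))))))))))))))) :=
  Cl.node (nat_lit 0x100004) (nat_lit 2) (by decide +kernel) (ClAll.succ (ClAll.succ ClAll.zero n65) s268)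

def n88 : Cl (O (nat_lit 3)) (R (nat_lit 14353))
    (p (nat_lit 0x200004) (nat_lit 0) (p (nat_lit 0x20000c) (nat_lit 0) (p (nat_lit 0x380c2) (nat_lit 1) (p (nat_lit 0x444aa) (nat_lit 7) (p (nat_lit 0xd1) (nat_lit 1) (p (nat_lit 0x109) (nat_lit 1) (p (nat_lit 0x101) (nat_lit 0) (p (nat_lit 0x119) (nat_lit 0) (p (nat_lit 0xc9) (nat_lit 0) (p (nat_lit 0x89) (nat_lit 1) (p (nat_lit 0x41) (nat_lit 0) (p (nat_lit 0x8a0b0a89089a) (nat_lit 0) (p (nat_lit 0x98a8a08881a) (nat_lit 0) (p (nat_lit 0x89088988079a) (nat_lit 0) (p (nat_lit 0x8880907871a) (nat_lit 0) (p (nat_lit 0x80000800080887068a) (nat_lit 0) (p (nat_lit 0x8888068602) (nat_lit 0) (p (nat_lit 0x807860582) (nat_lit 0) (p (nat_lit 0x8607058502) (nat_lit 0) (p (nat_lit 0x586850482) (nat_lit 0) (p (nat_lit 0x160014) (nat_lit 0) (p (nat_lit 0x68612) (nat_lit 0) (p (nat_lit 0x50592) (nat_lit 0) (p (nat_lit 0x40512) (nat_lit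 0) (p (nat_lit 0x50312) (nat_lit 0) (p (nat_lit 0x38292) (nat_lit 0) (p (nat_lit 0x28212) (nat_lit 0) (p (nat_lit 0x38112) (nat_lit 0) (p (nat_lit 0x20092) (nat_lit 0) (p (nat_lit 0x10012) (nat_lit 0) pn)))))))))))))))))))))))))))))) :=
  Cl.node (nat_lit 0x100004) (nat_lit 2) (by decide +kernel) (ClAll.succ (ClAll.succ ClAll.zero n66) s275)

def n89 : Cl (O (nat_lit 3)) (R (nat_lit 14353))
    (p (nat_lit 0x200004) (nat_lit 0) (p (nat_lit 0x20000c) (nat_lit 0) (p (nat_lit 0x380c2) (nat_lit 0) (p (nat_lit 0x444aa) (nat_lit 7) (p (nat_lit 0xd1) (nat_lit 1) (p (nat_lit 0xc1) (nat_lit 0) (p (nat_lit 0x101) (nat_lit 1) (p (nat_lit 0x119) (nat_lit 0) (p (nat_lit 0xc9) (nat_lit 0) (p (nat_lit 0x89) (nat_lit 1) (p (nat_lit 0x41) (nat_lit 0) (p (nat_lit 0x8a0b0a89089a) (nat_lit 0) (p (nat_lit 0x98a8a08881a) (nat_lit 0) (p (nat_lit 0x89088988079a) (nat_lit 0) (p (nat_lit 0x8880907871a)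 (nat_lit 0) (p (nat_lit 0x80000800080887068a) (nat_lit 0) (p (nat_lit 0x8888068602) (nat_lit 0) (p (nat_lit 0x807860582) (nat_lit 0) (p (nat_lit 0x8607058502) (nat_lit 0) (p (nat_lit 0x586850482) (nat_lit 0) (p (nat_lit 0x160014) (nat_lit 0) (p (nat_lit 0x68612) (nat_lit 0) (p (nat_lit 0x50592) (nat_lit 0) (p (nat_lit 0x40512) (nat_lit 0) (p (nat_lit 0x50312) (nat_lit 0) (p (nat_lit 0x38292) (nat_lit 0) (p (nat_lit 0x28212) (nat_lit 0) (p (nat_lit 0x38112) (nat_lit 0) (p (nat_lit 0x20092) (nat_lit 0) (p (nat_lit 0x10012) (nat_lit 0) pn)))))))))))))))))))))))))))))) :=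
  Cl.node (nat_lit 0x10000c) (nat_lit 2) (by decide +kernel) (ClAll.succ (ClAll.succ ClAll.zero s293) s294)

def n90 : Cl (O (nat_lit 3)) (R (nat_lit 14353))
    (p (nat_lit 0x20000c) (nat_lit 0) (p (nat_lit 0x200004) (nat_lit 0) (p (nat_lit 0x380c2) (nat_lit 0) (p (nat_lit 0x444aa) (nat_lit 7) (p (nat_lit 0x111) (nat_lit 1) (p (nat_lit 0xd1) (nat_lit 1) (p (nat_lit 0xc1) (nat_lit 0) (p (nat_lit 0x119) (nat_lit 1) (p (nat_lit 0xc9) (nat_lit 0) (p (nat_lit 0x89) (nat_lit 1) (p (nat_lit 0x41) (nat_lit 0) (p (nat_lit 0x8a0b0a89089a) (nat_lit 0) (p (nat_lit 0x98a8a08881a) (nat_lit 0) (p (nat_lit 0x89088988079a) (nat_lit 0) (p (nat_lit 0x8880907871a) (nat_lit 0) (p (nat_lit 0x80000800080887068a) (nat_lit 0) (p (nat_lit 0x8888068602) (nat_lit 0) (p (nat_lit 0x807860582) (nat_lit 0) (p (nat_lit 0x8607058502) (nat_lit 0) (p (nat_lit 0x586850482) (nat_lit 0) (p (nat_lit 0x160014)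 (nat_lit 0) (p (nat_lit 0x68612) (nat_lit 0) (p (nat_lit 0x50592) (nat_lit 0) (p (nat_lit 0x40512) (nat_lit 0) (p (nat_lit 0x50312) (nat_lit 0) (p (nat_lit 0x38292) (nat_lit 0) (p (nat_lit 0x28212) (nat_lit 0) (p (nat_lit 0x38112) (nat_lit 0) (p (nat_lit 0x20092) (nat_lit 0) (p (nat_lit 0x10012) (nat_lit 0) pn)))))))))))))))))))))))))))))) :=
  Cl.node (nat_lit 0x10000c) (nat_lit 2) (by decide +kernel) (ClAll.succ (ClAll.succ ClAll.zero n67) s314)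

def n91 : Cl (O (nat_lit 3)) (R (nat_lit 14353))
    (p (nat_lit 0x200004) (nat_lit 0) (p (nat_lit 0x380c2) (nat_lit 0) (p (nat_lit 0x3c4aa) (nat_lit 7) (p (nat_lit 0xd1) (nat_lit 1) (p (nat_lit 0x111) (nat_lit 1) (p (nat_lit 0x109) (nat_lit 0) (p (nat_lit 0x101) (nat_lit 0) (p (nat_lit 0x119) (nat_lit 0) (p (nat_lit 0xc1) (nat_lit 0) (p (nat_lit 0x81) (nat_lit 1) (p (nat_lit 0x41) (nat_lit 1) (p (nat_lit 0x8a0b0a89089a) (nat_lit 0) (p (nat_lit 0x98a8a08881a) (nat_lit 0) (p (nat_lit 0x89088988079a) (nat_lit 0) (p (nat_lit 0x8880907871a) (nat_lit 0) (p (nat_lit 0x80000800080887068a) (nat_lit 0) (p (nat_lit 0x8888068602) (nat_lit 0) (p (nat_lit 0x807860582) (nat_lit 0) (p (nat_lit 0x8607058502) (nat_lit 0) (p (nat_lit 0x586850482) (nat_lit 0) (p (nat_lit 0x160014) (nat_lit 0) (p (nat_lit 0x68612) (nat_lit 0) (p (nat_lit 0x50592) (nat_lit 0) (p (nat_lit 0x40512) (nat_lit 0)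 (p (nat_lit 0x50312) (nat_lit 0) (p (nat_lit 0x38292) (nat_lit 0) (p (nat_lit 0x28212) (nat_lit 0) (p (nat_lit 0x38112) (nat_lit 0) (p (nat_lit 0x20092) (nat_lit 0) (p (nat_lit 0x10012) (nat_lit 0) pn)))))))))))))))))))))))))))))) :=
  Cl.node (nat_lit 0x20000c) (nat_lit 2) (by decide +kernel) (ClAll.succ (ClAll.succ ClAll.zero n68) s611)

def n92 : Cl (O (nat_lit 3)) (R (nat_lit 14353))
    (p (nat_lit 0x20000c) (nat_lit 0) (p (nat_lit 0x380c2) (nat_lit 1) (p (nat_lit 0x3c4aa) (nat_lit 7) (p (nat_lit 0xd1) (nat_lit 1) (p (nat_lit 0x111) (nat_lit 1) (p (nat_lit 0x109) (nat_lit 0) (p (nat_lit 0x101) (nat_lit 0) (p (nat_lit 0x119) (nat_lit 0) (p (nat_lit 0xc1) (nat_lit 0) (p (nat_lit 0x81) (nat_lit 1) (p (nat_lit 0x41) (nat_lit 1) (p (nat_lit 0x8a0b0a89089a) (nat_lit 0) (p (nat_lit 0x98a8a08881a) (nat_lit 0) (p (nat_lit 0x89088988079a) (nat_lit 0) (p (nat_lit 0x8880907871a)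 (nat_lit 0) (p (nat_lit 0x80000800080887068a) (nat_lit 0) (p (nat_lit 0x8888068602) (nat_lit 0) (p (nat_lit 0x807860582) (nat_lit 0) (p (nat_lit 0x8607058502) (nat_lit 0) (p (nat_lit 0x586850482) (nat_lit 0) (p (nat_lit 0x160014) (nat_lit 0) (p (nat_lit 0x68612) (nat_lit 0) (p (nat_lit 0x50592) (nat_lit 0) (p (nat_lit 0x40512) (nat_lit 0) (p (nat_lit 0x50312) (nat_lit 0) (p (nat_lit 0x38292) (nat_lit 0) (p (nat_lit 0x28212) (nat_lit 0) (p (nat_lit 0x38112) (nat_lit 0) (p (nat_lit 0x20092) (nat_lit 0) (p (nat_lit 0x10012) (nat_lit 0) pn)))))))))))))))))))))))))))))) :=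
  Cl.node (nat_lit 0xb0014) (nat_lit 2) (by decide +kernel) (ClAll.succ (ClAll.succ ClAll.zero n69) n70)

def n93 : Cl (O (nat_lit 3)) (R (nat_lit 14353))
    (p (nat_lit 0xb0014) (nat_lit 0) (p (nat_lit 0x380c2) (nat_lit 1) (p (nat_lit 0x3c4aa) (nat_lit 10) (p (nat_lit 0xd1) (nat_lit 1) (p (nat_lit 0x111) (nat_lit 1) (p (nat_lit 0x109) (nat_lit 0) (p (nat_lit 0x101) (nat_lit 0) (p (nat_lit 0x119) (nat_lit 0) (p (nat_lit 0xc1) (nat_lit 0) (p (nat_lit 0x81) (nat_lit 1) (p (nat_lit 0x41) (nat_lit 1) (p (nat_lit 0x8a0b0a89089a) (nat_lit 0) (p (nat_lit 0x98a8a08881a) (nat_lit 0) (p (nat_lit 0x89088988079a) (nat_lit 0) (p (nat_lit 0x8880907871a) (nat_lit 0) (p (nat_lit 0x80000800080887068a) (nat_lit 0) (p (nat_lit 0x8888068602) (nat_lit 0) (p (nat_lit 0x807860582) (nat_lit 0) (p (nat_lit 0x8607058502) (nat_lit 0) (p (nat_lit 0x586850482) (nat_lit 0) (p (nat_lit 0x160014) (nat_lit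 0) (p (nat_lit 0x68612) (nat_lit 0) (p (nat_lit 0x50592) (nat_lit 0) (p (nat_lit 0x40512) (nat_lit 0) (p (nat_lit 0x50312) (nat_lit 0) (p (nat_lit 0x38292) (nat_lit 0) (p (nat_lit 0x28212) (nat_lit 0) (p (nat_lit 0x38112) (nat_lit 0) (p (nat_lit 0x20092) (nat_lit 0) (p (nat_lit 0x10012) (nat_lit 0) pn)))))))))))))))))))))))))))))) :=
  Cl.node (nat_lit 0x200004) (nat_lit 2) (by decide +kernel) (ClAll.succ (ClAll.succ ClAll.zero n71) s631)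

def n94 : Cl (O (nat_lit 3)) (R (nat_lit 14353))
    (p (nat_lit 0x200004) (nat_lit 0) (p (nat_lit 0x380c2) (nat_lit 0) (p (nat_lit 0x3c4aa) (nat_lit 7) (p (nat_lit 0xd1) (nat_lit 1) (p (nat_lit 0xc9) (nat_lit 0) (p (nat_lit 0x109) (nat_lit 1) (p (nat_lit 0x101) (nat_lit 0) (p (nat_lit 0x119) (nat_lit 0) (p (nat_lit 0xc1) (nat_lit 0) (p (nat_lit 0x81) (nat_lit 1) (p (nat_lit 0x41) (nat_lit 1) (p (nat_lit 0x8a0b0a89089a) (nat_lit 0) (p (nat_lit 0x98a8a08881a) (nat_lit 0) (p (nat_lit 0x89088988079a) (nat_lit 0) (p (nat_lit 0x8880907871a) (nat_lit 0) (p (nat_lit 0x80000800080887068a) (nat_lit 0) (p (nat_lit 0x8888068602) (nat_lit 0) (p (nat_lit 0x807860582) (nat_lit 0) (p (nat_lit 0x8607058502) (nat_lit 0) (p (nat_lit 0x586850482) (nat_lit 0) (p (nat_lit 0x160014) (nat_lit 0) (p (nat_lit 0x68612) (nat_lit 0) (p (nat_lit 0x50592) (nat_lit 0) (p (nat_lit 0x40512) (nat_lit 0)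 (p (nat_lit 0x50312) (nat_lit 0) (p (nat_lit 0x38292) (nat_lit 0) (p (nat_lit 0x28212) (nat_lit 0) (p (nat_lit 0x38112) (nat_lit 0) (p (nat_lit 0x20092) (nat_lit 0) (p (nat_lit 0x10012) (nat_lit 0) pn)))))))))))))))))))))))))))))) :=
  Cl.node (nat_lit 0x20000c) (nat_lit 2) (by decide +kernel) (ClAll.succ (ClAll.succ ClAll.zero n72) s647)

def n95 : Cl (O (nat_lit 3)) (R (nat_lit 14353))
    (p (nat_lit 0x200004) (nat_lit 0) (p (nat_lit 0x380c2) (nat_lit 1) (p (nat_lit 0x3c4aa) (nat_lit 7) (p (nat_lit 0xd1) (nat_lit 1) (p (nat_lit 0xc9) (nat_lit 0) (p (nat_lit 0x109) (nat_lit 1) (p (nat_lit 0x101) (nat_lit 0) (p (nat_lit 0x119) (nat_lit 0) (p (nat_lit 0xc1) (nat_lit 0) (p (nat_lit 0x81) (nat_lit 1) (p (nat_lit 0x41) (nat_lit 1) (p (nat_lit 0x8a0b0a89089a) (nat_lit 0) (p (nat_lit 0x98a8a08881a) (nat_lit 0) (p (nat_lit 0x89088988079a) (nat_lit 0) (p (nat_lit 0x8880907871a)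 (nat_lit 0) (p (nat_lit 0x80000800080887068a) (nat_lit 0) (p (nat_lit 0x8888068602) (nat_lit 0) (p (nat_lit 0x807860582) (nat_lit 0) (p (nat_lit 0x8607058502) (nat_lit 0) (p (nat_lit 0x586850482) (nat_lit 0) (p (nat_lit 0x160014) (nat_lit 0) (p (nat_lit 0x68612) (nat_lit 0) (p (nat_lit 0x50592) (nat_lit 0) (p (nat_lit 0x40512) (nat_lit 0) (p (nat_lit 0x50312) (nat_lit 0) (p (nat_lit 0x38292) (nat_lit 0) (p (nat_lit 0x28212) (nat_lit 0) (p (nat_lit 0x38112) (nat_lit 0) (p (nat_lit 0x20092) (nat_lit 0) (p (nat_lit 0x10012) (nat_lit 0) pn)))))))))))))))))))))))))))))) :=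
  Cl.node (nat_lit 0x20000c) (nat_lit 2) (by decide +kernel) (ClAll.succ (ClAll.succ ClAll.zero n73) s653)

def n96 : Cl (O (nat_lit 3)) (R (nat_lit 14353))
    (p (nat_lit 0x20000c) (nat_lit 0) (p (nat_lit 0x200004) (nat_lit 0) (p (nat_lit 0x380c2) (nat_lit 0) (p (nat_lit 0x3c4aa) (nat_lit 7) (p (nat_lit 0xd1) (nat_lit 1) (p (nat_lit 0xc9) (nat_lit 0) (p (nat_lit 0x101) (nat_lit 1) (p (nat_lit 0x119) (nat_lit 0) (p (nat_lit 0xc1) (nat_lit 0) (p (nat_lit 0x81) (nat_lit 1) (p (nat_lit 0x41) (nat_lit 1) (p (nat_lit 0x8a0b0a89089a) (nat_lit 0) (p (nat_lit 0x98a8a08881a) (nat_lit 0) (p (nat_lit 0x89088988079a) (nat_lit 0) (p (nat_lit 0x8880907871a) (nat_lit 0) (p (nat_lit 0x80000800080887068a) (nat_lit 0) (p (nat_lit 0x8888068602) (nat_lit 0) (p (nat_lit 0x807860582) (nat_lit 0) (p (nat_lit 0x8607058502) (nat_lit 0) (p (nat_lit 0x586850482) (nat_lit 0) (p (nat_lit 0x160014)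 (nat_lit 0) (p (nat_lit 0x68612) (nat_lit 0) (p (nat_lit 0x50592) (nat_lit 0) (p (nat_lit 0x40512) (nat_lit 0) (p (nat_lit 0x50312) (nat_lit 0) (p (nat_lit 0x38292) (nat_lit 0) (p (nat_lit 0x28212) (nat_lit 0) (p (nat_lit 0x38112) (nat_lit 0) (p (nat_lit 0x20092) (nat_lit 0) (p (nat_lit 0x10012) (nat_lit 0) pn)))))))))))))))))))))))))))))) :=
  Cl.node (nat_lit 0x100004) (nat_lit 2) (by decide +kernel) (ClAll.succ (ClAll.succ ClAll.zero n74) s694)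

def n97 : Cl (O (nat_lit 3)) (R (nat_lit 14353))
    (p (nat_lit 0x20000c) (nat_lit 0) (p (nat_lit 0x200004) (nat_lit 0) (p (nat_lit 0x380c2) (nat_lit 1) (p (nat_lit 0x3c4aa) (nat_lit 7) (p (nat_lit 0xd1) (nat_lit 1) (p (nat_lit 0xc9) (nat_lit 0) (p (nat_lit 0x101) (nat_lit 1) (p (nat_lit 0x119) (nat_lit 0) (p (nat_lit 0xc1) (nat_lit 0) (p (nat_lit 0x81) (nat_lit 1) (p (nat_lit 0x41) (nat_lit 1) (p (nat_lit 0x8a0b0a89089a) (nat_lit 0) (p (nat_lit 0x98a8a08881a) (nat_lit 0) (p (nat_lit 0x89088988079a) (nat_lit 0) (p (nat_lit 0x8880907871a) (nat_lit 0) (p (nat_lit 0x80000800080887068a) (nat_lit 0) (p (nat_lit 0x8888068602) (nat_lit 0) (p (nat_lit 0x807860582) (nat_lit 0) (p (nat_lit 0x8607058502) (nat_lit 0) (p (nat_lit 0x586850482) (nat_lit 0) (p (nat_lit 0x160014) (nat_lit 0) (p (nat_lit 0x68612) (nat_lit 0) (p (nat_lit 0x50592) (nat_lit 0) (p (nat_lit 0x40512) (nat_lit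 0) (p (nat_lit 0x50312) (nat_lit 0) (p (nat_lit 0x38292) (nat_lit 0) (p (nat_lit 0x28212) (nat_lit 0) (p (nat_lit 0x38112) (nat_lit 0) (p (nat_lit 0x20092) (nat_lit 0) (p (nat_lit 0x10012) (nat_lit 0) pn)))))))))))))))))))))))))))))) :=
  Cl.node (nat_lit 0xc1) (nat_lit 2) (by decide +kernel) (ClAll.succ (ClAll.succ ClAll.zero n75) s709)

def n98 : Cl (O (nat_lit 3)) (R (nat_lit 14353))
    (p (nat_lit 0x20000c) (nat_lit 0) (p (nat_lit 0xb0014) (nat_lit 0) (p (nat_lit 0x380c2) (nat_lit 1) (p (nat_lit 0x3c4aa) (nat_lit 7) (p (nat_lit 0x111) (nat_lit 1) (p (nat_lit 0xd1) (nat_lit 1) (p (nat_lit 0xc9) (nat_lit 0) (p (nat_lit 0x119) (nat_lit 1) (p (nat_lit 0xc1) (nat_lit 0) (p (nat_lit 0x81) (nat_lit 1) (p (nat_lit 0x41) (nat_lit 1) (p (nat_lit 0x8a0b0a89089a) (nat_lit 0) (p (nat_lit 0x98a8a08881a) (nat_lit 0) (p (nat_lit 0x89088988079a) (nat_lit 0) (p (nat_lit 0x8880907871a)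 (nat_lit 0) (p (nat_lit 0x80000800080887068a) (nat_lit 0) (p (nat_lit 0x8888068602) (nat_lit 0) (p (nat_lit 0x807860582) (nat_lit 0) (p (nat_lit 0x8607058502) (nat_lit 0) (p (nat_lit 0x586850482) (nat_lit 0) (p (nat_lit 0x160014) (nat_lit 0) (p (nat_lit 0x68612) (nat_lit 0) (p (nat_lit 0x50592) (nat_lit 0) (p (nat_lit 0x40512) (nat_lit 0) (p (nat_lit 0x50312) (nat_lit 0) (p (nat_lit 0x38292) (nat_lit 0) (p (nat_lit 0x28212) (nat_lit 0) (p (nat_lit 0x38112) (nat_lit 0) (p (nat_lit 0x20092) (nat_lit 0) (p (nat_lit 0x10012) (nat_lit 0) pn)))))))))))))))))))))))))))))) :=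
  Cl.node (nat_lit 0x200004) (nat_lit 2) (by decide +kernel) (ClAll.succ (ClAll.succ ClAll.zero n76) s729)

def n99 : Cl (O (nat_lit 3)) (R (nat_lit 14353))
    (p (nat_lit 0x200004) (nat_lit 0) (p (nat_lit 0x20000c) (nat_lit 0) (p (nat_lit 0x380c2) (nat_lit 1) (p (nat_lit 0x3c4aa) (nat_lit 7) (p (nat_lit 0x111) (nat_lit 1) (p (nat_lit 0x109) (nat_lit 0) (p (nat_lit 0xc9) (nat_lit 1) (p (nat_lit 0x119) (nat_lit 1) (p (nat_lit 0xc1) (nat_lit 0) (p (nat_lit 0x81) (nat_lit 1) (p (nat_lit 0x41) (nat_lit 1) (p (nat_lit 0x8a0b0a89089a) (nat_lit 0) (p (nat_lit 0x98a8a08881a) (nat_lit 0) (p (nat_lit 0x89088988079a) (nat_lit 0) (p (nat_lit 0x8880907871a) (nat_lit 0) (p (nat_lit 0x80000800080887068a) (nat_lit 0) (p (nat_lit 0x8888068602) (nat_lit 0) (p (nat_lit 0x807860582) (nat_lit 0) (p (nat_lit 0x8607058502) (nat_lit 0) (p (nat_lit 0x586850482) (nat_lit 0) (p (nat_lit 0x160014)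 (nat_lit 0) (p (nat_lit 0x68612) (nat_lit 0) (p (nat_lit 0x50592) (nat_lit 0) (p (nat_lit 0x40512) (nat_lit 0) (p (nat_lit 0x50312) (nat_lit 0) (p (nat_lit 0x38292) (nat_lit 0) (p (nat_lit 0x28212) (nat_lit 0) (p (nat_lit 0x38112) (nat_lit 0) (p (nat_lit 0x20092) (nat_lit 0) (p (nat_lit 0x10012) (nat_lit 0) pn)))))))))))))))))))))))))))))) :=
  Cl.node (nat_lit 0x100004) (nat_lit 2) (by decide +kernel) (ClAll.succ (ClAll.succ ClAll.zero n77) s760)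

def n100 : Cl (O (nat_lit 3)) (R (nat_lit 14353))
    (p (nat_lit 0x380c2) (nat_lit 0) (p (nat_lit 0x444aa) (nat_lit 7) (p (nat_lit 0x81) (nat_lit 1) (p (nat_lit 0xc9) (nat_lit 1) (p (nat_lit 0x109) (nat_lit 1) (p (nat_lit 0x101) (nat_lit 0) (p (nat_lit 0x119) (nat_lit 0) (p (nat_lit 0xd1) (nat_lit 0) (p (nat_lit 0x89) (nat_lit 0) (p (nat_lit 0x41) (nat_lit 0) (p (nat_lit 0x8a0b0a89089a) (nat_lit 0) (p (nat_lit 0x98a8a08881a) (nat_lit 0) (p (nat_lit 0x89088988079a) (nat_lit 0) (p (nat_lit 0x8880907871a) (nat_lit 0) (p (nat_lit 0x80000800080887068a) (nat_lit 0) (p (nat_lit 0x8888068602) (nat_lit 0) (p (nat_lit 0x807860582) (nat_lit 0) (p (nat_lit 0x8607058502) (nat_lit 0) (p (nat_lit 0x586850482) (nat_lit 0) (p (nat_lit 0x160014) (nat_lit 0) (p (nat_lit 0x68612) (nat_lit 0) (p (nat_lit 0x50592) (nat_lit 0) (p (nat_lit 0x40512) (nat_lit 0) (p (nat_lit 0x50312) (nat_lit 0)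 (p (nat_lit 0x38292) (nat_lit 0) (p (nat_lit 0x28212) (nat_lit 0) (p (nat_lit 0x38112) (nat_lit 0) (p (nat_lit 0x20092) (nat_lit 0) (p (nat_lit 0x10012) (nat_lit 0) pn))))))))))))))))))))))))))))) :=
  Cl.node (nat_lit 0x20000c) (nat_lit 2) (by decide +kernel) (ClAll.succ (ClAll.succ ClAll.zero n78) s18)

def n101 : Cl (O (nat_lit 3)) (R (nat_lit 14353))
    (p (nat_lit 0x380c2) (nat_lit 1) (p (nat_lit 0x444aa) (nat_lit 7) (p (nat_lit 0x81) (nat_lit 1) (p (nat_lit 0xc9) (nat_lit 1) (p (nat_lit 0x109) (nat_lit 1) (p (nat_lit 0x101) (nat_lit 0) (p (nat_lit 0x119) (nat_lit 0) (p (nat_lit 0xd1) (nat_lit 0) (p (nat_lit 0x89) (nat_lit 0) (p (nat_lit 0x41) (nat_lit 0) (p (nat_lit 0x8a0b0a89089a) (nat_lit 0) (p (nat_lit 0x98a8a08881a) (nat_lit 0) (p (nat_lit 0x89088988079a) (nat_lit 0) (p (nat_lit 0x8880907871a) (nat_lit 0) (p (nat_lit 0x80000800080887068a) (nat_lit 0) (p (nat_lit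 0x8888068602) (nat_lit 0) (p (nat_lit 0x807860582) (nat_lit 0) (p (nat_lit 0x8607058502) (nat_lit 0) (p (nat_lit 0x586850482) (nat_lit 0) (p (nat_lit 0x160014) (nat_lit 0) (p (nat_lit 0x68612) (nat_lit 0) (p (nat_lit 0x50592) (nat_lit 0) (p (nat_lit 0x40512) (nat_lit 0) (p (nat_lit 0x50312) (nat_lit 0) (p (nat_lit 0x38292) (nat_lit 0) (p (nat_lit 0x28212) (nat_lit 0) (p (nat_lit 0x38112) (nat_lit 0) (p (nat_lit 0x20092) (nat_lit 0) (p (nat_lit 0x10012) (nat_lit 0) pn))))))))))))))))))))))))))))) :=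
  Cl.node (nat_lit 0x20000c) (nat_lit 2) (by decide +kernel) (ClAll.succ (ClAll.succ ClAll.zero n79) s23)

def n102 : Cl (O (nat_lit 3)) (R (nat_lit 14353))
    (p (nat_lit 0x380c2) (nat_lit 0) (p (nat_lit 0x444aa) (nat_lit 7) (p (nat_lit 0x111) (nat_lit 0) (p (nat_lit 0xc9) (nat_lit 1) (p (nat_lit 0x81) (nat_lit 0) (p (nat_lit 0x101) (nat_lit 1) (p (nat_lit 0x119) (nat_lit 0) (p (nat_lit 0xd1) (nat_lit 0) (p (nat_lit 0x89) (nat_lit 0) (p (nat_lit 0x41) (nat_lit 0) (p (nat_lit 0x8a0b0a89089a) (nat_lit 0) (p (nat_lit 0x98a8a08881a) (nat_lit 0) (p (nat_lit 0x89088988079a) (nat_lit 0) (p (nat_lit 0x8880907871a) (nat_lit 0) (p (nat_lit 0x80000800080887068a) (nat_lit 0) (p (nat_lit 0x8888068602) (nat_lit 0) (p (nat_lit 0x807860582) (nat_lit 0) (p (nat_lit 0x8607058502) (nat_lit 0) (p (nat_lit 0x586850482) (nat_lit 0) (p (nat_lit 0x160014) (nat_lit 0) (p (nat_lit 0x68612) (nat_lit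 0) (p (nat_lit 0x50592) (nat_lit 0) (p (nat_lit 0x40512) (nat_lit 0) (p (nat_lit 0x50312) (nat_lit 0) (p (nat_lit 0x38292) (nat_lit 0) (p (nat_lit 0x28212) (nat_lit 0) (p (nat_lit 0x38112) (nat_lit 0) (p (nat_lit 0x20092) (nat_lit 0) (p (nat_lit 0x10012) (nat_lit 0) pn))))))))))))))))))))))))))))) :=
  Cl.node (nat_lit 0x20000c) (nat_lit 2) (by decide +kernel) (ClAll.succ (ClAll.succ ClAll.zero n80) s54)

def n103 : Cl (O (nat_lit 3)) (R (nat_lit 14353))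
    (p (nat_lit 0x380c2) (nat_lit 1) (p (nat_lit 0x444aa) (nat_lit 7) (p (nat_lit 0x111) (nat_lit 0) (p (nat_lit 0xc9) (nat_lit 1) (p (nat_lit 0x81) (nat_lit 0) (p (nat_lit 0x101) (nat_lit 1) (p (nat_lit 0x119) (nat_lit 0) (p (nat_lit 0xd1) (nat_lit 0) (p (nat_lit 0x89) (nat_lit 0) (p (nat_lit 0x41) (nat_lit 0) (p (nat_lit 0x8a0b0a89089a) (nat_lit 0) (p (nat_lit 0x98a8a08881a) (nat_lit 0) (p (nat_lit 0x89088988079a) (nat_lit 0) (p (nat_lit 0x8880907871a) (nat_lit 0) (p (nat_lit 0x80000800080887068a) (nat_lit 0) (p (nat_lit 0x8888068602) (nat_lit 0) (p (nat_lit 0x807860582) (nat_lit 0) (p (nat_lit 0x8607058502) (nat_lit 0) (p (nat_lit 0x586850482) (nat_lit 0) (p (nat_lit 0x160014) (nat_lit 0) (p (nat_lit 0x68612) (nat_lit 0) (p (nat_lit 0x50592) (nat_lit 0) (p (nat_lit 0x40512) (nat_lit 0) (p (nat_lit 0x50312) (nat_lit 0) (p (nat_lit 0x38292) (nat_lit 0) (p (nat_lit 0x28212)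 (nat_lit 0) (p (nat_lit 0x38112) (nat_lit 0) (p (nat_lit 0x20092) (nat_lit 0) (p (nat_lit 0x10012) (nat_lit 0) pn))))))))))))))))))))))))))))) :=
  Cl.node (nat_lit 0x20000c) (nat_lit 2) (by decide +kernel) (ClAll.succ (ClAll.succ ClAll.zero n81) s58)

def n104 : Cl (O (nat_lit 3)) (R (nat_lit 14353))
    (p (nat_lit 0x380c2) (nat_lit 0) (p (nat_lit 0x444aa) (nat_lit 7) (p (nat_lit 0xc9) (nat_lit 1) (p (nat_lit 0xc1) (nat_lit 0) (p (nat_lit 0x81) (nat_lit 1) (p (nat_lit 0x101) (nat_lit 1) (p (nat_lit 0x119) (nat_lit 0) (p (nat_lit 0xd1) (nat_lit 0) (p (nat_lit 0x89) (nat_lit 0) (p (nat_lit 0x41) (nat_lit 0) (p (nat_lit 0x8a0b0a89089a) (nat_lit 0) (p (nat_lit 0x98a8a08881a) (nat_lit 0) (p (nat_lit 0x89088988079a) (nat_lit 0) (p (nat_lit 0x8880907871a) (nat_lit 0) (p (nat_lit 0x80000800080887068a) (nat_lit 0) (p (nat_lit 0x8888068602) (nat_lit 0) (p (nat_lit 0x807860582) (nat_lit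 0) (p (nat_lit 0x8607058502) (nat_lit 0) (p (nat_lit 0x586850482) (nat_lit 0) (p (nat_lit 0x160014) (nat_lit 0) (p (nat_lit 0x68612) (nat_lit 0) (p (nat_lit 0x50592) (nat_lit 0) (p (nat_lit 0x40512) (nat_lit 0) (p (nat_lit 0x50312) (nat_lit 0) (p (nat_lit 0x38292) (nat_lit 0) (p (nat_lit 0x28212) (nat_lit 0) (p (nat_lit 0x38112) (nat_lit 0) (p (nat_lit 0x20092) (nat_lit 0) (p (nat_lit 0x10012) (nat_lit 0) pn))))))))))))))))))))))))))))) :=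
  Cl.node (nat_lit 0x20000c) (nat_lit 2) (by decide +kernel) (ClAll.succ (ClAll.succ ClAll.zero n82) s86)

def n105 : Cl (O (nat_lit 3)) (R (nat_lit 14353))
    (p (nat_lit 0x101) (nat_lit 1) (p (nat_lit 0x380c2) (nat_lit 1) (p (nat_lit 0x3cc2a) (nat_lit 10) (p (nat_lit 0x109) (nat_lit 1) (p (nat_lit 0xc9) (nat_lit 1) (p (nat_lit 0xc1) (nat_lit 0) (p (nat_lit 0x119) (nat_lit 1) (p (nat_lit 0xd1) (nat_lit 0) (p (nat_lit 0x89) (nat_lit 0) (p (nat_lit 0x41) (nat_lit 0) (p (nat_lit 0x8a0b0a89089a) (nat_lit 0) (p (nat_lit 0x98a8a08881a) (nat_lit 0) (p (nat_lit 0x89088988079a) (nat_lit 0) (p (nat_lit 0x8880907871a) (nat_lit 0) (p (nat_lit 0x80000800080887068a) (nat_lit 0) (p (nat_lit 0x8888068602) (nat_lit 0) (p (nat_lit 0x807860582) (nat_lit 0) (p (nat_lit 0x8607058502) (nat_lit 0) (p (nat_lit 0x586850482) (nat_lit 0) (p (nat_lit 0x160014) (nat_lit 0) (p (nat_lit 0x68612) (nat_lit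 0) (p (nat_lit 0x50592) (nat_lit 0) (p (nat_lit 0x40512) (nat_lit 0) (p (nat_lit 0x50312) (nat_lit 0) (p (nat_lit 0x38292) (nat_lit 0) (p (nat_lit 0x28212) (nat_lit 0) (p (nat_lit 0x38112) (nat_lit 0) (p (nat_lit 0x20092) (nat_lit 0) (p (nat_lit 0x10012) (nat_lit 0) pn))))))))))))))))))))))))))))) :=
  Cl.node (nat_lit 0x81) (nat_lit 2) (by decide +kernel) (ClAll.succ (ClAll.succ ClAll.zero s107) s108)

def n106 : Cl (O (nat_lit 3)) (R (nat_lit 14353))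
    (p (nat_lit 0x380c2) (nat_lit 0) (p (nat_lit 0x44c2a) (nat_lit 0) (p (nat_lit 0x109) (nat_lit 0) (p (nat_lit 0x101) (nat_lit 0) (p (nat_lit 0x81) (nat_lit 1) (p (nat_lit 0xc1) (nat_lit 1) (p (nat_lit 0x119) (nat_lit 1) (p (nat_lit 0xd1) (nat_lit 0) (p (nat_lit 0x89) (nat_lit 0) (p (nat_lit 0x41) (nat_lit 0) (p (nat_lit 0x8a0b0a89089a) (nat_lit 0) (p (nat_lit 0x98a8a08881a) (nat_lit 0) (p (nat_lit 0x89088988079a) (nat_lit 0) (p (nat_lit 0x8880907871a) (nat_lit 0) (p (nat_lit 0x80000800080887068a) (nat_lit 0) (p (nat_lit 0x8888068602) (nat_lit 0) (p (nat_lit 0x807860582) (nat_lit 0) (p (nat_lit 0x8607058502) (nat_lit 0) (p (nat_lit 0x586850482) (nat_lit 0) (p (nat_lit 0x160014) (nat_lit 0) (p (nat_lit 0x68612) (nat_lit 0) (p (nat_lit 0x50592) (nat_lit 0) (p (nat_lit 0x40512) (nat_lit 0) (p (nat_lit 0x50312) (nat_lit 0) (p (nat_lit 0x38292) (nat_lit 0) (p (nat_lit 0x28212)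 (nat_lit 0) (p (nat_lit 0x38112) (nat_lit 0) (p (nat_lit 0x20092) (nat_lit 0) (p (nat_lit 0x10012) (nat_lit 0) pn))))))))))))))))))))))))))))) :=
  Cl.node (nat_lit 0xb0014) (nat_lit 2) (by decide +kernel) (ClAll.succ (ClAll.succ ClAll.zero n83) s136)

def n107 : Cl (O (nat_lit 3)) (R (nat_lit 14353))
    (p (nat_lit 0x380c2) (nat_lit 0) (p (nat_lit 0x444aa) (nat_lit 7) (p (nat_lit 0x109) (nat_lit 1) (p (nat_lit 0x101) (nat_lit 0) (p (nat_lit 0x81) (nat_lit 1) (p (nat_lit 0xc1) (nat_lit 1) (p (nat_lit 0x119) (nat_lit 1) (p (nat_lit 0xd1) (nat_lit 0) (p (nat_lit 0x89) (nat_lit 0) (p (nat_lit 0x41) (nat_lit 0) (p (nat_lit 0x8a0b0a89089a) (nat_lit 0) (p (nat_lit 0x98a8a08881a) (nat_lit 0) (p (nat_lit 0x89088988079a) (nat_lit 0) (p (nat_lit 0x8880907871a) (nat_lit 0) (p (nat_lit 0x80000800080887068a) (nat_lit 0) (p (nat_lit 0x8888068602) (nat_lit 0) (p (nat_lit 0x807860582)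 (nat_lit 0) (p (nat_lit 0x8607058502) (nat_lit 0) (p (nat_lit 0x586850482) (nat_lit 0) (p (nat_lit 0x160014) (nat_lit 0) (p (nat_lit 0x68612) (nat_lit 0) (p (nat_lit 0x50592) (nat_lit 0) (p (nat_lit 0x40512) (nat_lit 0) (p (nat_lit 0x50312) (nat_lit 0) (p (nat_lit 0x38292) (nat_lit 0) (p (nat_lit 0x28212) (nat_lit 0) (p (nat_lit 0x38112) (nat_lit 0) (p (nat_lit 0x20092) (nat_lit 0) (p (nat_lit 0x10012) (nat_lit 0) pn))))))))))))))))))))))))))))) :=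
  Cl.node (nat_lit 0x200004) (nat_lit 2) (by decide +kernel) (ClAll.succ (ClAll.succ ClAll.zero n84) s162)

def n108 : Cl (O (nat_lit 3)) (R (nat_lit 14353))
    (p (nat_lit 0x380c2) (nat_lit 0) (p (nat_lit 0x444aa) (nat_lit 7) (p (nat_lit 0xd1) (nat_lit 1) (p (nat_lit 0x111) (nat_lit 1) (p (nat_lit 0x109) (nat_lit 0) (p (nat_lit 0x101) (nat_lit 0) (p (nat_lit 0x119) (nat_lit 0) (p (nat_lit 0xc9) (nat_lit 0) (p (nat_lit 0x89) (nat_lit 1) (p (nat_lit 0x41) (nat_lit 0) (p (nat_lit 0x8a0b0a89089a) (nat_lit 0) (p (nat_lit 0x98a8a08881a) (nat_lit 0) (p (nat_lit 0x89088988079a) (nat_lit 0) (p (nat_lit 0x8880907871a) (nat_lit 0) (p (nat_lit 0x80000800080887068a) (nat_lit 0) (p (nat_lit 0x8888068602) (nat_lit 0) (p (nat_lit 0x807860582) (nat_lit 0) (p (nat_lit 0x8607058502) (nat_lit 0) (p (nat_lit 0x586850482) (nat_lit 0) (p (nat_lit 0x160014) (nat_lit 0) (p (nat_lit 0x68612) (nat_lit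 0) (p (nat_lit 0x50592) (nat_lit 0) (p (nat_lit 0x40512) (nat_lit 0) (p (nat_lit 0x50312) (nat_lit 0) (p (nat_lit 0x38292) (nat_lit 0) (p (nat_lit 0x28212) (nat_lit 0) (p (nat_lit 0x38112) (nat_lit 0) (p (nat_lit 0x20092) (nat_lit 0) (p (nat_lit 0x10012) (nat_lit 0) pn))))))))))))))))))))))))))))) :=
  Cl.node (nat_lit 0x20000c) (nat_lit 2) (by decide +kernel) (ClAll.succ (ClAll.succ ClAll.zero n85) s228)

def n109 : Cl (O (nat_lit 3)) (R (nat_lit 14353))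
    (p (nat_lit 0x380c2) (nat_lit 1) (p (nat_lit 0x444aa) (nat_lit 7) (p (nat_lit 0xd1) (nat_lit 1) (p (nat_lit 0x111) (nat_lit 1) (p (nat_lit 0x109) (nat_lit 0) (p (nat_lit 0x101) (nat_lit 0) (p (nat_lit 0x119) (nat_lit 0) (p (nat_lit 0xc9) (nat_lit 0) (p (nat_lit 0x89) (nat_lit 1) (p (nat_lit 0x41) (nat_lit 0) (p (nat_lit 0x8a0b0a89089a) (nat_lit 0) (p (nat_lit 0x98a8a08881a) (nat_lit 0) (p (nat_lit 0x89088988079a) (nat_lit 0) (p (nat_lit 0x8880907871a) (nat_lit 0) (p (nat_lit 0x80000800080887068a) (nat_lit 0) (p (nat_lit 0x8888068602) (nat_lit 0) (p (nat_lit 0x807860582) (nat_lit 0) (p (nat_lit 0x8607058502) (nat_lit 0) (p (nat_lit 0x586850482) (nat_lit 0) (p (nat_lit 0x160014) (nat_lit 0) (p (nat_lit 0x68612) (nat_lit 0) (p (nat_lit 0x50592) (nat_lit 0) (p (nat_lit 0x40512) (nat_lit 0) (p (nat_lit 0x50312) (nat_lit 0) (p (nat_lit 0x38292) (nat_lit 0) (p (nat_lit 0x28212)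 (nat_lit 0) (p (nat_lit 0x38112) (nat_lit 0) (p (nat_lit 0x20092) (nat_lit 0) (p (nat_lit 0x10012) (nat_lit 0) pn))))))))))))))))))))))))))))) :=
  Cl.node (nat_lit 0x20000c) (nat_lit 2) (by decide +kernel) (ClAll.succ (ClAll.succ ClAll.zero n86) s236)

def n110 : Cl (O (nat_lit 3)) (R (nat_lit 14353))
    (p (nat_lit 0x41) (nat_lit 0) (p (nat_lit 0x20000c) (nat_lit 0) (p (nat_lit 0x200004) (nat_lit 0) (p (nat_lit 0xd1) (nat_lit 0) (p (nat_lit 0x109) (nat_lit 1) (p (nat_lit 0x101) (nat_lit 0) (p (nat_lit 0x119) (nat_lit 0) (p (nat_lit 0xc9) (nat_lit 0) (p (nat_lit 0x89) (nat_lit 1) (p (nat_lit 0x41) (nat_lit 0) (p (nat_lit 0x8a0b0a89089a) (nat_lit 0) (p (nat_lit 0x98a8a08881a) (nat_lit 0) (p (nat_lit 0x89088988079a) (nat_lit 0) (p (nat_lit 0x8880907871a) (nat_lit 0) (p (nat_lit 0x80000800080887068a) (nat_lit 0) (p (nat_lit 0x8888068602) (nat_lit 0) (p (nat_lit 0x807860582)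 (nat_lit 0) (p (nat_lit 0x8607058502) (nat_lit 0) (p (nat_lit 0x586850482) (nat_lit 0) (p (nat_lit 0x160014) (nat_lit 0) (p (nat_lit 0x68612) (nat_lit 0) (p (nat_lit 0x50592) (nat_lit 0) (p (nat_lit 0x40512) (nat_lit 0) (p (nat_lit 0x50312) (nat_lit 0) (p (nat_lit 0x38292) (nat_lit 0) (p (nat_lit 0x28212) (nat_lit 0) (p (nat_lit 0x38112) (nat_lit 0) (p (nat_lit 0x20092) (nat_lit 0) (p (nat_lit 0x10012) (nat_lit 0) pn))))))))))))))))))))))))))))) :=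
  Cl.node (nat_lit 0x44c2a) (nat_lit 12) (by decide +kernel) (ClAll.succ (ClAll.succ (ClAll.succ (ClAll.succ (ClAll.succ (ClAll.succ (ClAll.succ (ClAll.succ (ClAll.succ (ClAll.succ (ClAll.succ (ClAll.succ ClAll.zero s241) s242) s243) s244) s245) s246) s247) s248) s249) s250) s251) s252)

def n111 : Cl (O (nat_lit 3)) (R (nat_lit 14353))
    (p (nat_lit 0x20000c) (nat_lit 0) (p (nat_lit 0x380c2) (nat_lit 0) (p (nat_lit 0x444aa) (nat_lit 7) (p (nat_lit 0xd1) (nat_lit 1) (p (nat_lit 0x109) (nat_lit 1) (p (nat_lit 0x101) (nat_lit 0) (p (nat_lit 0x119) (nat_lit 0) (p (nat_lit 0xc9) (nat_lit 0) (p (nat_lit 0x89) (nat_lit 1) (p (nat_lit 0x41) (nat_lit 0) (p (nat_lit 0x8a0b0a89089a) (nat_lit 0) (p (nat_lit 0x98a8a08881a) (nat_lit 0) (p (nat_lit 0x89088988079a) (nat_lit 0) (p (nat_lit 0x8880907871a) (nat_lit 0) (p (nat_lit 0x80000800080887068a) (nat_lit 0) (p (nat_lit 0x8888068602)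 (nat_lit 0) (p (nat_lit 0x807860582) (nat_lit 0) (p (nat_lit 0x8607058502) (nat_lit 0) (p (nat_lit 0x586850482) (nat_lit 0) (p (nat_lit 0x160014) (nat_lit 0) (p (nat_lit 0x68612) (nat_lit 0) (p (nat_lit 0x50592) (nat_lit 0) (p (nat_lit 0x40512) (nat_lit 0) (p (nat_lit 0x50312) (nat_lit 0) (p (nat_lit 0x38292) (nat_lit 0) (p (nat_lit 0x28212) (nat_lit 0) (p (nat_lit 0x38112) (nat_lit 0) (p (nat_lit 0x20092) (nat_lit 0) (p (nat_lit 0x10012) (nat_lit 0) pn))))))))))))))))))))))))))))) :=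
  Cl.node (nat_lit 0x200004) (nat_lit 2) (by decide +kernel) (ClAll.succ (ClAll.succ ClAll.zero n87) s269)

def n112 : Cl (O (nat_lit 3)) (R (nat_lit 14353))
    (p (nat_lit 0x20000c) (nat_lit 0) (p (nat_lit 0x380c2) (nat_lit 1) (p (nat_lit 0x444aa) (nat_lit 7) (p (nat_lit 0xd1) (nat_lit 1) (p (nat_lit 0x109) (nat_lit 1) (p (nat_lit 0x101) (nat_lit 0) (p (nat_lit 0x119) (nat_lit 0) (p (nat_lit 0xc9) (nat_lit 0) (p (nat_lit 0x89) (nat_lit 1) (p (nat_lit 0x41) (nat_lit 0) (p (nat_lit 0x8a0b0a89089a) (nat_lit 0) (p (nat_lit 0x98a8a08881a) (nat_lit 0) (p (nat_lit 0x89088988079a) (nat_lit 0) (p (nat_lit 0x8880907871a) (nat_lit 0) (p (nat_lit 0x80000800080887068a) (nat_lit 0) (p (nat_lit 0x8888068602) (nat_lit 0) (p (nat_lit 0x807860582) (nat_lit 0) (p (nat_lit 0x8607058502) (nat_lit 0) (p (nat_lit 0x586850482) (nat_lit 0) (p (nat_lit 0x160014) (nat_lit 0) (p (nat_lit 0x68612)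 (nat_lit 0) (p (nat_lit 0x50592) (nat_lit 0) (p (nat_lit 0x40512) (nat_lit 0) (p (nat_lit 0x50312) (nat_lit 0) (p (nat_lit 0x38292) (nat_lit 0) (p (nat_lit 0x28212) (nat_lit 0) (p (nat_lit 0x38112) (nat_lit 0) (p (nat_lit 0x20092) (nat_lit 0) (p (nat_lit 0x10012) (nat_lit 0) pn))))))))))))))))))))))))))))) :=
  Cl.node (nat_lit 0x200004) (nat_lit 2) (by decide +kernel) (ClAll.succ (ClAll.succ ClAll.zero n88) s276)

def n113 : Cl (O (nat_lit 3)) (R (nat_lit 14353))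
    (p (nat_lit 0x20000c) (nat_lit 0) (p (nat_lit 0x380c2) (nat_lit 0) (p (nat_lit 0x444aa) (nat_lit 7) (p (nat_lit 0xd1) (nat_lit 1) (p (nat_lit 0xc1) (nat_lit 0) (p (nat_lit 0x101) (nat_lit 1) (p (nat_lit 0x119) (nat_lit 0) (p (nat_lit 0xc9) (nat_lit 0) (p (nat_lit 0x89) (nat_lit 1) (p (nat_lit 0x41) (nat_lit 0) (p (nat_lit 0x8a0b0a89089a) (nat_lit 0) (p (nat_lit 0x98a8a08881a) (nat_lit 0) (p (nat_lit 0x89088988079a) (nat_lit 0) (p (nat_lit 0x8880907871a) (nat_lit 0) (p (nat_lit 0x80000800080887068a) (nat_lit 0) (p (nat_lit 0x8888068602) (nat_lit 0) (p (nat_lit 0x807860582) (nat_lit 0) (p (nat_lit 0x8607058502) (nat_lit 0) (p (nat_lit 0x586850482) (nat_lit 0) (p (nat_lit 0x160014) (nat_lit 0) (p (nat_lit 0x68612) (nat_lit 0) (p (nat_lit 0x50592) (nat_lit 0) (p (nat_lit 0x40512) (nat_lit 0) (p (nat_lit 0x50312) (nat_lit 0) (p (nat_lit 0x38292) (nat_lit 0) (p (nat_lit 0x28212)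 (nat_lit 0) (p (nat_lit 0x38112) (nat_lit 0) (p (nat_lit 0x20092) (nat_lit 0) (p (nat_lit 0x10012) (nat_lit 0) pn))))))))))))))))))))))))))))) :=
  Cl.node (nat_lit 0x200004) (nat_lit 2) (by decide +kernel) (ClAll.succ (ClAll.succ ClAll.zero n89) s295)

def n114 : Cl (O (nat_lit 3)) (R (nat_lit 14353))
    (p (nat_lit 0x200004) (nat_lit 0) (p (nat_lit 0x380c2) (nat_lit 0) (p (nat_lit 0x444aa) (nat_lit 7) (p (nat_lit 0x111) (nat_lit 1) (p (nat_lit 0xd1) (nat_lit 1) (p (nat_lit 0xc1) (nat_lit 0) (p (nat_lit 0x119) (nat_lit 1) (p (nat_lit 0xc9) (nat_lit 0) (p (nat_lit 0x89) (nat_lit 1) (p (nat_lit 0x41) (nat_lit 0) (p (nat_lit 0x8a0b0a89089a) (nat_lit 0) (p (nat_lit 0x98a8a08881a) (nat_lit 0) (p (nat_lit 0x89088988079a) (nat_lit 0) (p (nat_lit 0x8880907871a) (nat_lit 0) (p (nat_lit 0x80000800080887068a) (nat_lit 0) (p (nat_lit 0x8888068602) (nat_lit 0) (p (nat_lit 0x807860582)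 (nat_lit 0) (p (nat_lit 0x8607058502) (nat_lit 0) (p (nat_lit 0x586850482) (nat_lit 0) (p (nat_lit 0x160014) (nat_lit 0) (p (nat_lit 0x68612) (nat_lit 0) (p (nat_lit 0x50592) (nat_lit 0) (p (nat_lit 0x40512) (nat_lit 0) (p (nat_lit 0x50312) (nat_lit 0) (p (nat_lit 0x38292) (nat_lit 0) (p (nat_lit 0x28212) (nat_lit 0) (p (nat_lit 0x38112) (nat_lit 0) (p (nat_lit 0x20092) (nat_lit 0) (p (nat_lit 0x10012) (nat_lit 0) pn))))))))))))))))))))))))))))) :=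
  Cl.node (nat_lit 0x20000c) (nat_lit 2) (by decide +kernel) (ClAll.succ (ClAll.succ ClAll.zero n90) s315)

def n115 : Cl (O (nat_lit 3)) (R (nat_lit 14353))
    (p (nat_lit 0x20000c) (nat_lit 0) (p (nat_lit 0x380c2) (nat_lit 1) (p (nat_lit 0x444aa) (nat_lit 7) (p (nat_lit 0x111) (nat_lit 1) (p (nat_lit 0xd1) (nat_lit 1) (p (nat_lit 0xc1) (nat_lit 0) (p (nat_lit 0x119) (nat_lit 1) (p (nat_lit 0xc9) (nat_lit 0) (p (nat_lit 0x89) (nat_lit 1) (p (nat_lit 0x41) (nat_lit 0) (p (nat_lit 0x8a0b0a89089a) (nat_lit 0) (p (nat_lit 0x98a8a08881a) (nat_lit 0) (p (nat_lit 0x89088988079a) (nat_lit 0) (p (nat_lit 0x8880907871a) (nat_lit 0) (p (nat_lit 0x80000800080887068a) (nat_lit 0) (p (nat_lit 0x8888068602) (nat_lit 0) (p (nat_lit 0x807860582) (nat_lit 0) (p (nat_lit 0x8607058502) (nat_lit 0) (p (nat_lit 0x586850482) (nat_lit 0) (p (nat_lit 0x160014) (nat_lit 0) (p (nat_lit 0x68612)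 (nat_lit 0) (p (nat_lit 0x50592) (nat_lit 0) (p (nat_lit 0x40512) (nat_lit 0) (p (nat_lit 0x50312) (nat_lit 0) (p (nat_lit 0x38292) (nat_lit 0) (p (nat_lit 0x28212) (nat_lit 0) (p (nat_lit 0x38112) (nat_lit 0) (p (nat_lit 0x20092) (nat_lit 0) (p (nat_lit 0x10012) (nat_lit 0) pn))))))))))))))))))))))))))))) :=
  Cl.node (nat_lit 0x200004) (nat_lit 2) (by decide +kernel) (ClAll.succ (ClAll.succ ClAll.zero s317) s318)

def n116 : Cl (O (nat_lit 3)) (R (nat_lit 14353))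
    (p (nat_lit 0x380c2) (nat_lit 0) (p (nat_lit 0x44c2a) (nat_lit 0) (p (nat_lit 0x109) (nat_lit 0) (p (nat_lit 0x89) (nat_lit 1) (p (nat_lit 0x101) (nat_lit 0) (p (nat_lit 0xc1) (nat_lit 1) (p (nat_lit 0x119) (nat_lit 1) (p (nat_lit 0xd1) (nat_lit 0) (p (nat_lit 0x81) (nat_lit 0) (p (nat_lit 0x41) (nat_lit 1) (p (nat_lit 0x8a0b0a89089a) (nat_lit 0) (p (nat_lit 0x98a8a08881a) (nat_lit 0) (p (nat_lit 0x89088988079a) (nat_lit 0) (p (nat_lit 0x8880907871a) (nat_lit 0) (p (nat_lit 0x80000800080887068a) (nat_lit 0) (p (nat_lit 0x8888068602) (nat_lit 0) (p (nat_lit 0x807860582) (nat_lit 0) (p (nat_lit 0x8607058502) (nat_lit 0) (p (nat_lit 0x586850482) (nat_lit 0) (p (nat_lit 0x160014) (nat_lit 0) (p (nat_lit 0x68612) (nat_lit 0) (p (nat_lit 0x50592) (nat_lit 0) (p (nat_lit 0x40512) (nat_lit 0) (p (nat_lit 0x50312) (nat_lit 0) (p (nat_lit 0x38292) (nat_lit 0) (p (nat_lit 0x28212)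 (nat_lit 0) (p (nat_lit 0x38112) (nat_lit 0) (p (nat_lit 0x20092) (nat_lit 0) (p (nat_lit 0x10012) (nat_lit 0) pn))))))))))))))))))))))))))))) :=
  Cl.node (nat_lit 0xb0014) (nat_lit 2) (by decide +kernel) (ClAll.succ (ClAll.succ ClAll.zero s482) s483)

def n117 : Cl (O (nat_lit 3)) (R (nat_lit 14353))
    (p (nat_lit 0xb0014) (nat_lit 0) (p (nat_lit 0x380c2) (nat_lit 1) (p (nat_lit 0x3c4aa) (nat_lit 10) (p (nat_lit 0x89) (nat_lit 1) (p (nat_lit 0x101) (nat_lit 1) (p (nat_lit 0xc1) (nat_lit 1) (p (nat_lit 0x119) (nat_lit 1) (p (nat_lit 0xd1) (nat_lit 0) (p (nat_lit 0x81) (nat_lit 0) (p (nat_lit 0x41) (nat_lit 1) (p (nat_lit 0x8a0b0a89089a) (nat_lit 0) (p (nat_lit 0x98a8a08881a) (nat_lit 0) (p (nat_lit 0x89088988079a) (nat_lit 0) (p (nat_lit 0x8880907871a) (nat_lit 0) (p (nat_lit 0x80000800080887068a) (nat_lit 0) (p (nat_lit 0x8888068602) (nat_lit 0) (p (nat_lit 0x807860582)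 (nat_lit 0) (p (nat_lit 0x8607058502) (nat_lit 0) (p (nat_lit 0x586850482) (nat_lit 0) (p (nat_lit 0x160014) (nat_lit 0) (p (nat_lit 0x68612) (nat_lit 0) (p (nat_lit 0x50592) (nat_lit 0) (p (nat_lit 0x40512) (nat_lit 0) (p (nat_lit 0x50312) (nat_lit 0) (p (nat_lit 0x38292) (nat_lit 0) (p (nat_lit 0x28212) (nat_lit 0) (p (nat_lit 0x38112) (nat_lit 0) (p (nat_lit 0x20092) (nat_lit 0) (p (nat_lit 0x10012) (nat_lit 0) pn))))))))))))))))))))))))))))) :=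
  Cl.node (nat_lit 0x20000c) (nat_lit 2) (by decide +kernel) (ClAll.succ (ClAll.succ ClAll.zero s523) s524)

def n118 : Cl (O (nat_lit 3)) (R (nat_lit 14353))
    (p (nat_lit 0x380c2) (nat_lit 0) (p (nat_lit 0x3c4aa) (nat_lit 7) (p (nat_lit 0xd1) (nat_lit 1) (p (nat_lit 0x111) (nat_lit 1) (p (nat_lit 0x109) (nat_lit 0) (p (nat_lit 0x101) (nat_lit 0) (p (nat_lit 0x119) (nat_lit 0) (p (nat_lit 0xc1) (nat_lit 0) (p (nat_lit 0x81) (nat_lit 1) (p (nat_lit 0x41) (nat_lit 1) (p (nat_lit 0x8a0b0a89089a) (nat_lit 0) (p (nat_lit 0x98a8a08881a) (nat_lit 0) (p (nat_lit 0x89088988079a) (nat_lit 0) (p (nat_lit 0x8880907871a) (nat_lit 0) (p (nat_lit 0x80000800080887068a) (nat_lit 0) (p (nat_lit 0x8888068602) (nat_lit 0) (p (nat_lit 0x807860582) (nat_lit 0) (p (nat_lit 0x8607058502) (nat_lit 0) (p (nat_lit 0x586850482) (nat_lit 0) (p (nat_lit 0x160014) (nat_lit 0) (p (nat_lit 0x68612) (nat_lit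 0) (p (nat_lit 0x50592) (nat_lit 0) (p (nat_lit 0x40512) (nat_lit 0) (p (nat_lit 0x50312) (nat_lit 0) (p (nat_lit 0x38292) (nat_lit 0) (p (nat_lit 0x28212) (nat_lit 0) (p (nat_lit 0x38112) (nat_lit 0) (p (nat_lit 0x20092) (nat_lit 0) (p (nat_lit 0x10012) (nat_lit 0) pn))))))))))))))))))))))))))))) :=
  Cl.node (nat_lit 0x200004) (nat_lit 2) (by decide +kernel) (ClAll.succ (ClAll.succ ClAll.zero n91) s612)

def n119 : Cl (O (nat_lit 3)) (R (nat_lit 14353))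
    (p (nat_lit 0x380c2) (nat_lit 1) (p (nat_lit 0x3c4aa) (nat_lit 7) (p (nat_lit 0xd1) (nat_lit 1) (p (nat_lit 0x111) (nat_lit 1) (p (nat_lit 0x109) (nat_lit 0) (p (nat_lit 0x101) (nat_lit 0) (p (nat_lit 0x119) (nat_lit 0) (p (nat_lit 0xc1) (nat_lit 0) (p (nat_lit 0x81) (nat_lit 1) (p (nat_lit 0x41) (nat_lit 1) (p (nat_lit 0x8a0b0a89089a) (nat_lit 0) (p (nat_lit 0x98a8a08881a) (nat_lit 0) (p (nat_lit 0x89088988079a) (nat_lit 0) (p (nat_lit 0x8880907871a) (nat_lit 0) (p (nat_lit 0x80000800080887068a) (nat_lit 0) (p (nat_lit 0x8888068602) (nat_lit 0) (p (nat_lit 0x807860582) (nat_lit 0) (p (nat_lit 0x8607058502) (nat_lit 0) (p (nat_lit 0x586850482) (nat_lit 0) (p (nat_lit 0x160014) (nat_lit 0) (p (nat_lit 0x68612) (nat_lit 0) (p (nat_lit 0x50592) (nat_lit 0) (p (nat_lit 0x40512) (nat_lit 0) (p (nat_lit 0x50312) (nat_lit 0) (p (nat_lit 0x38292) (nat_lit 0) (p (nat_lit 0x28212)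 (nat_lit 0) (p (nat_lit 0x38112) (nat_lit 0) (p (nat_lit 0x20092) (nat_lit 0) (p (nat_lit 0x10012) (nat_lit 0) pn))))))))))))))))))))))))))))) :=
  Cl.node (nat_lit 0x20000c) (nat_lit 2) (by decide +kernel) (ClAll.succ (ClAll.succ ClAll.zero n92) s623)

def n120 : Cl (O (nat_lit 3)) (R (nat_lit 14353))
    (p (nat_lit 0x380c2) (nat_lit 1) (p (nat_lit 0x3c4aa) (nat_lit 10) (p (nat_lit 0xd1) (nat_lit 1) (p (nat_lit 0x111) (nat_lit 1) (p (nat_lit 0x109) (nat_lit 0) (p (nat_lit 0x101) (nat_lit 0) (p (nat_lit 0x119) (nat_lit 0) (p (nat_lit 0xc1) (nat_lit 0) (p (nat_lit 0x81) (nat_lit 1) (p (nat_lit 0x41) (nat_lit 1) (p (nat_lit 0x8a0b0a89089a) (nat_lit 0) (p (nat_lit 0x98a8a08881a) (nat_lit 0) (p (nat_lit 0x89088988079a) (nat_lit 0) (p (nat_lit 0x8880907871a) (nat_lit 0) (p (nat_lit 0x80000800080887068a) (nat_lit 0) (p (nat_lit 0x8888068602) (nat_lit 0) (p (nat_lit 0x807860582)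 (nat_lit 0) (p (nat_lit 0x8607058502) (nat_lit 0) (p (nat_lit 0x586850482) (nat_lit 0) (p (nat_lit 0x160014) (nat_lit 0) (p (nat_lit 0x68612) (nat_lit 0) (p (nat_lit 0x50592) (nat_lit 0) (p (nat_lit 0x40512) (nat_lit 0) (p (nat_lit 0x50312) (nat_lit 0) (p (nat_lit 0x38292) (nat_lit 0) (p (nat_lit 0x28212) (nat_lit 0) (p (nat_lit 0x38112) (nat_lit 0) (p (nat_lit 0x20092) (nat_lit 0) (p (nat_lit 0x10012) (nat_lit 0) pn))))))))))))))))))))))))))))) :=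
  Cl.node (nat_lit 0xb0014) (nat_lit 2) (by decide +kernel) (ClAll.succ (ClAll.succ ClAll.zero n93) s632)

def n121 : Cl (O (nat_lit 3)) (R (nat_lit 14353))
    (p (nat_lit 0x380c2) (nat_lit 0) (p (nat_lit 0x3c4aa) (nat_lit 7) (p (nat_lit 0xd1) (nat_lit 1) (p (nat_lit 0xc9) (nat_lit 0) (p (nat_lit 0x109) (nat_lit 1) (p (nat_lit 0x101) (nat_lit 0) (p (nat_lit 0x119) (nat_lit 0) (p (nat_lit 0xc1) (nat_lit 0) (p (nat_lit 0x81) (nat_lit 1) (p (nat_lit 0x41) (nat_lit 1) (p (nat_lit 0x8a0b0a89089a) (nat_lit 0) (p (nat_lit 0x98a8a08881a) (nat_lit 0) (p (nat_lit 0x89088988079a) (nat_lit 0) (p (nat_lit 0x8880907871a) (nat_lit 0) (p (nat_lit 0x80000800080887068a) (nat_lit 0) (p (nat_lit 0x8888068602) (nat_lit 0) (p (nat_lit 0x807860582) (nat_lit 0) (p (nat_lit 0x8607058502) (nat_lit 0) (p (nat_lit 0x586850482) (nat_lit 0) (p (nat_lit 0x160014) (nat_lit 0) (p (nat_lit 0x68612) (nat_lit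 0) (p (nat_lit 0x50592) (nat_lit 0) (p (nat_lit 0x40512) (nat_lit 0) (p (nat_lit 0x50312) (nat_lit 0) (p (nat_lit 0x38292) (nat_lit 0) (p (nat_lit 0x28212) (nat_lit 0) (p (nat_lit 0x38112) (nat_lit 0) (p (nat_lit 0x20092) (nat_lit 0) (p (nat_lit 0x10012) (nat_lit 0) pn))))))))))))))))))))))))))))) :=
  Cl.node (nat_lit 0x200004) (nat_lit 2) (by decide +kernel) (ClAll.succ (ClAll.succ ClAll.zero n94) s648)

def n122 : Cl (O (nat_lit 3)) (R (nat_lit 14353))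
    (p (nat_lit 0x380c2) (nat_lit 1) (p (nat_lit 0x3c4aa) (nat_lit 7) (p (nat_lit 0xd1) (nat_lit 1) (p (nat_lit 0xc9) (nat_lit 0) (p (nat_lit 0x109) (nat_lit 1) (p (nat_lit 0x101) (nat_lit 0) (p (nat_lit 0x119) (nat_lit 0) (p (nat_lit 0xc1) (nat_lit 0) (p (nat_lit 0x81) (nat_lit 1) (p (nat_lit 0x41) (nat_lit 1) (p (nat_lit 0x8a0b0a89089a) (nat_lit 0) (p (nat_lit 0x98a8a08881a) (nat_lit 0) (p (nat_lit 0x89088988079a) (nat_lit 0) (p (nat_lit 0x8880907871a) (nat_lit 0) (p (nat_lit 0x80000800080887068a) (nat_lit 0) (p (nat_lit 0x8888068602) (nat_lit 0) (p (nat_lit 0x807860582) (nat_lit 0) (p (nat_lit 0x8607058502) (nat_lit 0) (p (nat_lit 0x586850482) (nat_lit 0) (p (nat_lit 0x160014) (nat_lit 0) (p (nat_lit 0x68612) (nat_lit 0) (p (nat_lit 0x50592) (nat_lit 0) (p (nat_lit 0x40512) (nat_lit 0) (p (nat_lit 0x50312) (nat_lit 0) (p (nat_lit 0x38292) (nat_lit 0) (p (nat_lit 0x28212)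 (nat_lit 0) (p (nat_lit 0x38112) (nat_lit 0) (p (nat_lit 0x20092) (nat_lit 0) (p (nat_lit 0x10012) (nat_lit 0) pn))))))))))))))))))))))))))))) :=
  Cl.node (nat_lit 0x200004) (nat_lit 2) (by decide +kernel) (ClAll.succ (ClAll.succ ClAll.zero n95) s654)

def n123 : Cl (O (nat_lit 3)) (R (nat_lit 14353))
    (p (nat_lit 0x200004) (nat_lit 0) (p (nat_lit 0x380c2) (nat_lit 0) (p (nat_lit 0x3c4aa) (nat_lit 7) (p (nat_lit 0xd1) (nat_lit 1) (p (nat_lit 0xc9) (nat_lit 0) (p (nat_lit 0x101) (nat_lit 1) (p (nat_lit 0x119) (nat_lit 0) (p (nat_lit 0xc1) (nat_lit 0) (p (nat_lit 0x81) (nat_lit 1) (p (nat_lit 0x41) (nat_lit 1) (p (nat_lit 0x8a0b0a89089a) (nat_lit 0) (p (nat_lit 0x98a8a08881a) (nat_lit 0) (p (nat_lit 0x89088988079a) (nat_lit 0) (p (nat_lit 0x8880907871a) (nat_lit 0) (p (nat_lit 0x80000800080887068a) (nat_lit 0) (p (nat_lit 0x8888068602) (nat_lit 0) (p (nat_lit 0x807860582)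 (nat_lit 0) (p (nat_lit 0x8607058502) (nat_lit 0) (p (nat_lit 0x586850482) (nat_lit 0) (p (nat_lit 0x160014) (nat_lit 0) (p (nat_lit 0x68612) (nat_lit 0) (p (nat_lit 0x50592) (nat_lit 0) (p (nat_lit 0x40512) (nat_lit 0) (p (nat_lit 0x50312) (nat_lit 0) (p (nat_lit 0x38292) (nat_lit 0) (p (nat_lit 0x28212) (nat_lit 0) (p (nat_lit 0x38112) (nat_lit 0) (p (nat_lit 0x20092) (nat_lit 0) (p (nat_lit 0x10012) (nat_lit 0) pn))))))))))))))))))))))))))))) :=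
  Cl.node (nat_lit 0x20000c) (nat_lit 2) (by decide +kernel) (ClAll.succ (ClAll.succ ClAll.zero n96) s695)

def n124 : Cl (O (nat_lit 3)) (R (nat_lit 14353))
    (p (nat_lit 0x200004) (nat_lit 0) (p (nat_lit 0x380c2) (nat_lit 1) (p (nat_lit 0x3c4aa) (nat_lit 7) (p (nat_lit 0xd1) (nat_lit 1) (p (nat_lit 0xc9) (nat_lit 0) (p (nat_lit 0x101) (nat_lit 1) (p (nat_lit 0x119) (nat_lit 0) (p (nat_lit 0xc1) (nat_lit 0) (p (nat_lit 0x81) (nat_lit 1) (p (nat_lit 0x41) (nat_lit 1) (p (nat_lit 0x8a0b0a89089a) (nat_lit 0) (p (nat_lit 0x98a8a08881a) (nat_lit 0) (p (nat_lit 0x89088988079a) (nat_lit 0) (p (nat_lit 0x8880907871a) (nat_lit 0) (p (nat_lit 0x80000800080887068a) (nat_lit 0) (p (nat_lit 0x8888068602) (nat_lit 0) (p (nat_lit 0x807860582) (nat_lit 0) (p (nat_lit 0x8607058502) (nat_lit 0) (p (nat_lit 0x586850482) (nat_lit 0) (p (nat_lit 0x160014) (nat_lit 0) (p (nat_lit 0x68612)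 (nat_lit 0) (p (nat_lit 0x50592) (nat_lit 0) (p (nat_lit 0x40512) (nat_lit 0) (p (nat_lit 0x50312) (nat_lit 0) (p (nat_lit 0x38292) (nat_lit 0) (p (nat_lit 0x28212) (nat_lit 0) (p (nat_lit 0x38112) (nat_lit 0) (p (nat_lit 0x20092) (nat_lit 0) (p (nat_lit 0x10012) (nat_lit 0) pn))))))))))))))))))))))))))))) :=
  Cl.node (nat_lit 0x20000c) (nat_lit 2) (by decide +kernel) (ClAll.succ (ClAll.succ ClAll.zero n97) s710)

def n125 : Cl (O (nat_lit 3)) (R (nat_lit 14353))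
    (p (nat_lit 0xb0014) (nat_lit 0) (p (nat_lit 0x380c2) (nat_lit 1) (p (nat_lit 0x3c4aa) (nat_lit 7) (p (nat_lit 0x111) (nat_lit 1) (p (nat_lit 0xd1) (nat_lit 1) (p (nat_lit 0xc9) (nat_lit 0) (p (nat_lit 0x119) (nat_lit 1) (p (nat_lit 0xc1) (nat_lit 0) (p (nat_lit 0x81) (nat_lit 1) (p (nat_lit 0x41) (nat_lit 1) (p (nat_lit 0x8a0b0a89089a) (nat_lit 0) (p (nat_lit 0x98a8a08881a) (nat_lit 0) (p (nat_lit 0x89088988079a) (nat_lit 0) (p (nat_lit 0x8880907871a) (nat_lit 0) (p (nat_lit 0x80000800080887068a) (nat_lit 0) (p (nat_lit 0x8888068602) (nat_lit 0) (p (nat_lit 0x807860582) (nat_lit 0) (p (nat_lit 0x8607058502) (nat_lit 0) (p (nat_lit 0x586850482) (nat_lit 0) (p (nat_lit 0x160014) (nat_lit 0) (p (nat_lit 0x68612) (nat_lit 0) (p (nat_lit 0x50592) (nat_lit 0) (p (nat_lit 0x40512) (nat_lit 0) (p (nat_lit 0x50312) (nat_lit 0) (p (nat_lit 0x38292) (nat_lit 0) (p (nat_lit 0x28212)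 (nat_lit 0) (p (nat_lit 0x38112) (nat_lit 0) (p (nat_lit 0x20092) (nat_lit 0) (p (nat_lit 0x10012) (nat_lit 0) pn))))))))))))))))))))))))))))) :=
  Cl.node (nat_lit 0x20000c) (nat_lit 2) (by decide +kernel) (ClAll.succ (ClAll.succ ClAll.zero n98) s730)

def n126 : Cl (O (nat_lit 3)) (R (nat_lit 14353))
    (p (nat_lit 0x20000c) (nat_lit 0) (p (nat_lit 0x380c2) (nat_lit 1) (p (nat_lit 0x3c4aa) (nat_lit 7) (p (nat_lit 0x111) (nat_lit 1) (p (nat_lit 0x109) (nat_lit 0) (p (nat_lit 0xc9) (nat_lit 1) (p (nat_lit 0x119) (nat_lit 1) (p (nat_lit 0xc1) (nat_lit 0) (p (nat_lit 0x81) (nat_lit 1) (p (nat_lit 0x41) (nat_lit 1) (p (nat_lit 0x8a0b0a89089a) (nat_lit 0) (p (nat_lit 0x98a8a08881a) (nat_lit 0) (p (nat_lit 0x89088988079a) (nat_lit 0) (p (nat_lit 0x8880907871a) (nat_lit 0) (p (nat_lit 0x80000800080887068a) (nat_lit 0) (p (nat_lit 0x8888068602) (nat_lit 0) (p (nat_lit 0x807860582)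 (nat_lit 0) (p (nat_lit 0x8607058502) (nat_lit 0) (p (nat_lit 0x586850482) (nat_lit 0) (p (nat_lit 0x160014) (nat_lit 0) (p (nat_lit 0x68612) (nat_lit 0) (p (nat_lit 0x50592) (nat_lit 0) (p (nat_lit 0x40512) (nat_lit 0) (p (nat_lit 0x50312) (nat_lit 0) (p (nat_lit 0x38292) (nat_lit 0) (p (nat_lit 0x28212) (nat_lit 0) (p (nat_lit 0x38112) (nat_lit 0) (p (nat_lit 0x20092) (nat_lit 0) (p (nat_lit 0x10012) (nat_lit 0) pn))))))))))))))))))))))))))))) :=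
  Cl.node (nat_lit 0x200004) (nat_lit 2) (by decide +kernel) (ClAll.succ (ClAll.succ ClAll.zero n99) s761)

def n127 : Cl (O (nat_lit 3)) (R (nat_lit 14353))
    (p (nat_lit 0x444aa) (nat_lit 7) (p (nat_lit 0x81) (nat_lit 1) (p (nat_lit 0xc9) (nat_lit 1) (p (nat_lit 0x109) (nat_lit 1) (p (nat_lit 0x101) (nat_lit 0) (p (nat_lit 0x119) (nat_lit 0) (p (nat_lit 0xd1) (nat_lit 0) (p (nat_lit 0x89) (nat_lit 0) (p (nat_lit 0x41) (nat_lit 0) (p (nat_lit 0x8a0b0a89089a) (nat_lit 0) (p (nat_lit 0x98a8a08881a) (nat_lit 0) (p (nat_lit 0x89088988079a) (nat_lit 0) (p (nat_lit 0x8880907871a) (nat_lit 0) (p (nat_lit 0x80000800080887068a) (nat_lit 0) (p (nat_lit 0x8888068602) (nat_lit 0) (p (nat_lit 0x807860582) (nat_lit 0) (p (nat_lit 0x8607058502) (nat_lit 0) (p (nat_lit 0x586850482) (nat_lit 0) (p (nat_lit 0x160014) (nat_lit 0) (p (nat_lit 0x68612) (nat_lit 0) (p (nat_lit 0x50592) (nat_lit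 0) (p (nat_lit 0x40512) (nat_lit 0) (p (nat_lit 0x50312) (nat_lit 0) (p (nat_lit 0x38292) (nat_lit 0) (p (nat_lit 0x28212) (nat_lit 0) (p (nat_lit 0x38112) (nat_lit 0) (p (nat_lit 0x20092) (nat_lit 0) (p (nat_lit 0x10012) (nat_lit 0) pn)))))))))))))))))))))))))))) :=
  Cl.node (nat_lit 0x380c2) (nat_lit 2) (by decide +kernel) (ClAll.succ (ClAll.succ ClAll.zero n100) n101)

def n128 : Cl (O (nat_lit 3)) (R (nat_lit 14353))
    (p (nat_lit 0x444aa) (nat_lit 7) (p (nat_lit 0x111) (nat_lit 0) (p (nat_lit 0xc9) (nat_lit 1) (p (nat_lit 0x81) (nat_lit 0) (p (nat_lit 0x101) (nat_lit 1) (p (nat_lit 0x119) (nat_lit 0) (p (nat_lit 0xd1) (nat_lit 0) (p (nat_lit 0x89) (nat_lit 0) (p (nat_lit 0x41) (nat_lit 0) (p (nat_lit 0x8a0b0a89089a) (nat_lit 0) (p (nat_lit 0x98a8a08881a) (nat_lit 0) (p (nat_lit 0x89088988079a) (nat_lit 0) (p (nat_lit 0x8880907871a) (nat_lit 0) (p (nat_lit 0x80000800080887068a)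 (nat_lit 0) (p (nat_lit 0x8888068602) (nat_lit 0) (p (nat_lit 0x807860582) (nat_lit 0) (p (nat_lit 0x8607058502) (nat_lit 0) (p (nat_lit 0x586850482) (nat_lit 0) (p (nat_lit 0x160014) (nat_lit 0) (p (nat_lit 0x68612) (nat_lit 0) (p (nat_lit 0x50592) (nat_lit 0) (p (nat_lit 0x40512) (nat_lit 0) (p (nat_lit 0x50312) (nat_lit 0) (p (nat_lit 0x38292) (nat_lit 0) (p (nat_lit 0x28212) (nat_lit 0) (p (nat_lit 0x38112) (nat_lit 0) (p (nat_lit 0x20092) (nat_lit 0) (p (nat_lit 0x10012) (nat_lit 0) pn)))))))))))))))))))))))))))) :=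
  Cl.node (nat_lit 0x380c2) (nat_lit 2) (by decide +kernel) (ClAll.succ (ClAll.succ ClAll.zero n102) n103)

def n129 : Cl (O (nat_lit 3)) (R (nat_lit 14353))
    (p (nat_lit 0x4c42a) (nat_lit 2) (p (nat_lit 0xc9) (nat_lit 0) (p (nat_lit 0xc1) (nat_lit 0) (p (nat_lit 0x81) (nat_lit 1) (p (nat_lit 0x101) (nat_lit 1) (p (nat_lit 0x119) (nat_lit 0) (p (nat_lit 0xd1) (nat_lit 0) (p (nat_lit 0x89) (nat_lit 0) (p (nat_lit 0x41) (nat_lit 0) (p (nat_lit 0x8a0b0a89089a) (nat_lit 0) (p (nat_lit 0x98a8a08881a) (nat_lit 0) (p (nat_lit 0x89088988079a) (nat_lit 0) (p (nat_lit 0x8880907871a) (nat_lit 0) (p (nat_lit 0x80000800080887068a) (nat_lit 0) (p (nat_lit 0x8888068602) (nat_lit 0) (p (nat_lit 0x807860582) (nat_lit 0) (p (nat_lit 0x8607058502) (nat_lit 0) (p (nat_lit 0x586850482) (nat_lit 0) (p (nat_lit 0x160014) (nat_lit 0) (p (nat_lit 0x68612) (nat_lit 0) (p (nat_lit 0x50592) (nat_lit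 0) (p (nat_lit 0x40512) (nat_lit 0) (p (nat_lit 0x50312) (nat_lit 0) (p (nat_lit 0x38292) (nat_lit 0) (p (nat_lit 0x28212) (nat_lit 0) (p (nat_lit 0x38112) (nat_lit 0) (p (nat_lit 0x20092) (nat_lit 0) (p (nat_lit 0x10012) (nat_lit 0) pn)))))))))))))))))))))))))))) :=
  Cl.node (nat_lit 0x380c2) (nat_lit 2) (by decide +kernel) (ClAll.succ (ClAll.succ ClAll.zero s66) s67)

def n130 : Cl (O (nat_lit 3)) (R (nat_lit 14353))
    (p (nat_lit 0x444aa) (nat_lit 7) (p (nat_lit 0xc9) (nat_lit 1) (p (nat_lit 0xc1) (nat_lit 0) (p (nat_lit 0x81) (nat_lit 1) (p (nat_lit 0x101) (nat_lit 1) (p (nat_lit 0x119) (nat_lit 0) (p (nat_lit 0xd1) (nat_lit 0) (p (nat_lit 0x89) (nat_lit 0) (p (nat_lit 0x41) (nat_lit 0) (p (nat_lit 0x8a0b0a89089a) (nat_lit 0) (p (nat_lit 0x98a8a08881a) (nat_lit 0) (p (nat_lit 0x89088988079a) (nat_lit 0) (p (nat_lit 0x8880907871a) (nat_lit 0) (p (nat_lit 0x80000800080887068a)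 (nat_lit 0) (p (nat_lit 0x8888068602) (nat_lit 0) (p (nat_lit 0x807860582) (nat_lit 0) (p (nat_lit 0x8607058502) (nat_lit 0) (p (nat_lit 0x586850482) (nat_lit 0) (p (nat_lit 0x160014) (nat_lit 0) (p (nat_lit 0x68612) (nat_lit 0) (p (nat_lit 0x50592) (nat_lit 0) (p (nat_lit 0x40512) (nat_lit 0) (p (nat_lit 0x50312) (nat_lit 0) (p (nat_lit 0x38292) (nat_lit 0) (p (nat_lit 0x28212) (nat_lit 0) (p (nat_lit 0x38112) (nat_lit 0) (p (nat_lit 0x20092) (nat_lit 0) (p (nat_lit 0x10012) (nat_lit 0) pn)))))))))))))))))))))))))))) :=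
  Cl.node (nat_lit 0x380c2) (nat_lit 2) (by decide +kernel) (ClAll.succ (ClAll.succ ClAll.zero n104) s87)

def n131 : Cl (O (nat_lit 3)) (R (nat_lit 14353))
    (p (nat_lit 0x380c2) (nat_lit 1) (p (nat_lit 0x3cc2a) (nat_lit 10) (p (nat_lit 0x109) (nat_lit 1) (p (nat_lit 0xc9) (nat_lit 1) (p (nat_lit 0xc1) (nat_lit 0) (p (nat_lit 0x119) (nat_lit 1) (p (nat_lit 0xd1) (nat_lit 0) (p (nat_lit 0x89) (nat_lit 0) (p (nat_lit 0x41) (nat_lit 0) (p (nat_lit 0x8a0b0a89089a) (nat_lit 0) (p (nat_lit 0x98a8a08881a) (nat_lit 0) (p (nat_lit 0x89088988079a) (nat_lit 0) (p (nat_lit 0x8880907871a) (nat_lit 0) (p (nat_lit 0x80000800080887068a) (nat_lit 0) (p (nat_lit 0x8888068602) (nat_lit 0) (p (nat_lit 0x807860582) (nat_lit 0) (p (nat_lit 0x8607058502) (nat_lit 0) (p (nat_lit 0x586850482) (nat_lit 0) (p (nat_lit 0x160014) (nat_lit 0) (p (nat_lit 0x68612) (nat_lit 0) (p (nat_lit 0x50592) (nat_lit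 0) (p (nat_lit 0x40512) (nat_lit 0) (p (nat_lit 0x50312) (nat_lit 0) (p (nat_lit 0x38292) (nat_lit 0) (p (nat_lit 0x28212) (nat_lit 0) (p (nat_lit 0x38112) (nat_lit 0) (p (nat_lit 0x20092) (nat_lit 0) (p (nat_lit 0x10012) (nat_lit 0) pn)))))))))))))))))))))))))))) :=
  Cl.node (nat_lit 0x101) (nat_lit 2) (by decide +kernel) (ClAll.succ (ClAll.succ ClAll.zero s106) n105)

def n132 : Cl (O (nat_lit 3)) (R (nat_lit 14353))
    (p (nat_lit 0x44c2a) (nat_lit 0) (p (nat_lit 0x109) (nat_lit 0) (p (nat_lit 0x101) (nat_lit 0) (p (nat_lit 0x81) (nat_lit 1) (p (nat_lit 0xc1) (nat_lit 1) (p (nat_lit 0x119) (nat_lit 1) (p (nat_lit 0xd1) (nat_lit 0) (p (nat_lit 0x89) (nat_lit 0) (p (nat_lit 0x41) (nat_lit 0) (p (nat_lit 0x8a0b0a89089a) (nat_lit 0) (p (nat_lit 0x98a8a08881a) (nat_lit 0) (p (nat_lit 0x89088988079a) (nat_lit 0) (p (nat_lit 0x8880907871a) (nat_lit 0) (p (nat_lit 0x80000800080887068a)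 (nat_lit 0) (p (nat_lit 0x8888068602) (nat_lit 0) (p (nat_lit 0x807860582) (nat_lit 0) (p (nat_lit 0x8607058502) (nat_lit 0) (p (nat_lit 0x586850482) (nat_lit 0) (p (nat_lit 0x160014) (nat_lit 0) (p (nat_lit 0x68612) (nat_lit 0) (p (nat_lit 0x50592) (nat_lit 0) (p (nat_lit 0x40512) (nat_lit 0) (p (nat_lit 0x50312) (nat_lit 0) (p (nat_lit 0x38292) (nat_lit 0) (p (nat_lit 0x28212) (nat_lit 0) (p (nat_lit 0x38112) (nat_lit 0) (p (nat_lit 0x20092) (nat_lit 0) (p (nat_lit 0x10012) (nat_lit 0) pn)))))))))))))))))))))))))))) :=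
  Cl.node (nat_lit 0x380c2) (nat_lit 1) (by decide +kernel) (ClAll.succ ClAll.zero n106)

def n133 : Cl (O (nat_lit 3)) (R (nat_lit 14353))
    (p (nat_lit 0x44c2a) (nat_lit 2) (p (nat_lit 0x109) (nat_lit 0) (p (nat_lit 0x101) (nat_lit 0) (p (nat_lit 0x81) (nat_lit 1) (p (nat_lit 0xc1) (nat_lit 1) (p (nat_lit 0x119) (nat_lit 1) (p (nat_lit 0xd1) (nat_lit 0) (p (nat_lit 0x89) (nat_lit 0) (p (nat_lit 0x41) (nat_lit 0) (p (nat_lit 0x8a0b0a89089a) (nat_lit 0) (p (nat_lit 0x98a8a08881a) (nat_lit 0) (p (nat_lit 0x89088988079a) (nat_lit 0) (p (nat_lit 0x8880907871a) (nat_lit 0) (p (nat_lit 0x80000800080887068a) (nat_lit 0) (p (nat_lit 0x8888068602) (nat_lit 0) (p (nat_lit 0x807860582) (nat_lit 0) (p (nat_lit 0x8607058502) (nat_lit 0) (p (nat_lit 0x586850482) (nat_lit 0) (p (nat_lit 0x160014) (nat_lit 0) (p (nat_lit 0x68612) (nat_lit 0) (p (nat_lit 0x50592) (nat_lit 0) (p (nat_lit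 0x40512) (nat_lit 0) (p (nat_lit 0x50312) (nat_lit 0) (p (nat_lit 0x38292) (nat_lit 0) (p (nat_lit 0x28212) (nat_lit 0) (p (nat_lit 0x38112) (nat_lit 0) (p (nat_lit 0x20092) (nat_lit 0) (p (nat_lit 0x10012) (nat_lit 0) pn)))))))))))))))))))))))))))) :=
  Cl.node (nat_lit 0x380c2) (nat_lit 2) (by decide +kernel) (ClAll.succ (ClAll.succ ClAll.zero s138) s139)

def n134 : Cl (O (nat_lit 3)) (R (nat_lit 14353))
    (p (nat_lit 0x444aa) (nat_lit 7) (p (nat_lit 0x109) (nat_lit 1) (p (nat_lit 0x101) (nat_lit 0) (p (nat_lit 0x81) (nat_lit 1) (p (nat_lit 0xc1) (nat_lit 1) (p (nat_lit 0x119) (nat_lit 1) (p (nat_lit 0xd1) (nat_lit 0) (p (nat_lit 0x89) (nat_lit 0) (p (nat_lit 0x41) (nat_lit 0) (p (nat_lit 0x8a0b0a89089a) (nat_lit 0) (p (nat_lit 0x98a8a08881a) (nat_lit 0) (p (nat_lit 0x89088988079a) (nat_lit 0) (p (nat_lit 0x8880907871a) (nat_lit 0) (p (nat_lit 0x80000800080887068a)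 (nat_lit 0) (p (nat_lit 0x8888068602) (nat_lit 0) (p (nat_lit 0x807860582) (nat_lit 0) (p (nat_lit 0x8607058502) (nat_lit 0) (p (nat_lit 0x586850482) (nat_lit 0) (p (nat_lit 0x160014) (nat_lit 0) (p (nat_lit 0x68612) (nat_lit 0) (p (nat_lit 0x50592) (nat_lit 0) (p (nat_lit 0x40512) (nat_lit 0) (p (nat_lit 0x50312) (nat_lit 0) (p (nat_lit 0x38292) (nat_lit 0) (p (nat_lit 0x28212) (nat_lit 0) (p (nat_lit 0x38112) (nat_lit 0) (p (nat_lit 0x20092) (nat_lit 0) (p (nat_lit 0x10012) (nat_lit 0) pn)))))))))))))))))))))))))))) :=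
  Cl.node (nat_lit 0x380c2) (nat_lit 2) (by decide +kernel) (ClAll.succ (ClAll.succ ClAll.zero n107) s163)

def n135 : Cl (O (nat_lit 3)) (R (nat_lit 14353))
    (p (nat_lit 0x444aa) (nat_lit 8) (p (nat_lit 0x109) (nat_lit 1) (p (nat_lit 0x101) (nat_lit 0) (p (nat_lit 0x81) (nat_lit 1) (p (nat_lit 0xc1) (nat_lit 1) (p (nat_lit 0x119) (nat_lit 1) (p (nat_lit 0xd1) (nat_lit 0) (p (nat_lit 0x89) (nat_lit 0) (p (nat_lit 0x41) (nat_lit 0) (p (nat_lit 0x8a0b0a89089a) (nat_lit 0) (p (nat_lit 0x98a8a08881a) (nat_lit 0) (p (nat_lit 0x89088988079a) (nat_lit 0) (p (nat_lit 0x8880907871a) (nat_lit 0) (p (nat_lit 0x80000800080887068a) (nat_lit 0) (p (nat_lit 0x8888068602) (nat_lit 0) (p (nat_lit 0x807860582) (nat_lit 0) (p (nat_lit 0x8607058502) (nat_lit 0) (p (nat_lit 0x586850482) (nat_lit 0) (p (nat_lit 0x160014) (nat_lit 0) (p (nat_lit 0x68612) (nat_lit 0) (p (nat_lit 0x50592) (nat_lit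 0) (p (nat_lit 0x40512) (nat_lit 0) (p (nat_lit 0x50312) (nat_lit 0) (p (nat_lit 0x38292) (nat_lit 0) (p (nat_lit 0x28212) (nat_lit 0) (p (nat_lit 0x38112) (nat_lit 0) (p (nat_lit 0x20092) (nat_lit 0) (p (nat_lit 0x10012) (nat_lit 0) pn)))))))))))))))))))))))))))) :=
  Cl.node (nat_lit 0x380c2) (nat_lit 2) (by decide +kernel) (ClAll.succ (ClAll.succ ClAll.zero s164) s165)

def n136 : Cl (O (nat_lit 3)) (R (nat_lit 14353))
    (p (nat_lit 0x444aa) (nat_lit 7) (p (nat_lit 0x119) (nat_lit 0) (p (nat_lit 0xc1) (nat_lit 0) (p (nat_lit 0x81) (nat_lit 1) (p (nat_lit 0x101) (nat_lit 1) (p (nat_lit 0x111) (nat_lit 0) (p (nat_lit 0xd1) (nat_lit 1) (p (nat_lit 0x89) (nat_lit 0) (p (nat_lit 0x41) (nat_lit 0) (p (nat_lit 0x8a0b0a89089a) (nat_lit 0) (p (nat_lit 0x98a8a08881a) (nat_lit 0) (p (nat_lit 0x89088988079a) (nat_lit 0) (p (nat_lit 0x8880907871a) (nat_lit 0) (p (nat_lit 0x80000800080887068a)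 (nat_lit 0) (p (nat_lit 0x8888068602) (nat_lit 0) (p (nat_lit 0x807860582) (nat_lit 0) (p (nat_lit 0x8607058502) (nat_lit 0) (p (nat_lit 0x586850482) (nat_lit 0) (p (nat_lit 0x160014) (nat_lit 0) (p (nat_lit 0x68612) (nat_lit 0) (p (nat_lit 0x50592) (nat_lit 0) (p (nat_lit 0x40512) (nat_lit 0) (p (nat_lit 0x50312) (nat_lit 0) (p (nat_lit 0x38292) (nat_lit 0) (p (nat_lit 0x28212) (nat_lit 0) (p (nat_lit 0x38112) (nat_lit 0) (p (nat_lit 0x20092) (nat_lit 0) (p (nat_lit 0x10012) (nat_lit 0) pn)))))))))))))))))))))))))))) :=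
  Cl.node (nat_lit 0x380c2) (nat_lit 2) (by decide +kernel) (ClAll.succ (ClAll.succ ClAll.zero s197) s198)

def n137 : Cl (O (nat_lit 3)) (R (nat_lit 14353))
    (p (nat_lit 0x444aa) (nat_lit 7) (p (nat_lit 0xd1) (nat_lit 1) (p (nat_lit 0x111) (nat_lit 1) (p (nat_lit 0x109) (nat_lit 0) (p (nat_lit 0x101) (nat_lit 0) (p (nat_lit 0x119) (nat_lit 0) (p (nat_lit 0xc9) (nat_lit 0) (p (nat_lit 0x89) (nat_lit 1) (p (nat_lit 0x41) (nat_lit 0) (p (nat_lit 0x8a0b0a89089a) (nat_lit 0) (p (nat_lit 0x98a8a08881a) (nat_lit 0) (p (nat_lit 0x89088988079a) (nat_lit 0) (p (nat_lit 0x8880907871a) (nat_lit 0) (p (nat_lit 0x80000800080887068a) (nat_lit 0) (p (nat_lit 0x8888068602) (nat_lit 0) (p (nat_lit 0x807860582) (nat_lit 0) (p (nat_lit 0x8607058502) (nat_lit 0) (p (nat_lit 0x586850482) (nat_lit 0) (p (nat_lit 0x160014) (nat_lit 0) (p (nat_lit 0x68612) (nat_lit 0) (p (nat_lit 0x50592) (nat_lit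 0) (p (nat_lit 0x40512) (nat_lit 0) (p (nat_lit 0x50312) (nat_lit 0) (p (nat_lit 0x38292) (nat_lit 0) (p (nat_lit 0x28212) (nat_lit 0) (p (nat_lit 0x38112) (nat_lit 0) (p (nat_lit 0x20092) (nat_lit 0) (p (nat_lit 0x10012) (nat_lit 0) pn)))))))))))))))))))))))))))) :=
  Cl.node (nat_lit 0x380c2) (nat_lit 2) (by decide +kernel) (ClAll.succ (ClAll.succ ClAll.zero n108) n109)

def n138 : Cl (O (nat_lit 3)) (R (nat_lit 14353))
    (p (nat_lit 0x20000c) (nat_lit 0) (p (nat_lit 0x200004) (nat_lit 0) (p (nat_lit 0xd1) (nat_lit 0) (p (nat_lit 0x109) (nat_lit 1) (p (nat_lit 0x101) (nat_lit 0) (p (nat_lit 0x119) (nat_lit 0) (p (nat_lit 0xc9) (nat_lit 0) (p (nat_lit 0x89) (nat_lit 1) (p (nat_lit 0x41) (nat_lit 0) (p (nat_lit 0x8a0b0a89089a) (nat_lit 0) (p (nat_lit 0x98a8a08881a) (nat_lit 0) (p (nat_lit 0x89088988079a) (nat_lit 0) (p (nat_lit 0x8880907871a) (nat_lit 0) (p (nat_lit 0x80000800080887068a)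 (nat_lit 0) (p (nat_lit 0x8888068602) (nat_lit 0) (p (nat_lit 0x807860582) (nat_lit 0) (p (nat_lit 0x8607058502) (nat_lit 0) (p (nat_lit 0x586850482) (nat_lit 0) (p (nat_lit 0x160014) (nat_lit 0) (p (nat_lit 0x68612) (nat_lit 0) (p (nat_lit 0x50592) (nat_lit 0) (p (nat_lit 0x40512) (nat_lit 0) (p (nat_lit 0x50312) (nat_lit 0) (p (nat_lit 0x38292) (nat_lit 0) (p (nat_lit 0x28212) (nat_lit 0) (p (nat_lit 0x38112) (nat_lit 0) (p (nat_lit 0x20092) (nat_lit 0) (p (nat_lit 0x10012) (nat_lit 0) pn)))))))))))))))))))))))))))) :=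
  Cl.node (nat_lit 0x41) (nat_lit 2) (by decide +kernel) (ClAll.succ (ClAll.succ ClAll.zero n110) s253)

def n139 : Cl (O (nat_lit 3)) (R (nat_lit 14353))
    (p (nat_lit 0x380c2) (nat_lit 0) (p (nat_lit 0x444aa) (nat_lit 7) (p (nat_lit 0xd1) (nat_lit 1) (p (nat_lit 0x109) (nat_lit 1) (p (nat_lit 0x101) (nat_lit 0) (p (nat_lit 0x119) (nat_lit 0) (p (nat_lit 0xc9) (nat_lit 0) (p (nat_lit 0x89) (nat_lit 1) (p (nat_lit 0x41) (nat_lit 0) (p (nat_lit 0x8a0b0a89089a) (nat_lit 0) (p (nat_lit 0x98a8a08881a) (nat_lit 0) (p (nat_lit 0x89088988079a) (nat_lit 0) (p (nat_lit 0x8880907871a) (nat_lit 0) (p (nat_lit 0x80000800080887068a) (nat_lit 0) (p (nat_lit 0x8888068602) (nat_lit 0) (p (nat_lit 0x807860582) (nat_lit 0) (p (nat_lit 0x8607058502) (nat_lit 0) (p (nat_lit 0x586850482) (nat_lit 0) (p (nat_lit 0x160014) (nat_lit 0) (p (nat_lit 0x68612) (nat_lit 0) (p (nat_lit 0x50592) (nat_lit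 0) (p (nat_lit 0x40512) (nat_lit 0) (p (nat_lit 0x50312) (nat_lit 0) (p (nat_lit 0x38292) (nat_lit 0) (p (nat_lit 0x28212) (nat_lit 0) (p (nat_lit 0x38112) (nat_lit 0) (p (nat_lit 0x20092) (nat_lit 0) (p (nat_lit 0x10012) (nat_lit 0) pn)))))))))))))))))))))))))))) :=
  Cl.node (nat_lit 0x20000c) (nat_lit 2) (by decide +kernel) (ClAll.succ (ClAll.succ ClAll.zero n111) s270)

def n140 : Cl (O (nat_lit 3)) (R (nat_lit 14353))
    (p (nat_lit 0x380c2) (nat_lit 1) (p (nat_lit 0x444aa) (nat_lit 7) (p (nat_lit 0xd1) (nat_lit 1) (p (nat_lit 0x109) (nat_lit 1) (p (nat_lit 0x101) (nat_lit 0) (p (nat_lit 0x119) (nat_lit 0) (p (nat_lit 0xc9) (nat_lit 0) (p (nat_lit 0x89) (nat_lit 1) (p (nat_lit 0x41) (nat_lit 0) (p (nat_lit 0x8a0b0a89089a) (nat_lit 0) (p (nat_lit 0x98a8a08881a) (nat_lit 0) (p (nat_lit 0x89088988079a) (nat_lit 0) (p (nat_lit 0x8880907871a) (nat_lit 0) (p (nat_lit 0x80000800080887068a)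 (nat_lit 0) (p (nat_lit 0x8888068602) (nat_lit 0) (p (nat_lit 0x807860582) (nat_lit 0) (p (nat_lit 0x8607058502) (nat_lit 0) (p (nat_lit 0x586850482) (nat_lit 0) (p (nat_lit 0x160014) (nat_lit 0) (p (nat_lit 0x68612) (nat_lit 0) (p (nat_lit 0x50592) (nat_lit 0) (p (nat_lit 0x40512) (nat_lit 0) (p (nat_lit 0x50312) (nat_lit 0) (p (nat_lit 0x38292) (nat_lit 0) (p (nat_lit 0x28212) (nat_lit 0) (p (nat_lit 0x38112) (nat_lit 0) (p (nat_lit 0x20092) (nat_lit 0) (p (nat_lit 0x10012) (nat_lit 0) pn)))))))))))))))))))))))))))) :=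
  Cl.node (nat_lit 0x20000c) (nat_lit 2) (by decide +kernel) (ClAll.succ (ClAll.succ ClAll.zero n112) s277)

def n141 : Cl (O (nat_lit 3)) (R (nat_lit 14353))
    (p (nat_lit 0x20000c) (nat_lit 0) (p (nat_lit 0x200004) (nat_lit 0) (p (nat_lit 0xd1) (nat_lit 0) (p (nat_lit 0xc1) (nat_lit 0) (p (nat_lit 0x101) (nat_lit 1) (p (nat_lit 0x119) (nat_lit 0) (p (nat_lit 0xc9) (nat_lit 0) (p (nat_lit 0x89) (nat_lit 1) (p (nat_lit 0x41) (nat_lit 0) (p (nat_lit 0x8a0b0a89089a) (nat_lit 0) (p (nat_lit 0x98a8a08881a) (nat_lit 0) (p (nat_lit 0x89088988079a) (nat_lit 0) (p (nat_lit 0x8880907871a) (nat_lit 0) (p (nat_lit 0x80000800080887068a) (nat_lit 0) (p (nat_lit 0x8888068602) (nat_lit 0) (p (nat_lit 0x807860582) (nat_lit 0) (p (nat_lit 0x8607058502) (nat_lit 0) (p (nat_lit 0x586850482) (nat_lit 0) (p (nat_lit 0x160014) (nat_lit 0) (p (nat_lit 0x68612) (nat_lit 0) (p (nat_lit 0x50592)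 (nat_lit 0) (p (nat_lit 0x40512) (nat_lit 0) (p (nat_lit 0x50312) (nat_lit 0) (p (nat_lit 0x38292) (nat_lit 0) (p (nat_lit 0x28212) (nat_lit 0) (p (nat_lit 0x38112) (nat_lit 0) (p (nat_lit 0x20092) (nat_lit 0) (p (nat_lit 0x10012) (nat_lit 0) pn)))))))))))))))))))))))))))) :=
  Cl.node (nat_lit 0x109) (nat_lit 2) (by decide +kernel) (ClAll.succ (ClAll.succ ClAll.zero s282) s283)

def n142 : Cl (O (nat_lit 3)) (R (nat_lit 14353))
    (p (nat_lit 0x380c2) (nat_lit 0) (p (nat_lit 0x444aa) (nat_lit 7) (p (nat_lit 0xd1) (nat_lit 1) (p (nat_lit 0xc1) (nat_lit 0) (p (nat_lit 0x101) (nat_lit 1) (p (nat_lit 0x119) (nat_lit 0) (p (nat_lit 0xc9) (nat_lit 0) (p (nat_lit 0x89) (nat_lit 1) (p (nat_lit 0x41) (nat_lit 0) (p (nat_lit 0x8a0b0a89089a) (nat_lit 0) (p (nat_lit 0x98a8a08881a) (nat_lit 0) (p (nat_lit 0x89088988079a) (nat_lit 0) (p (nat_lit 0x8880907871a) (nat_lit 0) (p (nat_lit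 0x80000800080887068a) (nat_lit 0) (p (nat_lit 0x8888068602) (nat_lit 0) (p (nat_lit 0x807860582) (nat_lit 0) (p (nat_lit 0x8607058502) (nat_lit 0) (p (nat_lit 0x586850482) (nat_lit 0) (p (nat_lit 0x160014) (nat_lit 0) (p (nat_lit 0x68612) (nat_lit 0) (p (nat_lit 0x50592) (nat_lit 0) (p (nat_lit 0x40512) (nat_lit 0) (p (nat_lit 0x50312) (nat_lit 0) (p (nat_lit 0x38292) (nat_lit 0) (p (nat_lit 0x28212) (nat_lit 0) (p (nat_lit 0x38112) (nat_lit 0) (p (nat_lit 0x20092) (nat_lit 0) (p (nat_lit 0x10012) (nat_lit 0) pn)))))))))))))))))))))))))))) :=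
  Cl.node (nat_lit 0x20000c) (nat_lit 2) (by decide +kernel) (ClAll.succ (ClAll.succ ClAll.zero n113) s296)

def n143 : Cl (O (nat_lit 3)) (R (nat_lit 14353))
    (p (nat_lit 0x380c2) (nat_lit 0) (p (nat_lit 0x444aa) (nat_lit 7) (p (nat_lit 0x111) (nat_lit 1) (p (nat_lit 0xd1) (nat_lit 1) (p (nat_lit 0xc1) (nat_lit 0) (p (nat_lit 0x119) (nat_lit 1) (p (nat_lit 0xc9) (nat_lit 0) (p (nat_lit 0x89) (nat_lit 1) (p (nat_lit 0x41) (nat_lit 0) (p (nat_lit 0x8a0b0a89089a) (nat_lit 0) (p (nat_lit 0x98a8a08881a) (nat_lit 0) (p (nat_lit 0x89088988079a) (nat_lit 0) (p (nat_lit 0x8880907871a) (nat_lit 0) (p (nat_lit 0x80000800080887068a) (nat_lit 0) (p (nat_lit 0x8888068602) (nat_lit 0) (p (nat_lit 0x807860582) (nat_lit 0) (p (nat_lit 0x8607058502) (nat_lit 0) (p (nat_lit 0x586850482) (nat_lit 0) (p (nat_lit 0x160014) (nat_lit 0) (p (nat_lit 0x68612) (nat_lit 0) (p (nat_lit 0x50592)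 (nat_lit 0) (p (nat_lit 0x40512) (nat_lit 0) (p (nat_lit 0x50312) (nat_lit 0) (p (nat_lit 0x38292) (nat_lit 0) (p (nat_lit 0x28212) (nat_lit 0) (p (nat_lit 0x38112) (nat_lit 0) (p (nat_lit 0x20092) (nat_lit 0) (p (nat_lit 0x10012) (nat_lit 0) pn)))))))))))))))))))))))))))) :=
  Cl.node (nat_lit 0x200004) (nat_lit 2) (by decide +kernel) (ClAll.succ (ClAll.succ ClAll.zero n114) s316)

def n144 : Cl (O (nat_lit 3)) (R (nat_lit 14353))
    (p (nat_lit 0x380c2) (nat_lit 1) (p (nat_lit 0x444aa) (nat_lit 7) (p (nat_lit 0x111) (nat_lit 1) (p (nat_lit 0xd1) (nat_lit 1) (p (nat_lit 0xc1) (nat_lit 0) (p (nat_lit 0x119) (nat_lit 1) (p (nat_lit 0xc9) (nat_lit 0) (p (nat_lit 0x89) (nat_lit 1) (p (nat_lit 0x41) (nat_lit 0) (p (nat_lit 0x8a0b0a89089a) (nat_lit 0) (p (nat_lit 0x98a8a08881a) (nat_lit 0) (p (nat_lit 0x89088988079a) (nat_lit 0) (p (nat_lit 0x8880907871a) (nat_lit 0) (p (nat_lit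 0x80000800080887068a) (nat_lit 0) (p (nat_lit 0x8888068602) (nat_lit 0) (p (nat_lit 0x807860582) (nat_lit 0) (p (nat_lit 0x8607058502) (nat_lit 0) (p (nat_lit 0x586850482) (nat_lit 0) (p (nat_lit 0x160014) (nat_lit 0) (p (nat_lit 0x68612) (nat_lit 0) (p (nat_lit 0x50592) (nat_lit 0) (p (nat_lit 0x40512) (nat_lit 0) (p (nat_lit 0x50312) (nat_lit 0) (p (nat_lit 0x38292) (nat_lit 0) (p (nat_lit 0x28212) (nat_lit 0) (p (nat_lit 0x38112) (nat_lit 0) (p (nat_lit 0x20092) (nat_lit 0) (p (nat_lit 0x10012) (nat_lit 0) pn)))))))))))))))))))))))))))) :=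
  Cl.node (nat_lit 0x20000c) (nat_lit 2) (by decide +kernel) (ClAll.succ (ClAll.succ ClAll.zero n115) s319)

def n145 : Cl (O (nat_lit 3)) (R (nat_lit 14353))
    (p (nat_lit 0x380c2) (nat_lit 0) (p (nat_lit 0x444aa) (nat_lit 7) (p (nat_lit 0x111) (nat_lit 1) (p (nat_lit 0x101) (nat_lit 0) (p (nat_lit 0xc1) (nat_lit 1) (p (nat_lit 0x119) (nat_lit 1) (p (nat_lit 0xc9) (nat_lit 0) (p (nat_lit 0x89) (nat_lit 1) (p (nat_lit 0x41) (nat_lit 0) (p (nat_lit 0x8a0b0a89089a) (nat_lit 0) (p (nat_lit 0x98a8a08881a) (nat_lit 0) (p (nat_lit 0x89088988079a) (nat_lit 0) (p (nat_lit 0x8880907871a) (nat_lit 0) (p (nat_lit 0x80000800080887068a) (nat_lit 0) (p (nat_lit 0x8888068602) (nat_lit 0) (p (nat_lit 0x807860582) (nat_lit 0) (p (nat_lit 0x8607058502) (nat_lit 0) (p (nat_lit 0x586850482) (nat_lit 0) (p (nat_lit 0x160014) (nat_lit 0) (p (nat_lit 0x68612) (nat_lit 0) (p (nat_lit 0x50592)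 (nat_lit 0) (p (nat_lit 0x40512) (nat_lit 0) (p (nat_lit 0x50312) (nat_lit 0) (p (nat_lit 0x38292) (nat_lit 0) (p (nat_lit 0x28212) (nat_lit 0) (p (nat_lit 0x38112) (nat_lit 0) (p (nat_lit 0x20092) (nat_lit 0) (p (nat_lit 0x10012) (nat_lit 0) pn)))))))))))))))))))))))))))) :=
  Cl.node (nat_lit 0xb0014) (nat_lit 2) (by decide +kernel) (ClAll.succ (ClAll.succ ClAll.zero s343) s344)

def n146 : Cl (O (nat_lit 3)) (R (nat_lit 14353))
    (p (nat_lit 0x3c4aa) (nat_lit 7) (p (nat_lit 0x109) (nat_lit 1) (p (nat_lit 0x89) (nat_lit 1) (p (nat_lit 0xc9) (nat_lit 1) (p (nat_lit 0xc1) (nat_lit 0) (p (nat_lit 0x119) (nat_lit 1) (p (nat_lit 0xd1) (nat_lit 0) (p (nat_lit 0x81) (nat_lit 0) (p (nat_lit 0x41) (nat_lit 1) (p (nat_lit 0x8a0b0a89089a) (nat_lit 0) (p (nat_lit 0x98a8a08881a) (nat_lit 0) (p (nat_lit 0x89088988079a) (nat_lit 0) (p (nat_lit 0x8880907871a) (nat_lit 0) (p (nat_lit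 0x80000800080887068a) (nat_lit 0) (p (nat_lit 0x8888068602) (nat_lit 0) (p (nat_lit 0x807860582) (nat_lit 0) (p (nat_lit 0x8607058502) (nat_lit 0) (p (nat_lit 0x586850482) (nat_lit 0) (p (nat_lit 0x160014) (nat_lit 0) (p (nat_lit 0x68612) (nat_lit 0) (p (nat_lit 0x50592) (nat_lit 0) (p (nat_lit 0x40512) (nat_lit 0) (p (nat_lit 0x50312) (nat_lit 0) (p (nat_lit 0x38292) (nat_lit 0) (p (nat_lit 0x28212) (nat_lit 0) (p (nat_lit 0x38112) (nat_lit 0) (p (nat_lit 0x20092) (nat_lit 0) (p (nat_lit 0x10012) (nat_lit 0) pn)))))))))))))))))))))))))))) :=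
  Cl.node (nat_lit 0x380c2) (nat_lit 2) (by decide +kernel) (ClAll.succ (ClAll.succ ClAll.zero s475) s476)

def n147 : Cl (O (nat_lit 3)) (R (nat_lit 14353))
    (p (nat_lit 0x44c2a) (nat_lit 0) (p (nat_lit 0x109) (nat_lit 0) (p (nat_lit 0x89) (nat_lit 1) (p (nat_lit 0x101) (nat_lit 0) (p (nat_lit 0xc1) (nat_lit 1) (p (nat_lit 0x119) (nat_lit 1) (p (nat_lit 0xd1) (nat_lit 0) (p (nat_lit 0x81) (nat_lit 0) (p (nat_lit 0x41) (nat_lit 1) (p (nat_lit 0x8a0b0a89089a) (nat_lit 0) (p (nat_lit 0x98a8a08881a) (nat_lit 0) (p (nat_lit 0x89088988079a) (nat_lit 0) (p (nat_lit 0x8880907871a) (nat_lit 0) (p (nat_lit 0x80000800080887068a) (nat_lit 0) (p (nat_lit 0x8888068602) (nat_lit 0) (p (nat_lit 0x807860582) (nat_lit 0) (p (nat_lit 0x8607058502) (nat_lit 0) (p (nat_lit 0x586850482) (nat_lit 0) (p (nat_lit 0x160014) (nat_lit 0) (p (nat_lit 0x68612) (nat_lit 0) (p (nat_lit 0x50592) (nat_lit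 0) (p (nat_lit 0x40512) (nat_lit 0) (p (nat_lit 0x50312) (nat_lit 0) (p (nat_lit 0x38292) (nat_lit 0) (p (nat_lit 0x28212) (nat_lit 0) (p (nat_lit 0x38112) (nat_lit 0) (p (nat_lit 0x20092) (nat_lit 0) (p (nat_lit 0x10012) (nat_lit 0) pn)))))))))))))))))))))))))))) :=
  Cl.node (nat_lit 0x380c2) (nat_lit 1) (by decide +kernel) (ClAll.succ ClAll.zero n116)

def n148 : Cl (O (nat_lit 3)) (R (nat_lit 14353))
    (p (nat_lit 0x44c2a) (nat_lit 2) (p (nat_lit 0x109) (nat_lit 0) (p (nat_lit 0x89) (nat_lit 1) (p (nat_lit 0x101) (nat_lit 0) (p (nat_lit 0xc1) (nat_lit 1) (p (nat_lit 0x119) (nat_lit 1) (p (nat_lit 0xd1) (nat_lit 0) (p (nat_lit 0x81) (nat_lit 0) (p (nat_lit 0x41) (nat_lit 1) (p (nat_lit 0x8a0b0a89089a) (nat_lit 0) (p (nat_lit 0x98a8a08881a) (nat_lit 0) (p (nat_lit 0x89088988079a) (nat_lit 0) (p (nat_lit 0x8880907871a) (nat_lit 0) (p (nat_lit 0x80000800080887068a) (nat_lit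 0) (p (nat_lit 0x8888068602) (nat_lit 0) (p (nat_lit 0x807860582) (nat_lit 0) (p (nat_lit 0x8607058502) (nat_lit 0) (p (nat_lit 0x586850482) (nat_lit 0) (p (nat_lit 0x160014) (nat_lit 0) (p (nat_lit 0x68612) (nat_lit 0) (p (nat_lit 0x50592) (nat_lit 0) (p (nat_lit 0x40512) (nat_lit 0) (p (nat_lit 0x50312) (nat_lit 0) (p (nat_lit 0x38292) (nat_lit 0) (p (nat_lit 0x28212) (nat_lit 0) (p (nat_lit 0x38112) (nat_lit 0) (p (nat_lit 0x20092) (nat_lit 0) (p (nat_lit 0x10012) (nat_lit 0) pn)))))))))))))))))))))))))))) :=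
  Cl.node (nat_lit 0x380c2) (nat_lit 2) (by decide +kernel) (ClAll.succ (ClAll.succ ClAll.zero s485) s486)

def n149 : Cl (O (nat_lit 3)) (R (nat_lit 14353))
    (p (nat_lit 0x3c4aa) (nat_lit 7) (p (nat_lit 0x109) (nat_lit 1) (p (nat_lit 0x89) (nat_lit 1) (p (nat_lit 0x101) (nat_lit 0) (p (nat_lit 0xc1) (nat_lit 1) (p (nat_lit 0x119) (nat_lit 1) (p (nat_lit 0xd1) (nat_lit 0) (p (nat_lit 0x81) (nat_lit 0) (p (nat_lit 0x41) (nat_lit 1) (p (nat_lit 0x8a0b0a89089a) (nat_lit 0) (p (nat_lit 0x98a8a08881a) (nat_lit 0) (p (nat_lit 0x89088988079a) (nat_lit 0) (p (nat_lit 0x8880907871a) (nat_lit 0) (p (nat_lit 0x80000800080887068a) (nat_lit 0) (p (nat_lit 0x8888068602) (nat_lit 0) (p (nat_lit 0x807860582) (nat_lit 0) (p (nat_lit 0x8607058502) (nat_lit 0) (p (nat_lit 0x586850482) (nat_lit 0) (p (nat_lit 0x160014) (nat_lit 0) (p (nat_lit 0x68612) (nat_lit 0) (p (nat_lit 0x50592) (nat_lit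 0) (p (nat_lit 0x40512) (nat_lit 0) (p (nat_lit 0x50312) (nat_lit 0) (p (nat_lit 0x38292) (nat_lit 0) (p (nat_lit 0x28212) (nat_lit 0) (p (nat_lit 0x38112) (nat_lit 0) (p (nat_lit 0x20092) (nat_lit 0) (p (nat_lit 0x10012) (nat_lit 0) pn)))))))))))))))))))))))))))) :=
  Cl.node (nat_lit 0x380c2) (nat_lit 2) (by decide +kernel) (ClAll.succ (ClAll.succ ClAll.zero s503) s504)

def n150 : Cl (O (nat_lit 3)) (R (nat_lit 14353))
    (p (nat_lit 0x3c4aa) (nat_lit 10) (p (nat_lit 0x109) (nat_lit 1) (p (nat_lit 0x89) (nat_lit 1) (p (nat_lit 0x101) (nat_lit 0) (p (nat_lit 0xc1) (nat_lit 1) (p (nat_lit 0x119) (nat_lit 1) (p (nat_lit 0xd1) (nat_lit 0) (p (nat_lit 0x81) (nat_lit 0) (p (nat_lit 0x41) (nat_lit 1) (p (nat_lit 0x8a0b0a89089a) (nat_lit 0) (p (nat_lit 0x98a8a08881a) (nat_lit 0) (p (nat_lit 0x89088988079a) (nat_lit 0) (p (nat_lit 0x8880907871a) (nat_lit 0) (p (nat_lit 0x80000800080887068a)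 (nat_lit 0) (p (nat_lit 0x8888068602) (nat_lit 0) (p (nat_lit 0x807860582) (nat_lit 0) (p (nat_lit 0x8607058502) (nat_lit 0) (p (nat_lit 0x586850482) (nat_lit 0) (p (nat_lit 0x160014) (nat_lit 0) (p (nat_lit 0x68612) (nat_lit 0) (p (nat_lit 0x50592) (nat_lit 0) (p (nat_lit 0x40512) (nat_lit 0) (p (nat_lit 0x50312) (nat_lit 0) (p (nat_lit 0x38292) (nat_lit 0) (p (nat_lit 0x28212) (nat_lit 0) (p (nat_lit 0x38112) (nat_lit 0) (p (nat_lit 0x20092) (nat_lit 0) (p (nat_lit 0x10012) (nat_lit 0) pn)))))))))))))))))))))))))))) :=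
  Cl.node (nat_lit 0x380c2) (nat_lit 2) (by decide +kernel) (ClAll.succ (ClAll.succ ClAll.zero s507) s508)

def n151 : Cl (O (nat_lit 3)) (R (nat_lit 14353))
    (p (nat_lit 0x380c2) (nat_lit 1) (p (nat_lit 0x3c4aa) (nat_lit 10) (p (nat_lit 0x89) (nat_lit 1) (p (nat_lit 0x101) (nat_lit 1) (p (nat_lit 0xc1) (nat_lit 1) (p (nat_lit 0x119) (nat_lit 1) (p (nat_lit 0xd1) (nat_lit 0) (p (nat_lit 0x81) (nat_lit 0) (p (nat_lit 0x41) (nat_lit 1) (p (nat_lit 0x8a0b0a89089a) (nat_lit 0) (p (nat_lit 0x98a8a08881a) (nat_lit 0) (p (nat_lit 0x89088988079a) (nat_lit 0) (p (nat_lit 0x8880907871a) (nat_lit 0) (p (nat_lit 0x80000800080887068a) (nat_lit 0) (p (nat_lit 0x8888068602) (nat_lit 0) (p (nat_lit 0x807860582) (nat_lit 0) (p (nat_lit 0x8607058502) (nat_lit 0) (p (nat_lit 0x586850482) (nat_lit 0) (p (nat_lit 0x160014) (nat_lit 0) (p (nat_lit 0x68612) (nat_lit 0) (p (nat_lit 0x50592)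 (nat_lit 0) (p (nat_lit 0x40512) (nat_lit 0) (p (nat_lit 0x50312) (nat_lit 0) (p (nat_lit 0x38292) (nat_lit 0) (p (nat_lit 0x28212) (nat_lit 0) (p (nat_lit 0x38112) (nat_lit 0) (p (nat_lit 0x20092) (nat_lit 0) (p (nat_lit 0x10012) (nat_lit 0) pn)))))))))))))))))))))))))))) :=
  Cl.node (nat_lit 0xb0014) (nat_lit 2) (by decide +kernel) (ClAll.succ (ClAll.succ ClAll.zero n117) s525)

def n152 : Cl (O (nat_lit 3)) (R (nat_lit 14353))
    (p (nat_lit 0x119) (nat_lit 0) (p (nat_lit 0xc9) (nat_lit 0) (p (nat_lit 0x89) (nat_lit 1) (p (nat_lit 0x109) (nat_lit 1) (p (nat_lit 0x101) (nat_lit 0) (p (nat_lit 0x111) (nat_lit 0) (p (nat_lit 0xd1) (nat_lit 1) (p (nat_lit 0x81) (nat_lit 0) (p (nat_lit 0x41) (nat_lit 1) (p (nat_lit 0x8a0b0a89089a) (nat_lit 0) (p (nat_lit 0x98a8a08881a) (nat_lit 0) (p (nat_lit 0x89088988079a) (nat_lit 0) (p (nat_lit 0x8880907871a) (nat_lit 0) (p (nat_lit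 0x80000800080887068a) (nat_lit 0) (p (nat_lit 0x8888068602) (nat_lit 0) (p (nat_lit 0x807860582) (nat_lit 0) (p (nat_lit 0x8607058502) (nat_lit 0) (p (nat_lit 0x586850482) (nat_lit 0) (p (nat_lit 0x160014) (nat_lit 0) (p (nat_lit 0x68612) (nat_lit 0) (p (nat_lit 0x50592) (nat_lit 0) (p (nat_lit 0x40512) (nat_lit 0) (p (nat_lit 0x50312) (nat_lit 0) (p (nat_lit 0x38292) (nat_lit 0) (p (nat_lit 0x28212) (nat_lit 0) (p (nat_lit 0x38112) (nat_lit 0) (p (nat_lit 0x20092) (nat_lit 0) (p (nat_lit 0x10012) (nat_lit 0) pn)))))))))))))))))))))))))))) :=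
  Cl.node (nat_lit 0x4c42a) (nat_lit 12) (by decide +kernel) (ClAll.succ (ClAll.succ (ClAll.succ (ClAll.succ (ClAll.succ (ClAll.succ (ClAll.succ (ClAll.succ (ClAll.succ (ClAll.succ (ClAll.succ (ClAll.succ ClAll.zero s529) s530) s531) s532) s533) s534) s535) s536) s537) s538) s539) s540)

def n153 : Cl (O (nat_lit 3)) (R (nat_lit 14353))
    (p (nat_lit 0x3c4aa) (nat_lit 7) (p (nat_lit 0xd1) (nat_lit 1) (p (nat_lit 0x111) (nat_lit 1) (p (nat_lit 0x109) (nat_lit 0) (p (nat_lit 0x101) (nat_lit 0) (p (nat_lit 0x119) (nat_lit 0) (p (nat_lit 0xc1) (nat_lit 0) (p (nat_lit 0x81) (nat_lit 1) (p (nat_lit 0x41) (nat_lit 1) (p (nat_lit 0x8a0b0a89089a) (nat_lit 0) (p (nat_lit 0x98a8a08881a) (nat_lit 0) (p (nat_lit 0x89088988079a) (nat_lit 0) (p (nat_lit 0x8880907871a) (nat_lit 0) (p (nat_lit 0x80000800080887068a) (nat_lit 0) (p (nat_lit 0x8888068602) (nat_lit 0) (p (nat_lit 0x807860582)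 (nat_lit 0) (p (nat_lit 0x8607058502) (nat_lit 0) (p (nat_lit 0x586850482) (nat_lit 0) (p (nat_lit 0x160014) (nat_lit 0) (p (nat_lit 0x68612) (nat_lit 0) (p (nat_lit 0x50592) (nat_lit 0) (p (nat_lit 0x40512) (nat_lit 0) (p (nat_lit 0x50312) (nat_lit 0) (p (nat_lit 0x38292) (nat_lit 0) (p (nat_lit 0x28212) (nat_lit 0) (p (nat_lit 0x38112) (nat_lit 0) (p (nat_lit 0x20092) (nat_lit 0) (p (nat_lit 0x10012) (nat_lit 0) pn)))))))))))))))))))))))))))) :=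
  Cl.node (nat_lit 0x380c2) (nat_lit 2) (by decide +kernel) (ClAll.succ (ClAll.succ ClAll.zero n118) n119)

def n154 : Cl (O (nat_lit 3)) (R (nat_lit 14353))
    (p (nat_lit 0x3c4aa) (nat_lit 10) (p (nat_lit 0xd1) (nat_lit 1) (p (nat_lit 0x111) (nat_lit 1) (p (nat_lit 0x109) (nat_lit 0) (p (nat_lit 0x101) (nat_lit 0) (p (nat_lit 0x119) (nat_lit 0) (p (nat_lit 0xc1) (nat_lit 0) (p (nat_lit 0x81) (nat_lit 1) (p (nat_lit 0x41) (nat_lit 1) (p (nat_lit 0x8a0b0a89089a) (nat_lit 0) (p (nat_lit 0x98a8a08881a) (nat_lit 0) (p (nat_lit 0x89088988079a) (nat_lit 0) (p (nat_lit 0x8880907871a) (nat_lit 0) (p (nat_lit 0x80000800080887068a) (nat_lit 0) (p (nat_lit 0x8888068602) (nat_lit 0) (p (nat_lit 0x807860582) (nat_lit 0) (p (nat_lit 0x8607058502) (nat_lit 0) (p (nat_lit 0x586850482) (nat_lit 0) (p (nat_lit 0x160014) (nat_lit 0) (p (nat_lit 0x68612) (nat_lit 0) (p (nat_lit 0x50592) (nat_lit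 0) (p (nat_lit 0x40512) (nat_lit 0) (p (nat_lit 0x50312) (nat_lit 0) (p (nat_lit 0x38292) (nat_lit 0) (p (nat_lit 0x28212) (nat_lit 0) (p (nat_lit 0x38112) (nat_lit 0) (p (nat_lit 0x20092) (nat_lit 0) (p (nat_lit 0x10012) (nat_lit 0) pn)))))))))))))))))))))))))))) :=
  Cl.node (nat_lit 0x380c2) (nat_lit 2) (by decide +kernel) (ClAll.succ (ClAll.succ ClAll.zero s626) n120)

def n155 : Cl (O (nat_lit 3)) (R (nat_lit 14353))
    (p (nat_lit 0x3c4aa) (nat_lit 7) (p (nat_lit 0xd1) (nat_lit 1) (p (nat_lit 0xc9) (nat_lit 0) (p (nat_lit 0x109) (nat_lit 1) (p (nat_lit 0x101) (nat_lit 0) (p (nat_lit 0x119) (nat_lit 0) (p (nat_lit 0xc1) (nat_lit 0) (p (nat_lit 0x81) (nat_lit 1) (p (nat_lit 0x41) (nat_lit 1) (p (nat_lit 0x8a0b0a89089a) (nat_lit 0) (p (nat_lit 0x98a8a08881a) (nat_lit 0) (p (nat_lit 0x89088988079a) (nat_lit 0) (p (nat_lit 0x8880907871a) (nat_lit 0) (p (nat_lit 0x80000800080887068a)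 (nat_lit 0) (p (nat_lit 0x8888068602) (nat_lit 0) (p (nat_lit 0x807860582) (nat_lit 0) (p (nat_lit 0x8607058502) (nat_lit 0) (p (nat_lit 0x586850482) (nat_lit 0) (p (nat_lit 0x160014) (nat_lit 0) (p (nat_lit 0x68612) (nat_lit 0) (p (nat_lit 0x50592) (nat_lit 0) (p (nat_lit 0x40512) (nat_lit 0) (p (nat_lit 0x50312) (nat_lit 0) (p (nat_lit 0x38292) (nat_lit 0) (p (nat_lit 0x28212) (nat_lit 0) (p (nat_lit 0x38112) (nat_lit 0) (p (nat_lit 0x20092) (nat_lit 0) (p (nat_lit 0x10012) (nat_lit 0) pn)))))))))))))))))))))))))))) :=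
  Cl.node (nat_lit 0x380c2) (nat_lit 2) (by decide +kernel) (ClAll.succ (ClAll.succ ClAll.zero n121) n122)

def n156 : Cl (O (nat_lit 3)) (R (nat_lit 14353))
    (p (nat_lit 0x380c2) (nat_lit 0) (p (nat_lit 0x3c4aa) (nat_lit 7) (p (nat_lit 0xd1) (nat_lit 1) (p (nat_lit 0xc9) (nat_lit 0) (p (nat_lit 0x101) (nat_lit 1) (p (nat_lit 0x119) (nat_lit 0) (p (nat_lit 0xc1) (nat_lit 0) (p (nat_lit 0x81) (nat_lit 1) (p (nat_lit 0x41) (nat_lit 1) (p (nat_lit 0x8a0b0a89089a) (nat_lit 0) (p (nat_lit 0x98a8a08881a) (nat_lit 0) (p (nat_lit 0x89088988079a) (nat_lit 0) (p (nat_lit 0x8880907871a) (nat_lit 0) (p (nat_lit 0x80000800080887068a) (nat_lit 0) (p (nat_lit 0x8888068602) (nat_lit 0) (p (nat_lit 0x807860582) (nat_lit 0) (p (nat_lit 0x8607058502) (nat_lit 0) (p (nat_lit 0x586850482) (nat_lit 0) (p (nat_lit 0x160014) (nat_lit 0) (p (nat_lit 0x68612) (nat_lit 0) (p (nat_lit 0x50592) (nat_lit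 0) (p (nat_lit 0x40512) (nat_lit 0) (p (nat_lit 0x50312) (nat_lit 0) (p (nat_lit 0x38292) (nat_lit 0) (p (nat_lit 0x28212) (nat_lit 0) (p (nat_lit 0x38112) (nat_lit 0) (p (nat_lit 0x20092) (nat_lit 0) (p (nat_lit 0x10012) (nat_lit 0) pn)))))))))))))))))))))))))))) :=
  Cl.node (nat_lit 0x200004) (nat_lit 2) (by decide +kernel) (ClAll.succ (ClAll.succ ClAll.zero n123) s696)

def n157 : Cl (O (nat_lit 3)) (R (nat_lit 14353))
    (p (nat_lit 0x380c2) (nat_lit 1) (p (nat_lit 0x3c4aa) (nat_lit 7) (p (nat_lit 0xd1) (nat_lit 1) (p (nat_lit 0xc9) (nat_lit 0) (p (nat_lit 0x101) (nat_lit 1) (p (nat_lit 0x119) (nat_lit 0) (p (nat_lit 0xc1) (nat_lit 0) (p (nat_lit 0x81) (nat_lit 1) (p (nat_lit 0x41) (nat_lit 1) (p (nat_lit 0x8a0b0a89089a) (nat_lit 0) (p (nat_lit 0x98a8a08881a) (nat_lit 0) (p (nat_lit 0x89088988079a) (nat_lit 0) (p (nat_lit 0x8880907871a) (nat_lit 0) (p (nat_lit 0x80000800080887068a)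 (nat_lit 0) (p (nat_lit 0x8888068602) (nat_lit 0) (p (nat_lit 0x807860582) (nat_lit 0) (p (nat_lit 0x8607058502) (nat_lit 0) (p (nat_lit 0x586850482) (nat_lit 0) (p (nat_lit 0x160014) (nat_lit 0) (p (nat_lit 0x68612) (nat_lit 0) (p (nat_lit 0x50592) (nat_lit 0) (p (nat_lit 0x40512) (nat_lit 0) (p (nat_lit 0x50312) (nat_lit 0) (p (nat_lit 0x38292) (nat_lit 0) (p (nat_lit 0x28212) (nat_lit 0) (p (nat_lit 0x38112) (nat_lit 0) (p (nat_lit 0x20092) (nat_lit 0) (p (nat_lit 0x10012) (nat_lit 0) pn)))))))))))))))))))))))))))) :=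
  Cl.node (nat_lit 0x200004) (nat_lit 2) (by decide +kernel) (ClAll.succ (ClAll.succ ClAll.zero n124) s711)

def n158 : Cl (O (nat_lit 3)) (R (nat_lit 14353))
    (p (nat_lit 0x380c2) (nat_lit 1) (p (nat_lit 0x3c4aa) (nat_lit 7) (p (nat_lit 0x111) (nat_lit 1) (p (nat_lit 0xd1) (nat_lit 1) (p (nat_lit 0xc9) (nat_lit 0) (p (nat_lit 0x119) (nat_lit 1) (p (nat_lit 0xc1) (nat_lit 0) (p (nat_lit 0x81) (nat_lit 1) (p (nat_lit 0x41) (nat_lit 1) (p (nat_lit 0x8a0b0a89089a) (nat_lit 0) (p (nat_lit 0x98a8a08881a) (nat_lit 0) (p (nat_lit 0x89088988079a) (nat_lit 0) (p (nat_lit 0x8880907871a) (nat_lit 0) (p (nat_lit 0x80000800080887068a) (nat_lit 0) (p (nat_lit 0x8888068602) (nat_lit 0) (p (nat_lit 0x807860582) (nat_lit 0) (p (nat_lit 0x8607058502) (nat_lit 0) (p (nat_lit 0x586850482) (nat_lit 0) (p (nat_lit 0x160014) (nat_lit 0) (p (nat_lit 0x68612) (nat_lit 0) (p (nat_lit 0x50592)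 (nat_lit 0) (p (nat_lit 0x40512) (nat_lit 0) (p (nat_lit 0x50312) (nat_lit 0) (p (nat_lit 0x38292) (nat_lit 0) (p (nat_lit 0x28212) (nat_lit 0) (p (nat_lit 0x38112) (nat_lit 0) (p (nat_lit 0x20092) (nat_lit 0) (p (nat_lit 0x10012) (nat_lit 0) pn)))))))))))))))))))))))))))) :=
  Cl.node (nat_lit 0xb0014) (nat_lit 2) (by decide +kernel) (ClAll.succ (ClAll.succ ClAll.zero n125) s731)

def n159 : Cl (O (nat_lit 3)) (R (nat_lit 14353))
    (p (nat_lit 0x380c2) (nat_lit 1) (p (nat_lit 0x3c4aa) (nat_lit 7) (p (nat_lit 0x111) (nat_lit 1) (p (nat_lit 0x109) (nat_lit 0) (p (nat_lit 0xc9) (nat_lit 1) (p (nat_lit 0x119) (nat_lit 1) (p (nat_lit 0xc1) (nat_lit 0) (p (nat_lit 0x81) (nat_lit 1) (p (nat_lit 0x41) (nat_lit 1) (p (nat_lit 0x8a0b0a89089a) (nat_lit 0) (p (nat_lit 0x98a8a08881a) (nat_lit 0) (p (nat_lit 0x89088988079a) (nat_lit 0) (p (nat_lit 0x8880907871a) (nat_lit 0) (p (nat_lit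 0x80000800080887068a) (nat_lit 0) (p (nat_lit 0x8888068602) (nat_lit 0) (p (nat_lit 0x807860582) (nat_lit 0) (p (nat_lit 0x8607058502) (nat_lit 0) (p (nat_lit 0x586850482) (nat_lit 0) (p (nat_lit 0x160014) (nat_lit 0) (p (nat_lit 0x68612) (nat_lit 0) (p (nat_lit 0x50592) (nat_lit 0) (p (nat_lit 0x40512) (nat_lit 0) (p (nat_lit 0x50312) (nat_lit 0) (p (nat_lit 0x38292) (nat_lit 0) (p (nat_lit 0x28212) (nat_lit 0) (p (nat_lit 0x38112) (nat_lit 0) (p (nat_lit 0x20092) (nat_lit 0) (p (nat_lit 0x10012) (nat_lit 0) pn)))))))))))))))))))))))))))) :=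
  Cl.node (nat_lit 0x20000c) (nat_lit 2) (by decide +kernel) (ClAll.succ (ClAll.succ ClAll.zero n126) s762)

def n160 : Cl (O (nat_lit 3)) (R (nat_lit 14353))
    (p (nat_lit 0x81) (nat_lit 1) (p (nat_lit 0xc9) (nat_lit 1) (p (nat_lit 0x109) (nat_lit 1) (p (nat_lit 0x101) (nat_lit 0) (p (nat_lit 0x119) (nat_lit 0) (p (nat_lit 0xd1) (nat_lit 0) (p (nat_lit 0x89) (nat_lit 0) (p (nat_lit 0x41) (nat_lit 0) (p (nat_lit 0x8a0b0a89089a) (nat_lit 0) (p (nat_lit 0x98a8a08881a) (nat_lit 0) (p (nat_lit 0x89088988079a) (nat_lit 0) (p (nat_lit 0x8880907871a) (nat_lit 0) (p (nat_lit 0x80000800080887068a) (nat_lit 0) (p (nat_lit 0x8888068602) (nat_lit 0) (p (nat_lit 0x807860582) (nat_lit 0) (p (nat_lit 0x8607058502) (nat_lit 0) (p (nat_lit 0x586850482) (nat_lit 0) (p (nat_lit 0x160014) (nat_lit 0) (p (nat_lit 0x68612) (nat_lit 0) (p (nat_lit 0x50592) (nat_lit 0) (p (nat_lit 0x40512) (nat_lit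 0) (p (nat_lit 0x50312) (nat_lit 0) (p (nat_lit 0x38292) (nat_lit 0) (p (nat_lit 0x28212) (nat_lit 0) (p (nat_lit 0x38112) (nat_lit 0) (p (nat_lit 0x20092) (nat_lit 0) (p (nat_lit 0x10012) (nat_lit 0) pn))))))))))))))))))))))))))) :=
  Cl.node (nat_lit 0x444aa) (nat_lit 12) (by decide +kernel) (ClAll.succ (ClAll.succ (ClAll.succ (ClAll.succ (ClAll.succ (ClAll.succ (ClAll.succ (ClAll.succ (ClAll.succ (ClAll.succ (ClAll.succ (ClAll.succ ClAll.zero s3) s4) s5) s6) s7) s8) s9) n127) s24) s25) s26) s27)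

def n161 : Cl (O (nat_lit 3)) (R (nat_lit 14353))
    (p (nat_lit 0x111) (nat_lit 0) (p (nat_lit 0xc9) (nat_lit 0) (p (nat_lit 0x81) (nat_lit 0) (p (nat_lit 0x101) (nat_lit 1) (p (nat_lit 0x119) (nat_lit 0) (p (nat_lit 0xd1) (nat_lit 0) (p (nat_lit 0x89) (nat_lit 0) (p (nat_lit 0x41) (nat_lit 0) (p (nat_lit 0x8a0b0a89089a) (nat_lit 0) (p (nat_lit 0x98a8a08881a) (nat_lit 0) (p (nat_lit 0x89088988079a) (nat_lit 0) (p (nat_lit 0x8880907871a) (nat_lit 0) (p (nat_lit 0x80000800080887068a) (nat_lit 0) (p (nat_lit 0x8888068602) (nat_lit 0) (p (nat_lit 0x807860582) (nat_lit 0) (p (nat_lit 0x8607058502) (nat_lit 0) (p (nat_lit 0x586850482) (nat_lit 0) (p (nat_lit 0x160014) (nat_lit 0) (p (nat_lit 0x68612) (nat_lit 0) (p (nat_lit 0x50592) (nat_lit 0) (p (nat_lit 0x40512) (nat_lit 0) (p (nat_lit 0x50312) (nat_lit 0) (p (nat_lit 0x38292) (nat_lit 0) (p (nat_lit 0x28212) (nat_lit 0)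 (p (nat_lit 0x38112) (nat_lit 0) (p (nat_lit 0x20092) (nat_lit 0) (p (nat_lit 0x10012) (nat_lit 0) pn))))))))))))))))))))))))))) :=
  Cl.node (nat_lit 0x4c42a) (nat_lit 12) (by decide +kernel) (ClAll.succ (ClAll.succ (ClAll.succ (ClAll.succ (ClAll.succ (ClAll.succ (ClAll.succ (ClAll.succ (ClAll.succ (ClAll.succ (ClAll.succ (ClAll.succ ClAll.zero s28) s29) s30) s31) s32) s33) s34) s35) s36) s37) s38) s39)

def n162 : Cl (O (nat_lit 3)) (R (nat_lit 14353))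
    (p (nat_lit 0x111) (nat_lit 0) (p (nat_lit 0xc9) (nat_lit 1) (p (nat_lit 0x81) (nat_lit 0) (p (nat_lit 0x101) (nat_lit 1) (p (nat_lit 0x119) (nat_lit 0) (p (nat_lit 0xd1) (nat_lit 0) (p (nat_lit 0x89) (nat_lit 0) (p (nat_lit 0x41) (nat_lit 0) (p (nat_lit 0x8a0b0a89089a) (nat_lit 0) (p (nat_lit 0x98a8a08881a) (nat_lit 0) (p (nat_lit 0x89088988079a) (nat_lit 0) (p (nat_lit 0x8880907871a) (nat_lit 0) (p (nat_lit 0x80000800080887068a) (nat_lit 0) (p (nat_lit 0x8888068602) (nat_lit 0) (p (nat_lit 0x807860582) (nat_lit 0) (p (nat_lit 0x8607058502) (nat_lit 0) (p (nat_lit 0x586850482) (nat_lit 0) (p (nat_lit 0x160014) (nat_lit 0) (p (nat_lit 0x68612) (nat_lit 0) (p (nat_lit 0x50592) (nat_lit 0) (p (nat_lit 0x40512) (nat_lit 0) (p (nat_lit 0x50312) (nat_lit 0) (p (nat_lit 0x38292) (nat_lit 0) (p (nat_lit 0x28212) (nat_lit 0) (p (nat_lit 0x38112) (nat_lit 0) (p (nat_lit 0x20092)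 (nat_lit 0) (p (nat_lit 0x10012) (nat_lit 0) pn))))))))))))))))))))))))))) :=
  Cl.node (nat_lit 0x444aa) (nat_lit 12) (by decide +kernel) (ClAll.succ (ClAll.succ (ClAll.succ (ClAll.succ (ClAll.succ (ClAll.succ (ClAll.succ (ClAll.succ (ClAll.succ (ClAll.succ (ClAll.succ (ClAll.succ ClAll.zero s41) s42) s43) s44) s45) s46) s47) n128) s59) s60) s61) s62)

def n163 : Cl (O (nat_lit 3)) (R (nat_lit 14353))
    (p (nat_lit 0xc9) (nat_lit 0) (p (nat_lit 0xc1) (nat_lit 0) (p (nat_lit 0x81) (nat_lit 1) (p (nat_lit 0x101) (nat_lit 1) (p (nat_lit 0x119) (nat_lit 0) (p (nat_lit 0xd1) (nat_lit 0) (p (nat_lit 0x89) (nat_lit 0) (p (nat_lit 0x41) (nat_lit 0) (p (nat_lit 0x8a0b0a89089a) (nat_lit 0) (p (nat_lit 0x98a8a08881a) (nat_lit 0) (p (nat_lit 0x89088988079a) (nat_lit 0) (p (nat_lit 0x8880907871a) (nat_lit 0) (p (nat_lit 0x80000800080887068a) (nat_lit 0) (p (nat_lit 0x8888068602) (nat_lit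 0) (p (nat_lit 0x807860582) (nat_lit 0) (p (nat_lit 0x8607058502) (nat_lit 0) (p (nat_lit 0x586850482) (nat_lit 0) (p (nat_lit 0x160014) (nat_lit 0) (p (nat_lit 0x68612) (nat_lit 0) (p (nat_lit 0x50592) (nat_lit 0) (p (nat_lit 0x40512) (nat_lit 0) (p (nat_lit 0x50312) (nat_lit 0) (p (nat_lit 0x38292) (nat_lit 0) (p (nat_lit 0x28212) (nat_lit 0) (p (nat_lit 0x38112) (nat_lit 0) (p (nat_lit 0x20092) (nat_lit 0) (p (nat_lit 0x10012) (nat_lit 0) pn))))))))))))))))))))))))))) :=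
  Cl.node (nat_lit 0x4c42a) (nat_lit 12) (by decide +kernel) (ClAll.succ (ClAll.succ (ClAll.succ (ClAll.succ (ClAll.succ (ClAll.succ (ClAll.succ (ClAll.succ (ClAll.succ (ClAll.succ (ClAll.succ (ClAll.succ ClAll.zero s64) s65) n129) s68) s69) s70) s71) s72) s73) s74) s75) s76)

def n164 : Cl (O (nat_lit 3)) (R (nat_lit 14353))
    (p (nat_lit 0xc9) (nat_lit 1) (p (nat_lit 0xc1) (nat_lit 0) (p (nat_lit 0x81) (nat_lit 1) (p (nat_lit 0x101) (nat_lit 1) (p (nat_lit 0x119) (nat_lit 0) (p (nat_lit 0xd1) (nat_lit 0) (p (nat_lit 0x89) (nat_lit 0) (p (nat_lit 0x41) (nat_lit 0) (p (nat_lit 0x8a0b0a89089a) (nat_lit 0) (p (nat_lit 0x98a8a08881a) (nat_lit 0) (p (nat_lit 0x89088988079a) (nat_lit 0) (p (nat_lit 0x8880907871a) (nat_lit 0) (p (nat_lit 0x80000800080887068a) (nat_lit 0) (p (nat_lit 0x8888068602) (nat_lit 0) (p (nat_lit 0x807860582) (nat_lit 0) (p (nat_lit 0x8607058502) (nat_lit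 0) (p (nat_lit 0x586850482) (nat_lit 0) (p (nat_lit 0x160014) (nat_lit 0) (p (nat_lit 0x68612) (nat_lit 0) (p (nat_lit 0x50592) (nat_lit 0) (p (nat_lit 0x40512) (nat_lit 0) (p (nat_lit 0x50312) (nat_lit 0) (p (nat_lit 0x38292) (nat_lit 0) (p (nat_lit 0x28212) (nat_lit 0) (p (nat_lit 0x38112) (nat_lit 0) (p (nat_lit 0x20092) (nat_lit 0) (p (nat_lit 0x10012) (nat_lit 0) pn))))))))))))))))))))))))))) :=
  Cl.node (nat_lit 0x444aa) (nat_lit 12) (by decide +kernel) (ClAll.succ (ClAll.succ (ClAll.succ (ClAll.succ (ClAll.succ (ClAll.succ (ClAll.succ (ClAll.succ (ClAll.succ (ClAll.succ (ClAll.succ (ClAll.succ ClAll.zero s77) s78) s79) s80) s81) s82) s83) n130) s88) s89) s90) s91)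

def n165 : Cl (O (nat_lit 3)) (R (nat_lit 14353))
    (p (nat_lit 0x3cc2a) (nat_lit 10) (p (nat_lit 0x109) (nat_lit 1) (p (nat_lit 0xc9) (nat_lit 1) (p (nat_lit 0xc1) (nat_lit 0) (p (nat_lit 0x119) (nat_lit 1) (p (nat_lit 0xd1) (nat_lit 0) (p (nat_lit 0x89) (nat_lit 0) (p (nat_lit 0x41) (nat_lit 0) (p (nat_lit 0x8a0b0a89089a) (nat_lit 0) (p (nat_lit 0x98a8a08881a) (nat_lit 0) (p (nat_lit 0x89088988079a) (nat_lit 0) (p (nat_lit 0x8880907871a) (nat_lit 0) (p (nat_lit 0x80000800080887068a) (nat_lit 0) (p (nat_lit 0x8888068602) (nat_lit 0) (p (nat_lit 0x807860582) (nat_lit 0) (p (nat_lit 0x8607058502) (nat_lit 0) (p (nat_lit 0x586850482) (nat_lit 0) (p (nat_lit 0x160014) (nat_lit 0) (p (nat_lit 0x68612) (nat_lit 0) (p (nat_lit 0x50592) (nat_lit 0) (p (nat_lit 0x40512) (nat_lit 0) (p (nat_lit 0x50312) (nat_lit 0) (p (nat_lit 0x38292) (nat_lit 0) (p (nat_lit 0x28212) (nat_lit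 0) (p (nat_lit 0x38112) (nat_lit 0) (p (nat_lit 0x20092) (nat_lit 0) (p (nat_lit 0x10012) (nat_lit 0) pn))))))))))))))))))))))))))) :=
  Cl.node (nat_lit 0x380c2) (nat_lit 2) (by decide +kernel) (ClAll.succ (ClAll.succ ClAll.zero s105) n131)

def n166 : Cl (O (nat_lit 3)) (R (nat_lit 14353))
    (p (nat_lit 0x109) (nat_lit 0) (p (nat_lit 0x101) (nat_lit 0) (p (nat_lit 0x81) (nat_lit 1) (p (nat_lit 0xc1) (nat_lit 1) (p (nat_lit 0x119) (nat_lit 1) (p (nat_lit 0xd1) (nat_lit 0) (p (nat_lit 0x89) (nat_lit 0) (p (nat_lit 0x41) (nat_lit 0) (p (nat_lit 0x8a0b0a89089a) (nat_lit 0) (p (nat_lit 0x98a8a08881a) (nat_lit 0) (p (nat_lit 0x89088988079a) (nat_lit 0) (p (nat_lit 0x8880907871a) (nat_lit 0) (p (nat_lit 0x80000800080887068a) (nat_lit 0) (p (nat_lit 0x8888068602) (nat_lit 0) (p (nat_lit 0x807860582) (nat_lit 0) (p (nat_lit 0x8607058502) (nat_lit 0) (p (nat_lit 0x586850482) (nat_lit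 0) (p (nat_lit 0x160014) (nat_lit 0) (p (nat_lit 0x68612) (nat_lit 0) (p (nat_lit 0x50592) (nat_lit 0) (p (nat_lit 0x40512) (nat_lit 0) (p (nat_lit 0x50312) (nat_lit 0) (p (nat_lit 0x38292) (nat_lit 0) (p (nat_lit 0x28212) (nat_lit 0) (p (nat_lit 0x38112) (nat_lit 0) (p (nat_lit 0x20092) (nat_lit 0) (p (nat_lit 0x10012) (nat_lit 0) pn))))))))))))))))))))))))))) :=
  Cl.node (nat_lit 0x44c2a) (nat_lit 12) (by decide +kernel) (ClAll.succ (ClAll.succ (ClAll.succ (ClAll.succ (ClAll.succ (ClAll.succ (ClAll.succ (ClAll.succ (ClAll.succ (ClAll.succ (ClAll.succ (ClAll.succ ClAll.zero n132) s137) n133) s140) s141) s142) s143) s144) s145) s146) s147) s148)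

def n167 : Cl (O (nat_lit 3)) (R (nat_lit 14353))
    (p (nat_lit 0x109) (nat_lit 1) (p (nat_lit 0x101) (nat_lit 0) (p (nat_lit 0x81) (nat_lit 1) (p (nat_lit 0xc1) (nat_lit 1) (p (nat_lit 0x119) (nat_lit 1) (p (nat_lit 0xd1) (nat_lit 0) (p (nat_lit 0x89) (nat_lit 0) (p (nat_lit 0x41) (nat_lit 0) (p (nat_lit 0x8a0b0a89089a) (nat_lit 0) (p (nat_lit 0x98a8a08881a) (nat_lit 0) (p (nat_lit 0x89088988079a) (nat_lit 0) (p (nat_lit 0x8880907871a) (nat_lit 0) (p (nat_lit 0x80000800080887068a) (nat_lit 0) (p (nat_lit 0x8888068602) (nat_lit 0) (p (nat_lit 0x807860582) (nat_lit 0) (p (nat_lit 0x8607058502) (nat_lit 0) (p (nat_lit 0x586850482) (nat_lit 0) (p (nat_lit 0x160014) (nat_lit 0) (p (nat_lit 0x68612) (nat_lit 0) (p (nat_lit 0x50592) (nat_lit 0) (p (nat_lit 0x40512) (nat_lit 0) (p (nat_lit 0x50312) (nat_lit 0) (p (nat_lit 0x38292) (nat_lit 0) (p (nat_lit 0x28212) (nat_lit 0)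 (p (nat_lit 0x38112) (nat_lit 0) (p (nat_lit 0x20092) (nat_lit 0) (p (nat_lit 0x10012) (nat_lit 0) pn))))))))))))))))))))))))))) :=
  Cl.node (nat_lit 0x444aa) (nat_lit 12) (by decide +kernel) (ClAll.succ (ClAll.succ (ClAll.succ (ClAll.succ (ClAll.succ (ClAll.succ (ClAll.succ (ClAll.succ (ClAll.succ (ClAll.succ (ClAll.succ (ClAll.succ ClAll.zero s149) s150) s151) s152) s153) s154) s155) n134) n135) s166) s167) s168)

def n168 : Cl (O (nat_lit 3)) (R (nat_lit 14353))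
    (p (nat_lit 0x444aa) (nat_lit 7) (p (nat_lit 0x101) (nat_lit 1) (p (nat_lit 0x81) (nat_lit 1) (p (nat_lit 0xc1) (nat_lit 1) (p (nat_lit 0x119) (nat_lit 1) (p (nat_lit 0xd1) (nat_lit 0) (p (nat_lit 0x89) (nat_lit 0) (p (nat_lit 0x41) (nat_lit 0) (p (nat_lit 0x8a0b0a89089a) (nat_lit 0) (p (nat_lit 0x98a8a08881a) (nat_lit 0) (p (nat_lit 0x89088988079a) (nat_lit 0) (p (nat_lit 0x8880907871a) (nat_lit 0) (p (nat_lit 0x80000800080887068a) (nat_lit 0) (p (nat_lit 0x8888068602) (nat_lit 0) (p (nat_lit 0x807860582) (nat_lit 0) (p (nat_lit 0x8607058502) (nat_lit 0) (p (nat_lit 0x586850482) (nat_lit 0) (p (nat_lit 0x160014) (nat_lit 0) (p (nat_lit 0x68612) (nat_lit 0) (p (nat_lit 0x50592) (nat_lit 0) (p (nat_lit 0x40512) (nat_lit 0) (p (nat_lit 0x50312) (nat_lit 0) (p (nat_lit 0x38292) (nat_lit 0) (p (nat_lit 0x28212) (nat_lit 0) (p (nat_lit 0x38112) (nat_lit 0) (p (nat_lit 0x20092)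 (nat_lit 0) (p (nat_lit 0x10012) (nat_lit 0) pn))))))))))))))))))))))))))) :=
  Cl.node (nat_lit 0x380c2) (nat_lit 2) (by decide +kernel) (ClAll.succ (ClAll.succ ClAll.zero s176) s177)

def n169 : Cl (O (nat_lit 3)) (R (nat_lit 14353))
    (p (nat_lit 0x200004) (nat_lit 0) (p (nat_lit 0x119) (nat_lit 0) (p (nat_lit 0x81) (nat_lit 0) (p (nat_lit 0x101) (nat_lit 1) (p (nat_lit 0x111) (nat_lit 0) (p (nat_lit 0xd1) (nat_lit 1) (p (nat_lit 0x89) (nat_lit 0) (p (nat_lit 0x41) (nat_lit 0) (p (nat_lit 0x8a0b0a89089a) (nat_lit 0) (p (nat_lit 0x98a8a08881a) (nat_lit 0) (p (nat_lit 0x89088988079a) (nat_lit 0) (p (nat_lit 0x8880907871a) (nat_lit 0) (p (nat_lit 0x80000800080887068a) (nat_lit 0) (p (nat_lit 0x8888068602) (nat_lit 0) (p (nat_lit 0x807860582) (nat_lit 0) (p (nat_lit 0x8607058502) (nat_lit 0) (p (nat_lit 0x586850482) (nat_lit 0) (p (nat_lit 0x160014) (nat_lit 0) (p (nat_lit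 0x68612) (nat_lit 0) (p (nat_lit 0x50592) (nat_lit 0) (p (nat_lit 0x40512) (nat_lit 0) (p (nat_lit 0x50312) (nat_lit 0) (p (nat_lit 0x38292) (nat_lit 0) (p (nat_lit 0x28212) (nat_lit 0) (p (nat_lit 0x38112) (nat_lit 0) (p (nat_lit 0x20092) (nat_lit 0) (p (nat_lit 0x10012) (nat_lit 0) pn))))))))))))))))))))))))))) :=
  Cl.node (nat_lit 0x20000c) (nat_lit 2) (by decide +kernel) (ClAll.succ (ClAll.succ ClAll.zero s186) s187)

def n170 : Cl (O (nat_lit 3)) (R (nat_lit 14353))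
    (p (nat_lit 0x119) (nat_lit 0) (p (nat_lit 0xc1) (nat_lit 0) (p (nat_lit 0x81) (nat_lit 1) (p (nat_lit 0x101) (nat_lit 1) (p (nat_lit 0x111) (nat_lit 0) (p (nat_lit 0xd1) (nat_lit 1) (p (nat_lit 0x89) (nat_lit 0) (p (nat_lit 0x41) (nat_lit 0) (p (nat_lit 0x8a0b0a89089a) (nat_lit 0) (p (nat_lit 0x98a8a08881a) (nat_lit 0) (p (nat_lit 0x89088988079a) (nat_lit 0) (p (nat_lit 0x8880907871a) (nat_lit 0) (p (nat_lit 0x80000800080887068a) (nat_lit 0) (p (nat_lit 0x8888068602) (nat_lit 0) (p (nat_lit 0x807860582) (nat_lit 0) (p (nat_lit 0x8607058502) (nat_lit 0) (p (nat_lit 0x586850482) (nat_lit 0) (p (nat_lit 0x160014) (nat_lit 0) (p (nat_lit 0x68612) (nat_lit 0) (p (nat_lit 0x50592) (nat_lit 0) (p (nat_lit 0x40512) (nat_lit 0) (p (nat_lit 0x50312) (nat_lit 0) (p (nat_lit 0x38292) (nat_lit 0) (p (nat_lit 0x28212) (nat_lit 0) (p (nat_lit 0x38112) (nat_lit 0) (p (nat_lit 0x20092)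 (nat_lit 0) (p (nat_lit 0x10012) (nat_lit 0) pn))))))))))))))))))))))))))) :=
  Cl.node (nat_lit 0x444aa) (nat_lit 12) (by decide +kernel) (ClAll.succ (ClAll.succ (ClAll.succ (ClAll.succ (ClAll.succ (ClAll.succ (ClAll.succ (ClAll.succ (ClAll.succ (ClAll.succ (ClAll.succ (ClAll.succ ClAll.zero s190) s191) s192) s193) s194) s195) s196) n136) s199) s200) s201) s202)

def n171 : Cl (O (nat_lit 3)) (R (nat_lit 14353))
    (p (nat_lit 0xd1) (nat_lit 1) (p (nat_lit 0x111) (nat_lit 1) (p (nat_lit 0x109) (nat_lit 0) (p (nat_lit 0x101) (nat_lit 0) (p (nat_lit 0x119) (nat_lit 0) (p (nat_lit 0xc9) (nat_lit 0) (p (nat_lit 0x89) (nat_lit 1) (p (nat_lit 0x41) (nat_lit 0) (p (nat_lit 0x8a0b0a89089a) (nat_lit 0) (p (nat_lit 0x98a8a08881a) (nat_lit 0) (p (nat_lit 0x89088988079a) (nat_lit 0) (p (nat_lit 0x8880907871a) (nat_lit 0) (p (nat_lit 0x80000800080887068a) (nat_lit 0) (p (nat_lit 0x8888068602)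 (nat_lit 0) (p (nat_lit 0x807860582) (nat_lit 0) (p (nat_lit 0x8607058502) (nat_lit 0) (p (nat_lit 0x586850482) (nat_lit 0) (p (nat_lit 0x160014) (nat_lit 0) (p (nat_lit 0x68612) (nat_lit 0) (p (nat_lit 0x50592) (nat_lit 0) (p (nat_lit 0x40512) (nat_lit 0) (p (nat_lit 0x50312) (nat_lit 0) (p (nat_lit 0x38292) (nat_lit 0) (p (nat_lit 0x28212) (nat_lit 0) (p (nat_lit 0x38112) (nat_lit 0) (p (nat_lit 0x20092) (nat_lit 0) (p (nat_lit 0x10012) (nat_lit 0) pn))))))))))))))))))))))))))) :=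
  Cl.node (nat_lit 0x444aa) (nat_lit 12) (by decide +kernel) (ClAll.succ (ClAll.succ (ClAll.succ (ClAll.succ (ClAll.succ (ClAll.succ (ClAll.succ (ClAll.succ (ClAll.succ (ClAll.succ (ClAll.succ (ClAll.succ ClAll.zero s211) s212) s213) s214) s215) s216) s217) n137) s237) s238) s239) s240)

def n172 : Cl (O (nat_lit 3)) (R (nat_lit 14353))
    (p (nat_lit 0x200004) (nat_lit 0) (p (nat_lit 0xd1) (nat_lit 0) (p (nat_lit 0x109) (nat_lit 1) (p (nat_lit 0x101) (nat_lit 0) (p (nat_lit 0x119) (nat_lit 0) (p (nat_lit 0xc9) (nat_lit 0) (p (nat_lit 0x89) (nat_lit 1) (p (nat_lit 0x41) (nat_lit 0) (p (nat_lit 0x8a0b0a89089a) (nat_lit 0) (p (nat_lit 0x98a8a08881a) (nat_lit 0) (p (nat_lit 0x89088988079a) (nat_lit 0) (p (nat_lit 0x8880907871a) (nat_lit 0) (p (nat_lit 0x80000800080887068a) (nat_lit 0) (p (nat_lit 0x8888068602) (nat_lit 0) (p (nat_lit 0x807860582) (nat_lit 0) (p (nat_lit 0x8607058502)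 (nat_lit 0) (p (nat_lit 0x586850482) (nat_lit 0) (p (nat_lit 0x160014) (nat_lit 0) (p (nat_lit 0x68612) (nat_lit 0) (p (nat_lit 0x50592) (nat_lit 0) (p (nat_lit 0x40512) (nat_lit 0) (p (nat_lit 0x50312) (nat_lit 0) (p (nat_lit 0x38292) (nat_lit 0) (p (nat_lit 0x28212) (nat_lit 0) (p (nat_lit 0x38112) (nat_lit 0) (p (nat_lit 0x20092) (nat_lit 0) (p (nat_lit 0x10012) (nat_lit 0) pn))))))))))))))))))))))))))) :=
  Cl.node (nat_lit 0x20000c) (nat_lit 2) (by decide +kernel) (ClAll.succ (ClAll.succ ClAll.zero n138) s254)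

def n173 : Cl (O (nat_lit 3)) (R (nat_lit 14353))
    (p (nat_lit 0x444aa) (nat_lit 7) (p (nat_lit 0xd1) (nat_lit 1) (p (nat_lit 0x109) (nat_lit 1) (p (nat_lit 0x101) (nat_lit 0) (p (nat_lit 0x119) (nat_lit 0) (p (nat_lit 0xc9) (nat_lit 0) (p (nat_lit 0x89) (nat_lit 1) (p (nat_lit 0x41) (nat_lit 0) (p (nat_lit 0x8a0b0a89089a) (nat_lit 0) (p (nat_lit 0x98a8a08881a) (nat_lit 0) (p (nat_lit 0x89088988079a) (nat_lit 0) (p (nat_lit 0x8880907871a) (nat_lit 0) (p (nat_lit 0x80000800080887068a) (nat_lit 0) (p (nat_lit 0x8888068602) (nat_lit 0) (p (nat_lit 0x807860582) (nat_lit 0) (p (nat_lit 0x8607058502) (nat_lit 0) (p (nat_lit 0x586850482) (nat_lit 0) (p (nat_lit 0x160014) (nat_lit 0) (p (nat_lit 0x68612) (nat_lit 0) (p (nat_lit 0x50592) (nat_lit 0) (p (nat_lit 0x40512) (nat_lit 0) (p (nat_lit 0x50312) (nat_lit 0) (p (nat_lit 0x38292) (nat_lit 0) (p (nat_lit 0x28212) (nat_lit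 0) (p (nat_lit 0x38112) (nat_lit 0) (p (nat_lit 0x20092) (nat_lit 0) (p (nat_lit 0x10012) (nat_lit 0) pn))))))))))))))))))))))))))) :=
  Cl.node (nat_lit 0x380c2) (nat_lit 2) (by decide +kernel) (ClAll.succ (ClAll.succ ClAll.zero n139) n140)

def n174 : Cl (O (nat_lit 3)) (R (nat_lit 14353))
    (p (nat_lit 0x200004) (nat_lit 0) (p (nat_lit 0xd1) (nat_lit 0) (p (nat_lit 0xc1) (nat_lit 0) (p (nat_lit 0x101) (nat_lit 1) (p (nat_lit 0x119) (nat_lit 0) (p (nat_lit 0xc9) (nat_lit 0) (p (nat_lit 0x89) (nat_lit 1) (p (nat_lit 0x41) (nat_lit 0) (p (nat_lit 0x8a0b0a89089a) (nat_lit 0) (p (nat_lit 0x98a8a08881a) (nat_lit 0) (p (nat_lit 0x89088988079a) (nat_lit 0) (p (nat_lit 0x8880907871a) (nat_lit 0) (p (nat_lit 0x80000800080887068a) (nat_lit 0) (p (nat_lit 0x8888068602) (nat_lit 0) (p (nat_lit 0x807860582) (nat_lit 0) (p (nat_lit 0x8607058502) (nat_lit 0) (p (nat_lit 0x586850482)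 (nat_lit 0) (p (nat_lit 0x160014) (nat_lit 0) (p (nat_lit 0x68612) (nat_lit 0) (p (nat_lit 0x50592) (nat_lit 0) (p (nat_lit 0x40512) (nat_lit 0) (p (nat_lit 0x50312) (nat_lit 0) (p (nat_lit 0x38292) (nat_lit 0) (p (nat_lit 0x28212) (nat_lit 0) (p (nat_lit 0x38112) (nat_lit 0) (p (nat_lit 0x20092) (nat_lit 0) (p (nat_lit 0x10012) (nat_lit 0) pn))))))))))))))))))))))))))) :=
  Cl.node (nat_lit 0x20000c) (nat_lit 2) (by decide +kernel) (ClAll.succ (ClAll.succ ClAll.zero n141) s284)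

def n175 : Cl (O (nat_lit 3)) (R (nat_lit 14353))
    (p (nat_lit 0x444aa) (nat_lit 7) (p (nat_lit 0xd1) (nat_lit 1) (p (nat_lit 0xc1) (nat_lit 0) (p (nat_lit 0x101) (nat_lit 1) (p (nat_lit 0x119) (nat_lit 0) (p (nat_lit 0xc9) (nat_lit 0) (p (nat_lit 0x89) (nat_lit 1) (p (nat_lit 0x41) (nat_lit 0) (p (nat_lit 0x8a0b0a89089a) (nat_lit 0) (p (nat_lit 0x98a8a08881a) (nat_lit 0) (p (nat_lit 0x89088988079a) (nat_lit 0) (p (nat_lit 0x8880907871a) (nat_lit 0) (p (nat_lit 0x80000800080887068a) (nat_lit 0) (p (nat_lit 0x8888068602) (nat_lit 0) (p (nat_lit 0x807860582) (nat_lit 0) (p (nat_lit 0x8607058502) (nat_lit 0) (p (nat_lit 0x586850482) (nat_lit 0) (p (nat_lit 0x160014) (nat_lit 0) (p (nat_lit 0x68612) (nat_lit 0) (p (nat_lit 0x50592) (nat_lit 0) (p (nat_lit 0x40512) (nat_lit 0) (p (nat_lit 0x50312) (nat_lit 0) (p (nat_lit 0x38292) (nat_lit 0) (p (nat_lit 0x28212) (nat_lit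 0) (p (nat_lit 0x38112) (nat_lit 0) (p (nat_lit 0x20092) (nat_lit 0) (p (nat_lit 0x10012) (nat_lit 0) pn))))))))))))))))))))))))))) :=
  Cl.node (nat_lit 0x380c2) (nat_lit 2) (by decide +kernel) (ClAll.succ (ClAll.succ ClAll.zero n142) s297)

def n176 : Cl (O (nat_lit 3)) (R (nat_lit 14353))
    (p (nat_lit 0x444aa) (nat_lit 7) (p (nat_lit 0x111) (nat_lit 1) (p (nat_lit 0xd1) (nat_lit 1) (p (nat_lit 0xc1) (nat_lit 0) (p (nat_lit 0x119) (nat_lit 1) (p (nat_lit 0xc9) (nat_lit 0) (p (nat_lit 0x89) (nat_lit 1) (p (nat_lit 0x41) (nat_lit 0) (p (nat_lit 0x8a0b0a89089a) (nat_lit 0) (p (nat_lit 0x98a8a08881a) (nat_lit 0) (p (nat_lit 0x89088988079a) (nat_lit 0) (p (nat_lit 0x8880907871a) (nat_lit 0) (p (nat_lit 0x80000800080887068a) (nat_lit 0) (p (nat_lit 0x8888068602) (nat_lit 0) (p (nat_lit 0x807860582) (nat_lit 0) (p (nat_lit 0x8607058502) (nat_lit 0) (p (nat_lit 0x586850482)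 (nat_lit 0) (p (nat_lit 0x160014) (nat_lit 0) (p (nat_lit 0x68612) (nat_lit 0) (p (nat_lit 0x50592) (nat_lit 0) (p (nat_lit 0x40512) (nat_lit 0) (p (nat_lit 0x50312) (nat_lit 0) (p (nat_lit 0x38292) (nat_lit 0) (p (nat_lit 0x28212) (nat_lit 0) (p (nat_lit 0x38112) (nat_lit 0) (p (nat_lit 0x20092) (nat_lit 0) (p (nat_lit 0x10012) (nat_lit 0) pn))))))))))))))))))))))))))) :=
  Cl.node (nat_lit 0x380c2) (nat_lit 2) (by decide +kernel) (ClAll.succ (ClAll.succ ClAll.zero n143) n144)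

def n177 : Cl (O (nat_lit 3)) (R (nat_lit 14353))
    (p (nat_lit 0x444aa) (nat_lit 7) (p (nat_lit 0x111) (nat_lit 1) (p (nat_lit 0x101) (nat_lit 0) (p (nat_lit 0xc1) (nat_lit 1) (p (nat_lit 0x119) (nat_lit 1) (p (nat_lit 0xc9) (nat_lit 0) (p (nat_lit 0x89) (nat_lit 1) (p (nat_lit 0x41) (nat_lit 0) (p (nat_lit 0x8a0b0a89089a) (nat_lit 0) (p (nat_lit 0x98a8a08881a) (nat_lit 0) (p (nat_lit 0x89088988079a) (nat_lit 0) (p (nat_lit 0x8880907871a) (nat_lit 0) (p (nat_lit 0x80000800080887068a) (nat_lit 0) (p (nat_lit 0x8888068602) (nat_lit 0) (p (nat_lit 0x807860582) (nat_lit 0) (p (nat_lit 0x8607058502) (nat_lit 0) (p (nat_lit 0x586850482) (nat_lit 0) (p (nat_lit 0x160014) (nat_lit 0) (p (nat_lit 0x68612) (nat_lit 0) (p (nat_lit 0x50592) (nat_lit 0) (p (nat_lit 0x40512) (nat_lit 0) (p (nat_lit 0x50312) (nat_lit 0) (p (nat_lit 0x38292) (nat_lit 0) (p (nat_lit 0x28212) (nat_lit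 0) (p (nat_lit 0x38112) (nat_lit 0) (p (nat_lit 0x20092) (nat_lit 0) (p (nat_lit 0x10012) (nat_lit 0) pn))))))))))))))))))))))))))) :=
  Cl.node (nat_lit 0x380c2) (nat_lit 2) (by decide +kernel) (ClAll.succ (ClAll.succ ClAll.zero n145) s345)

def n178 : Cl (O (nat_lit 3)) (R (nat_lit 14353))
    (p (nat_lit 0x111) (nat_lit 0) (p (nat_lit 0x89) (nat_lit 0) (p (nat_lit 0x109) (nat_lit 1) (p (nat_lit 0x101) (nat_lit 0) (p (nat_lit 0x119) (nat_lit 0) (p (nat_lit 0xd1) (nat_lit 0) (p (nat_lit 0x81) (nat_lit 0) (p (nat_lit 0x41) (nat_lit 1) (p (nat_lit 0x8a0b0a89089a) (nat_lit 0) (p (nat_lit 0x98a8a08881a) (nat_lit 0) (p (nat_lit 0x89088988079a) (nat_lit 0) (p (nat_lit 0x8880907871a) (nat_lit 0) (p (nat_lit 0x80000800080887068a) (nat_lit 0) (p (nat_lit 0x8888068602) (nat_lit 0) (p (nat_lit 0x807860582) (nat_lit 0) (p (nat_lit 0x8607058502) (nat_lit 0) (p (nat_lit 0x586850482)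 (nat_lit 0) (p (nat_lit 0x160014) (nat_lit 0) (p (nat_lit 0x68612) (nat_lit 0) (p (nat_lit 0x50592) (nat_lit 0) (p (nat_lit 0x40512) (nat_lit 0) (p (nat_lit 0x50312) (nat_lit 0) (p (nat_lit 0x38292) (nat_lit 0) (p (nat_lit 0x28212) (nat_lit 0) (p (nat_lit 0x38112) (nat_lit 0) (p (nat_lit 0x20092) (nat_lit 0) (p (nat_lit 0x10012) (nat_lit 0) pn))))))))))))))))))))))))))) :=
  Cl.node (nat_lit 0x4c42a) (nat_lit 12) (by decide +kernel) (ClAll.succ (ClAll.succ (ClAll.succ (ClAll.succ (ClAll.succ (ClAll.succ (ClAll.succ (ClAll.succ (ClAll.succ (ClAll.succ (ClAll.succ (ClAll.succ ClAll.zero s356) s357) s358) s359) s360) s361) s362) s363) s364) s365) s366) s367)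

def n179 : Cl (O (nat_lit 3)) (R (nat_lit 14353))
    (p (nat_lit 0x111) (nat_lit 1) (p (nat_lit 0x89) (nat_lit 0) (p (nat_lit 0x109) (nat_lit 1) (p (nat_lit 0x101) (nat_lit 0) (p (nat_lit 0x119) (nat_lit 0) (p (nat_lit 0xd1) (nat_lit 0) (p (nat_lit 0x81) (nat_lit 0) (p (nat_lit 0x41) (nat_lit 1) (p (nat_lit 0x8a0b0a89089a) (nat_lit 0) (p (nat_lit 0x98a8a08881a) (nat_lit 0) (p (nat_lit 0x89088988079a) (nat_lit 0) (p (nat_lit 0x8880907871a) (nat_lit 0) (p (nat_lit 0x80000800080887068a) (nat_lit 0) (p (nat_lit 0x8888068602) (nat_lit 0) (p (nat_lit 0x807860582) (nat_lit 0) (p (nat_lit 0x8607058502) (nat_lit 0) (p (nat_lit 0x586850482) (nat_lit 0) (p (nat_lit 0x160014) (nat_lit 0) (p (nat_lit 0x68612) (nat_lit 0) (p (nat_lit 0x50592) (nat_lit 0) (p (nat_lit 0x40512) (nat_lit 0) (p (nat_lit 0x50312) (nat_lit 0) (p (nat_lit 0x38292) (nat_lit 0) (p (nat_lit 0x28212) (nat_lit 0)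 (p (nat_lit 0x38112) (nat_lit 0) (p (nat_lit 0x20092) (nat_lit 0) (p (nat_lit 0x10012) (nat_lit 0) pn))))))))))))))))))))))))))) :=
  Cl.node (nat_lit 0x4c42a) (nat_lit 12) (by decide +kernel) (ClAll.succ (ClAll.succ (ClAll.succ (ClAll.succ (ClAll.succ (ClAll.succ (ClAll.succ (ClAll.succ (ClAll.succ (ClAll.succ (ClAll.succ (ClAll.succ ClAll.zero s368) s369) s370) s371) s372) s373) s374) s375) s376) s377) s378) s379)

def n180 : Cl (O (nat_lit 3)) (R (nat_lit 14353))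
    (p (nat_lit 0xc9) (nat_lit 0) (p (nat_lit 0x89) (nat_lit 1) (p (nat_lit 0x109) (nat_lit 1) (p (nat_lit 0x101) (nat_lit 0) (p (nat_lit 0x119) (nat_lit 0) (p (nat_lit 0xd1) (nat_lit 0) (p (nat_lit 0x81) (nat_lit 0) (p (nat_lit 0x41) (nat_lit 1) (p (nat_lit 0x8a0b0a89089a) (nat_lit 0) (p (nat_lit 0x98a8a08881a) (nat_lit 0) (p (nat_lit 0x89088988079a) (nat_lit 0) (p (nat_lit 0x8880907871a) (nat_lit 0) (p (nat_lit 0x80000800080887068a) (nat_lit 0) (p (nat_lit 0x8888068602) (nat_lit 0) (p (nat_lit 0x807860582) (nat_lit 0) (p (nat_lit 0x8607058502) (nat_lit 0) (p (nat_lit 0x586850482) (nat_lit 0) (p (nat_lit 0x160014) (nat_lit 0) (p (nat_lit 0x68612) (nat_lit 0) (p (nat_lit 0x50592) (nat_lit 0) (p (nat_lit 0x40512) (nat_lit 0) (p (nat_lit 0x50312) (nat_lit 0) (p (nat_lit 0x38292) (nat_lit 0) (p (nat_lit 0x28212) (nat_lit 0) (p (nat_lit 0x38112) (nat_lit 0) (p (nat_lit 0x20092)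 (nat_lit 0) (p (nat_lit 0x10012) (nat_lit 0) pn))))))))))))))))))))))))))) :=
  Cl.node (nat_lit 0x4c42a) (nat_lit 12) (by decide +kernel) (ClAll.succ (ClAll.succ (ClAll.succ (ClAll.succ (ClAll.succ (ClAll.succ (ClAll.succ (ClAll.succ (ClAll.succ (ClAll.succ (ClAll.succ (ClAll.succ ClAll.zero s380) s381) s382) s383) s384) s385) s386) s387) s388) s389) s390) s391)

def n181 : Cl (O (nat_lit 3)) (R (nat_lit 14353))
    (p (nat_lit 0xc9) (nat_lit 1) (p (nat_lit 0x89) (nat_lit 1) (p (nat_lit 0x109) (nat_lit 1) (p (nat_lit 0x101) (nat_lit 0) (p (nat_lit 0x119) (nat_lit 0) (p (nat_lit 0xd1) (nat_lit 0) (p (nat_lit 0x81) (nat_lit 0) (p (nat_lit 0x41) (nat_lit 1) (p (nat_lit 0x8a0b0a89089a) (nat_lit 0) (p (nat_lit 0x98a8a08881a) (nat_lit 0) (p (nat_lit 0x89088988079a) (nat_lit 0) (p (nat_lit 0x8880907871a) (nat_lit 0) (p (nat_lit 0x80000800080887068a) (nat_lit 0) (p (nat_lit 0x8888068602)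 (nat_lit 0) (p (nat_lit 0x807860582) (nat_lit 0) (p (nat_lit 0x8607058502) (nat_lit 0) (p (nat_lit 0x586850482) (nat_lit 0) (p (nat_lit 0x160014) (nat_lit 0) (p (nat_lit 0x68612) (nat_lit 0) (p (nat_lit 0x50592) (nat_lit 0) (p (nat_lit 0x40512) (nat_lit 0) (p (nat_lit 0x50312) (nat_lit 0) (p (nat_lit 0x38292) (nat_lit 0) (p (nat_lit 0x28212) (nat_lit 0) (p (nat_lit 0x38112) (nat_lit 0) (p (nat_lit 0x20092) (nat_lit 0) (p (nat_lit 0x10012) (nat_lit 0) pn))))))))))))))))))))))))))) :=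
  Cl.node (nat_lit 0x4c42a) (nat_lit 12) (by decide +kernel) (ClAll.succ (ClAll.succ (ClAll.succ (ClAll.succ (ClAll.succ (ClAll.succ (ClAll.succ (ClAll.succ (ClAll.succ (ClAll.succ (ClAll.succ (ClAll.succ ClAll.zero s392) s393) s394) s395) s396) s397) s398) s399) s400) s401) s402) s403)

def n182 : Cl (O (nat_lit 3)) (R (nat_lit 14353))
    (p (nat_lit 0xc9) (nat_lit 0) (p (nat_lit 0x89) (nat_lit 1) (p (nat_lit 0xc1) (nat_lit 0) (p (nat_lit 0x101) (nat_lit 1) (p (nat_lit 0x119) (nat_lit 0) (p (nat_lit 0xd1) (nat_lit 0) (p (nat_lit 0x81) (nat_lit 0) (p (nat_lit 0x41) (nat_lit 1) (p (nat_lit 0x8a0b0a89089a) (nat_lit 0) (p (nat_lit 0x98a8a08881a) (nat_lit 0) (p (nat_lit 0x89088988079a) (nat_lit 0) (p (nat_lit 0x8880907871a) (nat_lit 0) (p (nat_lit 0x80000800080887068a) (nat_lit 0) (p (nat_lit 0x8888068602) (nat_lit 0) (p (nat_lit 0x807860582) (nat_lit 0) (p (nat_lit 0x8607058502)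 (nat_lit 0) (p (nat_lit 0x586850482) (nat_lit 0) (p (nat_lit 0x160014) (nat_lit 0) (p (nat_lit 0x68612) (nat_lit 0) (p (nat_lit 0x50592) (nat_lit 0) (p (nat_lit 0x40512) (nat_lit 0) (p (nat_lit 0x50312) (nat_lit 0) (p (nat_lit 0x38292) (nat_lit 0) (p (nat_lit 0x28212) (nat_lit 0) (p (nat_lit 0x38112) (nat_lit 0) (p (nat_lit 0x20092) (nat_lit 0) (p (nat_lit 0x10012) (nat_lit 0) pn))))))))))))))))))))))))))) :=
  Cl.node (nat_lit 0x4c42a) (nat_lit 12) (by decide +kernel) (ClAll.succ (ClAll.succ (ClAll.succ (ClAll.succ (ClAll.succ (ClAll.succ (ClAll.succ (ClAll.succ (ClAll.succ (ClAll.succ (ClAll.succ (ClAll.succ ClAll.zero s416) s417) s418) s419) s420) s421) s422) s423) s424) s425) s426) s427)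

def n183 : Cl (O (nat_lit 3)) (R (nat_lit 14353))
    (p (nat_lit 0xc9) (nat_lit 1) (p (nat_lit 0x89) (nat_lit 1) (p (nat_lit 0xc1) (nat_lit 0) (p (nat_lit 0x101) (nat_lit 1) (p (nat_lit 0x119) (nat_lit 0) (p (nat_lit 0xd1) (nat_lit 0) (p (nat_lit 0x81) (nat_lit 0) (p (nat_lit 0x41) (nat_lit 1) (p (nat_lit 0x8a0b0a89089a) (nat_lit 0) (p (nat_lit 0x98a8a08881a) (nat_lit 0) (p (nat_lit 0x89088988079a) (nat_lit 0) (p (nat_lit 0x8880907871a) (nat_lit 0) (p (nat_lit 0x80000800080887068a) (nat_lit 0) (p (nat_lit 0x8888068602) (nat_lit 0) (p (nat_lit 0x807860582) (nat_lit 0) (p (nat_lit 0x8607058502) (nat_lit 0) (p (nat_lit 0x586850482) (nat_lit 0) (p (nat_lit 0x160014) (nat_lit 0) (p (nat_lit 0x68612) (nat_lit 0) (p (nat_lit 0x50592) (nat_lit 0) (p (nat_lit 0x40512) (nat_lit 0) (p (nat_lit 0x50312) (nat_lit 0) (p (nat_lit 0x38292) (nat_lit 0) (p (nat_lit 0x28212) (nat_lit 0)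 (p (nat_lit 0x38112) (nat_lit 0) (p (nat_lit 0x20092) (nat_lit 0) (p (nat_lit 0x10012) (nat_lit 0) pn))))))))))))))))))))))))))) :=
  Cl.node (nat_lit 0x4c42a) (nat_lit 12) (by decide +kernel) (ClAll.succ (ClAll.succ (ClAll.succ (ClAll.succ (ClAll.succ (ClAll.succ (ClAll.succ (ClAll.succ (ClAll.succ (ClAll.succ (ClAll.succ (ClAll.succ ClAll.zero s428) s429) s430) s431) s432) s433) s434) s435) s436) s437) s438) s439)

def n184 : Cl (O (nat_lit 3)) (R (nat_lit 14353))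
    (p (nat_lit 0x3c4aa) (nat_lit 7) (p (nat_lit 0x89) (nat_lit 1) (p (nat_lit 0xc1) (nat_lit 1) (p (nat_lit 0x101) (nat_lit 1) (p (nat_lit 0x119) (nat_lit 0) (p (nat_lit 0xd1) (nat_lit 0) (p (nat_lit 0x81) (nat_lit 0) (p (nat_lit 0x41) (nat_lit 1) (p (nat_lit 0x8a0b0a89089a) (nat_lit 0) (p (nat_lit 0x98a8a08881a) (nat_lit 0) (p (nat_lit 0x89088988079a) (nat_lit 0) (p (nat_lit 0x8880907871a) (nat_lit 0) (p (nat_lit 0x80000800080887068a) (nat_lit 0) (p (nat_lit 0x8888068602) (nat_lit 0) (p (nat_lit 0x807860582) (nat_lit 0) (p (nat_lit 0x8607058502) (nat_lit 0) (p (nat_lit 0x586850482) (nat_lit 0) (p (nat_lit 0x160014) (nat_lit 0) (p (nat_lit 0x68612) (nat_lit 0) (p (nat_lit 0x50592) (nat_lit 0) (p (nat_lit 0x40512) (nat_lit 0) (p (nat_lit 0x50312) (nat_lit 0) (p (nat_lit 0x38292) (nat_lit 0) (p (nat_lit 0x28212) (nat_lit 0) (p (nat_lit 0x38112) (nat_lit 0) (p (nat_lit 0x20092)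 (nat_lit 0) (p (nat_lit 0x10012) (nat_lit 0) pn))))))))))))))))))))))))))) :=
  Cl.node (nat_lit 0x380c2) (nat_lit 2) (by decide +kernel) (ClAll.succ (ClAll.succ ClAll.zero s448) s449)

def n185 : Cl (O (nat_lit 3)) (R (nat_lit 14353))
    (p (nat_lit 0x109) (nat_lit 0) (p (nat_lit 0x89) (nat_lit 1) (p (nat_lit 0xc9) (nat_lit 1) (p (nat_lit 0xc1) (nat_lit 0) (p (nat_lit 0x119) (nat_lit 1) (p (nat_lit 0xd1) (nat_lit 0) (p (nat_lit 0x81) (nat_lit 0) (p (nat_lit 0x41) (nat_lit 1) (p (nat_lit 0x8a0b0a89089a) (nat_lit 0) (p (nat_lit 0x98a8a08881a) (nat_lit 0) (p (nat_lit 0x89088988079a) (nat_lit 0) (p (nat_lit 0x8880907871a) (nat_lit 0) (p (nat_lit 0x80000800080887068a) (nat_lit 0) (p (nat_lit 0x8888068602) (nat_lit 0) (p (nat_lit 0x807860582) (nat_lit 0) (p (nat_lit 0x8607058502) (nat_lit 0) (p (nat_lit 0x586850482) (nat_lit 0) (p (nat_lit 0x160014) (nat_lit 0) (p (nat_lit 0x68612)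 (nat_lit 0) (p (nat_lit 0x50592) (nat_lit 0) (p (nat_lit 0x40512) (nat_lit 0) (p (nat_lit 0x50312) (nat_lit 0) (p (nat_lit 0x38292) (nat_lit 0) (p (nat_lit 0x28212) (nat_lit 0) (p (nat_lit 0x38112) (nat_lit 0) (p (nat_lit 0x20092) (nat_lit 0) (p (nat_lit 0x10012) (nat_lit 0) pn))))))))))))))))))))))))))) :=
  Cl.node (nat_lit 0x44c2a) (nat_lit 12) (by decide +kernel) (ClAll.succ (ClAll.succ (ClAll.succ (ClAll.succ (ClAll.succ (ClAll.succ (ClAll.succ (ClAll.succ (ClAll.succ (ClAll.succ (ClAll.succ (ClAll.succ ClAll.zero s456) s457) s458) s459) s460) s461) s462) s463) s464) s465) s466) s467)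

def n186 : Cl (O (nat_lit 3)) (R (nat_lit 14353))
    (p (nat_lit 0x109) (nat_lit 1) (p (nat_lit 0x89) (nat_lit 1) (p (nat_lit 0xc9) (nat_lit 1) (p (nat_lit 0xc1) (nat_lit 0) (p (nat_lit 0x119) (nat_lit 1) (p (nat_lit 0xd1) (nat_lit 0) (p (nat_lit 0x81) (nat_lit 0) (p (nat_lit 0x41) (nat_lit 1) (p (nat_lit 0x8a0b0a89089a) (nat_lit 0) (p (nat_lit 0x98a8a08881a) (nat_lit 0) (p (nat_lit 0x89088988079a) (nat_lit 0) (p (nat_lit 0x8880907871a) (nat_lit 0) (p (nat_lit 0x80000800080887068a) (nat_lit 0) (p (nat_lit 0x8888068602) (nat_lit 0) (p (nat_lit 0x807860582) (nat_lit 0) (p (nat_lit 0x8607058502) (nat_lit 0) (p (nat_lit 0x586850482) (nat_lit 0) (p (nat_lit 0x160014) (nat_lit 0) (p (nat_lit 0x68612) (nat_lit 0) (p (nat_lit 0x50592) (nat_lit 0) (p (nat_lit 0x40512) (nat_lit 0) (p (nat_lit 0x50312) (nat_lit 0) (p (nat_lit 0x38292) (nat_lit 0) (p (nat_lit 0x28212) (nat_lit 0)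 (p (nat_lit 0x38112) (nat_lit 0) (p (nat_lit 0x20092) (nat_lit 0) (p (nat_lit 0x10012) (nat_lit 0) pn))))))))))))))))))))))))))) :=
  Cl.node (nat_lit 0x3c4aa) (nat_lit 12) (by decide +kernel) (ClAll.succ (ClAll.succ (ClAll.succ (ClAll.succ (ClAll.succ (ClAll.succ (ClAll.succ (ClAll.succ (ClAll.succ (ClAll.succ (ClAll.succ (ClAll.succ ClAll.zero s468) s469) s470) s471) s472) s473) s474) n146) s477) s478) s479) s480)

def n187 : Cl (O (nat_lit 3)) (R (nat_lit 14353))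
    (p (nat_lit 0x109) (nat_lit 0) (p (nat_lit 0x89) (nat_lit 1) (p (nat_lit 0x101) (nat_lit 0) (p (nat_lit 0xc1) (nat_lit 1) (p (nat_lit 0x119) (nat_lit 1) (p (nat_lit 0xd1) (nat_lit 0) (p (nat_lit 0x81) (nat_lit 0) (p (nat_lit 0x41) (nat_lit 1) (p (nat_lit 0x8a0b0a89089a) (nat_lit 0) (p (nat_lit 0x98a8a08881a) (nat_lit 0) (p (nat_lit 0x89088988079a) (nat_lit 0) (p (nat_lit 0x8880907871a) (nat_lit 0) (p (nat_lit 0x80000800080887068a) (nat_lit 0) (p (nat_lit 0x8888068602) (nat_lit 0) (p (nat_lit 0x807860582) (nat_lit 0) (p (nat_lit 0x8607058502) (nat_lit 0) (p (nat_lit 0x586850482) (nat_lit 0) (p (nat_lit 0x160014) (nat_lit 0) (p (nat_lit 0x68612) (nat_lit 0) (p (nat_lit 0x50592) (nat_lit 0) (p (nat_lit 0x40512) (nat_lit 0) (p (nat_lit 0x50312) (nat_lit 0) (p (nat_lit 0x38292) (nat_lit 0) (p (nat_lit 0x28212) (nat_lit 0) (p (nat_lit 0x38112) (nat_lit 0) (p (nat_lit 0x20092)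 (nat_lit 0) (p (nat_lit 0x10012) (nat_lit 0) pn))))))))))))))))))))))))))) :=
  Cl.node (nat_lit 0x44c2a) (nat_lit 12) (by decide +kernel) (ClAll.succ (ClAll.succ (ClAll.succ (ClAll.succ (ClAll.succ (ClAll.succ (ClAll.succ (ClAll.succ (ClAll.succ (ClAll.succ (ClAll.succ (ClAll.succ ClAll.zero n147) s484) n148) s487) s488) s489) s490) s491) s492) s493) s494) s495)

def n188 : Cl (O (nat_lit 3)) (R (nat_lit 14353))
    (p (nat_lit 0x109) (nat_lit 1) (p (nat_lit 0x89) (nat_lit 1) (p (nat_lit 0x101) (nat_lit 0) (p (nat_lit 0xc1) (nat_lit 1) (p (nat_lit 0x119) (nat_lit 1) (p (nat_lit 0xd1) (nat_lit 0) (p (nat_lit 0x81) (nat_lit 0) (p (nat_lit 0x41) (nat_lit 1) (p (nat_lit 0x8a0b0a89089a) (nat_lit 0) (p (nat_lit 0x98a8a08881a) (nat_lit 0) (p (nat_lit 0x89088988079a) (nat_lit 0) (p (nat_lit 0x8880907871a) (nat_lit 0) (p (nat_lit 0x80000800080887068a) (nat_lit 0) (p (nat_lit 0x8888068602)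 (nat_lit 0) (p (nat_lit 0x807860582) (nat_lit 0) (p (nat_lit 0x8607058502) (nat_lit 0) (p (nat_lit 0x586850482) (nat_lit 0) (p (nat_lit 0x160014) (nat_lit 0) (p (nat_lit 0x68612) (nat_lit 0) (p (nat_lit 0x50592) (nat_lit 0) (p (nat_lit 0x40512) (nat_lit 0) (p (nat_lit 0x50312) (nat_lit 0) (p (nat_lit 0x38292) (nat_lit 0) (p (nat_lit 0x28212) (nat_lit 0) (p (nat_lit 0x38112) (nat_lit 0) (p (nat_lit 0x20092) (nat_lit 0) (p (nat_lit 0x10012) (nat_lit 0) pn))))))))))))))))))))))))))) :=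
  Cl.node (nat_lit 0x3c4aa) (nat_lit 12) (by decide +kernel) (ClAll.succ (ClAll.succ (ClAll.succ (ClAll.succ (ClAll.succ (ClAll.succ (ClAll.succ (ClAll.succ (ClAll.succ (ClAll.succ (ClAll.succ (ClAll.succ ClAll.zero s496) s497) s498) s499) s500) s501) s502) n149) s505) s506) n150) s509)

def n189 : Cl (O (nat_lit 3)) (R (nat_lit 14353))
    (p (nat_lit 0x3c4aa) (nat_lit 7) (p (nat_lit 0x89) (nat_lit 1) (p (nat_lit 0x101) (nat_lit 1) (p (nat_lit 0xc1) (nat_lit 1) (p (nat_lit 0x119) (nat_lit 1) (p (nat_lit 0xd1) (nat_lit 0) (p (nat_lit 0x81) (nat_lit 0) (p (nat_lit 0x41) (nat_lit 1) (p (nat_lit 0x8a0b0a89089a) (nat_lit 0) (p (nat_lit 0x98a8a08881a) (nat_lit 0) (p (nat_lit 0x89088988079a) (nat_lit 0) (p (nat_lit 0x8880907871a) (nat_lit 0) (p (nat_lit 0x80000800080887068a) (nat_lit 0) (p (nat_lit 0x8888068602) (nat_lit 0) (p (nat_lit 0x807860582) (nat_lit 0) (p (nat_lit 0x8607058502)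 (nat_lit 0) (p (nat_lit 0x586850482) (nat_lit 0) (p (nat_lit 0x160014) (nat_lit 0) (p (nat_lit 0x68612) (nat_lit 0) (p (nat_lit 0x50592) (nat_lit 0) (p (nat_lit 0x40512) (nat_lit 0) (p (nat_lit 0x50312) (nat_lit 0) (p (nat_lit 0x38292) (nat_lit 0) (p (nat_lit 0x28212) (nat_lit 0) (p (nat_lit 0x38112) (nat_lit 0) (p (nat_lit 0x20092) (nat_lit 0) (p (nat_lit 0x10012) (nat_lit 0) pn))))))))))))))))))))))))))) :=
  Cl.node (nat_lit 0x380c2) (nat_lit 2) (by decide +kernel) (ClAll.succ (ClAll.succ ClAll.zero s518) s519)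

def n190 : Cl (O (nat_lit 3)) (R (nat_lit 14353))
    (p (nat_lit 0x3c4aa) (nat_lit 10) (p (nat_lit 0x89) (nat_lit 1) (p (nat_lit 0x101) (nat_lit 1) (p (nat_lit 0xc1) (nat_lit 1) (p (nat_lit 0x119) (nat_lit 1) (p (nat_lit 0xd1) (nat_lit 0) (p (nat_lit 0x81) (nat_lit 0) (p (nat_lit 0x41) (nat_lit 1) (p (nat_lit 0x8a0b0a89089a) (nat_lit 0) (p (nat_lit 0x98a8a08881a) (nat_lit 0) (p (nat_lit 0x89088988079a) (nat_lit 0) (p (nat_lit 0x8880907871a) (nat_lit 0) (p (nat_lit 0x80000800080887068a) (nat_lit 0) (p (nat_lit 0x8888068602) (nat_lit 0) (p (nat_lit 0x807860582) (nat_lit 0) (p (nat_lit 0x8607058502) (nat_lit 0) (p (nat_lit 0x586850482) (nat_lit 0) (p (nat_lit 0x160014) (nat_lit 0) (p (nat_lit 0x68612) (nat_lit 0) (p (nat_lit 0x50592) (nat_lit 0) (p (nat_lit 0x40512) (nat_lit 0) (p (nat_lit 0x50312) (nat_lit 0) (p (nat_lit 0x38292) (nat_lit 0) (p (nat_lit 0x28212) (nat_lit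 0) (p (nat_lit 0x38112) (nat_lit 0) (p (nat_lit 0x20092) (nat_lit 0) (p (nat_lit 0x10012) (nat_lit 0) pn))))))))))))))))))))))))))) :=
  Cl.node (nat_lit 0x380c2) (nat_lit 2) (by decide +kernel) (ClAll.succ (ClAll.succ ClAll.zero s522) n151)

def n191 : Cl (O (nat_lit 3)) (R (nat_lit 14353))
    (p (nat_lit 0xc9) (nat_lit 0) (p (nat_lit 0x89) (nat_lit 1) (p (nat_lit 0x109) (nat_lit 1) (p (nat_lit 0x101) (nat_lit 0) (p (nat_lit 0x111) (nat_lit 0) (p (nat_lit 0xd1) (nat_lit 1) (p (nat_lit 0x81) (nat_lit 0) (p (nat_lit 0x41) (nat_lit 1) (p (nat_lit 0x8a0b0a89089a) (nat_lit 0) (p (nat_lit 0x98a8a08881a) (nat_lit 0) (p (nat_lit 0x89088988079a) (nat_lit 0) (p (nat_lit 0x8880907871a) (nat_lit 0) (p (nat_lit 0x80000800080887068a) (nat_lit 0) (p (nat_lit 0x8888068602) (nat_lit 0) (p (nat_lit 0x807860582) (nat_lit 0) (p (nat_lit 0x8607058502) (nat_lit 0) (p (nat_lit 0x586850482) (nat_lit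 0) (p (nat_lit 0x160014) (nat_lit 0) (p (nat_lit 0x68612) (nat_lit 0) (p (nat_lit 0x50592) (nat_lit 0) (p (nat_lit 0x40512) (nat_lit 0) (p (nat_lit 0x50312) (nat_lit 0) (p (nat_lit 0x38292) (nat_lit 0) (p (nat_lit 0x28212) (nat_lit 0) (p (nat_lit 0x38112) (nat_lit 0) (p (nat_lit 0x20092) (nat_lit 0) (p (nat_lit 0x10012) (nat_lit 0) pn))))))))))))))))))))))))))) :=
  Cl.node (nat_lit 0x119) (nat_lit 2) (by decide +kernel) (ClAll.succ (ClAll.succ ClAll.zero n152) s541)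

def n192 : Cl (O (nat_lit 3)) (R (nat_lit 14353))
    (p (nat_lit 0xc9) (nat_lit 1) (p (nat_lit 0x89) (nat_lit 1) (p (nat_lit 0x109) (nat_lit 1) (p (nat_lit 0x101) (nat_lit 0) (p (nat_lit 0x111) (nat_lit 0) (p (nat_lit 0xd1) (nat_lit 1) (p (nat_lit 0x81) (nat_lit 0) (p (nat_lit 0x41) (nat_lit 1) (p (nat_lit 0x8a0b0a89089a) (nat_lit 0) (p (nat_lit 0x98a8a08881a) (nat_lit 0) (p (nat_lit 0x89088988079a) (nat_lit 0) (p (nat_lit 0x8880907871a) (nat_lit 0) (p (nat_lit 0x80000800080887068a) (nat_lit 0) (p (nat_lit 0x8888068602) (nat_lit 0) (p (nat_lit 0x807860582) (nat_lit 0) (p (nat_lit 0x8607058502) (nat_lit 0) (p (nat_lit 0x586850482) (nat_lit 0) (p (nat_lit 0x160014) (nat_lit 0) (p (nat_lit 0x68612) (nat_lit 0) (p (nat_lit 0x50592) (nat_lit 0) (p (nat_lit 0x40512) (nat_lit 0) (p (nat_lit 0x50312) (nat_lit 0) (p (nat_lit 0x38292) (nat_lit 0) (p (nat_lit 0x28212) (nat_lit 0)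 (p (nat_lit 0x38112) (nat_lit 0) (p (nat_lit 0x20092) (nat_lit 0) (p (nat_lit 0x10012) (nat_lit 0) pn))))))))))))))))))))))))))) :=
  Cl.node (nat_lit 0x4c42a) (nat_lit 12) (by decide +kernel) (ClAll.succ (ClAll.succ (ClAll.succ (ClAll.succ (ClAll.succ (ClAll.succ (ClAll.succ (ClAll.succ (ClAll.succ (ClAll.succ (ClAll.succ (ClAll.succ ClAll.zero s542) s543) s544) s545) s546) s547) s548) s549) s550) s551) s552) s553)

def n193 : Cl (O (nat_lit 3)) (R (nat_lit 14353))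
    (p (nat_lit 0xd1) (nat_lit 1) (p (nat_lit 0x111) (nat_lit 1) (p (nat_lit 0x109) (nat_lit 0) (p (nat_lit 0x101) (nat_lit 0) (p (nat_lit 0x119) (nat_lit 0) (p (nat_lit 0xc1) (nat_lit 0) (p (nat_lit 0x81) (nat_lit 1) (p (nat_lit 0x41) (nat_lit 1) (p (nat_lit 0x8a0b0a89089a) (nat_lit 0) (p (nat_lit 0x98a8a08881a) (nat_lit 0) (p (nat_lit 0x89088988079a) (nat_lit 0) (p (nat_lit 0x8880907871a) (nat_lit 0) (p (nat_lit 0x80000800080887068a) (nat_lit 0) (p (nat_lit 0x8888068602) (nat_lit 0) (p (nat_lit 0x807860582) (nat_lit 0) (p (nat_lit 0x8607058502) (nat_lit 0) (p (nat_lit 0x586850482) (nat_lit 0) (p (nat_lit 0x160014) (nat_lit 0) (p (nat_lit 0x68612) (nat_lit 0) (p (nat_lit 0x50592) (nat_lit 0) (p (nat_lit 0x40512) (nat_lit 0) (p (nat_lit 0x50312) (nat_lit 0) (p (nat_lit 0x38292) (nat_lit 0) (p (nat_lit 0x28212) (nat_lit 0) (p (nat_lit 0x38112) (nat_lit 0) (p (nat_lit 0x20092)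 (nat_lit 0) (p (nat_lit 0x10012) (nat_lit 0) pn))))))))))))))))))))))))))) :=
  Cl.node (nat_lit 0x3c4aa) (nat_lit 12) (by decide +kernel) (ClAll.succ (ClAll.succ (ClAll.succ (ClAll.succ (ClAll.succ (ClAll.succ (ClAll.succ (ClAll.succ (ClAll.succ (ClAll.succ (ClAll.succ (ClAll.succ ClAll.zero s596) s597) s598) s599) s600) s601) s602) n153) s624) s625) n154) s633)

def n194 : Cl (O (nat_lit 3)) (R (nat_lit 14353))
    (p (nat_lit 0xd1) (nat_lit 1) (p (nat_lit 0xc9) (nat_lit 0) (p (nat_lit 0x109) (nat_lit 1) (p (nat_lit 0x101) (nat_lit 0) (p (nat_lit 0x119) (nat_lit 0) (p (nat_lit 0xc1) (nat_lit 0) (p (nat_lit 0x81) (nat_lit 1) (p (nat_lit 0x41) (nat_lit 1) (p (nat_lit 0x8a0b0a89089a) (nat_lit 0) (p (nat_lit 0x98a8a08881a) (nat_lit 0) (p (nat_lit 0x89088988079a) (nat_lit 0) (p (nat_lit 0x8880907871a) (nat_lit 0) (p (nat_lit 0x80000800080887068a) (nat_lit 0) (p (nat_lit 0x8888068602)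 (nat_lit 0) (p (nat_lit 0x807860582) (nat_lit 0) (p (nat_lit 0x8607058502) (nat_lit 0) (p (nat_lit 0x586850482) (nat_lit 0) (p (nat_lit 0x160014) (nat_lit 0) (p (nat_lit 0x68612) (nat_lit 0) (p (nat_lit 0x50592) (nat_lit 0) (p (nat_lit 0x40512) (nat_lit 0) (p (nat_lit 0x50312) (nat_lit 0) (p (nat_lit 0x38292) (nat_lit 0) (p (nat_lit 0x28212) (nat_lit 0) (p (nat_lit 0x38112) (nat_lit 0) (p (nat_lit 0x20092) (nat_lit 0) (p (nat_lit 0x10012) (nat_lit 0) pn))))))))))))))))))))))))))) :=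
  Cl.node (nat_lit 0x3c4aa) (nat_lit 12) (by decide +kernel) (ClAll.succ (ClAll.succ (ClAll.succ (ClAll.succ (ClAll.succ (ClAll.succ (ClAll.succ (ClAll.succ (ClAll.succ (ClAll.succ (ClAll.succ (ClAll.succ ClAll.zero s635) s636) s637) s638) s639) s640) s641) n155) s655) s656) s657) s658)

def n195 : Cl (O (nat_lit 3)) (R (nat_lit 14353))
    (p (nat_lit 0x3c4aa) (nat_lit 7) (p (nat_lit 0xd1) (nat_lit 1) (p (nat_lit 0xc9) (nat_lit 0) (p (nat_lit 0x101) (nat_lit 1) (p (nat_lit 0x119) (nat_lit 0) (p (nat_lit 0xc1) (nat_lit 0) (p (nat_lit 0x81) (nat_lit 1) (p (nat_lit 0x41) (nat_lit 1) (p (nat_lit 0x8a0b0a89089a) (nat_lit 0) (p (nat_lit 0x98a8a08881a) (nat_lit 0) (p (nat_lit 0x89088988079a) (nat_lit 0) (p (nat_lit 0x8880907871a) (nat_lit 0) (p (nat_lit 0x80000800080887068a) (nat_lit 0) (p (nat_lit 0x8888068602) (nat_lit 0) (p (nat_lit 0x807860582) (nat_lit 0) (p (nat_lit 0x8607058502)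 (nat_lit 0) (p (nat_lit 0x586850482) (nat_lit 0) (p (nat_lit 0x160014) (nat_lit 0) (p (nat_lit 0x68612) (nat_lit 0) (p (nat_lit 0x50592) (nat_lit 0) (p (nat_lit 0x40512) (nat_lit 0) (p (nat_lit 0x50312) (nat_lit 0) (p (nat_lit 0x38292) (nat_lit 0) (p (nat_lit 0x28212) (nat_lit 0) (p (nat_lit 0x38112) (nat_lit 0) (p (nat_lit 0x20092) (nat_lit 0) (p (nat_lit 0x10012) (nat_lit 0) pn))))))))))))))))))))))))))) :=
  Cl.node (nat_lit 0x380c2) (nat_lit 2) (by decide +kernel) (ClAll.succ (ClAll.succ ClAll.zero n156) n157)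

def n196 : Cl (O (nat_lit 3)) (R (nat_lit 14353))
    (p (nat_lit 0x3c4aa) (nat_lit 7) (p (nat_lit 0x111) (nat_lit 1) (p (nat_lit 0xd1) (nat_lit 1) (p (nat_lit 0xc9) (nat_lit 0) (p (nat_lit 0x119) (nat_lit 1) (p (nat_lit 0xc1) (nat_lit 0) (p (nat_lit 0x81) (nat_lit 1) (p (nat_lit 0x41) (nat_lit 1) (p (nat_lit 0x8a0b0a89089a) (nat_lit 0) (p (nat_lit 0x98a8a08881a) (nat_lit 0) (p (nat_lit 0x89088988079a) (nat_lit 0) (p (nat_lit 0x8880907871a) (nat_lit 0) (p (nat_lit 0x80000800080887068a) (nat_lit 0) (p (nat_lit 0x8888068602) (nat_lit 0) (p (nat_lit 0x807860582) (nat_lit 0) (p (nat_lit 0x8607058502) (nat_lit 0) (p (nat_lit 0x586850482) (nat_lit 0) (p (nat_lit 0x160014) (nat_lit 0) (p (nat_lit 0x68612) (nat_lit 0) (p (nat_lit 0x50592) (nat_lit 0) (p (nat_lit 0x40512) (nat_lit 0) (p (nat_lit 0x50312) (nat_lit 0) (p (nat_lit 0x38292) (nat_lit 0) (p (nat_lit 0x28212) (nat_lit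 0) (p (nat_lit 0x38112) (nat_lit 0) (p (nat_lit 0x20092) (nat_lit 0) (p (nat_lit 0x10012) (nat_lit 0) pn))))))))))))))))))))))))))) :=
  Cl.node (nat_lit 0x380c2) (nat_lit 2) (by decide +kernel) (ClAll.succ (ClAll.succ ClAll.zero s726) n158)

def n197 : Cl (O (nat_lit 3)) (R (nat_lit 14353))
    (p (nat_lit 0x3c4aa) (nat_lit 7) (p (nat_lit 0x111) (nat_lit 1) (p (nat_lit 0x109) (nat_lit 0) (p (nat_lit 0xc9) (nat_lit 1) (p (nat_lit 0x119) (nat_lit 1) (p (nat_lit 0xc1) (nat_lit 0) (p (nat_lit 0x81) (nat_lit 1) (p (nat_lit 0x41) (nat_lit 1) (p (nat_lit 0x8a0b0a89089a) (nat_lit 0) (p (nat_lit 0x98a8a08881a) (nat_lit 0) (p (nat_lit 0x89088988079a) (nat_lit 0) (p (nat_lit 0x8880907871a) (nat_lit 0) (p (nat_lit 0x80000800080887068a) (nat_lit 0) (p (nat_lit 0x8888068602) (nat_lit 0) (p (nat_lit 0x807860582) (nat_lit 0) (p (nat_lit 0x8607058502) (nat_lit 0) (p (nat_lit 0x586850482)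 (nat_lit 0) (p (nat_lit 0x160014) (nat_lit 0) (p (nat_lit 0x68612) (nat_lit 0) (p (nat_lit 0x50592) (nat_lit 0) (p (nat_lit 0x40512) (nat_lit 0) (p (nat_lit 0x50312) (nat_lit 0) (p (nat_lit 0x38292) (nat_lit 0) (p (nat_lit 0x28212) (nat_lit 0) (p (nat_lit 0x38112) (nat_lit 0) (p (nat_lit 0x20092) (nat_lit 0) (p (nat_lit 0x10012) (nat_lit 0) pn))))))))))))))))))))))))))) :=
  Cl.node (nat_lit 0x380c2) (nat_lit 2) (by decide +kernel) (ClAll.succ (ClAll.succ ClAll.zero s755) n159)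

def n198 : Cl (O (nat_lit 3)) (R (nat_lit 14353))
    (p (nat_lit 0xc9) (nat_lit 1) (p (nat_lit 0x109) (nat_lit 1) (p (nat_lit 0x101) (nat_lit 0) (p (nat_lit 0x119) (nat_lit 0) (p (nat_lit 0xd1) (nat_lit 0) (p (nat_lit 0x89) (nat_lit 0) (p (nat_lit 0x41) (nat_lit 0) (p (nat_lit 0x8a0b0a89089a) (nat_lit 0) (p (nat_lit 0x98a8a08881a) (nat_lit 0) (p (nat_lit 0x89088988079a) (nat_lit 0) (p (nat_lit 0x8880907871a) (nat_lit 0) (p (nat_lit 0x80000800080887068a) (nat_lit 0) (p (nat_lit 0x8888068602) (nat_lit 0) (p (nat_lit 0x807860582) (nat_lit 0) (p (nat_lit 0x8607058502) (nat_lit 0) (p (nat_lit 0x586850482) (nat_lit 0) (p (nat_lit 0x160014) (nat_lit 0) (p (nat_lit 0x68612) (nat_lit 0) (p (nat_lit 0x50592) (nat_lit 0) (p (nat_lit 0x40512) (nat_lit 0) (p (nat_lit 0x50312) (nat_lit 0) (p (nat_lit 0x38292) (nat_lit 0) (p (nat_lit 0x28212) (nat_lit 0) (p (nat_lit 0x38112) (nat_lit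 0) (p (nat_lit 0x20092) (nat_lit 0) (p (nat_lit 0x10012) (nat_lit 0) pn)))))))))))))))))))))))))) :=
  Cl.node (nat_lit 0x81) (nat_lit 2) (by decide +kernel) (ClAll.succ (ClAll.succ ClAll.zero s2) n160)

def n199 : Cl (O (nat_lit 3)) (R (nat_lit 14353))
    (p (nat_lit 0xc9) (nat_lit 0) (p (nat_lit 0x81) (nat_lit 0) (p (nat_lit 0x101) (nat_lit 1) (p (nat_lit 0x119) (nat_lit 0) (p (nat_lit 0xd1) (nat_lit 0) (p (nat_lit 0x89) (nat_lit 0) (p (nat_lit 0x41) (nat_lit 0) (p (nat_lit 0x8a0b0a89089a) (nat_lit 0) (p (nat_lit 0x98a8a08881a) (nat_lit 0) (p (nat_lit 0x89088988079a) (nat_lit 0) (p (nat_lit 0x8880907871a) (nat_lit 0) (p (nat_lit 0x80000800080887068a) (nat_lit 0) (p (nat_lit 0x8888068602) (nat_lit 0) (p (nat_lit 0x807860582) (nat_lit 0) (p (nat_lit 0x8607058502) (nat_lit 0) (p (nat_lit 0x586850482) (nat_lit 0) (p (nat_lit 0x160014) (nat_lit 0) (p (nat_lit 0x68612) (nat_lit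 0) (p (nat_lit 0x50592) (nat_lit 0) (p (nat_lit 0x40512) (nat_lit 0) (p (nat_lit 0x50312) (nat_lit 0) (p (nat_lit 0x38292) (nat_lit 0) (p (nat_lit 0x28212) (nat_lit 0) (p (nat_lit 0x38112) (nat_lit 0) (p (nat_lit 0x20092) (nat_lit 0) (p (nat_lit 0x10012) (nat_lit 0) pn)))))))))))))))))))))))))) :=
  Cl.node (nat_lit 0x111) (nat_lit 2) (by decide +kernel) (ClAll.succ (ClAll.succ ClAll.zero n161) s40)

def n200 : Cl (O (nat_lit 3)) (R (nat_lit 14353))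
    (p (nat_lit 0xc9) (nat_lit 1) (p (nat_lit 0x81) (nat_lit 0) (p (nat_lit 0x101) (nat_lit 1) (p (nat_lit 0x119) (nat_lit 0) (p (nat_lit 0xd1) (nat_lit 0) (p (nat_lit 0x89) (nat_lit 0) (p (nat_lit 0x41) (nat_lit 0) (p (nat_lit 0x8a0b0a89089a) (nat_lit 0) (p (nat_lit 0x98a8a08881a) (nat_lit 0) (p (nat_lit 0x89088988079a) (nat_lit 0) (p (nat_lit 0x8880907871a) (nat_lit 0) (p (nat_lit 0x80000800080887068a) (nat_lit 0) (p (nat_lit 0x8888068602) (nat_lit 0) (p (nat_lit 0x807860582) (nat_lit 0) (p (nat_lit 0x8607058502) (nat_lit 0) (p (nat_lit 0x586850482) (nat_lit 0) (p (nat_lit 0x160014) (nat_lit 0) (p (nat_lit 0x68612) (nat_lit 0) (p (nat_lit 0x50592) (nat_lit 0) (p (nat_lit 0x40512) (nat_lit 0) (p (nat_lit 0x50312) (nat_lit 0) (p (nat_lit 0x38292) (nat_lit 0) (p (nat_lit 0x28212) (nat_lit 0) (p (nat_lit 0x38112) (nat_lit 0) (p (nat_lit 0x20092) (nat_lit 0) (p (nat_lit 0x10012)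 (nat_lit 0) pn)))))))))))))))))))))))))) :=
  Cl.node (nat_lit 0x111) (nat_lit 2) (by decide +kernel) (ClAll.succ (ClAll.succ ClAll.zero n162) s63)

def n201 : Cl (O (nat_lit 3)) (R (nat_lit 14353))
    (p (nat_lit 0xc1) (nat_lit 0) (p (nat_lit 0x81) (nat_lit 1) (p (nat_lit 0x101) (nat_lit 1) (p (nat_lit 0x119) (nat_lit 0) (p (nat_lit 0xd1) (nat_lit 0) (p (nat_lit 0x89) (nat_lit 0) (p (nat_lit 0x41) (nat_lit 0) (p (nat_lit 0x8a0b0a89089a) (nat_lit 0) (p (nat_lit 0x98a8a08881a) (nat_lit 0) (p (nat_lit 0x89088988079a) (nat_lit 0) (p (nat_lit 0x8880907871a) (nat_lit 0) (p (nat_lit 0x80000800080887068a) (nat_lit 0) (p (nat_lit 0x8888068602) (nat_lit 0) (p (nat_lit 0x807860582) (nat_lit 0) (p (nat_lit 0x8607058502) (nat_lit 0) (p (nat_lit 0x586850482) (nat_lit 0) (p (nat_lit 0x160014) (nat_lit 0) (p (nat_lit 0x68612) (nat_lit 0) (p (nat_lit 0x50592) (nat_lit 0) (p (nat_lit 0x40512)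 (nat_lit 0) (p (nat_lit 0x50312) (nat_lit 0) (p (nat_lit 0x38292) (nat_lit 0) (p (nat_lit 0x28212) (nat_lit 0) (p (nat_lit 0x38112) (nat_lit 0) (p (nat_lit 0x20092) (nat_lit 0) (p (nat_lit 0x10012) (nat_lit 0) pn)))))))))))))))))))))))))) :=
  Cl.node (nat_lit 0xc9) (nat_lit 2) (by decide +kernel) (ClAll.succ (ClAll.succ ClAll.zero n163) n164)

def n202 : Cl (O (nat_lit 3)) (R (nat_lit 14353))
    (p (nat_lit 0x109) (nat_lit 1) (p (nat_lit 0xc9) (nat_lit 1) (p (nat_lit 0xc1) (nat_lit 0) (p (nat_lit 0x119) (nat_lit 1) (p (nat_lit 0xd1) (nat_lit 0) (p (nat_lit 0x89) (nat_lit 0) (p (nat_lit 0x41) (nat_lit 0) (p (nat_lit 0x8a0b0a89089a) (nat_lit 0) (p (nat_lit 0x98a8a08881a) (nat_lit 0) (p (nat_lit 0x89088988079a) (nat_lit 0) (p (nat_lit 0x8880907871a) (nat_lit 0) (p (nat_lit 0x80000800080887068a) (nat_lit 0) (p (nat_lit 0x8888068602) (nat_lit 0) (p (nat_lit 0x807860582) (nat_lit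 0) (p (nat_lit 0x8607058502) (nat_lit 0) (p (nat_lit 0x586850482) (nat_lit 0) (p (nat_lit 0x160014) (nat_lit 0) (p (nat_lit 0x68612) (nat_lit 0) (p (nat_lit 0x50592) (nat_lit 0) (p (nat_lit 0x40512) (nat_lit 0) (p (nat_lit 0x50312) (nat_lit 0) (p (nat_lit 0x38292) (nat_lit 0) (p (nat_lit 0x28212) (nat_lit 0) (p (nat_lit 0x38112) (nat_lit 0) (p (nat_lit 0x20092) (nat_lit 0) (p (nat_lit 0x10012) (nat_lit 0) pn)))))))))))))))))))))))))) :=
  Cl.node (nat_lit 0x3cc2a) (nat_lit 12) (by decide +kernel) (ClAll.succ (ClAll.succ (ClAll.succ (ClAll.succ (ClAll.succ (ClAll.succ (ClAll.succ (ClAll.succ (ClAll.succ (ClAll.succ (ClAll.succ (ClAll.succ ClAll.zero s95) s96) s97) s98) s99) s100) s101) s102) s103) s104) n165) s109)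

def n203 : Cl (O (nat_lit 3)) (R (nat_lit 14353))
    (p (nat_lit 0x109) (nat_lit 1) (p (nat_lit 0x81) (nat_lit 0) (p (nat_lit 0xc1) (nat_lit 1) (p (nat_lit 0x119) (nat_lit 1) (p (nat_lit 0xd1) (nat_lit 0) (p (nat_lit 0x89) (nat_lit 0) (p (nat_lit 0x41) (nat_lit 0) (p (nat_lit 0x8a0b0a89089a) (nat_lit 0) (p (nat_lit 0x98a8a08881a) (nat_lit 0) (p (nat_lit 0x89088988079a) (nat_lit 0) (p (nat_lit 0x8880907871a) (nat_lit 0) (p (nat_lit 0x80000800080887068a) (nat_lit 0) (p (nat_lit 0x8888068602) (nat_lit 0) (p (nat_lit 0x807860582) (nat_lit 0) (p (nat_lit 0x8607058502) (nat_lit 0) (p (nat_lit 0x586850482) (nat_lit 0) (p (nat_lit 0x160014) (nat_lit 0) (p (nat_lit 0x68612) (nat_lit 0) (p (nat_lit 0x50592) (nat_lit 0) (p (nat_lit 0x40512) (nat_lit 0) (p (nat_lit 0x50312) (nat_lit 0) (p (nat_lit 0x38292) (nat_lit 0) (p (nat_lit 0x28212) (nat_lit 0) (p (nat_lit 0x38112) (nat_lit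 0) (p (nat_lit 0x20092) (nat_lit 0) (p (nat_lit 0x10012) (nat_lit 0) pn)))))))))))))))))))))))))) :=
  Cl.node (nat_lit 0x3cc2a) (nat_lit 12) (by decide +kernel) (ClAll.succ (ClAll.succ (ClAll.succ (ClAll.succ (ClAll.succ (ClAll.succ (ClAll.succ (ClAll.succ (ClAll.succ (ClAll.succ (ClAll.succ (ClAll.succ ClAll.zero s111) s112) s113) s114) s115) s116) s117) s118) s119) s120) s121) s122)

def n204 : Cl (O (nat_lit 3)) (R (nat_lit 14353))
    (p (nat_lit 0x101) (nat_lit 0) (p (nat_lit 0x81) (nat_lit 1) (p (nat_lit 0xc1) (nat_lit 1) (p (nat_lit 0x119) (nat_lit 1) (p (nat_lit 0xd1) (nat_lit 0) (p (nat_lit 0x89) (nat_lit 0) (p (nat_lit 0x41) (nat_lit 0) (p (nat_lit 0x8a0b0a89089a) (nat_lit 0) (p (nat_lit 0x98a8a08881a) (nat_lit 0) (p (nat_lit 0x89088988079a) (nat_lit 0) (p (nat_lit 0x8880907871a) (nat_lit 0) (p (nat_lit 0x80000800080887068a) (nat_lit 0) (p (nat_lit 0x8888068602)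 (nat_lit 0) (p (nat_lit 0x807860582) (nat_lit 0) (p (nat_lit 0x8607058502) (nat_lit 0) (p (nat_lit 0x586850482) (nat_lit 0) (p (nat_lit 0x160014) (nat_lit 0) (p (nat_lit 0x68612) (nat_lit 0) (p (nat_lit 0x50592) (nat_lit 0) (p (nat_lit 0x40512) (nat_lit 0) (p (nat_lit 0x50312) (nat_lit 0) (p (nat_lit 0x38292) (nat_lit 0) (p (nat_lit 0x28212) (nat_lit 0) (p (nat_lit 0x38112) (nat_lit 0) (p (nat_lit 0x20092) (nat_lit 0) (p (nat_lit 0x10012) (nat_lit 0) pn)))))))))))))))))))))))))) :=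
  Cl.node (nat_lit 0x109) (nat_lit 2) (by decide +kernel) (ClAll.succ (ClAll.succ ClAll.zero n166) n167)

def n205 : Cl (O (nat_lit 3)) (R (nat_lit 14353))
    (p (nat_lit 0x101) (nat_lit 1) (p (nat_lit 0x81) (nat_lit 1) (p (nat_lit 0xc1) (nat_lit 1) (p (nat_lit 0x119) (nat_lit 1) (p (nat_lit 0xd1) (nat_lit 0) (p (nat_lit 0x89) (nat_lit 0) (p (nat_lit 0x41) (nat_lit 0) (p (nat_lit 0x8a0b0a89089a) (nat_lit 0) (p (nat_lit 0x98a8a08881a) (nat_lit 0) (p (nat_lit 0x89088988079a) (nat_lit 0) (p (nat_lit 0x8880907871a) (nat_lit 0) (p (nat_lit 0x80000800080887068a) (nat_lit 0) (p (nat_lit 0x8888068602) (nat_lit 0) (p (nat_lit 0x807860582) (nat_lit 0) (p (nat_lit 0x8607058502) (nat_lit 0) (p (nat_lit 0x586850482) (nat_lit 0) (p (nat_lit 0x160014) (nat_lit 0) (p (nat_lit 0x68612) (nat_lit 0) (p (nat_lit 0x50592) (nat_lit 0) (p (nat_lit 0x40512) (nat_lit 0) (p (nat_lit 0x50312) (nat_lit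 0) (p (nat_lit 0x38292) (nat_lit 0) (p (nat_lit 0x28212) (nat_lit 0) (p (nat_lit 0x38112) (nat_lit 0) (p (nat_lit 0x20092) (nat_lit 0) (p (nat_lit 0x10012) (nat_lit 0) pn)))))))))))))))))))))))))) :=
  Cl.node (nat_lit 0x444aa) (nat_lit 12) (by decide +kernel) (ClAll.succ (ClAll.succ (ClAll.succ (ClAll.succ (ClAll.succ (ClAll.succ (ClAll.succ (ClAll.succ (ClAll.succ (ClAll.succ (ClAll.succ (ClAll.succ ClAll.zero s169) s170) s171) s172) s173) s174) s175) n168) s178) s179) s180) s181)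

def n206 : Cl (O (nat_lit 3)) (R (nat_lit 14353))
    (p (nat_lit 0xc1) (nat_lit 1) (p (nat_lit 0x109) (nat_lit 1) (p (nat_lit 0x101) (nat_lit 0) (p (nat_lit 0x111) (nat_lit 0) (p (nat_lit 0xd1) (nat_lit 1) (p (nat_lit 0x89) (nat_lit 0) (p (nat_lit 0x41) (nat_lit 0) (p (nat_lit 0x8a0b0a89089a) (nat_lit 0) (p (nat_lit 0x98a8a08881a) (nat_lit 0) (p (nat_lit 0x89088988079a) (nat_lit 0) (p (nat_lit 0x8880907871a) (nat_lit 0) (p (nat_lit 0x80000800080887068a) (nat_lit 0) (p (nat_lit 0x8888068602) (nat_lit 0) (p (nat_lit 0x807860582) (nat_lit 0) (p (nat_lit 0x8607058502) (nat_lit 0) (p (nat_lit 0x586850482) (nat_lit 0) (p (nat_lit 0x160014) (nat_lit 0) (p (nat_lit 0x68612) (nat_lit 0) (p (nat_lit 0x50592) (nat_lit 0) (p (nat_lit 0x40512) (nat_lit 0) (p (nat_lit 0x50312) (nat_lit 0) (p (nat_lit 0x38292) (nat_lit 0) (p (nat_lit 0x28212) (nat_lit 0) (p (nat_lit 0x38112) (nat_lit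 0) (p (nat_lit 0x20092) (nat_lit 0) (p (nat_lit 0x10012) (nat_lit 0) pn)))))))))))))))))))))))))) :=
  Cl.node (nat_lit 0x200004) (nat_lit 2) (by decide +kernel) (ClAll.succ (ClAll.succ ClAll.zero s184) s185)

def n207 : Cl (O (nat_lit 3)) (R (nat_lit 14353))
    (p (nat_lit 0x119) (nat_lit 0) (p (nat_lit 0x81) (nat_lit 0) (p (nat_lit 0x101) (nat_lit 1) (p (nat_lit 0x111) (nat_lit 0) (p (nat_lit 0xd1) (nat_lit 1) (p (nat_lit 0x89) (nat_lit 0) (p (nat_lit 0x41) (nat_lit 0) (p (nat_lit 0x8a0b0a89089a) (nat_lit 0) (p (nat_lit 0x98a8a08881a) (nat_lit 0) (p (nat_lit 0x89088988079a) (nat_lit 0) (p (nat_lit 0x8880907871a) (nat_lit 0) (p (nat_lit 0x80000800080887068a) (nat_lit 0) (p (nat_lit 0x8888068602) (nat_lit 0) (p (nat_lit 0x807860582) (nat_lit 0) (p (nat_lit 0x8607058502) (nat_lit 0) (p (nat_lit 0x586850482) (nat_lit 0) (p (nat_lit 0x160014) (nat_lit 0) (p (nat_lit 0x68612)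 (nat_lit 0) (p (nat_lit 0x50592) (nat_lit 0) (p (nat_lit 0x40512) (nat_lit 0) (p (nat_lit 0x50312) (nat_lit 0) (p (nat_lit 0x38292) (nat_lit 0) (p (nat_lit 0x28212) (nat_lit 0) (p (nat_lit 0x38112) (nat_lit 0) (p (nat_lit 0x20092) (nat_lit 0) (p (nat_lit 0x10012) (nat_lit 0) pn)))))))))))))))))))))))))) :=
  Cl.node (nat_lit 0x200004) (nat_lit 2) (by decide +kernel) (ClAll.succ (ClAll.succ ClAll.zero n169) s188)

def n208 : Cl (O (nat_lit 3)) (R (nat_lit 14353))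
    (p (nat_lit 0xc1) (nat_lit 0) (p (nat_lit 0x81) (nat_lit 1) (p (nat_lit 0x101) (nat_lit 1) (p (nat_lit 0x111) (nat_lit 0) (p (nat_lit 0xd1) (nat_lit 1) (p (nat_lit 0x89) (nat_lit 0) (p (nat_lit 0x41) (nat_lit 0) (p (nat_lit 0x8a0b0a89089a) (nat_lit 0) (p (nat_lit 0x98a8a08881a) (nat_lit 0) (p (nat_lit 0x89088988079a) (nat_lit 0) (p (nat_lit 0x8880907871a) (nat_lit 0) (p (nat_lit 0x80000800080887068a) (nat_lit 0) (p (nat_lit 0x8888068602) (nat_lit 0) (p (nat_lit 0x807860582) (nat_lit 0) (p (nat_lit 0x8607058502) (nat_lit 0) (p (nat_lit 0x586850482) (nat_lit 0) (p (nat_lit 0x160014) (nat_lit 0) (p (nat_lit 0x68612) (nat_lit 0) (p (nat_lit 0x50592) (nat_lit 0) (p (nat_lit 0x40512) (nat_lit 0) (p (nat_lit 0x50312) (nat_lit 0) (p (nat_lit 0x38292) (nat_lit 0) (p (nat_lit 0x28212) (nat_lit 0) (p (nat_lit 0x38112) (nat_lit 0) (p (nat_lit 0x20092) (nat_lit 0) (p (nat_lit 0x10012)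 (nat_lit 0) pn)))))))))))))))))))))))))) :=
  Cl.node (nat_lit 0x119) (nat_lit 2) (by decide +kernel) (ClAll.succ (ClAll.succ ClAll.zero n170) s203)

def n209 : Cl (O (nat_lit 3)) (R (nat_lit 14353))
    (p (nat_lit 0x111) (nat_lit 1) (p (nat_lit 0x109) (nat_lit 0) (p (nat_lit 0x101) (nat_lit 0) (p (nat_lit 0x119) (nat_lit 0) (p (nat_lit 0xc9) (nat_lit 0) (p (nat_lit 0x89) (nat_lit 1) (p (nat_lit 0x41) (nat_lit 0) (p (nat_lit 0x8a0b0a89089a) (nat_lit 0) (p (nat_lit 0x98a8a08881a) (nat_lit 0) (p (nat_lit 0x89088988079a) (nat_lit 0) (p (nat_lit 0x8880907871a) (nat_lit 0) (p (nat_lit 0x80000800080887068a) (nat_lit 0) (p (nat_lit 0x8888068602) (nat_lit 0) (p (nat_lit 0x807860582) (nat_lit 0) (p (nat_lit 0x8607058502) (nat_lit 0) (p (nat_lit 0x586850482) (nat_lit 0) (p (nat_lit 0x160014) (nat_lit 0) (p (nat_lit 0x68612) (nat_lit 0) (p (nat_lit 0x50592) (nat_lit 0) (p (nat_lit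 0x40512) (nat_lit 0) (p (nat_lit 0x50312) (nat_lit 0) (p (nat_lit 0x38292) (nat_lit 0) (p (nat_lit 0x28212) (nat_lit 0) (p (nat_lit 0x38112) (nat_lit 0) (p (nat_lit 0x20092) (nat_lit 0) (p (nat_lit 0x10012) (nat_lit 0) pn)))))))))))))))))))))))))) :=
  Cl.node (nat_lit 0xd1) (nat_lit 2) (by decide +kernel) (ClAll.succ (ClAll.succ ClAll.zero s210) n171)

def n210 : Cl (O (nat_lit 3)) (R (nat_lit 14353))
    (p (nat_lit 0xd1) (nat_lit 0) (p (nat_lit 0x109) (nat_lit 1) (p (nat_lit 0x101) (nat_lit 0) (p (nat_lit 0x119) (nat_lit 0) (p (nat_lit 0xc9) (nat_lit 0) (p (nat_lit 0x89) (nat_lit 1) (p (nat_lit 0x41) (nat_lit 0) (p (nat_lit 0x8a0b0a89089a) (nat_lit 0) (p (nat_lit 0x98a8a08881a) (nat_lit 0) (p (nat_lit 0x89088988079a) (nat_lit 0) (p (nat_lit 0x8880907871a) (nat_lit 0) (p (nat_lit 0x80000800080887068a) (nat_lit 0) (p (nat_lit 0x8888068602) (nat_lit 0) (p (nat_lit 0x807860582)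 (nat_lit 0) (p (nat_lit 0x8607058502) (nat_lit 0) (p (nat_lit 0x586850482) (nat_lit 0) (p (nat_lit 0x160014) (nat_lit 0) (p (nat_lit 0x68612) (nat_lit 0) (p (nat_lit 0x50592) (nat_lit 0) (p (nat_lit 0x40512) (nat_lit 0) (p (nat_lit 0x50312) (nat_lit 0) (p (nat_lit 0x38292) (nat_lit 0) (p (nat_lit 0x28212) (nat_lit 0) (p (nat_lit 0x38112) (nat_lit 0) (p (nat_lit 0x20092) (nat_lit 0) (p (nat_lit 0x10012) (nat_lit 0) pn)))))))))))))))))))))))))) :=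
  Cl.node (nat_lit 0x200004) (nat_lit 2) (by decide +kernel) (ClAll.succ (ClAll.succ ClAll.zero n172) s255)

def n211 : Cl (O (nat_lit 3)) (R (nat_lit 14353))
    (p (nat_lit 0xd1) (nat_lit 1) (p (nat_lit 0x109) (nat_lit 1) (p (nat_lit 0x101) (nat_lit 0) (p (nat_lit 0x119) (nat_lit 0) (p (nat_lit 0xc9) (nat_lit 0) (p (nat_lit 0x89) (nat_lit 1) (p (nat_lit 0x41) (nat_lit 0) (p (nat_lit 0x8a0b0a89089a) (nat_lit 0) (p (nat_lit 0x98a8a08881a) (nat_lit 0) (p (nat_lit 0x89088988079a) (nat_lit 0) (p (nat_lit 0x8880907871a) (nat_lit 0) (p (nat_lit 0x80000800080887068a) (nat_lit 0) (p (nat_lit 0x8888068602) (nat_lit 0) (p (nat_lit 0x807860582) (nat_lit 0) (p (nat_lit 0x8607058502) (nat_lit 0) (p (nat_lit 0x586850482) (nat_lit 0) (p (nat_lit 0x160014) (nat_lit 0) (p (nat_lit 0x68612) (nat_lit 0) (p (nat_lit 0x50592) (nat_lit 0) (p (nat_lit 0x40512) (nat_lit 0) (p (nat_lit 0x50312)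 (nat_lit 0) (p (nat_lit 0x38292) (nat_lit 0) (p (nat_lit 0x28212) (nat_lit 0) (p (nat_lit 0x38112) (nat_lit 0) (p (nat_lit 0x20092) (nat_lit 0) (p (nat_lit 0x10012) (nat_lit 0) pn)))))))))))))))))))))))))) :=
  Cl.node (nat_lit 0x444aa) (nat_lit 12) (by decide +kernel) (ClAll.succ (ClAll.succ (ClAll.succ (ClAll.succ (ClAll.succ (ClAll.succ (ClAll.succ (ClAll.succ (ClAll.succ (ClAll.succ (ClAll.succ (ClAll.succ ClAll.zero s256) s257) s258) s259) s260) s261) s262) n173) s278) s279) s280) s281)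

def n212 : Cl (O (nat_lit 3)) (R (nat_lit 14353))
    (p (nat_lit 0xd1) (nat_lit 0) (p (nat_lit 0xc1) (nat_lit 0) (p (nat_lit 0x101) (nat_lit 1) (p (nat_lit 0x119) (nat_lit 0) (p (nat_lit 0xc9) (nat_lit 0) (p (nat_lit 0x89) (nat_lit 1) (p (nat_lit 0x41) (nat_lit 0) (p (nat_lit 0x8a0b0a89089a) (nat_lit 0) (p (nat_lit 0x98a8a08881a) (nat_lit 0) (p (nat_lit 0x89088988079a) (nat_lit 0) (p (nat_lit 0x8880907871a) (nat_lit 0) (p (nat_lit 0x80000800080887068a) (nat_lit 0) (p (nat_lit 0x8888068602) (nat_lit 0) (p (nat_lit 0x807860582) (nat_lit 0) (p (nat_lit 0x8607058502) (nat_lit 0) (p (nat_lit 0x586850482) (nat_lit 0) (p (nat_lit 0x160014) (nat_lit 0) (p (nat_lit 0x68612) (nat_lit 0) (p (nat_lit 0x50592) (nat_lit 0) (p (nat_lit 0x40512) (nat_lit 0) (p (nat_lit 0x50312) (nat_lit 0) (p (nat_lit 0x38292) (nat_lit 0) (p (nat_lit 0x28212) (nat_lit 0) (p (nat_lit 0x38112) (nat_lit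 0) (p (nat_lit 0x20092) (nat_lit 0) (p (nat_lit 0x10012) (nat_lit 0) pn)))))))))))))))))))))))))) :=
  Cl.node (nat_lit 0x200004) (nat_lit 2) (by decide +kernel) (ClAll.succ (ClAll.succ ClAll.zero n174) s285)

def n213 : Cl (O (nat_lit 3)) (R (nat_lit 14353))
    (p (nat_lit 0xd1) (nat_lit 1) (p (nat_lit 0xc1) (nat_lit 0) (p (nat_lit 0x101) (nat_lit 1) (p (nat_lit 0x119) (nat_lit 0) (p (nat_lit 0xc9) (nat_lit 0) (p (nat_lit 0x89) (nat_lit 1) (p (nat_lit 0x41) (nat_lit 0) (p (nat_lit 0x8a0b0a89089a) (nat_lit 0) (p (nat_lit 0x98a8a08881a) (nat_lit 0) (p (nat_lit 0x89088988079a) (nat_lit 0) (p (nat_lit 0x8880907871a) (nat_lit 0) (p (nat_lit 0x80000800080887068a) (nat_lit 0) (p (nat_lit 0x8888068602) (nat_lit 0) (p (nat_lit 0x807860582) (nat_lit 0) (p (nat_lit 0x8607058502) (nat_lit 0) (p (nat_lit 0x586850482) (nat_lit 0) (p (nat_lit 0x160014) (nat_lit 0) (p (nat_lit 0x68612)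 (nat_lit 0) (p (nat_lit 0x50592) (nat_lit 0) (p (nat_lit 0x40512) (nat_lit 0) (p (nat_lit 0x50312) (nat_lit 0) (p (nat_lit 0x38292) (nat_lit 0) (p (nat_lit 0x28212) (nat_lit 0) (p (nat_lit 0x38112) (nat_lit 0) (p (nat_lit 0x20092) (nat_lit 0) (p (nat_lit 0x10012) (nat_lit 0) pn)))))))))))))))))))))))))) :=
  Cl.node (nat_lit 0x444aa) (nat_lit 12) (by decide +kernel) (ClAll.succ (ClAll.succ (ClAll.succ (ClAll.succ (ClAll.succ (ClAll.succ (ClAll.succ (ClAll.succ (ClAll.succ (ClAll.succ (ClAll.succ (ClAll.succ ClAll.zero s286) s287) s288) s289) s290) s291) s292) n175) s298) s299) s300) s301)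

def n214 : Cl (O (nat_lit 3)) (R (nat_lit 14353))
    (p (nat_lit 0x111) (nat_lit 1) (p (nat_lit 0xd1) (nat_lit 1) (p (nat_lit 0xc1) (nat_lit 0) (p (nat_lit 0x119) (nat_lit 1) (p (nat_lit 0xc9) (nat_lit 0) (p (nat_lit 0x89) (nat_lit 1) (p (nat_lit 0x41) (nat_lit 0) (p (nat_lit 0x8a0b0a89089a) (nat_lit 0) (p (nat_lit 0x98a8a08881a) (nat_lit 0) (p (nat_lit 0x89088988079a) (nat_lit 0) (p (nat_lit 0x8880907871a) (nat_lit 0) (p (nat_lit 0x80000800080887068a) (nat_lit 0) (p (nat_lit 0x8888068602) (nat_lit 0) (p (nat_lit 0x807860582) (nat_lit 0) (p (nat_lit 0x8607058502) (nat_lit 0) (p (nat_lit 0x586850482) (nat_lit 0) (p (nat_lit 0x160014) (nat_lit 0) (p (nat_lit 0x68612) (nat_lit 0) (p (nat_lit 0x50592) (nat_lit 0) (p (nat_lit 0x40512) (nat_lit 0) (p (nat_lit 0x50312) (nat_lit 0) (p (nat_lit 0x38292) (nat_lit 0) (p (nat_lit 0x28212) (nat_lit 0) (p (nat_lit 0x38112) (nat_lit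 0) (p (nat_lit 0x20092) (nat_lit 0) (p (nat_lit 0x10012) (nat_lit 0) pn)))))))))))))))))))))))))) :=
  Cl.node (nat_lit 0x444aa) (nat_lit 12) (by decide +kernel) (ClAll.succ (ClAll.succ (ClAll.succ (ClAll.succ (ClAll.succ (ClAll.succ (ClAll.succ (ClAll.succ (ClAll.succ (ClAll.succ (ClAll.succ (ClAll.succ ClAll.zero s305) s306) s307) s308) s309) s310) s311) n176) s320) s321) s322) s323)

def n215 : Cl (O (nat_lit 3)) (R (nat_lit 14353))
    (p (nat_lit 0x111) (nat_lit 0) (p (nat_lit 0x101) (nat_lit 0) (p (nat_lit 0xc1) (nat_lit 1) (p (nat_lit 0x119) (nat_lit 1) (p (nat_lit 0xc9) (nat_lit 0) (p (nat_lit 0x89) (nat_lit 1) (p (nat_lit 0x41) (nat_lit 0) (p (nat_lit 0x8a0b0a89089a) (nat_lit 0) (p (nat_lit 0x98a8a08881a) (nat_lit 0) (p (nat_lit 0x89088988079a) (nat_lit 0) (p (nat_lit 0x8880907871a) (nat_lit 0) (p (nat_lit 0x80000800080887068a) (nat_lit 0) (p (nat_lit 0x8888068602)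 (nat_lit 0) (p (nat_lit 0x807860582) (nat_lit 0) (p (nat_lit 0x8607058502) (nat_lit 0) (p (nat_lit 0x586850482) (nat_lit 0) (p (nat_lit 0x160014) (nat_lit 0) (p (nat_lit 0x68612) (nat_lit 0) (p (nat_lit 0x50592) (nat_lit 0) (p (nat_lit 0x40512) (nat_lit 0) (p (nat_lit 0x50312) (nat_lit 0) (p (nat_lit 0x38292) (nat_lit 0) (p (nat_lit 0x28212) (nat_lit 0) (p (nat_lit 0x38112) (nat_lit 0) (p (nat_lit 0x20092) (nat_lit 0) (p (nat_lit 0x10012) (nat_lit 0) pn)))))))))))))))))))))))))) :=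
  Cl.node (nat_lit 0x44c2a) (nat_lit 12) (by decide +kernel) (ClAll.succ (ClAll.succ (ClAll.succ (ClAll.succ (ClAll.succ (ClAll.succ (ClAll.succ (ClAll.succ (ClAll.succ (ClAll.succ (ClAll.succ (ClAll.succ ClAll.zero s324) s325) s326) s327) s328) s329) s330) s331) s332) s333) s334) s335)

def n216 : Cl (O (nat_lit 3)) (R (nat_lit 14353))
    (p (nat_lit 0x111) (nat_lit 1) (p (nat_lit 0x101) (nat_lit 0) (p (nat_lit 0xc1) (nat_lit 1) (p (nat_lit 0x119) (nat_lit 1) (p (nat_lit 0xc9) (nat_lit 0) (p (nat_lit 0x89) (nat_lit 1) (p (nat_lit 0x41) (nat_lit 0) (p (nat_lit 0x8a0b0a89089a) (nat_lit 0) (p (nat_lit 0x98a8a08881a) (nat_lit 0) (p (nat_lit 0x89088988079a) (nat_lit 0) (p (nat_lit 0x8880907871a) (nat_lit 0) (p (nat_lit 0x80000800080887068a) (nat_lit 0) (p (nat_lit 0x8888068602) (nat_lit 0) (p (nat_lit 0x807860582) (nat_lit 0) (p (nat_lit 0x8607058502) (nat_lit 0) (p (nat_lit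 0x586850482) (nat_lit 0) (p (nat_lit 0x160014) (nat_lit 0) (p (nat_lit 0x68612) (nat_lit 0) (p (nat_lit 0x50592) (nat_lit 0) (p (nat_lit 0x40512) (nat_lit 0) (p (nat_lit 0x50312) (nat_lit 0) (p (nat_lit 0x38292) (nat_lit 0) (p (nat_lit 0x28212) (nat_lit 0) (p (nat_lit 0x38112) (nat_lit 0) (p (nat_lit 0x20092) (nat_lit 0) (p (nat_lit 0x10012) (nat_lit 0) pn)))))))))))))))))))))))))) :=
  Cl.node (nat_lit 0x444aa) (nat_lit 12) (by decide +kernel) (ClAll.succ (ClAll.succ (ClAll.succ (ClAll.succ (ClAll.succ (ClAll.succ (ClAll.succ (ClAll.succ (ClAll.succ (ClAll.succ (ClAll.succ (ClAll.succ ClAll.zero s336) s337) s338) s339) s340) s341) s342) n177) s346) s347) s348) s349)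

def n217 : Cl (O (nat_lit 3)) (R (nat_lit 14353))
    (p (nat_lit 0x89) (nat_lit 0) (p (nat_lit 0x109) (nat_lit 1) (p (nat_lit 0x101) (nat_lit 0) (p (nat_lit 0x119) (nat_lit 0) (p (nat_lit 0xd1) (nat_lit 0) (p (nat_lit 0x81) (nat_lit 0) (p (nat_lit 0x41) (nat_lit 1) (p (nat_lit 0x8a0b0a89089a) (nat_lit 0) (p (nat_lit 0x98a8a08881a) (nat_lit 0) (p (nat_lit 0x89088988079a) (nat_lit 0) (p (nat_lit 0x8880907871a) (nat_lit 0) (p (nat_lit 0x80000800080887068a) (nat_lit 0) (p (nat_lit 0x8888068602) (nat_lit 0) (p (nat_lit 0x807860582) (nat_lit 0) (p (nat_lit 0x8607058502) (nat_lit 0) (p (nat_lit 0x586850482) (nat_lit 0) (p (nat_lit 0x160014) (nat_lit 0) (p (nat_lit 0x68612) (nat_lit 0) (p (nat_lit 0x50592) (nat_lit 0) (p (nat_lit 0x40512) (nat_lit 0) (p (nat_lit 0x50312) (nat_lit 0) (p (nat_lit 0x38292) (nat_lit 0) (p (nat_lit 0x28212) (nat_lit 0) (p (nat_lit 0x38112) (nat_lit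 0) (p (nat_lit 0x20092) (nat_lit 0) (p (nat_lit 0x10012) (nat_lit 0) pn)))))))))))))))))))))))))) :=
  Cl.node (nat_lit 0x111) (nat_lit 2) (by decide +kernel) (ClAll.succ (ClAll.succ ClAll.zero n178) n179)

def n218 : Cl (O (nat_lit 3)) (R (nat_lit 14353))
    (p (nat_lit 0x89) (nat_lit 1) (p (nat_lit 0x109) (nat_lit 1) (p (nat_lit 0x101) (nat_lit 0) (p (nat_lit 0x119) (nat_lit 0) (p (nat_lit 0xd1) (nat_lit 0) (p (nat_lit 0x81) (nat_lit 0) (p (nat_lit 0x41) (nat_lit 1) (p (nat_lit 0x8a0b0a89089a) (nat_lit 0) (p (nat_lit 0x98a8a08881a) (nat_lit 0) (p (nat_lit 0x89088988079a) (nat_lit 0) (p (nat_lit 0x8880907871a) (nat_lit 0) (p (nat_lit 0x80000800080887068a) (nat_lit 0) (p (nat_lit 0x8888068602) (nat_lit 0) (p (nat_lit 0x807860582) (nat_lit 0) (p (nat_lit 0x8607058502) (nat_lit 0) (p (nat_lit 0x586850482) (nat_lit 0) (p (nat_lit 0x160014) (nat_lit 0) (p (nat_lit 0x68612)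 (nat_lit 0) (p (nat_lit 0x50592) (nat_lit 0) (p (nat_lit 0x40512) (nat_lit 0) (p (nat_lit 0x50312) (nat_lit 0) (p (nat_lit 0x38292) (nat_lit 0) (p (nat_lit 0x28212) (nat_lit 0) (p (nat_lit 0x38112) (nat_lit 0) (p (nat_lit 0x20092) (nat_lit 0) (p (nat_lit 0x10012) (nat_lit 0) pn)))))))))))))))))))))))))) :=
  Cl.node (nat_lit 0xc9) (nat_lit 2) (by decide +kernel) (ClAll.succ (ClAll.succ ClAll.zero n180) n181)

def n219 : Cl (O (nat_lit 3)) (R (nat_lit 14353))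
    (p (nat_lit 0x89) (nat_lit 0) (p (nat_lit 0xc1) (nat_lit 0) (p (nat_lit 0x101) (nat_lit 1) (p (nat_lit 0x119) (nat_lit 0) (p (nat_lit 0xd1) (nat_lit 0) (p (nat_lit 0x81) (nat_lit 0) (p (nat_lit 0x41) (nat_lit 1) (p (nat_lit 0x8a0b0a89089a) (nat_lit 0) (p (nat_lit 0x98a8a08881a) (nat_lit 0) (p (nat_lit 0x89088988079a) (nat_lit 0) (p (nat_lit 0x8880907871a) (nat_lit 0) (p (nat_lit 0x80000800080887068a) (nat_lit 0) (p (nat_lit 0x8888068602) (nat_lit 0) (p (nat_lit 0x807860582) (nat_lit 0) (p (nat_lit 0x8607058502) (nat_lit 0) (p (nat_lit 0x586850482) (nat_lit 0) (p (nat_lit 0x160014) (nat_lit 0) (p (nat_lit 0x68612) (nat_lit 0) (p (nat_lit 0x50592) (nat_lit 0) (p (nat_lit 0x40512) (nat_lit 0) (p (nat_lit 0x50312) (nat_lit 0) (p (nat_lit 0x38292) (nat_lit 0) (p (nat_lit 0x28212) (nat_lit 0) (p (nat_lit 0x38112) (nat_lit 0) (p (nat_lit 0x20092) (nat_lit 0) (p (nat_lit 0x10012)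 (nat_lit 0) pn)))))))))))))))))))))))))) :=
  Cl.node (nat_lit 0x4c42a) (nat_lit 12) (by decide +kernel) (ClAll.succ (ClAll.succ (ClAll.succ (ClAll.succ (ClAll.succ (ClAll.succ (ClAll.succ (ClAll.succ (ClAll.succ (ClAll.succ (ClAll.succ (ClAll.succ ClAll.zero s404) s405) s406) s407) s408) s409) s410) s411) s412) s413) s414) s415)

def n220 : Cl (O (nat_lit 3)) (R (nat_lit 14353))
    (p (nat_lit 0x89) (nat_lit 1) (p (nat_lit 0xc1) (nat_lit 0) (p (nat_lit 0x101) (nat_lit 1) (p (nat_lit 0x119) (nat_lit 0) (p (nat_lit 0xd1) (nat_lit 0) (p (nat_lit 0x81) (nat_lit 0) (p (nat_lit 0x41) (nat_lit 1) (p (nat_lit 0x8a0b0a89089a) (nat_lit 0) (p (nat_lit 0x98a8a08881a) (nat_lit 0) (p (nat_lit 0x89088988079a) (nat_lit 0) (p (nat_lit 0x8880907871a) (nat_lit 0) (p (nat_lit 0x80000800080887068a) (nat_lit 0) (p (nat_lit 0x8888068602) (nat_lit 0) (p (nat_lit 0x807860582) (nat_lit 0) (p (nat_lit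 0x8607058502) (nat_lit 0) (p (nat_lit 0x586850482) (nat_lit 0) (p (nat_lit 0x160014) (nat_lit 0) (p (nat_lit 0x68612) (nat_lit 0) (p (nat_lit 0x50592) (nat_lit 0) (p (nat_lit 0x40512) (nat_lit 0) (p (nat_lit 0x50312) (nat_lit 0) (p (nat_lit 0x38292) (nat_lit 0) (p (nat_lit 0x28212) (nat_lit 0) (p (nat_lit 0x38112) (nat_lit 0) (p (nat_lit 0x20092) (nat_lit 0) (p (nat_lit 0x10012) (nat_lit 0) pn)))))))))))))))))))))))))) :=
  Cl.node (nat_lit 0xc9) (nat_lit 2) (by decide +kernel) (ClAll.succ (ClAll.succ ClAll.zero n182) n183)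

def n221 : Cl (O (nat_lit 3)) (R (nat_lit 14353))
    (p (nat_lit 0x89) (nat_lit 1) (p (nat_lit 0xc1) (nat_lit 1) (p (nat_lit 0x101) (nat_lit 1) (p (nat_lit 0x119) (nat_lit 0) (p (nat_lit 0xd1) (nat_lit 0) (p (nat_lit 0x81) (nat_lit 0) (p (nat_lit 0x41) (nat_lit 1) (p (nat_lit 0x8a0b0a89089a) (nat_lit 0) (p (nat_lit 0x98a8a08881a) (nat_lit 0) (p (nat_lit 0x89088988079a) (nat_lit 0) (p (nat_lit 0x8880907871a) (nat_lit 0) (p (nat_lit 0x80000800080887068a) (nat_lit 0) (p (nat_lit 0x8888068602) (nat_lit 0) (p (nat_lit 0x807860582) (nat_lit 0) (p (nat_lit 0x8607058502) (nat_lit 0) (p (nat_lit 0x586850482) (nat_lit 0) (p (nat_lit 0x160014) (nat_lit 0) (p (nat_lit 0x68612) (nat_lit 0) (p (nat_lit 0x50592) (nat_lit 0) (p (nat_lit 0x40512) (nat_lit 0) (p (nat_lit 0x50312) (nat_lit 0) (p (nat_lit 0x38292) (nat_lit 0) (p (nat_lit 0x28212) (nat_lit 0) (p (nat_lit 0x38112) (nat_lit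 0) (p (nat_lit 0x20092) (nat_lit 0) (p (nat_lit 0x10012) (nat_lit 0) pn)))))))))))))))))))))))))) :=
  Cl.node (nat_lit 0x3c4aa) (nat_lit 12) (by decide +kernel) (ClAll.succ (ClAll.succ (ClAll.succ (ClAll.succ (ClAll.succ (ClAll.succ (ClAll.succ (ClAll.succ (ClAll.succ (ClAll.succ (ClAll.succ (ClAll.succ ClAll.zero s441) s442) s443) s444) s445) s446) s447) n184) s450) s451) s452) s453)

def n222 : Cl (O (nat_lit 3)) (R (nat_lit 14353))
    (p (nat_lit 0x89) (nat_lit 1) (p (nat_lit 0xc9) (nat_lit 1) (p (nat_lit 0xc1) (nat_lit 0) (p (nat_lit 0x119) (nat_lit 1) (p (nat_lit 0xd1) (nat_lit 0) (p (nat_lit 0x81) (nat_lit 0) (p (nat_lit 0x41) (nat_lit 1) (p (nat_lit 0x8a0b0a89089a) (nat_lit 0) (p (nat_lit 0x98a8a08881a) (nat_lit 0) (p (nat_lit 0x89088988079a) (nat_lit 0) (p (nat_lit 0x8880907871a) (nat_lit 0) (p (nat_lit 0x80000800080887068a) (nat_lit 0) (p (nat_lit 0x8888068602)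 (nat_lit 0) (p (nat_lit 0x807860582) (nat_lit 0) (p (nat_lit 0x8607058502) (nat_lit 0) (p (nat_lit 0x586850482) (nat_lit 0) (p (nat_lit 0x160014) (nat_lit 0) (p (nat_lit 0x68612) (nat_lit 0) (p (nat_lit 0x50592) (nat_lit 0) (p (nat_lit 0x40512) (nat_lit 0) (p (nat_lit 0x50312) (nat_lit 0) (p (nat_lit 0x38292) (nat_lit 0) (p (nat_lit 0x28212) (nat_lit 0) (p (nat_lit 0x38112) (nat_lit 0) (p (nat_lit 0x20092) (nat_lit 0) (p (nat_lit 0x10012) (nat_lit 0) pn)))))))))))))))))))))))))) :=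
  Cl.node (nat_lit 0x109) (nat_lit 2) (by decide +kernel) (ClAll.succ (ClAll.succ ClAll.zero n185) n186)

def n223 : Cl (O (nat_lit 3)) (R (nat_lit 14353))
    (p (nat_lit 0x89) (nat_lit 1) (p (nat_lit 0x101) (nat_lit 0) (p (nat_lit 0xc1) (nat_lit 1) (p (nat_lit 0x119) (nat_lit 1) (p (nat_lit 0xd1) (nat_lit 0) (p (nat_lit 0x81) (nat_lit 0) (p (nat_lit 0x41) (nat_lit 1) (p (nat_lit 0x8a0b0a89089a) (nat_lit 0) (p (nat_lit 0x98a8a08881a) (nat_lit 0) (p (nat_lit 0x89088988079a) (nat_lit 0) (p (nat_lit 0x8880907871a) (nat_lit 0) (p (nat_lit 0x80000800080887068a) (nat_lit 0) (p (nat_lit 0x8888068602) (nat_lit 0) (p (nat_lit 0x807860582) (nat_lit 0) (p (nat_lit 0x8607058502) (nat_lit 0) (p (nat_lit 0x586850482) (nat_lit 0) (p (nat_lit 0x160014) (nat_lit 0) (p (nat_lit 0x68612) (nat_lit 0) (p (nat_lit 0x50592) (nat_lit 0) (p (nat_lit 0x40512) (nat_lit 0) (p (nat_lit 0x50312) (nat_lit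 0) (p (nat_lit 0x38292) (nat_lit 0) (p (nat_lit 0x28212) (nat_lit 0) (p (nat_lit 0x38112) (nat_lit 0) (p (nat_lit 0x20092) (nat_lit 0) (p (nat_lit 0x10012) (nat_lit 0) pn)))))))))))))))))))))))))) :=
  Cl.node (nat_lit 0x109) (nat_lit 2) (by decide +kernel) (ClAll.succ (ClAll.succ ClAll.zero n187) n188)

def n224 : Cl (O (nat_lit 3)) (R (nat_lit 14353))
    (p (nat_lit 0x89) (nat_lit 1) (p (nat_lit 0x101) (nat_lit 1) (p (nat_lit 0xc1) (nat_lit 1) (p (nat_lit 0x119) (nat_lit 1) (p (nat_lit 0xd1) (nat_lit 0) (p (nat_lit 0x81) (nat_lit 0) (p (nat_lit 0x41) (nat_lit 1) (p (nat_lit 0x8a0b0a89089a) (nat_lit 0) (p (nat_lit 0x98a8a08881a) (nat_lit 0) (p (nat_lit 0x89088988079a) (nat_lit 0) (p (nat_lit 0x8880907871a) (nat_lit 0) (p (nat_lit 0x80000800080887068a) (nat_lit 0) (p (nat_lit 0x8888068602) (nat_lit 0) (p (nat_lit 0x807860582) (nat_lit 0) (p (nat_lit 0x8607058502) (nat_lit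 0) (p (nat_lit 0x586850482) (nat_lit 0) (p (nat_lit 0x160014) (nat_lit 0) (p (nat_lit 0x68612) (nat_lit 0) (p (nat_lit 0x50592) (nat_lit 0) (p (nat_lit 0x40512) (nat_lit 0) (p (nat_lit 0x50312) (nat_lit 0) (p (nat_lit 0x38292) (nat_lit 0) (p (nat_lit 0x28212) (nat_lit 0) (p (nat_lit 0x38112) (nat_lit 0) (p (nat_lit 0x20092) (nat_lit 0) (p (nat_lit 0x10012) (nat_lit 0) pn)))))))))))))))))))))))))) :=
  Cl.node (nat_lit 0x3c4aa) (nat_lit 12) (by decide +kernel) (ClAll.succ (ClAll.succ (ClAll.succ (ClAll.succ (ClAll.succ (ClAll.succ (ClAll.succ (ClAll.succ (ClAll.succ (ClAll.succ (ClAll.succ (ClAll.succ ClAll.zero s511) s512) s513) s514) s515) s516) s517) n189) s520) s521) n190) s526)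

def n225 : Cl (O (nat_lit 3)) (R (nat_lit 14353))
    (p (nat_lit 0x89) (nat_lit 1) (p (nat_lit 0x109) (nat_lit 1) (p (nat_lit 0x101) (nat_lit 0) (p (nat_lit 0x111) (nat_lit 0) (p (nat_lit 0xd1) (nat_lit 1) (p (nat_lit 0x81) (nat_lit 0) (p (nat_lit 0x41) (nat_lit 1) (p (nat_lit 0x8a0b0a89089a) (nat_lit 0) (p (nat_lit 0x98a8a08881a) (nat_lit 0) (p (nat_lit 0x89088988079a) (nat_lit 0) (p (nat_lit 0x8880907871a) (nat_lit 0) (p (nat_lit 0x80000800080887068a) (nat_lit 0) (p (nat_lit 0x8888068602) (nat_lit 0) (p (nat_lit 0x807860582) (nat_lit 0) (p (nat_lit 0x8607058502) (nat_lit 0) (p (nat_lit 0x586850482) (nat_lit 0) (p (nat_lit 0x160014) (nat_lit 0) (p (nat_lit 0x68612) (nat_lit 0) (p (nat_lit 0x50592) (nat_lit 0) (p (nat_lit 0x40512) (nat_lit 0) (p (nat_lit 0x50312) (nat_lit 0) (p (nat_lit 0x38292) (nat_lit 0) (p (nat_lit 0x28212) (nat_lit 0) (p (nat_lit 0x38112) (nat_lit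 0) (p (nat_lit 0x20092) (nat_lit 0) (p (nat_lit 0x10012) (nat_lit 0) pn)))))))))))))))))))))))))) :=
  Cl.node (nat_lit 0xc9) (nat_lit 2) (by decide +kernel) (ClAll.succ (ClAll.succ ClAll.zero n191) n192)

def n226 : Cl (O (nat_lit 3)) (R (nat_lit 14353))
    (p (nat_lit 0xc9) (nat_lit 0) (p (nat_lit 0x89) (nat_lit 1) (p (nat_lit 0x101) (nat_lit 1) (p (nat_lit 0x111) (nat_lit 0) (p (nat_lit 0xd1) (nat_lit 1) (p (nat_lit 0x81) (nat_lit 0) (p (nat_lit 0x41) (nat_lit 1) (p (nat_lit 0x8a0b0a89089a) (nat_lit 0) (p (nat_lit 0x98a8a08881a) (nat_lit 0) (p (nat_lit 0x89088988079a) (nat_lit 0) (p (nat_lit 0x8880907871a) (nat_lit 0) (p (nat_lit 0x80000800080887068a) (nat_lit 0) (p (nat_lit 0x8888068602) (nat_lit 0) (p (nat_lit 0x807860582) (nat_lit 0) (p (nat_lit 0x8607058502) (nat_lit 0) (p (nat_lit 0x586850482) (nat_lit 0) (p (nat_lit 0x160014) (nat_lit 0) (p (nat_lit 0x68612) (nat_lit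 0) (p (nat_lit 0x50592) (nat_lit 0) (p (nat_lit 0x40512) (nat_lit 0) (p (nat_lit 0x50312) (nat_lit 0) (p (nat_lit 0x38292) (nat_lit 0) (p (nat_lit 0x28212) (nat_lit 0) (p (nat_lit 0x38112) (nat_lit 0) (p (nat_lit 0x20092) (nat_lit 0) (p (nat_lit 0x10012) (nat_lit 0) pn)))))))))))))))))))))))))) :=
  Cl.node (nat_lit 0x3cc2a) (nat_lit 12) (by decide +kernel) (ClAll.succ (ClAll.succ (ClAll.succ (ClAll.succ (ClAll.succ (ClAll.succ (ClAll.succ (ClAll.succ (ClAll.succ (ClAll.succ (ClAll.succ (ClAll.succ ClAll.zero s566) s567) s568) s569) s570) s571) s572) s573) s574) s575) s576) s577)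

def n227 : Cl (O (nat_lit 3)) (R (nat_lit 14353))
    (p (nat_lit 0xc9) (nat_lit 1) (p (nat_lit 0x89) (nat_lit 1) (p (nat_lit 0x101) (nat_lit 1) (p (nat_lit 0x111) (nat_lit 0) (p (nat_lit 0xd1) (nat_lit 1) (p (nat_lit 0x81) (nat_lit 0) (p (nat_lit 0x41) (nat_lit 1) (p (nat_lit 0x8a0b0a89089a) (nat_lit 0) (p (nat_lit 0x98a8a08881a) (nat_lit 0) (p (nat_lit 0x89088988079a) (nat_lit 0) (p (nat_lit 0x8880907871a) (nat_lit 0) (p (nat_lit 0x80000800080887068a) (nat_lit 0) (p (nat_lit 0x8888068602) (nat_lit 0) (p (nat_lit 0x807860582) (nat_lit 0) (p (nat_lit 0x8607058502) (nat_lit 0) (p (nat_lit 0x586850482) (nat_lit 0) (p (nat_lit 0x160014) (nat_lit 0) (p (nat_lit 0x68612) (nat_lit 0) (p (nat_lit 0x50592) (nat_lit 0) (p (nat_lit 0x40512) (nat_lit 0) (p (nat_lit 0x50312) (nat_lit 0) (p (nat_lit 0x38292) (nat_lit 0) (p (nat_lit 0x28212) (nat_lit 0) (p (nat_lit 0x38112) (nat_lit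 0) (p (nat_lit 0x20092) (nat_lit 0) (p (nat_lit 0x10012) (nat_lit 0) pn)))))))))))))))))))))))))) :=
  Cl.node (nat_lit 0x3c4aa) (nat_lit 12) (by decide +kernel) (ClAll.succ (ClAll.succ (ClAll.succ (ClAll.succ (ClAll.succ (ClAll.succ (ClAll.succ (ClAll.succ (ClAll.succ (ClAll.succ (ClAll.succ (ClAll.succ ClAll.zero s578) s579) s580) s581) s582) s583) s584) s585) s586) s587) s588) s589)

def n228 : Cl (O (nat_lit 3)) (R (nat_lit 14353))
    (p (nat_lit 0x111) (nat_lit 1) (p (nat_lit 0x109) (nat_lit 0) (p (nat_lit 0x101) (nat_lit 0) (p (nat_lit 0x119) (nat_lit 0) (p (nat_lit 0xc1) (nat_lit 0) (p (nat_lit 0x81) (nat_lit 1) (p (nat_lit 0x41) (nat_lit 1) (p (nat_lit 0x8a0b0a89089a) (nat_lit 0) (p (nat_lit 0x98a8a08881a) (nat_lit 0) (p (nat_lit 0x89088988079a) (nat_lit 0) (p (nat_lit 0x8880907871a) (nat_lit 0) (p (nat_lit 0x80000800080887068a) (nat_lit 0) (p (nat_lit 0x8888068602)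 (nat_lit 0) (p (nat_lit 0x807860582) (nat_lit 0) (p (nat_lit 0x8607058502) (nat_lit 0) (p (nat_lit 0x586850482) (nat_lit 0) (p (nat_lit 0x160014) (nat_lit 0) (p (nat_lit 0x68612) (nat_lit 0) (p (nat_lit 0x50592) (nat_lit 0) (p (nat_lit 0x40512) (nat_lit 0) (p (nat_lit 0x50312) (nat_lit 0) (p (nat_lit 0x38292) (nat_lit 0) (p (nat_lit 0x28212) (nat_lit 0) (p (nat_lit 0x38112) (nat_lit 0) (p (nat_lit 0x20092) (nat_lit 0) (p (nat_lit 0x10012) (nat_lit 0) pn)))))))))))))))))))))))))) :=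
  Cl.node (nat_lit 0xd1) (nat_lit 2) (by decide +kernel) (ClAll.succ (ClAll.succ ClAll.zero s595) n193)

def n229 : Cl (O (nat_lit 3)) (R (nat_lit 14353))
    (p (nat_lit 0xc9) (nat_lit 0) (p (nat_lit 0x109) (nat_lit 1) (p (nat_lit 0x101) (nat_lit 0) (p (nat_lit 0x119) (nat_lit 0) (p (nat_lit 0xc1) (nat_lit 0) (p (nat_lit 0x81) (nat_lit 1) (p (nat_lit 0x41) (nat_lit 1) (p (nat_lit 0x8a0b0a89089a) (nat_lit 0) (p (nat_lit 0x98a8a08881a) (nat_lit 0) (p (nat_lit 0x89088988079a) (nat_lit 0) (p (nat_lit 0x8880907871a) (nat_lit 0) (p (nat_lit 0x80000800080887068a) (nat_lit 0) (p (nat_lit 0x8888068602) (nat_lit 0) (p (nat_lit 0x807860582) (nat_lit 0) (p (nat_lit 0x8607058502) (nat_lit 0) (p (nat_lit 0x586850482) (nat_lit 0) (p (nat_lit 0x160014) (nat_lit 0) (p (nat_lit 0x68612) (nat_lit 0) (p (nat_lit 0x50592) (nat_lit 0) (p (nat_lit 0x40512) (nat_lit 0) (p (nat_lit 0x50312) (nat_lit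 0) (p (nat_lit 0x38292) (nat_lit 0) (p (nat_lit 0x28212) (nat_lit 0) (p (nat_lit 0x38112) (nat_lit 0) (p (nat_lit 0x20092) (nat_lit 0) (p (nat_lit 0x10012) (nat_lit 0) pn)))))))))))))))))))))))))) :=
  Cl.node (nat_lit 0xd1) (nat_lit 2) (by decide +kernel) (ClAll.succ (ClAll.succ ClAll.zero s634) n194)

def n230 : Cl (O (nat_lit 3)) (R (nat_lit 14353))
    (p (nat_lit 0xd1) (nat_lit 0) (p (nat_lit 0xc9) (nat_lit 0) (p (nat_lit 0x101) (nat_lit 1) (p (nat_lit 0x119) (nat_lit 0) (p (nat_lit 0xc1) (nat_lit 0) (p (nat_lit 0x81) (nat_lit 1) (p (nat_lit 0x41) (nat_lit 1) (p (nat_lit 0x8a0b0a89089a) (nat_lit 0) (p (nat_lit 0x98a8a08881a) (nat_lit 0) (p (nat_lit 0x89088988079a) (nat_lit 0) (p (nat_lit 0x8880907871a) (nat_lit 0) (p (nat_lit 0x80000800080887068a) (nat_lit 0) (p (nat_lit 0x8888068602) (nat_lit 0) (p (nat_lit 0x807860582) (nat_lit 0) (p (nat_lit 0x8607058502) (nat_lit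 0) (p (nat_lit 0x586850482) (nat_lit 0) (p (nat_lit 0x160014) (nat_lit 0) (p (nat_lit 0x68612) (nat_lit 0) (p (nat_lit 0x50592) (nat_lit 0) (p (nat_lit 0x40512) (nat_lit 0) (p (nat_lit 0x50312) (nat_lit 0) (p (nat_lit 0x38292) (nat_lit 0) (p (nat_lit 0x28212) (nat_lit 0) (p (nat_lit 0x38112) (nat_lit 0) (p (nat_lit 0x20092) (nat_lit 0) (p (nat_lit 0x10012) (nat_lit 0) pn)))))))))))))))))))))))))) :=
  Cl.node (nat_lit 0x44c2a) (nat_lit 12) (by decide +kernel) (ClAll.succ (ClAll.succ (ClAll.succ (ClAll.succ (ClAll.succ (ClAll.succ (ClAll.succ (ClAll.succ (ClAll.succ (ClAll.succ (ClAll.succ (ClAll.succ ClAll.zero s660) s661) s662) s663) s664) s665) s666) s667) s668) s669) s670) s671)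

def n231 : Cl (O (nat_lit 3)) (R (nat_lit 14353))
    (p (nat_lit 0xd1) (nat_lit 1) (p (nat_lit 0xc9) (nat_lit 0) (p (nat_lit 0x101) (nat_lit 1) (p (nat_lit 0x119) (nat_lit 0) (p (nat_lit 0xc1) (nat_lit 0) (p (nat_lit 0x81) (nat_lit 1) (p (nat_lit 0x41) (nat_lit 1) (p (nat_lit 0x8a0b0a89089a) (nat_lit 0) (p (nat_lit 0x98a8a08881a) (nat_lit 0) (p (nat_lit 0x89088988079a) (nat_lit 0) (p (nat_lit 0x8880907871a) (nat_lit 0) (p (nat_lit 0x80000800080887068a) (nat_lit 0) (p (nat_lit 0x8888068602) (nat_lit 0) (p (nat_lit 0x807860582) (nat_lit 0) (p (nat_lit 0x8607058502) (nat_lit 0) (p (nat_lit 0x586850482) (nat_lit 0) (p (nat_lit 0x160014) (nat_lit 0) (p (nat_lit 0x68612) (nat_lit 0) (p (nat_lit 0x50592) (nat_lit 0) (p (nat_lit 0x40512) (nat_lit 0) (p (nat_lit 0x50312) (nat_lit 0) (p (nat_lit 0x38292) (nat_lit 0) (p (nat_lit 0x28212) (nat_lit 0) (p (nat_lit 0x38112) (nat_lit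 0) (p (nat_lit 0x20092) (nat_lit 0) (p (nat_lit 0x10012) (nat_lit 0) pn)))))))))))))))))))))))))) :=
  Cl.node (nat_lit 0x3c4aa) (nat_lit 12) (by decide +kernel) (ClAll.succ (ClAll.succ (ClAll.succ (ClAll.succ (ClAll.succ (ClAll.succ (ClAll.succ (ClAll.succ (ClAll.succ (ClAll.succ (ClAll.succ (ClAll.succ ClAll.zero s672) s673) s674) s675) s676) s677) s678) n195) s712) s713) s714) s715)

def n232 : Cl (O (nat_lit 3)) (R (nat_lit 14353))
    (p (nat_lit 0x111) (nat_lit 1) (p (nat_lit 0xd1) (nat_lit 1) (p (nat_lit 0xc9) (nat_lit 0) (p (nat_lit 0x119) (nat_lit 1) (p (nat_lit 0xc1) (nat_lit 0) (p (nat_lit 0x81) (nat_lit 1) (p (nat_lit 0x41) (nat_lit 1) (p (nat_lit 0x8a0b0a89089a) (nat_lit 0) (p (nat_lit 0x98a8a08881a) (nat_lit 0) (p (nat_lit 0x89088988079a) (nat_lit 0) (p (nat_lit 0x8880907871a) (nat_lit 0) (p (nat_lit 0x80000800080887068a) (nat_lit 0) (p (nat_lit 0x8888068602)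 (nat_lit 0) (p (nat_lit 0x807860582) (nat_lit 0) (p (nat_lit 0x8607058502) (nat_lit 0) (p (nat_lit 0x586850482) (nat_lit 0) (p (nat_lit 0x160014) (nat_lit 0) (p (nat_lit 0x68612) (nat_lit 0) (p (nat_lit 0x50592) (nat_lit 0) (p (nat_lit 0x40512) (nat_lit 0) (p (nat_lit 0x50312) (nat_lit 0) (p (nat_lit 0x38292) (nat_lit 0) (p (nat_lit 0x28212) (nat_lit 0) (p (nat_lit 0x38112) (nat_lit 0) (p (nat_lit 0x20092) (nat_lit 0) (p (nat_lit 0x10012) (nat_lit 0) pn)))))))))))))))))))))))))) :=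
  Cl.node (nat_lit 0x3c4aa) (nat_lit 12) (by decide +kernel) (ClAll.succ (ClAll.succ (ClAll.succ (ClAll.succ (ClAll.succ (ClAll.succ (ClAll.succ (ClAll.succ (ClAll.succ (ClAll.succ (ClAll.succ (ClAll.succ ClAll.zero s719) s720) s721) s722) s723) s724) s725) n196) s732) s733) s734) s735)

def n233 : Cl (O (nat_lit 3)) (R (nat_lit 14353))
    (p (nat_lit 0x111) (nat_lit 0) (p (nat_lit 0x109) (nat_lit 0) (p (nat_lit 0xc9) (nat_lit 1) (p (nat_lit 0x119) (nat_lit 1) (p (nat_lit 0xc1) (nat_lit 0) (p (nat_lit 0x81) (nat_lit 1) (p (nat_lit 0x41) (nat_lit 1) (p (nat_lit 0x8a0b0a89089a) (nat_lit 0) (p (nat_lit 0x98a8a08881a) (nat_lit 0) (p (nat_lit 0x89088988079a) (nat_lit 0) (p (nat_lit 0x8880907871a) (nat_lit 0) (p (nat_lit 0x80000800080887068a) (nat_lit 0) (p (nat_lit 0x8888068602) (nat_lit 0) (p (nat_lit 0x807860582) (nat_lit 0) (p (nat_lit 0x8607058502) (nat_lit 0) (p (nat_lit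 0x586850482) (nat_lit 0) (p (nat_lit 0x160014) (nat_lit 0) (p (nat_lit 0x68612) (nat_lit 0) (p (nat_lit 0x50592) (nat_lit 0) (p (nat_lit 0x40512) (nat_lit 0) (p (nat_lit 0x50312) (nat_lit 0) (p (nat_lit 0x38292) (nat_lit 0) (p (nat_lit 0x28212) (nat_lit 0) (p (nat_lit 0x38112) (nat_lit 0) (p (nat_lit 0x20092) (nat_lit 0) (p (nat_lit 0x10012) (nat_lit 0) pn)))))))))))))))))))))))))) :=
  Cl.node (nat_lit 0x44c2a) (nat_lit 12) (by decide +kernel) (ClAll.succ (ClAll.succ (ClAll.succ (ClAll.succ (ClAll.succ (ClAll.succ (ClAll.succ (ClAll.succ (ClAll.succ (ClAll.succ (ClAll.succ (ClAll.succ ClAll.zero s736) s737) s738) s739) s740) s741) s742) s743) s744) s745) s746) s747)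

def n234 : Cl (O (nat_lit 3)) (R (nat_lit 14353))
    (p (nat_lit 0x111) (nat_lit 1) (p (nat_lit 0x109) (nat_lit 0) (p (nat_lit 0xc9) (nat_lit 1) (p (nat_lit 0x119) (nat_lit 1) (p (nat_lit 0xc1) (nat_lit 0) (p (nat_lit 0x81) (nat_lit 1) (p (nat_lit 0x41) (nat_lit 1) (p (nat_lit 0x8a0b0a89089a) (nat_lit 0) (p (nat_lit 0x98a8a08881a) (nat_lit 0) (p (nat_lit 0x89088988079a) (nat_lit 0) (p (nat_lit 0x8880907871a) (nat_lit 0) (p (nat_lit 0x80000800080887068a) (nat_lit 0) (p (nat_lit 0x8888068602) (nat_lit 0) (p (nat_lit 0x807860582) (nat_lit 0) (p (nat_lit 0x8607058502) (nat_lit 0) (p (nat_lit 0x586850482) (nat_lit 0) (p (nat_lit 0x160014) (nat_lit 0) (p (nat_lit 0x68612) (nat_lit 0) (p (nat_lit 0x50592) (nat_lit 0) (p (nat_lit 0x40512) (nat_lit 0) (p (nat_lit 0x50312) (nat_lit 0) (p (nat_lit 0x38292) (nat_lit 0) (p (nat_lit 0x28212) (nat_lit 0) (p (nat_lit 0x38112) (nat_lit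 0) (p (nat_lit 0x20092) (nat_lit 0) (p (nat_lit 0x10012) (nat_lit 0) pn)))))))))))))))))))))))))) :=
  Cl.node (nat_lit 0x3c4aa) (nat_lit 12) (by decide +kernel) (ClAll.succ (ClAll.succ (ClAll.succ (ClAll.succ (ClAll.succ (ClAll.succ (ClAll.succ (ClAll.succ (ClAll.succ (ClAll.succ (ClAll.succ (ClAll.succ ClAll.zero s748) s749) s750) s751) s752) s753) s754) n197) s763) s764) s765) s766)

def n235 : Cl (O (nat_lit 3)) (R (nat_lit 14353))
    (p (nat_lit 0x119) (nat_lit 1) (p (nat_lit 0x111) (nat_lit 0) (p (nat_lit 0x109) (nat_lit 0) (p (nat_lit 0x101) (nat_lit 0) (p (nat_lit 0xc1) (nat_lit 1) (p (nat_lit 0x81) (nat_lit 1) (p (nat_lit 0x41) (nat_lit 1) (p (nat_lit 0x8a0b0a89089a) (nat_lit 0) (p (nat_lit 0x98a8a08881a) (nat_lit 0) (p (nat_lit 0x89088988079a) (nat_lit 0) (p (nat_lit 0x8880907871a) (nat_lit 0) (p (nat_lit 0x80000800080887068a) (nat_lit 0) (p (nat_lit 0x8888068602)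 (nat_lit 0) (p (nat_lit 0x807860582) (nat_lit 0) (p (nat_lit 0x8607058502) (nat_lit 0) (p (nat_lit 0x586850482) (nat_lit 0) (p (nat_lit 0x160014) (nat_lit 0) (p (nat_lit 0x68612) (nat_lit 0) (p (nat_lit 0x50592) (nat_lit 0) (p (nat_lit 0x40512) (nat_lit 0) (p (nat_lit 0x50312) (nat_lit 0) (p (nat_lit 0x38292) (nat_lit 0) (p (nat_lit 0x28212) (nat_lit 0) (p (nat_lit 0x38112) (nat_lit 0) (p (nat_lit 0x20092) (nat_lit 0) (p (nat_lit 0x10012) (nat_lit 0) pn)))))))))))))))))))))))))) :=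
  Cl.node (nat_lit 0x3c4aa) (nat_lit 12) (by decide +kernel) (ClAll.succ (ClAll.succ (ClAll.succ (ClAll.succ (ClAll.succ (ClAll.succ (ClAll.succ (ClAll.succ (ClAll.succ (ClAll.succ (ClAll.succ (ClAll.succ ClAll.zero s769) s770) s771) s772) s773) s774) s775) s776) s777) s778) s779) s780)

def n236 : Cl (O (nat_lit 3)) (R (nat_lit 14353))
    (p (nat_lit 0x109) (nat_lit 1) (p (nat_lit 0x101) (nat_lit 0) (p (nat_lit 0x119) (nat_lit 0) (p (nat_lit 0xd1) (nat_lit 0) (p (nat_lit 0x89) (nat_lit 0) (p (nat_lit 0x41) (nat_lit 0) (p (nat_lit 0x8a0b0a89089a) (nat_lit 0) (p (nat_lit 0x98a8a08881a) (nat_lit 0) (p (nat_lit 0x89088988079a) (nat_lit 0) (p (nat_lit 0x8880907871a) (nat_lit 0) (p (nat_lit 0x80000800080887068a) (nat_lit 0) (p (nat_lit 0x8888068602) (nat_lit 0) (p (nat_lit 0x807860582) (nat_lit 0) (p (nat_lit 0x8607058502) (nat_lit 0) (p (nat_lit 0x586850482) (nat_lit 0) (p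 (nat_lit 0x160014) (nat_lit 0) (p (nat_lit 0x68612) (nat_lit 0) (p (nat_lit 0x50592) (nat_lit 0) (p (nat_lit 0x40512) (nat_lit 0) (p (nat_lit 0x50312) (nat_lit 0) (p (nat_lit 0x38292) (nat_lit 0) (p (nat_lit 0x28212) (nat_lit 0) (p (nat_lit 0x38112) (nat_lit 0) (p (nat_lit 0x20092) (nat_lit 0) (p (nat_lit 0x10012) (nat_lit 0) pn))))))))))))))))))))))))) :=
  Cl.node (nat_lit 0xc9) (nat_lit 2) (by decide +kernel) (ClAll.succ (ClAll.succ ClAll.zero s1) n198)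

def n237 : Cl (O (nat_lit 3)) (R (nat_lit 14353))
    (p (nat_lit 0x81) (nat_lit 0) (p (nat_lit 0x101) (nat_lit 1) (p (nat_lit 0x119) (nat_lit 0) (p (nat_lit 0xd1) (nat_lit 0) (p (nat_lit 0x89) (nat_lit 0) (p (nat_lit 0x41) (nat_lit 0) (p (nat_lit 0x8a0b0a89089a) (nat_lit 0) (p (nat_lit 0x98a8a08881a) (nat_lit 0) (p (nat_lit 0x89088988079a) (nat_lit 0) (p (nat_lit 0x8880907871a) (nat_lit 0) (p (nat_lit 0x80000800080887068a) (nat_lit 0) (p (nat_lit 0x8888068602) (nat_lit 0) (p (nat_lit 0x807860582) (nat_lit 0) (p (nat_lit 0x8607058502) (nat_lit 0) (p (nat_lit 0x586850482) (nat_lit 0) (p (nat_lit 0x160014) (nat_lit 0) (p (nat_lit 0x68612) (nat_lit 0) (p (nat_lit 0x50592) (nat_lit 0) (p (nat_lit 0x40512) (nat_lit 0) (p (nat_lit 0x50312) (nat_lit 0) (p (nat_lit 0x38292) (nat_lit 0) (p (nat_lit 0x28212) (nat_lit 0) (p (nat_lit 0x38112) (nat_lit 0) (p (nat_lit 0x20092) (nat_lit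 0) (p (nat_lit 0x10012) (nat_lit 0) pn))))))))))))))))))))))))) :=
  Cl.node (nat_lit 0xc9) (nat_lit 2) (by decide +kernel) (ClAll.succ (ClAll.succ ClAll.zero n199) n200)

def n238 : Cl (O (nat_lit 3)) (R (nat_lit 14353))
    (p (nat_lit 0x81) (nat_lit 1) (p (nat_lit 0x101) (nat_lit 1) (p (nat_lit 0x119) (nat_lit 0) (p (nat_lit 0xd1) (nat_lit 0) (p (nat_lit 0x89) (nat_lit 0) (p (nat_lit 0x41) (nat_lit 0) (p (nat_lit 0x8a0b0a89089a) (nat_lit 0) (p (nat_lit 0x98a8a08881a) (nat_lit 0) (p (nat_lit 0x89088988079a) (nat_lit 0) (p (nat_lit 0x8880907871a) (nat_lit 0) (p (nat_lit 0x80000800080887068a) (nat_lit 0) (p (nat_lit 0x8888068602) (nat_lit 0) (p (nat_lit 0x807860582) (nat_lit 0) (p (nat_lit 0x8607058502) (nat_lit 0) (p (nat_lit 0x586850482) (nat_lit 0) (p (nat_lit 0x160014) (nat_lit 0) (p (nat_lit 0x68612) (nat_lit 0) (p (nat_lit 0x50592) (nat_lit 0) (p (nat_lit 0x40512)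 (nat_lit 0) (p (nat_lit 0x50312) (nat_lit 0) (p (nat_lit 0x38292) (nat_lit 0) (p (nat_lit 0x28212) (nat_lit 0) (p (nat_lit 0x38112) (nat_lit 0) (p (nat_lit 0x20092) (nat_lit 0) (p (nat_lit 0x10012) (nat_lit 0) pn))))))))))))))))))))))))) :=
  Cl.node (nat_lit 0xc1) (nat_lit 2) (by decide +kernel) (ClAll.succ (ClAll.succ ClAll.zero n201) s92)

def n239 : Cl (O (nat_lit 3)) (R (nat_lit 14353))
    (p (nat_lit 0xc9) (nat_lit 1) (p (nat_lit 0xc1) (nat_lit 0) (p (nat_lit 0x119) (nat_lit 1) (p (nat_lit 0xd1) (nat_lit 0) (p (nat_lit 0x89) (nat_lit 0) (p (nat_lit 0x41) (nat_lit 0) (p (nat_lit 0x8a0b0a89089a) (nat_lit 0) (p (nat_lit 0x98a8a08881a) (nat_lit 0) (p (nat_lit 0x89088988079a) (nat_lit 0) (p (nat_lit 0x8880907871a) (nat_lit 0) (p (nat_lit 0x80000800080887068a) (nat_lit 0) (p (nat_lit 0x8888068602) (nat_lit 0) (p (nat_lit 0x807860582) (nat_lit 0) (p (nat_lit 0x8607058502)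 (nat_lit 0) (p (nat_lit 0x586850482) (nat_lit 0) (p (nat_lit 0x160014) (nat_lit 0) (p (nat_lit 0x68612) (nat_lit 0) (p (nat_lit 0x50592) (nat_lit 0) (p (nat_lit 0x40512) (nat_lit 0) (p (nat_lit 0x50312) (nat_lit 0) (p (nat_lit 0x38292) (nat_lit 0) (p (nat_lit 0x28212) (nat_lit 0) (p (nat_lit 0x38112) (nat_lit 0) (p (nat_lit 0x20092) (nat_lit 0) (p (nat_lit 0x10012) (nat_lit 0) pn))))))))))))))))))))))))) :=
  Cl.node (nat_lit 0x109) (nat_lit 2) (by decide +kernel) (ClAll.succ (ClAll.succ ClAll.zero s94) n202)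

def n240 : Cl (O (nat_lit 3)) (R (nat_lit 14353))
    (p (nat_lit 0x81) (nat_lit 0) (p (nat_lit 0xc1) (nat_lit 1) (p (nat_lit 0x119) (nat_lit 1) (p (nat_lit 0xd1) (nat_lit 0) (p (nat_lit 0x89) (nat_lit 0) (p (nat_lit 0x41) (nat_lit 0) (p (nat_lit 0x8a0b0a89089a) (nat_lit 0) (p (nat_lit 0x98a8a08881a) (nat_lit 0) (p (nat_lit 0x89088988079a) (nat_lit 0) (p (nat_lit 0x8880907871a) (nat_lit 0) (p (nat_lit 0x80000800080887068a) (nat_lit 0) (p (nat_lit 0x8888068602) (nat_lit 0) (p (nat_lit 0x807860582) (nat_lit 0) (p (nat_lit 0x8607058502) (nat_lit 0) (p (nat_lit 0x586850482) (nat_lit 0) (p (nat_lit 0x160014) (nat_lit 0) (p (nat_lit 0x68612) (nat_lit 0) (p (nat_lit 0x50592) (nat_lit 0) (p (nat_lit 0x40512) (nat_lit 0) (p (nat_lit 0x50312) (nat_lit 0) (p (nat_lit 0x38292) (nat_lit 0) (p (nat_lit 0x28212) (nat_lit 0) (p (nat_lit 0x38112) (nat_lit 0) (p (nat_lit 0x20092) (nat_lit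 0) (p (nat_lit 0x10012) (nat_lit 0) pn))))))))))))))))))))))))) :=
  Cl.node (nat_lit 0x109) (nat_lit 2) (by decide +kernel) (ClAll.succ (ClAll.succ ClAll.zero s110) n203)

def n241 : Cl (O (nat_lit 3)) (R (nat_lit 14353))
    (p (nat_lit 0x81) (nat_lit 1) (p (nat_lit 0xc1) (nat_lit 1) (p (nat_lit 0x119) (nat_lit 1) (p (nat_lit 0xd1) (nat_lit 0) (p (nat_lit 0x89) (nat_lit 0) (p (nat_lit 0x41) (nat_lit 0) (p (nat_lit 0x8a0b0a89089a) (nat_lit 0) (p (nat_lit 0x98a8a08881a) (nat_lit 0) (p (nat_lit 0x89088988079a) (nat_lit 0) (p (nat_lit 0x8880907871a) (nat_lit 0) (p (nat_lit 0x80000800080887068a) (nat_lit 0) (p (nat_lit 0x8888068602) (nat_lit 0) (p (nat_lit 0x807860582) (nat_lit 0) (p (nat_lit 0x8607058502) (nat_lit 0) (p (nat_lit 0x586850482) (nat_lit 0) (p (nat_lit 0x160014) (nat_lit 0) (p (nat_lit 0x68612) (nat_lit 0) (p (nat_lit 0x50592) (nat_lit 0) (p (nat_lit 0x40512)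 (nat_lit 0) (p (nat_lit 0x50312) (nat_lit 0) (p (nat_lit 0x38292) (nat_lit 0) (p (nat_lit 0x28212) (nat_lit 0) (p (nat_lit 0x38112) (nat_lit 0) (p (nat_lit 0x20092) (nat_lit 0) (p (nat_lit 0x10012) (nat_lit 0) pn))))))))))))))))))))))))) :=
  Cl.node (nat_lit 0x101) (nat_lit 2) (by decide +kernel) (ClAll.succ (ClAll.succ ClAll.zero n204) n205)

def n242 : Cl (O (nat_lit 3)) (R (nat_lit 14353))
    (p (nat_lit 0x109) (nat_lit 1) (p (nat_lit 0x101) (nat_lit 0) (p (nat_lit 0x111) (nat_lit 0) (p (nat_lit 0xd1) (nat_lit 1) (p (nat_lit 0x89) (nat_lit 0) (p (nat_lit 0x41) (nat_lit 0) (p (nat_lit 0x8a0b0a89089a) (nat_lit 0) (p (nat_lit 0x98a8a08881a) (nat_lit 0) (p (nat_lit 0x89088988079a) (nat_lit 0) (p (nat_lit 0x8880907871a) (nat_lit 0) (p (nat_lit 0x80000800080887068a) (nat_lit 0) (p (nat_lit 0x8888068602) (nat_lit 0) (p (nat_lit 0x807860582) (nat_lit 0) (p (nat_lit 0x8607058502)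 (nat_lit 0) (p (nat_lit 0x586850482) (nat_lit 0) (p (nat_lit 0x160014) (nat_lit 0) (p (nat_lit 0x68612) (nat_lit 0) (p (nat_lit 0x50592) (nat_lit 0) (p (nat_lit 0x40512) (nat_lit 0) (p (nat_lit 0x50312) (nat_lit 0) (p (nat_lit 0x38292) (nat_lit 0) (p (nat_lit 0x28212) (nat_lit 0) (p (nat_lit 0x38112) (nat_lit 0) (p (nat_lit 0x20092) (nat_lit 0) (p (nat_lit 0x10012) (nat_lit 0) pn))))))))))))))))))))))))) :=
  Cl.node (nat_lit 0xc1) (nat_lit 2) (by decide +kernel) (ClAll.succ (ClAll.succ ClAll.zero s183) n206)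

def n243 : Cl (O (nat_lit 3)) (R (nat_lit 14353))
    (p (nat_lit 0x81) (nat_lit 0) (p (nat_lit 0x101) (nat_lit 1) (p (nat_lit 0x111) (nat_lit 0) (p (nat_lit 0xd1) (nat_lit 1) (p (nat_lit 0x89) (nat_lit 0) (p (nat_lit 0x41) (nat_lit 0) (p (nat_lit 0x8a0b0a89089a) (nat_lit 0) (p (nat_lit 0x98a8a08881a) (nat_lit 0) (p (nat_lit 0x89088988079a) (nat_lit 0) (p (nat_lit 0x8880907871a) (nat_lit 0) (p (nat_lit 0x80000800080887068a) (nat_lit 0) (p (nat_lit 0x8888068602) (nat_lit 0) (p (nat_lit 0x807860582) (nat_lit 0) (p (nat_lit 0x8607058502) (nat_lit 0) (p (nat_lit 0x586850482) (nat_lit 0) (p (nat_lit 0x160014) (nat_lit 0) (p (nat_lit 0x68612) (nat_lit 0) (p (nat_lit 0x50592) (nat_lit 0) (p (nat_lit 0x40512) (nat_lit 0) (p (nat_lit 0x50312) (nat_lit 0) (p (nat_lit 0x38292) (nat_lit 0) (p (nat_lit 0x28212) (nat_lit 0) (p (nat_lit 0x38112) (nat_lit 0) (p (nat_lit 0x20092) (nat_lit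 0) (p (nat_lit 0x10012) (nat_lit 0) pn))))))))))))))))))))))))) :=
  Cl.node (nat_lit 0x119) (nat_lit 2) (by decide +kernel) (ClAll.succ (ClAll.succ ClAll.zero n207) s189)

def n244 : Cl (O (nat_lit 3)) (R (nat_lit 14353))
    (p (nat_lit 0x81) (nat_lit 1) (p (nat_lit 0x101) (nat_lit 1) (p (nat_lit 0x111) (nat_lit 0) (p (nat_lit 0xd1) (nat_lit 1) (p (nat_lit 0x89) (nat_lit 0) (p (nat_lit 0x41) (nat_lit 0) (p (nat_lit 0x8a0b0a89089a) (nat_lit 0) (p (nat_lit 0x98a8a08881a) (nat_lit 0) (p (nat_lit 0x89088988079a) (nat_lit 0) (p (nat_lit 0x8880907871a) (nat_lit 0) (p (nat_lit 0x80000800080887068a) (nat_lit 0) (p (nat_lit 0x8888068602) (nat_lit 0) (p (nat_lit 0x807860582) (nat_lit 0) (p (nat_lit 0x8607058502) (nat_lit 0) (p (nat_lit 0x586850482) (nat_lit 0) (p (nat_lit 0x160014) (nat_lit 0) (p (nat_lit 0x68612) (nat_lit 0) (p (nat_lit 0x50592) (nat_lit 0) (p (nat_lit 0x40512)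 (nat_lit 0) (p (nat_lit 0x50312) (nat_lit 0) (p (nat_lit 0x38292) (nat_lit 0) (p (nat_lit 0x28212) (nat_lit 0) (p (nat_lit 0x38112) (nat_lit 0) (p (nat_lit 0x20092) (nat_lit 0) (p (nat_lit 0x10012) (nat_lit 0) pn))))))))))))))))))))))))) :=
  Cl.node (nat_lit 0xc1) (nat_lit 2) (by decide +kernel) (ClAll.succ (ClAll.succ ClAll.zero n208) s204)

def n245 : Cl (O (nat_lit 3)) (R (nat_lit 14353))
    (p (nat_lit 0xc1) (nat_lit 1) (p (nat_lit 0x81) (nat_lit 1) (p (nat_lit 0x111) (nat_lit 1) (p (nat_lit 0xd1) (nat_lit 1) (p (nat_lit 0x89) (nat_lit 0) (p (nat_lit 0x41) (nat_lit 0) (p (nat_lit 0x8a0b0a89089a) (nat_lit 0) (p (nat_lit 0x98a8a08881a) (nat_lit 0) (p (nat_lit 0x89088988079a) (nat_lit 0) (p (nat_lit 0x8880907871a) (nat_lit 0) (p (nat_lit 0x80000800080887068a) (nat_lit 0) (p (nat_lit 0x8888068602) (nat_lit 0) (p (nat_lit 0x807860582) (nat_lit 0) (p (nat_lit 0x8607058502)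 (nat_lit 0) (p (nat_lit 0x586850482) (nat_lit 0) (p (nat_lit 0x160014) (nat_lit 0) (p (nat_lit 0x68612) (nat_lit 0) (p (nat_lit 0x50592) (nat_lit 0) (p (nat_lit 0x40512) (nat_lit 0) (p (nat_lit 0x50312) (nat_lit 0) (p (nat_lit 0x38292) (nat_lit 0) (p (nat_lit 0x28212) (nat_lit 0) (p (nat_lit 0x38112) (nat_lit 0) (p (nat_lit 0x20092) (nat_lit 0) (p (nat_lit 0x10012) (nat_lit 0) pn))))))))))))))))))))))))) :=
  Cl.node (nat_lit 0x101) (nat_lit 2) (by decide +kernel) (ClAll.succ (ClAll.succ ClAll.zero s207) s208)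

def n246 : Cl (O (nat_lit 3)) (R (nat_lit 14353))
    (p (nat_lit 0x109) (nat_lit 0) (p (nat_lit 0x101) (nat_lit 0) (p (nat_lit 0x119) (nat_lit 0) (p (nat_lit 0xc9) (nat_lit 0) (p (nat_lit 0x89) (nat_lit 1) (p (nat_lit 0x41) (nat_lit 0) (p (nat_lit 0x8a0b0a89089a) (nat_lit 0) (p (nat_lit 0x98a8a08881a) (nat_lit 0) (p (nat_lit 0x89088988079a) (nat_lit 0) (p (nat_lit 0x8880907871a) (nat_lit 0) (p (nat_lit 0x80000800080887068a) (nat_lit 0) (p (nat_lit 0x8888068602) (nat_lit 0) (p (nat_lit 0x807860582) (nat_lit 0) (p (nat_lit 0x8607058502) (nat_lit 0) (p (nat_lit 0x586850482) (nat_lit 0) (p (nat_lit 0x160014) (nat_lit 0) (p (nat_lit 0x68612) (nat_lit 0) (p (nat_lit 0x50592) (nat_lit 0) (p (nat_lit 0x40512) (nat_lit 0) (p (nat_lit 0x50312) (nat_lit 0) (p (nat_lit 0x38292) (nat_lit 0) (p (nat_lit 0x28212) (nat_lit 0) (p (nat_lit 0x38112) (nat_lit 0) (p (nat_lit 0x20092) (nat_lit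 0) (p (nat_lit 0x10012) (nat_lit 0) pn))))))))))))))))))))))))) :=
  Cl.node (nat_lit 0x111) (nat_lit 2) (by decide +kernel) (ClAll.succ (ClAll.succ ClAll.zero s209) n209)

def n247 : Cl (O (nat_lit 3)) (R (nat_lit 14353))
    (p (nat_lit 0x109) (nat_lit 1) (p (nat_lit 0x101) (nat_lit 0) (p (nat_lit 0x119) (nat_lit 0) (p (nat_lit 0xc9) (nat_lit 0) (p (nat_lit 0x89) (nat_lit 1) (p (nat_lit 0x41) (nat_lit 0) (p (nat_lit 0x8a0b0a89089a) (nat_lit 0) (p (nat_lit 0x98a8a08881a) (nat_lit 0) (p (nat_lit 0x89088988079a) (nat_lit 0) (p (nat_lit 0x8880907871a) (nat_lit 0) (p (nat_lit 0x80000800080887068a) (nat_lit 0) (p (nat_lit 0x8888068602) (nat_lit 0) (p (nat_lit 0x807860582) (nat_lit 0) (p (nat_lit 0x8607058502) (nat_lit 0) (p (nat_lit 0x586850482) (nat_lit 0) (p (nat_lit 0x160014) (nat_lit 0) (p (nat_lit 0x68612) (nat_lit 0) (p (nat_lit 0x50592) (nat_lit 0) (p (nat_lit 0x40512)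 (nat_lit 0) (p (nat_lit 0x50312) (nat_lit 0) (p (nat_lit 0x38292) (nat_lit 0) (p (nat_lit 0x28212) (nat_lit 0) (p (nat_lit 0x38112) (nat_lit 0) (p (nat_lit 0x20092) (nat_lit 0) (p (nat_lit 0x10012) (nat_lit 0) pn))))))))))))))))))))))))) :=
  Cl.node (nat_lit 0xd1) (nat_lit 2) (by decide +kernel) (ClAll.succ (ClAll.succ ClAll.zero n210) n211)

def n248 : Cl (O (nat_lit 3)) (R (nat_lit 14353))
    (p (nat_lit 0xc1) (nat_lit 0) (p (nat_lit 0x101) (nat_lit 1) (p (nat_lit 0x119) (nat_lit 0) (p (nat_lit 0xc9) (nat_lit 0) (p (nat_lit 0x89) (nat_lit 1) (p (nat_lit 0x41) (nat_lit 0) (p (nat_lit 0x8a0b0a89089a) (nat_lit 0) (p (nat_lit 0x98a8a08881a) (nat_lit 0) (p (nat_lit 0x89088988079a) (nat_lit 0) (p (nat_lit 0x8880907871a) (nat_lit 0) (p (nat_lit 0x80000800080887068a) (nat_lit 0) (p (nat_lit 0x8888068602) (nat_lit 0) (p (nat_lit 0x807860582) (nat_lit 0) (p (nat_lit 0x8607058502)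 (nat_lit 0) (p (nat_lit 0x586850482) (nat_lit 0) (p (nat_lit 0x160014) (nat_lit 0) (p (nat_lit 0x68612) (nat_lit 0) (p (nat_lit 0x50592) (nat_lit 0) (p (nat_lit 0x40512) (nat_lit 0) (p (nat_lit 0x50312) (nat_lit 0) (p (nat_lit 0x38292) (nat_lit 0) (p (nat_lit 0x28212) (nat_lit 0) (p (nat_lit 0x38112) (nat_lit 0) (p (nat_lit 0x20092) (nat_lit 0) (p (nat_lit 0x10012) (nat_lit 0) pn))))))))))))))))))))))))) :=
  Cl.node (nat_lit 0xd1) (nat_lit 2) (by decide +kernel) (ClAll.succ (ClAll.succ ClAll.zero n212) n213)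

def n249 : Cl (O (nat_lit 3)) (R (nat_lit 14353))
    (p (nat_lit 0xd1) (nat_lit 1) (p (nat_lit 0xc1) (nat_lit 0) (p (nat_lit 0x119) (nat_lit 1) (p (nat_lit 0xc9) (nat_lit 0) (p (nat_lit 0x89) (nat_lit 1) (p (nat_lit 0x41) (nat_lit 0) (p (nat_lit 0x8a0b0a89089a) (nat_lit 0) (p (nat_lit 0x98a8a08881a) (nat_lit 0) (p (nat_lit 0x89088988079a) (nat_lit 0) (p (nat_lit 0x8880907871a) (nat_lit 0) (p (nat_lit 0x80000800080887068a) (nat_lit 0) (p (nat_lit 0x8888068602) (nat_lit 0) (p (nat_lit 0x807860582) (nat_lit 0) (p (nat_lit 0x8607058502) (nat_lit 0) (p (nat_lit 0x586850482) (nat_lit 0) (p (nat_lit 0x160014) (nat_lit 0) (p (nat_lit 0x68612) (nat_lit 0) (p (nat_lit 0x50592) (nat_lit 0) (p (nat_lit 0x40512) (nat_lit 0) (p (nat_lit 0x50312) (nat_lit 0) (p (nat_lit 0x38292) (nat_lit 0) (p (nat_lit 0x28212) (nat_lit 0) (p (nat_lit 0x38112) (nat_lit 0) (p (nat_lit 0x20092) (nat_lit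 0) (p (nat_lit 0x10012) (nat_lit 0) pn))))))))))))))))))))))))) :=
  Cl.node (nat_lit 0x111) (nat_lit 2) (by decide +kernel) (ClAll.succ (ClAll.succ ClAll.zero s304) n214)

def n250 : Cl (O (nat_lit 3)) (R (nat_lit 14353))
    (p (nat_lit 0x101) (nat_lit 0) (p (nat_lit 0xc1) (nat_lit 1) (p (nat_lit 0x119) (nat_lit 1) (p (nat_lit 0xc9) (nat_lit 0) (p (nat_lit 0x89) (nat_lit 1) (p (nat_lit 0x41) (nat_lit 0) (p (nat_lit 0x8a0b0a89089a) (nat_lit 0) (p (nat_lit 0x98a8a08881a) (nat_lit 0) (p (nat_lit 0x89088988079a) (nat_lit 0) (p (nat_lit 0x8880907871a) (nat_lit 0) (p (nat_lit 0x80000800080887068a) (nat_lit 0) (p (nat_lit 0x8888068602) (nat_lit 0) (p (nat_lit 0x807860582) (nat_lit 0) (p (nat_lit 0x8607058502) (nat_lit 0) (p (nat_lit 0x586850482) (nat_lit 0) (p (nat_lit 0x160014) (nat_lit 0) (p (nat_lit 0x68612) (nat_lit 0) (p (nat_lit 0x50592) (nat_lit 0) (p (nat_lit 0x40512)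 (nat_lit 0) (p (nat_lit 0x50312) (nat_lit 0) (p (nat_lit 0x38292) (nat_lit 0) (p (nat_lit 0x28212) (nat_lit 0) (p (nat_lit 0x38112) (nat_lit 0) (p (nat_lit 0x20092) (nat_lit 0) (p (nat_lit 0x10012) (nat_lit 0) pn))))))))))))))))))))))))) :=
  Cl.node (nat_lit 0x111) (nat_lit 2) (by decide +kernel) (ClAll.succ (ClAll.succ ClAll.zero n215) n216)

def n251 : Cl (O (nat_lit 3)) (R (nat_lit 14353))
    (p (nat_lit 0x109) (nat_lit 1) (p (nat_lit 0x101) (nat_lit 0) (p (nat_lit 0x119) (nat_lit 0) (p (nat_lit 0xd1) (nat_lit 0) (p (nat_lit 0x81) (nat_lit 0) (p (nat_lit 0x41) (nat_lit 1) (p (nat_lit 0x8a0b0a89089a) (nat_lit 0) (p (nat_lit 0x98a8a08881a) (nat_lit 0) (p (nat_lit 0x89088988079a) (nat_lit 0) (p (nat_lit 0x8880907871a) (nat_lit 0) (p (nat_lit 0x80000800080887068a) (nat_lit 0) (p (nat_lit 0x8888068602) (nat_lit 0) (p (nat_lit 0x807860582) (nat_lit 0) (p (nat_lit 0x8607058502)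 (nat_lit 0) (p (nat_lit 0x586850482) (nat_lit 0) (p (nat_lit 0x160014) (nat_lit 0) (p (nat_lit 0x68612) (nat_lit 0) (p (nat_lit 0x50592) (nat_lit 0) (p (nat_lit 0x40512) (nat_lit 0) (p (nat_lit 0x50312) (nat_lit 0) (p (nat_lit 0x38292) (nat_lit 0) (p (nat_lit 0x28212) (nat_lit 0) (p (nat_lit 0x38112) (nat_lit 0) (p (nat_lit 0x20092) (nat_lit 0) (p (nat_lit 0x10012) (nat_lit 0) pn))))))))))))))))))))))))) :=
  Cl.node (nat_lit 0x89) (nat_lit 2) (by decide +kernel) (ClAll.succ (ClAll.succ ClAll.zero n217) n218)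

def n252 : Cl (O (nat_lit 3)) (R (nat_lit 14353))
    (p (nat_lit 0xc1) (nat_lit 0) (p (nat_lit 0x101) (nat_lit 1) (p (nat_lit 0x119) (nat_lit 0) (p (nat_lit 0xd1) (nat_lit 0) (p (nat_lit 0x81) (nat_lit 0) (p (nat_lit 0x41) (nat_lit 1) (p (nat_lit 0x8a0b0a89089a) (nat_lit 0) (p (nat_lit 0x98a8a08881a) (nat_lit 0) (p (nat_lit 0x89088988079a) (nat_lit 0) (p (nat_lit 0x8880907871a) (nat_lit 0) (p (nat_lit 0x80000800080887068a) (nat_lit 0) (p (nat_lit 0x8888068602) (nat_lit 0) (p (nat_lit 0x807860582) (nat_lit 0) (p (nat_lit 0x8607058502) (nat_lit 0) (p (nat_lit 0x586850482) (nat_lit 0) (p (nat_lit 0x160014) (nat_lit 0) (p (nat_lit 0x68612) (nat_lit 0) (p (nat_lit 0x50592) (nat_lit 0) (p (nat_lit 0x40512) (nat_lit 0) (p (nat_lit 0x50312) (nat_lit 0) (p (nat_lit 0x38292) (nat_lit 0) (p (nat_lit 0x28212) (nat_lit 0) (p (nat_lit 0x38112) (nat_lit 0) (p (nat_lit 0x20092) (nat_lit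 0) (p (nat_lit 0x10012) (nat_lit 0) pn))))))))))))))))))))))))) :=
  Cl.node (nat_lit 0x89) (nat_lit 2) (by decide +kernel) (ClAll.succ (ClAll.succ ClAll.zero n219) n220)

def n253 : Cl (O (nat_lit 3)) (R (nat_lit 14353))
    (p (nat_lit 0xc1) (nat_lit 1) (p (nat_lit 0x101) (nat_lit 1) (p (nat_lit 0x119) (nat_lit 0) (p (nat_lit 0xd1) (nat_lit 0) (p (nat_lit 0x81) (nat_lit 0) (p (nat_lit 0x41) (nat_lit 1) (p (nat_lit 0x8a0b0a89089a) (nat_lit 0) (p (nat_lit 0x98a8a08881a) (nat_lit 0) (p (nat_lit 0x89088988079a) (nat_lit 0) (p (nat_lit 0x8880907871a) (nat_lit 0) (p (nat_lit 0x80000800080887068a) (nat_lit 0) (p (nat_lit 0x8888068602) (nat_lit 0) (p (nat_lit 0x807860582) (nat_lit 0) (p (nat_lit 0x8607058502) (nat_lit 0) (p (nat_lit 0x586850482) (nat_lit 0) (p (nat_lit 0x160014) (nat_lit 0) (p (nat_lit 0x68612) (nat_lit 0) (p (nat_lit 0x50592) (nat_lit 0) (p (nat_lit 0x40512)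 (nat_lit 0) (p (nat_lit 0x50312) (nat_lit 0) (p (nat_lit 0x38292) (nat_lit 0) (p (nat_lit 0x28212) (nat_lit 0) (p (nat_lit 0x38112) (nat_lit 0) (p (nat_lit 0x20092) (nat_lit 0) (p (nat_lit 0x10012) (nat_lit 0) pn))))))))))))))))))))))))) :=
  Cl.node (nat_lit 0x89) (nat_lit 2) (by decide +kernel) (ClAll.succ (ClAll.succ ClAll.zero s440) n221)

def n254 : Cl (O (nat_lit 3)) (R (nat_lit 14353))
    (p (nat_lit 0xc9) (nat_lit 1) (p (nat_lit 0xc1) (nat_lit 0) (p (nat_lit 0x119) (nat_lit 1) (p (nat_lit 0xd1) (nat_lit 0) (p (nat_lit 0x81) (nat_lit 0) (p (nat_lit 0x41) (nat_lit 1) (p (nat_lit 0x8a0b0a89089a) (nat_lit 0) (p (nat_lit 0x98a8a08881a) (nat_lit 0) (p (nat_lit 0x89088988079a) (nat_lit 0) (p (nat_lit 0x8880907871a) (nat_lit 0) (p (nat_lit 0x80000800080887068a) (nat_lit 0) (p (nat_lit 0x8888068602) (nat_lit 0) (p (nat_lit 0x807860582) (nat_lit 0) (p (nat_lit 0x8607058502)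 (nat_lit 0) (p (nat_lit 0x586850482) (nat_lit 0) (p (nat_lit 0x160014) (nat_lit 0) (p (nat_lit 0x68612) (nat_lit 0) (p (nat_lit 0x50592) (nat_lit 0) (p (nat_lit 0x40512) (nat_lit 0) (p (nat_lit 0x50312) (nat_lit 0) (p (nat_lit 0x38292) (nat_lit 0) (p (nat_lit 0x28212) (nat_lit 0) (p (nat_lit 0x38112) (nat_lit 0) (p (nat_lit 0x20092) (nat_lit 0) (p (nat_lit 0x10012) (nat_lit 0) pn))))))))))))))))))))))))) :=
  Cl.node (nat_lit 0x89) (nat_lit 2) (by decide +kernel) (ClAll.succ (ClAll.succ ClAll.zero s455) n222)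

def n255 : Cl (O (nat_lit 3)) (R (nat_lit 14353))
    (p (nat_lit 0x101) (nat_lit 0) (p (nat_lit 0xc1) (nat_lit 1) (p (nat_lit 0x119) (nat_lit 1) (p (nat_lit 0xd1) (nat_lit 0) (p (nat_lit 0x81) (nat_lit 0) (p (nat_lit 0x41) (nat_lit 1) (p (nat_lit 0x8a0b0a89089a) (nat_lit 0) (p (nat_lit 0x98a8a08881a) (nat_lit 0) (p (nat_lit 0x89088988079a) (nat_lit 0) (p (nat_lit 0x8880907871a) (nat_lit 0) (p (nat_lit 0x80000800080887068a) (nat_lit 0) (p (nat_lit 0x8888068602) (nat_lit 0) (p (nat_lit 0x807860582) (nat_lit 0) (p (nat_lit 0x8607058502) (nat_lit 0) (p (nat_lit 0x586850482) (nat_lit 0) (p (nat_lit 0x160014) (nat_lit 0) (p (nat_lit 0x68612) (nat_lit 0) (p (nat_lit 0x50592) (nat_lit 0) (p (nat_lit 0x40512) (nat_lit 0) (p (nat_lit 0x50312) (nat_lit 0) (p (nat_lit 0x38292) (nat_lit 0) (p (nat_lit 0x28212) (nat_lit 0) (p (nat_lit 0x38112) (nat_lit 0) (p (nat_lit 0x20092) (nat_lit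 0) (p (nat_lit 0x10012) (nat_lit 0) pn))))))))))))))))))))))))) :=
  Cl.node (nat_lit 0x89) (nat_lit 2) (by decide +kernel) (ClAll.succ (ClAll.succ ClAll.zero s481) n223)

def n256 : Cl (O (nat_lit 3)) (R (nat_lit 14353))
    (p (nat_lit 0x101) (nat_lit 1) (p (nat_lit 0xc1) (nat_lit 1) (p (nat_lit 0x119) (nat_lit 1) (p (nat_lit 0xd1) (nat_lit 0) (p (nat_lit 0x81) (nat_lit 0) (p (nat_lit 0x41) (nat_lit 1) (p (nat_lit 0x8a0b0a89089a) (nat_lit 0) (p (nat_lit 0x98a8a08881a) (nat_lit 0) (p (nat_lit 0x89088988079a) (nat_lit 0) (p (nat_lit 0x8880907871a) (nat_lit 0) (p (nat_lit 0x80000800080887068a) (nat_lit 0) (p (nat_lit 0x8888068602) (nat_lit 0) (p (nat_lit 0x807860582) (nat_lit 0) (p (nat_lit 0x8607058502) (nat_lit 0) (p (nat_lit 0x586850482) (nat_lit 0) (p (nat_lit 0x160014) (nat_lit 0) (p (nat_lit 0x68612) (nat_lit 0) (p (nat_lit 0x50592) (nat_lit 0) (p (nat_lit 0x40512)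 (nat_lit 0) (p (nat_lit 0x50312) (nat_lit 0) (p (nat_lit 0x38292) (nat_lit 0) (p (nat_lit 0x28212) (nat_lit 0) (p (nat_lit 0x38112) (nat_lit 0) (p (nat_lit 0x20092) (nat_lit 0) (p (nat_lit 0x10012) (nat_lit 0) pn))))))))))))))))))))))))) :=
  Cl.node (nat_lit 0x89) (nat_lit 2) (by decide +kernel) (ClAll.succ (ClAll.succ ClAll.zero s510) n224)

def n257 : Cl (O (nat_lit 3)) (R (nat_lit 14353))
    (p (nat_lit 0x109) (nat_lit 1) (p (nat_lit 0x101) (nat_lit 0) (p (nat_lit 0x111) (nat_lit 0) (p (nat_lit 0xd1) (nat_lit 1) (p (nat_lit 0x81) (nat_lit 0) (p (nat_lit 0x41) (nat_lit 1) (p (nat_lit 0x8a0b0a89089a) (nat_lit 0) (p (nat_lit 0x98a8a08881a) (nat_lit 0) (p (nat_lit 0x89088988079a) (nat_lit 0) (p (nat_lit 0x8880907871a) (nat_lit 0) (p (nat_lit 0x80000800080887068a) (nat_lit 0) (p (nat_lit 0x8888068602) (nat_lit 0) (p (nat_lit 0x807860582) (nat_lit 0) (p (nat_lit 0x8607058502)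 (nat_lit 0) (p (nat_lit 0x586850482) (nat_lit 0) (p (nat_lit 0x160014) (nat_lit 0) (p (nat_lit 0x68612) (nat_lit 0) (p (nat_lit 0x50592) (nat_lit 0) (p (nat_lit 0x40512) (nat_lit 0) (p (nat_lit 0x50312) (nat_lit 0) (p (nat_lit 0x38292) (nat_lit 0) (p (nat_lit 0x28212) (nat_lit 0) (p (nat_lit 0x38112) (nat_lit 0) (p (nat_lit 0x20092) (nat_lit 0) (p (nat_lit 0x10012) (nat_lit 0) pn))))))))))))))))))))))))) :=
  Cl.node (nat_lit 0x89) (nat_lit 2) (by decide +kernel) (ClAll.succ (ClAll.succ ClAll.zero s528) n225)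

def n258 : Cl (O (nat_lit 3)) (R (nat_lit 14353))
    (p (nat_lit 0x89) (nat_lit 0) (p (nat_lit 0x101) (nat_lit 1) (p (nat_lit 0x111) (nat_lit 0) (p (nat_lit 0xd1) (nat_lit 1) (p (nat_lit 0x81) (nat_lit 0) (p (nat_lit 0x41) (nat_lit 1) (p (nat_lit 0x8a0b0a89089a) (nat_lit 0) (p (nat_lit 0x98a8a08881a) (nat_lit 0) (p (nat_lit 0x89088988079a) (nat_lit 0) (p (nat_lit 0x8880907871a) (nat_lit 0) (p (nat_lit 0x80000800080887068a) (nat_lit 0) (p (nat_lit 0x8888068602) (nat_lit 0) (p (nat_lit 0x807860582) (nat_lit 0) (p (nat_lit 0x8607058502) (nat_lit 0) (p (nat_lit 0x586850482) (nat_lit 0) (p (nat_lit 0x160014) (nat_lit 0) (p (nat_lit 0x68612) (nat_lit 0) (p (nat_lit 0x50592) (nat_lit 0) (p (nat_lit 0x40512) (nat_lit 0) (p (nat_lit 0x50312) (nat_lit 0) (p (nat_lit 0x38292) (nat_lit 0) (p (nat_lit 0x28212) (nat_lit 0) (p (nat_lit 0x38112) (nat_lit 0) (p (nat_lit 0x20092) (nat_lit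 0) (p (nat_lit 0x10012) (nat_lit 0) pn))))))))))))))))))))))))) :=
  Cl.node (nat_lit 0x3cc2a) (nat_lit 12) (by decide +kernel) (ClAll.succ (ClAll.succ (ClAll.succ (ClAll.succ (ClAll.succ (ClAll.succ (ClAll.succ (ClAll.succ (ClAll.succ (ClAll.succ (ClAll.succ (ClAll.succ ClAll.zero s554) s555) s556) s557) s558) s559) s560) s561) s562) s563) s564) s565)

def n259 : Cl (O (nat_lit 3)) (R (nat_lit 14353))
    (p (nat_lit 0x89) (nat_lit 1) (p (nat_lit 0x101) (nat_lit 1) (p (nat_lit 0x111) (nat_lit 0) (p (nat_lit 0xd1) (nat_lit 1) (p (nat_lit 0x81) (nat_lit 0) (p (nat_lit 0x41) (nat_lit 1) (p (nat_lit 0x8a0b0a89089a) (nat_lit 0) (p (nat_lit 0x98a8a08881a) (nat_lit 0) (p (nat_lit 0x89088988079a) (nat_lit 0) (p (nat_lit 0x8880907871a) (nat_lit 0) (p (nat_lit 0x80000800080887068a) (nat_lit 0) (p (nat_lit 0x8888068602) (nat_lit 0) (p (nat_lit 0x807860582) (nat_lit 0) (p (nat_lit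 0x8607058502) (nat_lit 0) (p (nat_lit 0x586850482) (nat_lit 0) (p (nat_lit 0x160014) (nat_lit 0) (p (nat_lit 0x68612) (nat_lit 0) (p (nat_lit 0x50592) (nat_lit 0) (p (nat_lit 0x40512) (nat_lit 0) (p (nat_lit 0x50312) (nat_lit 0) (p (nat_lit 0x38292) (nat_lit 0) (p (nat_lit 0x28212) (nat_lit 0) (p (nat_lit 0x38112) (nat_lit 0) (p (nat_lit 0x20092) (nat_lit 0) (p (nat_lit 0x10012) (nat_lit 0) pn))))))))))))))))))))))))) :=
  Cl.node (nat_lit 0xc9) (nat_lit 2) (by decide +kernel) (ClAll.succ (ClAll.succ ClAll.zero n226) n227)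

def n260 : Cl (O (nat_lit 3)) (R (nat_lit 14353))
    (p (nat_lit 0xc9) (nat_lit 1) (p (nat_lit 0x89) (nat_lit 1) (p (nat_lit 0x111) (nat_lit 1) (p (nat_lit 0xd1) (nat_lit 1) (p (nat_lit 0x81) (nat_lit 0) (p (nat_lit 0x41) (nat_lit 1) (p (nat_lit 0x8a0b0a89089a) (nat_lit 0) (p (nat_lit 0x98a8a08881a) (nat_lit 0) (p (nat_lit 0x89088988079a) (nat_lit 0) (p (nat_lit 0x8880907871a) (nat_lit 0) (p (nat_lit 0x80000800080887068a) (nat_lit 0) (p (nat_lit 0x8888068602) (nat_lit 0) (p (nat_lit 0x807860582) (nat_lit 0) (p (nat_lit 0x8607058502) (nat_lit 0) (p (nat_lit 0x586850482) (nat_lit 0) (p (nat_lit 0x160014) (nat_lit 0) (p (nat_lit 0x68612) (nat_lit 0) (p (nat_lit 0x50592) (nat_lit 0) (p (nat_lit 0x40512) (nat_lit 0) (p (nat_lit 0x50312) (nat_lit 0) (p (nat_lit 0x38292) (nat_lit 0) (p (nat_lit 0x28212) (nat_lit 0) (p (nat_lit 0x38112) (nat_lit 0) (p (nat_lit 0x20092) (nat_lit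 0) (p (nat_lit 0x10012) (nat_lit 0) pn))))))))))))))))))))))))) :=
  Cl.node (nat_lit 0x109) (nat_lit 2) (by decide +kernel) (ClAll.succ (ClAll.succ ClAll.zero s592) s593)

def n261 : Cl (O (nat_lit 3)) (R (nat_lit 14353))
    (p (nat_lit 0x109) (nat_lit 0) (p (nat_lit 0x101) (nat_lit 0) (p (nat_lit 0x119) (nat_lit 0) (p (nat_lit 0xc1) (nat_lit 0) (p (nat_lit 0x81) (nat_lit 1) (p (nat_lit 0x41) (nat_lit 1) (p (nat_lit 0x8a0b0a89089a) (nat_lit 0) (p (nat_lit 0x98a8a08881a) (nat_lit 0) (p (nat_lit 0x89088988079a) (nat_lit 0) (p (nat_lit 0x8880907871a) (nat_lit 0) (p (nat_lit 0x80000800080887068a) (nat_lit 0) (p (nat_lit 0x8888068602) (nat_lit 0) (p (nat_lit 0x807860582) (nat_lit 0) (p (nat_lit 0x8607058502) (nat_lit 0) (p (nat_lit 0x586850482) (nat_lit 0) (p (nat_lit 0x160014) (nat_lit 0) (p (nat_lit 0x68612) (nat_lit 0) (p (nat_lit 0x50592) (nat_lit 0) (p (nat_lit 0x40512)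 (nat_lit 0) (p (nat_lit 0x50312) (nat_lit 0) (p (nat_lit 0x38292) (nat_lit 0) (p (nat_lit 0x28212) (nat_lit 0) (p (nat_lit 0x38112) (nat_lit 0) (p (nat_lit 0x20092) (nat_lit 0) (p (nat_lit 0x10012) (nat_lit 0) pn))))))))))))))))))))))))) :=
  Cl.node (nat_lit 0x111) (nat_lit 2) (by decide +kernel) (ClAll.succ (ClAll.succ ClAll.zero s594) n228)

def n262 : Cl (O (nat_lit 3)) (R (nat_lit 14353))
    (p (nat_lit 0x109) (nat_lit 1) (p (nat_lit 0x101) (nat_lit 0) (p (nat_lit 0x119) (nat_lit 0) (p (nat_lit 0xc1) (nat_lit 0) (p (nat_lit 0x81) (nat_lit 1) (p (nat_lit 0x41) (nat_lit 1) (p (nat_lit 0x8a0b0a89089a) (nat_lit 0) (p (nat_lit 0x98a8a08881a) (nat_lit 0) (p (nat_lit 0x89088988079a) (nat_lit 0) (p (nat_lit 0x8880907871a) (nat_lit 0) (p (nat_lit 0x80000800080887068a) (nat_lit 0) (p (nat_lit 0x8888068602) (nat_lit 0) (p (nat_lit 0x807860582) (nat_lit 0) (p (nat_lit 0x8607058502)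 (nat_lit 0) (p (nat_lit 0x586850482) (nat_lit 0) (p (nat_lit 0x160014) (nat_lit 0) (p (nat_lit 0x68612) (nat_lit 0) (p (nat_lit 0x50592) (nat_lit 0) (p (nat_lit 0x40512) (nat_lit 0) (p (nat_lit 0x50312) (nat_lit 0) (p (nat_lit 0x38292) (nat_lit 0) (p (nat_lit 0x28212) (nat_lit 0) (p (nat_lit 0x38112) (nat_lit 0) (p (nat_lit 0x20092) (nat_lit 0) (p (nat_lit 0x10012) (nat_lit 0) pn))))))))))))))))))))))))) :=
  Cl.node (nat_lit 0xc9) (nat_lit 2) (by decide +kernel) (ClAll.succ (ClAll.succ ClAll.zero n229) s659)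

def n263 : Cl (O (nat_lit 3)) (R (nat_lit 14353))
    (p (nat_lit 0xc9) (nat_lit 0) (p (nat_lit 0x101) (nat_lit 1) (p (nat_lit 0x119) (nat_lit 0) (p (nat_lit 0xc1) (nat_lit 0) (p (nat_lit 0x81) (nat_lit 1) (p (nat_lit 0x41) (nat_lit 1) (p (nat_lit 0x8a0b0a89089a) (nat_lit 0) (p (nat_lit 0x98a8a08881a) (nat_lit 0) (p (nat_lit 0x89088988079a) (nat_lit 0) (p (nat_lit 0x8880907871a) (nat_lit 0) (p (nat_lit 0x80000800080887068a) (nat_lit 0) (p (nat_lit 0x8888068602) (nat_lit 0) (p (nat_lit 0x807860582) (nat_lit 0) (p (nat_lit 0x8607058502) (nat_lit 0) (p (nat_lit 0x586850482) (nat_lit 0) (p (nat_lit 0x160014) (nat_lit 0) (p (nat_lit 0x68612) (nat_lit 0) (p (nat_lit 0x50592) (nat_lit 0) (p (nat_lit 0x40512) (nat_lit 0) (p (nat_lit 0x50312) (nat_lit 0) (p (nat_lit 0x38292) (nat_lit 0) (p (nat_lit 0x28212) (nat_lit 0) (p (nat_lit 0x38112) (nat_lit 0) (p (nat_lit 0x20092) (nat_lit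 0) (p (nat_lit 0x10012) (nat_lit 0) pn))))))))))))))))))))))))) :=
  Cl.node (nat_lit 0xd1) (nat_lit 2) (by decide +kernel) (ClAll.succ (ClAll.succ ClAll.zero n230) n231)

def n264 : Cl (O (nat_lit 3)) (R (nat_lit 14353))
    (p (nat_lit 0xd1) (nat_lit 1) (p (nat_lit 0xc9) (nat_lit 0) (p (nat_lit 0x119) (nat_lit 1) (p (nat_lit 0xc1) (nat_lit 0) (p (nat_lit 0x81) (nat_lit 1) (p (nat_lit 0x41) (nat_lit 1) (p (nat_lit 0x8a0b0a89089a) (nat_lit 0) (p (nat_lit 0x98a8a08881a) (nat_lit 0) (p (nat_lit 0x89088988079a) (nat_lit 0) (p (nat_lit 0x8880907871a) (nat_lit 0) (p (nat_lit 0x80000800080887068a) (nat_lit 0) (p (nat_lit 0x8888068602) (nat_lit 0) (p (nat_lit 0x807860582) (nat_lit 0) (p (nat_lit 0x8607058502) (nat_lit 0) (p (nat_lit 0x586850482) (nat_lit 0) (p (nat_lit 0x160014) (nat_lit 0) (p (nat_lit 0x68612) (nat_lit 0) (p (nat_lit 0x50592) (nat_lit 0) (p (nat_lit 0x40512) (nat_lit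 0) (p (nat_lit 0x50312) (nat_lit 0) (p (nat_lit 0x38292) (nat_lit 0) (p (nat_lit 0x28212) (nat_lit 0) (p (nat_lit 0x38112) (nat_lit 0) (p (nat_lit 0x20092) (nat_lit 0) (p (nat_lit 0x10012) (nat_lit 0) pn))))))))))))))))))))))))) :=
  Cl.node (nat_lit 0x111) (nat_lit 2) (by decide +kernel) (ClAll.succ (ClAll.succ ClAll.zero s718) n232)

def n265 : Cl (O (nat_lit 3)) (R (nat_lit 14353))
    (p (nat_lit 0x109) (nat_lit 0) (p (nat_lit 0xc9) (nat_lit 1) (p (nat_lit 0x119) (nat_lit 1) (p (nat_lit 0xc1) (nat_lit 0) (p (nat_lit 0x81) (nat_lit 1) (p (nat_lit 0x41) (nat_lit 1) (p (nat_lit 0x8a0b0a89089a) (nat_lit 0) (p (nat_lit 0x98a8a08881a) (nat_lit 0) (p (nat_lit 0x89088988079a) (nat_lit 0) (p (nat_lit 0x8880907871a) (nat_lit 0) (p (nat_lit 0x80000800080887068a) (nat_lit 0) (p (nat_lit 0x8888068602) (nat_lit 0) (p (nat_lit 0x807860582) (nat_lit 0) (p (nat_lit 0x8607058502) (nat_lit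 0) (p (nat_lit 0x586850482) (nat_lit 0) (p (nat_lit 0x160014) (nat_lit 0) (p (nat_lit 0x68612) (nat_lit 0) (p (nat_lit 0x50592) (nat_lit 0) (p (nat_lit 0x40512) (nat_lit 0) (p (nat_lit 0x50312) (nat_lit 0) (p (nat_lit 0x38292) (nat_lit 0) (p (nat_lit 0x28212) (nat_lit 0) (p (nat_lit 0x38112) (nat_lit 0) (p (nat_lit 0x20092) (nat_lit 0) (p (nat_lit 0x10012) (nat_lit 0) pn))))))))))))))))))))))))) :=
  Cl.node (nat_lit 0x111) (nat_lit 2) (by decide +kernel) (ClAll.succ (ClAll.succ ClAll.zero n233) n234)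

def n266 : Cl (O (nat_lit 3)) (R (nat_lit 14353))
    (p (nat_lit 0x111) (nat_lit 0) (p (nat_lit 0x109) (nat_lit 0) (p (nat_lit 0x101) (nat_lit 0) (p (nat_lit 0xc1) (nat_lit 1) (p (nat_lit 0x81) (nat_lit 1) (p (nat_lit 0x41) (nat_lit 1) (p (nat_lit 0x8a0b0a89089a) (nat_lit 0) (p (nat_lit 0x98a8a08881a) (nat_lit 0) (p (nat_lit 0x89088988079a) (nat_lit 0) (p (nat_lit 0x8880907871a) (nat_lit 0) (p (nat_lit 0x80000800080887068a) (nat_lit 0) (p (nat_lit 0x8888068602) (nat_lit 0) (p (nat_lit 0x807860582) (nat_lit 0) (p (nat_lit 0x8607058502) (nat_lit 0) (p (nat_lit 0x586850482) (nat_lit 0) (p (nat_lit 0x160014) (nat_lit 0) (p (nat_lit 0x68612) (nat_lit 0) (p (nat_lit 0x50592) (nat_lit 0) (p (nat_lit 0x40512) (nat_lit 0) (p (nat_lit 0x50312) (nat_lit 0) (p (nat_lit 0x38292) (nat_lit 0) (p (nat_lit 0x28212) (nat_lit 0) (p (nat_lit 0x38112) (nat_lit 0) (p (nat_lit 0x20092) (nat_lit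 0) (p (nat_lit 0x10012) (nat_lit 0) pn))))))))))))))))))))))))) :=
  Cl.node (nat_lit 0x119) (nat_lit 2) (by decide +kernel) (ClAll.succ (ClAll.succ ClAll.zero s768) n235)

def n267 : Cl (O (nat_lit 3)) (R (nat_lit 14353))
    (p (nat_lit 0x101) (nat_lit 0) (p (nat_lit 0x119) (nat_lit 0) (p (nat_lit 0xd1) (nat_lit 0) (p (nat_lit 0x89) (nat_lit 0) (p (nat_lit 0x41) (nat_lit 0) (p (nat_lit 0x8a0b0a89089a) (nat_lit 0) (p (nat_lit 0x98a8a08881a) (nat_lit 0) (p (nat_lit 0x89088988079a) (nat_lit 0) (p (nat_lit 0x8880907871a) (nat_lit 0) (p (nat_lit 0x80000800080887068a) (nat_lit 0) (p (nat_lit 0x8888068602) (nat_lit 0) (p (nat_lit 0x807860582) (nat_lit 0) (p (nat_lit 0x8607058502) (nat_lit 0) (p (nat_lit 0x586850482) (nat_lit 0) (p (nat_lit 0x160014) (nat_lit 0) (p (nat_lit 0x68612) (nat_lit 0) (p (nat_lit 0x50592) (nat_lit 0) (p (nat_lit 0x40512) (nat_lit 0) (p (nat_lit 0x50312)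 (nat_lit 0) (p (nat_lit 0x38292) (nat_lit 0) (p (nat_lit 0x28212) (nat_lit 0) (p (nat_lit 0x38112) (nat_lit 0) (p (nat_lit 0x20092) (nat_lit 0) (p (nat_lit 0x10012) (nat_lit 0) pn)))))))))))))))))))))))) :=
  Cl.node (nat_lit 0x109) (nat_lit 2) (by decide +kernel) (ClAll.succ (ClAll.succ ClAll.zero s0) n236)

def n268 : Cl (O (nat_lit 3)) (R (nat_lit 14353))
    (p (nat_lit 0x101) (nat_lit 1) (p (nat_lit 0x119) (nat_lit 0) (p (nat_lit 0xd1) (nat_lit 0) (p (nat_lit 0x89) (nat_lit 0) (p (nat_lit 0x41) (nat_lit 0) (p (nat_lit 0x8a0b0a89089a) (nat_lit 0) (p (nat_lit 0x98a8a08881a) (nat_lit 0) (p (nat_lit 0x89088988079a) (nat_lit 0) (p (nat_lit 0x8880907871a) (nat_lit 0) (p (nat_lit 0x80000800080887068a) (nat_lit 0) (p (nat_lit 0x8888068602) (nat_lit 0) (p (nat_lit 0x807860582) (nat_lit 0) (p (nat_lit 0x8607058502) (nat_lit 0) (p (nat_lit 0x586850482) (nat_lit 0) (p (nat_lit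 0x160014) (nat_lit 0) (p (nat_lit 0x68612) (nat_lit 0) (p (nat_lit 0x50592) (nat_lit 0) (p (nat_lit 0x40512) (nat_lit 0) (p (nat_lit 0x50312) (nat_lit 0) (p (nat_lit 0x38292) (nat_lit 0) (p (nat_lit 0x28212) (nat_lit 0) (p (nat_lit 0x38112) (nat_lit 0) (p (nat_lit 0x20092) (nat_lit 0) (p (nat_lit 0x10012) (nat_lit 0) pn)))))))))))))))))))))))) :=
  Cl.node (nat_lit 0x81) (nat_lit 2) (by decide +kernel) (ClAll.succ (ClAll.succ ClAll.zero n237) n238)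

def n269 : Cl (O (nat_lit 3)) (R (nat_lit 14353))
    (p (nat_lit 0xc1) (nat_lit 0) (p (nat_lit 0x119) (nat_lit 1) (p (nat_lit 0xd1) (nat_lit 0) (p (nat_lit 0x89) (nat_lit 0) (p (nat_lit 0x41) (nat_lit 0) (p (nat_lit 0x8a0b0a89089a) (nat_lit 0) (p (nat_lit 0x98a8a08881a) (nat_lit 0) (p (nat_lit 0x89088988079a) (nat_lit 0) (p (nat_lit 0x8880907871a) (nat_lit 0) (p (nat_lit 0x80000800080887068a) (nat_lit 0) (p (nat_lit 0x8888068602) (nat_lit 0) (p (nat_lit 0x807860582) (nat_lit 0) (p (nat_lit 0x8607058502) (nat_lit 0) (p (nat_lit 0x586850482) (nat_lit 0) (p (nat_lit 0x160014) (nat_lit 0) (p (nat_lit 0x68612) (nat_lit 0) (p (nat_lit 0x50592) (nat_lit 0) (p (nat_lit 0x40512) (nat_lit 0) (p (nat_lit 0x50312) (nat_lit 0) (p (nat_lit 0x38292) (nat_lit 0) (p (nat_lit 0x28212) (nat_lit 0) (p (nat_lit 0x38112) (nat_lit 0) (p (nat_lit 0x20092) (nat_lit 0) (p (nat_lit 0x10012) (nat_lit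 0) pn)))))))))))))))))))))))) :=
  Cl.node (nat_lit 0xc9) (nat_lit 2) (by decide +kernel) (ClAll.succ (ClAll.succ ClAll.zero s93) n239)

def n270 : Cl (O (nat_lit 3)) (R (nat_lit 14353))
    (p (nat_lit 0xc1) (nat_lit 1) (p (nat_lit 0x119) (nat_lit 1) (p (nat_lit 0xd1) (nat_lit 0) (p (nat_lit 0x89) (nat_lit 0) (p (nat_lit 0x41) (nat_lit 0) (p (nat_lit 0x8a0b0a89089a) (nat_lit 0) (p (nat_lit 0x98a8a08881a) (nat_lit 0) (p (nat_lit 0x89088988079a) (nat_lit 0) (p (nat_lit 0x8880907871a) (nat_lit 0) (p (nat_lit 0x80000800080887068a) (nat_lit 0) (p (nat_lit 0x8888068602) (nat_lit 0) (p (nat_lit 0x807860582) (nat_lit 0) (p (nat_lit 0x8607058502) (nat_lit 0) (p (nat_lit 0x586850482) (nat_lit 0) (p (nat_lit 0x160014) (nat_lit 0) (p (nat_lit 0x68612) (nat_lit 0) (p (nat_lit 0x50592) (nat_lit 0) (p (nat_lit 0x40512) (nat_lit 0) (p (nat_lit 0x50312) (nat_lit 0) (p (nat_lit 0x38292)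 (nat_lit 0) (p (nat_lit 0x28212) (nat_lit 0) (p (nat_lit 0x38112) (nat_lit 0) (p (nat_lit 0x20092) (nat_lit 0) (p (nat_lit 0x10012) (nat_lit 0) pn)))))))))))))))))))))))) :=
  Cl.node (nat_lit 0x81) (nat_lit 2) (by decide +kernel) (ClAll.succ (ClAll.succ ClAll.zero n240) n241)

def n271 : Cl (O (nat_lit 3)) (R (nat_lit 14353))
    (p (nat_lit 0x101) (nat_lit 0) (p (nat_lit 0x111) (nat_lit 0) (p (nat_lit 0xd1) (nat_lit 1) (p (nat_lit 0x89) (nat_lit 0) (p (nat_lit 0x41) (nat_lit 0) (p (nat_lit 0x8a0b0a89089a) (nat_lit 0) (p (nat_lit 0x98a8a08881a) (nat_lit 0) (p (nat_lit 0x89088988079a) (nat_lit 0) (p (nat_lit 0x8880907871a) (nat_lit 0) (p (nat_lit 0x80000800080887068a) (nat_lit 0) (p (nat_lit 0x8888068602) (nat_lit 0) (p (nat_lit 0x807860582) (nat_lit 0) (p (nat_lit 0x8607058502) (nat_lit 0) (p (nat_lit 0x586850482) (nat_lit 0) (p (nat_lit 0x160014) (nat_lit 0) (p (nat_lit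 0x68612) (nat_lit 0) (p (nat_lit 0x50592) (nat_lit 0) (p (nat_lit 0x40512) (nat_lit 0) (p (nat_lit 0x50312) (nat_lit 0) (p (nat_lit 0x38292) (nat_lit 0) (p (nat_lit 0x28212) (nat_lit 0) (p (nat_lit 0x38112) (nat_lit 0) (p (nat_lit 0x20092) (nat_lit 0) (p (nat_lit 0x10012) (nat_lit 0) pn)))))))))))))))))))))))) :=
  Cl.node (nat_lit 0x109) (nat_lit 2) (by decide +kernel) (ClAll.succ (ClAll.succ ClAll.zero s182) n242)

def n272 : Cl (O (nat_lit 3)) (R (nat_lit 14353))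
    (p (nat_lit 0x101) (nat_lit 1) (p (nat_lit 0x111) (nat_lit 0) (p (nat_lit 0xd1) (nat_lit 1) (p (nat_lit 0x89) (nat_lit 0) (p (nat_lit 0x41) (nat_lit 0) (p (nat_lit 0x8a0b0a89089a) (nat_lit 0) (p (nat_lit 0x98a8a08881a) (nat_lit 0) (p (nat_lit 0x89088988079a) (nat_lit 0) (p (nat_lit 0x8880907871a) (nat_lit 0) (p (nat_lit 0x80000800080887068a) (nat_lit 0) (p (nat_lit 0x8888068602) (nat_lit 0) (p (nat_lit 0x807860582) (nat_lit 0) (p (nat_lit 0x8607058502) (nat_lit 0) (p (nat_lit 0x586850482) (nat_lit 0) (p (nat_lit 0x160014) (nat_lit 0) (p (nat_lit 0x68612) (nat_lit 0) (p (nat_lit 0x50592) (nat_lit 0) (p (nat_lit 0x40512) (nat_lit 0) (p (nat_lit 0x50312) (nat_lit 0) (p (nat_lit 0x38292) (nat_lit 0) (p (nat_lit 0x28212) (nat_lit 0) (p (nat_lit 0x38112) (nat_lit 0) (p (nat_lit 0x20092) (nat_lit 0) (p (nat_lit 0x10012) (nat_lit 0) pn)))))))))))))))))))))))) :=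
  Cl.node (nat_lit 0x81) (nat_lit 2) (by decide +kernel) (ClAll.succ (ClAll.succ ClAll.zero n243) n244)

def n273 : Cl (O (nat_lit 3)) (R (nat_lit 14353))
    (p (nat_lit 0x81) (nat_lit 1) (p (nat_lit 0x111) (nat_lit 1) (p (nat_lit 0xd1) (nat_lit 1) (p (nat_lit 0x89) (nat_lit 0) (p (nat_lit 0x41) (nat_lit 0) (p (nat_lit 0x8a0b0a89089a) (nat_lit 0) (p (nat_lit 0x98a8a08881a) (nat_lit 0) (p (nat_lit 0x89088988079a) (nat_lit 0) (p (nat_lit 0x8880907871a) (nat_lit 0) (p (nat_lit 0x80000800080887068a) (nat_lit 0) (p (nat_lit 0x8888068602) (nat_lit 0) (p (nat_lit 0x807860582) (nat_lit 0) (p (nat_lit 0x8607058502) (nat_lit 0) (p (nat_lit 0x586850482) (nat_lit 0) (p (nat_lit 0x160014) (nat_lit 0) (p (nat_lit 0x68612) (nat_lit 0) (p (nat_lit 0x50592) (nat_lit 0) (p (nat_lit 0x40512) (nat_lit 0) (p (nat_lit 0x50312) (nat_lit 0) (p (nat_lit 0x38292) (nat_lit 0) (p (nat_lit 0x28212)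 (nat_lit 0) (p (nat_lit 0x38112) (nat_lit 0) (p (nat_lit 0x20092) (nat_lit 0) (p (nat_lit 0x10012) (nat_lit 0) pn)))))))))))))))))))))))) :=
  Cl.node (nat_lit 0xc1) (nat_lit 2) (by decide +kernel) (ClAll.succ (ClAll.succ ClAll.zero s206) n245)

def n274 : Cl (O (nat_lit 3)) (R (nat_lit 14353))
    (p (nat_lit 0x101) (nat_lit 0) (p (nat_lit 0x119) (nat_lit 0) (p (nat_lit 0xc9) (nat_lit 0) (p (nat_lit 0x89) (nat_lit 1) (p (nat_lit 0x41) (nat_lit 0) (p (nat_lit 0x8a0b0a89089a) (nat_lit 0) (p (nat_lit 0x98a8a08881a) (nat_lit 0) (p (nat_lit 0x89088988079a) (nat_lit 0) (p (nat_lit 0x8880907871a) (nat_lit 0) (p (nat_lit 0x80000800080887068a) (nat_lit 0) (p (nat_lit 0x8888068602) (nat_lit 0) (p (nat_lit 0x807860582) (nat_lit 0) (p (nat_lit 0x8607058502) (nat_lit 0) (p (nat_lit 0x586850482) (nat_lit 0) (p (nat_lit 0x160014) (nat_lit 0) (p (nat_lit 0x68612) (nat_lit 0) (p (nat_lit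 0x50592) (nat_lit 0) (p (nat_lit 0x40512) (nat_lit 0) (p (nat_lit 0x50312) (nat_lit 0) (p (nat_lit 0x38292) (nat_lit 0) (p (nat_lit 0x28212) (nat_lit 0) (p (nat_lit 0x38112) (nat_lit 0) (p (nat_lit 0x20092) (nat_lit 0) (p (nat_lit 0x10012) (nat_lit 0) pn)))))))))))))))))))))))) :=
  Cl.node (nat_lit 0x109) (nat_lit 2) (by decide +kernel) (ClAll.succ (ClAll.succ ClAll.zero n246) n247)

def n275 : Cl (O (nat_lit 3)) (R (nat_lit 14353))
    (p (nat_lit 0x101) (nat_lit 1) (p (nat_lit 0x119) (nat_lit 0) (p (nat_lit 0xc9) (nat_lit 0) (p (nat_lit 0x89) (nat_lit 1) (p (nat_lit 0x41) (nat_lit 0) (p (nat_lit 0x8a0b0a89089a) (nat_lit 0) (p (nat_lit 0x98a8a08881a) (nat_lit 0) (p (nat_lit 0x89088988079a) (nat_lit 0) (p (nat_lit 0x8880907871a) (nat_lit 0) (p (nat_lit 0x80000800080887068a) (nat_lit 0) (p (nat_lit 0x8888068602) (nat_lit 0) (p (nat_lit 0x807860582) (nat_lit 0) (p (nat_lit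 0x8607058502) (nat_lit 0) (p (nat_lit 0x586850482) (nat_lit 0) (p (nat_lit 0x160014) (nat_lit 0) (p (nat_lit 0x68612) (nat_lit 0) (p (nat_lit 0x50592) (nat_lit 0) (p (nat_lit 0x40512) (nat_lit 0) (p (nat_lit 0x50312) (nat_lit 0) (p (nat_lit 0x38292) (nat_lit 0) (p (nat_lit 0x28212) (nat_lit 0) (p (nat_lit 0x38112) (nat_lit 0) (p (nat_lit 0x20092) (nat_lit 0) (p (nat_lit 0x10012) (nat_lit 0) pn)))))))))))))))))))))))) :=
  Cl.node (nat_lit 0xc1) (nat_lit 2) (by decide +kernel) (ClAll.succ (ClAll.succ ClAll.zero n248) s302)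

def n276 : Cl (O (nat_lit 3)) (R (nat_lit 14353))
    (p (nat_lit 0xc1) (nat_lit 0) (p (nat_lit 0x119) (nat_lit 1) (p (nat_lit 0xc9) (nat_lit 0) (p (nat_lit 0x89) (nat_lit 1) (p (nat_lit 0x41) (nat_lit 0) (p (nat_lit 0x8a0b0a89089a) (nat_lit 0) (p (nat_lit 0x98a8a08881a) (nat_lit 0) (p (nat_lit 0x89088988079a) (nat_lit 0) (p (nat_lit 0x8880907871a) (nat_lit 0) (p (nat_lit 0x80000800080887068a) (nat_lit 0) (p (nat_lit 0x8888068602) (nat_lit 0) (p (nat_lit 0x807860582) (nat_lit 0) (p (nat_lit 0x8607058502) (nat_lit 0) (p (nat_lit 0x586850482) (nat_lit 0) (p (nat_lit 0x160014) (nat_lit 0) (p (nat_lit 0x68612) (nat_lit 0) (p (nat_lit 0x50592) (nat_lit 0) (p (nat_lit 0x40512) (nat_lit 0) (p (nat_lit 0x50312) (nat_lit 0) (p (nat_lit 0x38292) (nat_lit 0) (p (nat_lit 0x28212) (nat_lit 0) (p (nat_lit 0x38112) (nat_lit 0) (p (nat_lit 0x20092) (nat_lit 0) (p (nat_lit 0x10012) (nat_lit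 0) pn)))))))))))))))))))))))) :=
  Cl.node (nat_lit 0xd1) (nat_lit 2) (by decide +kernel) (ClAll.succ (ClAll.succ ClAll.zero s303) n249)

def n277 : Cl (O (nat_lit 3)) (R (nat_lit 14353))
    (p (nat_lit 0xc1) (nat_lit 1) (p (nat_lit 0x119) (nat_lit 1) (p (nat_lit 0xc9) (nat_lit 0) (p (nat_lit 0x89) (nat_lit 1) (p (nat_lit 0x41) (nat_lit 0) (p (nat_lit 0x8a0b0a89089a) (nat_lit 0) (p (nat_lit 0x98a8a08881a) (nat_lit 0) (p (nat_lit 0x89088988079a) (nat_lit 0) (p (nat_lit 0x8880907871a) (nat_lit 0) (p (nat_lit 0x80000800080887068a) (nat_lit 0) (p (nat_lit 0x8888068602) (nat_lit 0) (p (nat_lit 0x807860582) (nat_lit 0) (p (nat_lit 0x8607058502) (nat_lit 0) (p (nat_lit 0x586850482) (nat_lit 0) (p (nat_lit 0x160014) (nat_lit 0) (p (nat_lit 0x68612) (nat_lit 0) (p (nat_lit 0x50592) (nat_lit 0) (p (nat_lit 0x40512) (nat_lit 0) (p (nat_lit 0x50312) (nat_lit 0) (p (nat_lit 0x38292)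 (nat_lit 0) (p (nat_lit 0x28212) (nat_lit 0) (p (nat_lit 0x38112) (nat_lit 0) (p (nat_lit 0x20092) (nat_lit 0) (p (nat_lit 0x10012) (nat_lit 0) pn)))))))))))))))))))))))) :=
  Cl.node (nat_lit 0x101) (nat_lit 2) (by decide +kernel) (ClAll.succ (ClAll.succ ClAll.zero n250) s350)

def n278 : Cl (O (nat_lit 3)) (R (nat_lit 14353))
    (p (nat_lit 0x101) (nat_lit 0) (p (nat_lit 0x109) (nat_lit 0) (p (nat_lit 0xc9) (nat_lit 1) (p (nat_lit 0x89) (nat_lit 1) (p (nat_lit 0x41) (nat_lit 0) (p (nat_lit 0x8a0b0a89089a) (nat_lit 0) (p (nat_lit 0x98a8a08881a) (nat_lit 0) (p (nat_lit 0x89088988079a) (nat_lit 0) (p (nat_lit 0x8880907871a) (nat_lit 0) (p (nat_lit 0x80000800080887068a) (nat_lit 0) (p (nat_lit 0x8888068602) (nat_lit 0) (p (nat_lit 0x807860582) (nat_lit 0) (p (nat_lit 0x8607058502) (nat_lit 0) (p (nat_lit 0x586850482) (nat_lit 0) (p (nat_lit 0x160014) (nat_lit 0) (p (nat_lit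 0x68612) (nat_lit 0) (p (nat_lit 0x50592) (nat_lit 0) (p (nat_lit 0x40512) (nat_lit 0) (p (nat_lit 0x50312) (nat_lit 0) (p (nat_lit 0x38292) (nat_lit 0) (p (nat_lit 0x28212) (nat_lit 0) (p (nat_lit 0x38112) (nat_lit 0) (p (nat_lit 0x20092) (nat_lit 0) (p (nat_lit 0x10012) (nat_lit 0) pn)))))))))))))))))))))))) :=
  Cl.node (nat_lit 0x111) (nat_lit 2) (by decide +kernel) (ClAll.succ (ClAll.succ ClAll.zero s351) s352)

def n279 : Cl (O (nat_lit 3)) (R (nat_lit 14353))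
    (p (nat_lit 0x101) (nat_lit 0) (p (nat_lit 0x119) (nat_lit 0) (p (nat_lit 0xd1) (nat_lit 0) (p (nat_lit 0x81) (nat_lit 0) (p (nat_lit 0x41) (nat_lit 1) (p (nat_lit 0x8a0b0a89089a) (nat_lit 0) (p (nat_lit 0x98a8a08881a) (nat_lit 0) (p (nat_lit 0x89088988079a) (nat_lit 0) (p (nat_lit 0x8880907871a) (nat_lit 0) (p (nat_lit 0x80000800080887068a) (nat_lit 0) (p (nat_lit 0x8888068602) (nat_lit 0) (p (nat_lit 0x807860582) (nat_lit 0) (p (nat_lit 0x8607058502) (nat_lit 0) (p (nat_lit 0x586850482) (nat_lit 0) (p (nat_lit 0x160014) (nat_lit 0) (p (nat_lit 0x68612) (nat_lit 0) (p (nat_lit 0x50592) (nat_lit 0) (p (nat_lit 0x40512) (nat_lit 0) (p (nat_lit 0x50312) (nat_lit 0) (p (nat_lit 0x38292) (nat_lit 0) (p (nat_lit 0x28212) (nat_lit 0) (p (nat_lit 0x38112) (nat_lit 0) (p (nat_lit 0x20092) (nat_lit 0) (p (nat_lit 0x10012) (nat_lit 0) pn)))))))))))))))))))))))) :=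
  Cl.node (nat_lit 0x109) (nat_lit 2) (by decide +kernel) (ClAll.succ (ClAll.succ ClAll.zero s355) n251)

def n280 : Cl (O (nat_lit 3)) (R (nat_lit 14353))
    (p (nat_lit 0x101) (nat_lit 1) (p (nat_lit 0x119) (nat_lit 0) (p (nat_lit 0xd1) (nat_lit 0) (p (nat_lit 0x81) (nat_lit 0) (p (nat_lit 0x41) (nat_lit 1) (p (nat_lit 0x8a0b0a89089a) (nat_lit 0) (p (nat_lit 0x98a8a08881a) (nat_lit 0) (p (nat_lit 0x89088988079a) (nat_lit 0) (p (nat_lit 0x8880907871a) (nat_lit 0) (p (nat_lit 0x80000800080887068a) (nat_lit 0) (p (nat_lit 0x8888068602) (nat_lit 0) (p (nat_lit 0x807860582) (nat_lit 0) (p (nat_lit 0x8607058502) (nat_lit 0) (p (nat_lit 0x586850482) (nat_lit 0) (p (nat_lit 0x160014) (nat_lit 0) (p (nat_lit 0x68612) (nat_lit 0) (p (nat_lit 0x50592) (nat_lit 0) (p (nat_lit 0x40512) (nat_lit 0) (p (nat_lit 0x50312) (nat_lit 0) (p (nat_lit 0x38292) (nat_lit 0) (p (nat_lit 0x28212)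 (nat_lit 0) (p (nat_lit 0x38112) (nat_lit 0) (p (nat_lit 0x20092) (nat_lit 0) (p (nat_lit 0x10012) (nat_lit 0) pn)))))))))))))))))))))))) :=
  Cl.node (nat_lit 0xc1) (nat_lit 2) (by decide +kernel) (ClAll.succ (ClAll.succ ClAll.zero n252) n253)

def n281 : Cl (O (nat_lit 3)) (R (nat_lit 14353))
    (p (nat_lit 0xc1) (nat_lit 0) (p (nat_lit 0x119) (nat_lit 1) (p (nat_lit 0xd1) (nat_lit 0) (p (nat_lit 0x81) (nat_lit 0) (p (nat_lit 0x41) (nat_lit 1) (p (nat_lit 0x8a0b0a89089a) (nat_lit 0) (p (nat_lit 0x98a8a08881a) (nat_lit 0) (p (nat_lit 0x89088988079a) (nat_lit 0) (p (nat_lit 0x8880907871a) (nat_lit 0) (p (nat_lit 0x80000800080887068a) (nat_lit 0) (p (nat_lit 0x8888068602) (nat_lit 0) (p (nat_lit 0x807860582) (nat_lit 0) (p (nat_lit 0x8607058502) (nat_lit 0) (p (nat_lit 0x586850482) (nat_lit 0) (p (nat_lit 0x160014) (nat_lit 0) (p (nat_lit 0x68612) (nat_lit 0) (p (nat_lit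 0x50592) (nat_lit 0) (p (nat_lit 0x40512) (nat_lit 0) (p (nat_lit 0x50312) (nat_lit 0) (p (nat_lit 0x38292) (nat_lit 0) (p (nat_lit 0x28212) (nat_lit 0) (p (nat_lit 0x38112) (nat_lit 0) (p (nat_lit 0x20092) (nat_lit 0) (p (nat_lit 0x10012) (nat_lit 0) pn)))))))))))))))))))))))) :=
  Cl.node (nat_lit 0xc9) (nat_lit 2) (by decide +kernel) (ClAll.succ (ClAll.succ ClAll.zero s454) n254)

def n282 : Cl (O (nat_lit 3)) (R (nat_lit 14353))
    (p (nat_lit 0xc1) (nat_lit 1) (p (nat_lit 0x119) (nat_lit 1) (p (nat_lit 0xd1) (nat_lit 0) (p (nat_lit 0x81) (nat_lit 0) (p (nat_lit 0x41) (nat_lit 1) (p (nat_lit 0x8a0b0a89089a) (nat_lit 0) (p (nat_lit 0x98a8a08881a) (nat_lit 0) (p (nat_lit 0x89088988079a) (nat_lit 0) (p (nat_lit 0x8880907871a) (nat_lit 0) (p (nat_lit 0x80000800080887068a) (nat_lit 0) (p (nat_lit 0x8888068602) (nat_lit 0) (p (nat_lit 0x807860582) (nat_lit 0) (p (nat_lit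 0x8607058502) (nat_lit 0) (p (nat_lit 0x586850482) (nat_lit 0) (p (nat_lit 0x160014) (nat_lit 0) (p (nat_lit 0x68612) (nat_lit 0) (p (nat_lit 0x50592) (nat_lit 0) (p (nat_lit 0x40512) (nat_lit 0) (p (nat_lit 0x50312) (nat_lit 0) (p (nat_lit 0x38292) (nat_lit 0) (p (nat_lit 0x28212) (nat_lit 0) (p (nat_lit 0x38112) (nat_lit 0) (p (nat_lit 0x20092) (nat_lit 0) (p (nat_lit 0x10012) (nat_lit 0) pn)))))))))))))))))))))))) :=
  Cl.node (nat_lit 0x101) (nat_lit 2) (by decide +kernel) (ClAll.succ (ClAll.succ ClAll.zero n255) n256)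

def n283 : Cl (O (nat_lit 3)) (R (nat_lit 14353))
    (p (nat_lit 0x101) (nat_lit 0) (p (nat_lit 0x111) (nat_lit 0) (p (nat_lit 0xd1) (nat_lit 1) (p (nat_lit 0x81) (nat_lit 0) (p (nat_lit 0x41) (nat_lit 1) (p (nat_lit 0x8a0b0a89089a) (nat_lit 0) (p (nat_lit 0x98a8a08881a) (nat_lit 0) (p (nat_lit 0x89088988079a) (nat_lit 0) (p (nat_lit 0x8880907871a) (nat_lit 0) (p (nat_lit 0x80000800080887068a) (nat_lit 0) (p (nat_lit 0x8888068602) (nat_lit 0) (p (nat_lit 0x807860582) (nat_lit 0) (p (nat_lit 0x8607058502) (nat_lit 0) (p (nat_lit 0x586850482) (nat_lit 0) (p (nat_lit 0x160014) (nat_lit 0) (p (nat_lit 0x68612) (nat_lit 0) (p (nat_lit 0x50592) (nat_lit 0) (p (nat_lit 0x40512) (nat_lit 0) (p (nat_lit 0x50312) (nat_lit 0) (p (nat_lit 0x38292) (nat_lit 0) (p (nat_lit 0x28212) (nat_lit 0) (p (nat_lit 0x38112) (nat_lit 0) (p (nat_lit 0x20092) (nat_lit 0) (p (nat_lit 0x10012) (nat_lit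 0) pn)))))))))))))))))))))))) :=
  Cl.node (nat_lit 0x109) (nat_lit 2) (by decide +kernel) (ClAll.succ (ClAll.succ ClAll.zero s527) n257)

def n284 : Cl (O (nat_lit 3)) (R (nat_lit 14353))
    (p (nat_lit 0x101) (nat_lit 1) (p (nat_lit 0x111) (nat_lit 0) (p (nat_lit 0xd1) (nat_lit 1) (p (nat_lit 0x81) (nat_lit 0) (p (nat_lit 0x41) (nat_lit 1) (p (nat_lit 0x8a0b0a89089a) (nat_lit 0) (p (nat_lit 0x98a8a08881a) (nat_lit 0) (p (nat_lit 0x89088988079a) (nat_lit 0) (p (nat_lit 0x8880907871a) (nat_lit 0) (p (nat_lit 0x80000800080887068a) (nat_lit 0) (p (nat_lit 0x8888068602) (nat_lit 0) (p (nat_lit 0x807860582) (nat_lit 0) (p (nat_lit 0x8607058502) (nat_lit 0) (p (nat_lit 0x586850482) (nat_lit 0) (p (nat_lit 0x160014) (nat_lit 0) (p (nat_lit 0x68612) (nat_lit 0) (p (nat_lit 0x50592) (nat_lit 0) (p (nat_lit 0x40512) (nat_lit 0) (p (nat_lit 0x50312) (nat_lit 0) (p (nat_lit 0x38292)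 (nat_lit 0) (p (nat_lit 0x28212) (nat_lit 0) (p (nat_lit 0x38112) (nat_lit 0) (p (nat_lit 0x20092) (nat_lit 0) (p (nat_lit 0x10012) (nat_lit 0) pn)))))))))))))))))))))))) :=
  Cl.node (nat_lit 0x89) (nat_lit 2) (by decide +kernel) (ClAll.succ (ClAll.succ ClAll.zero n258) n259)

def n285 : Cl (O (nat_lit 3)) (R (nat_lit 14353))
    (p (nat_lit 0x89) (nat_lit 1) (p (nat_lit 0x111) (nat_lit 1) (p (nat_lit 0xd1) (nat_lit 1) (p (nat_lit 0x81) (nat_lit 0) (p (nat_lit 0x41) (nat_lit 1) (p (nat_lit 0x8a0b0a89089a) (nat_lit 0) (p (nat_lit 0x98a8a08881a) (nat_lit 0) (p (nat_lit 0x89088988079a) (nat_lit 0) (p (nat_lit 0x8880907871a) (nat_lit 0) (p (nat_lit 0x80000800080887068a) (nat_lit 0) (p (nat_lit 0x8888068602) (nat_lit 0) (p (nat_lit 0x807860582) (nat_lit 0) (p (nat_lit 0x8607058502) (nat_lit 0) (p (nat_lit 0x586850482) (nat_lit 0) (p (nat_lit 0x160014) (nat_lit 0) (p (nat_lit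 0x68612) (nat_lit 0) (p (nat_lit 0x50592) (nat_lit 0) (p (nat_lit 0x40512) (nat_lit 0) (p (nat_lit 0x50312) (nat_lit 0) (p (nat_lit 0x38292) (nat_lit 0) (p (nat_lit 0x28212) (nat_lit 0) (p (nat_lit 0x38112) (nat_lit 0) (p (nat_lit 0x20092) (nat_lit 0) (p (nat_lit 0x10012) (nat_lit 0) pn)))))))))))))))))))))))) :=
  Cl.node (nat_lit 0xc9) (nat_lit 2) (by decide +kernel) (ClAll.succ (ClAll.succ ClAll.zero s591) n260)

def n286 : Cl (O (nat_lit 3)) (R (nat_lit 14353))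
    (p (nat_lit 0x101) (nat_lit 0) (p (nat_lit 0x119) (nat_lit 0) (p (nat_lit 0xc1) (nat_lit 0) (p (nat_lit 0x81) (nat_lit 1) (p (nat_lit 0x41) (nat_lit 1) (p (nat_lit 0x8a0b0a89089a) (nat_lit 0) (p (nat_lit 0x98a8a08881a) (nat_lit 0) (p (nat_lit 0x89088988079a) (nat_lit 0) (p (nat_lit 0x8880907871a) (nat_lit 0) (p (nat_lit 0x80000800080887068a) (nat_lit 0) (p (nat_lit 0x8888068602) (nat_lit 0) (p (nat_lit 0x807860582) (nat_lit 0) (p (nat_lit 0x8607058502) (nat_lit 0) (p (nat_lit 0x586850482) (nat_lit 0) (p (nat_lit 0x160014) (nat_lit 0) (p (nat_lit 0x68612) (nat_lit 0) (p (nat_lit 0x50592) (nat_lit 0) (p (nat_lit 0x40512) (nat_lit 0) (p (nat_lit 0x50312) (nat_lit 0) (p (nat_lit 0x38292) (nat_lit 0) (p (nat_lit 0x28212) (nat_lit 0) (p (nat_lit 0x38112) (nat_lit 0) (p (nat_lit 0x20092) (nat_lit 0) (p (nat_lit 0x10012) (nat_lit 0) pn)))))))))))))))))))))))) :=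
  Cl.node (nat_lit 0x109) (nat_lit 2) (by decide +kernel) (ClAll.succ (ClAll.succ ClAll.zero n261) n262)

def n287 : Cl (O (nat_lit 3)) (R (nat_lit 14353))
    (p (nat_lit 0x101) (nat_lit 1) (p (nat_lit 0x119) (nat_lit 0) (p (nat_lit 0xc1) (nat_lit 0) (p (nat_lit 0x81) (nat_lit 1) (p (nat_lit 0x41) (nat_lit 1) (p (nat_lit 0x8a0b0a89089a) (nat_lit 0) (p (nat_lit 0x98a8a08881a) (nat_lit 0) (p (nat_lit 0x89088988079a) (nat_lit 0) (p (nat_lit 0x8880907871a) (nat_lit 0) (p (nat_lit 0x80000800080887068a) (nat_lit 0) (p (nat_lit 0x8888068602) (nat_lit 0) (p (nat_lit 0x807860582) (nat_lit 0) (p (nat_lit 0x8607058502) (nat_lit 0) (p (nat_lit 0x586850482) (nat_lit 0) (p (nat_lit 0x160014) (nat_lit 0) (p (nat_lit 0x68612) (nat_lit 0) (p (nat_lit 0x50592) (nat_lit 0) (p (nat_lit 0x40512) (nat_lit 0) (p (nat_lit 0x50312) (nat_lit 0) (p (nat_lit 0x38292) (nat_lit 0) (p (nat_lit 0x28212)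 (nat_lit 0) (p (nat_lit 0x38112) (nat_lit 0) (p (nat_lit 0x20092) (nat_lit 0) (p (nat_lit 0x10012) (nat_lit 0) pn)))))))))))))))))))))))) :=
  Cl.node (nat_lit 0xc9) (nat_lit 2) (by decide +kernel) (ClAll.succ (ClAll.succ ClAll.zero n263) s716)

def n288 : Cl (O (nat_lit 3)) (R (nat_lit 14353))
    (p (nat_lit 0xc9) (nat_lit 0) (p (nat_lit 0x119) (nat_lit 1) (p (nat_lit 0xc1) (nat_lit 0) (p (nat_lit 0x81) (nat_lit 1) (p (nat_lit 0x41) (nat_lit 1) (p (nat_lit 0x8a0b0a89089a) (nat_lit 0) (p (nat_lit 0x98a8a08881a) (nat_lit 0) (p (nat_lit 0x89088988079a) (nat_lit 0) (p (nat_lit 0x8880907871a) (nat_lit 0) (p (nat_lit 0x80000800080887068a) (nat_lit 0) (p (nat_lit 0x8888068602) (nat_lit 0) (p (nat_lit 0x807860582) (nat_lit 0) (p (nat_lit 0x8607058502) (nat_lit 0) (p (nat_lit 0x586850482) (nat_lit 0) (p (nat_lit 0x160014) (nat_lit 0) (p (nat_lit 0x68612) (nat_lit 0) (p (nat_lit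 0x50592) (nat_lit 0) (p (nat_lit 0x40512) (nat_lit 0) (p (nat_lit 0x50312) (nat_lit 0) (p (nat_lit 0x38292) (nat_lit 0) (p (nat_lit 0x28212) (nat_lit 0) (p (nat_lit 0x38112) (nat_lit 0) (p (nat_lit 0x20092) (nat_lit 0) (p (nat_lit 0x10012) (nat_lit 0) pn)))))))))))))))))))))))) :=
  Cl.node (nat_lit 0xd1) (nat_lit 2) (by decide +kernel) (ClAll.succ (ClAll.succ ClAll.zero s717) n264)

def n289 : Cl (O (nat_lit 3)) (R (nat_lit 14353))
    (p (nat_lit 0xc9) (nat_lit 1) (p (nat_lit 0x119) (nat_lit 1) (p (nat_lit 0xc1) (nat_lit 0) (p (nat_lit 0x81) (nat_lit 1) (p (nat_lit 0x41) (nat_lit 1) (p (nat_lit 0x8a0b0a89089a) (nat_lit 0) (p (nat_lit 0x98a8a08881a) (nat_lit 0) (p (nat_lit 0x89088988079a) (nat_lit 0) (p (nat_lit 0x8880907871a) (nat_lit 0) (p (nat_lit 0x80000800080887068a) (nat_lit 0) (p (nat_lit 0x8888068602) (nat_lit 0) (p (nat_lit 0x807860582) (nat_lit 0) (p (nat_lit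 0x8607058502) (nat_lit 0) (p (nat_lit 0x586850482) (nat_lit 0) (p (nat_lit 0x160014) (nat_lit 0) (p (nat_lit 0x68612) (nat_lit 0) (p (nat_lit 0x50592) (nat_lit 0) (p (nat_lit 0x40512) (nat_lit 0) (p (nat_lit 0x50312) (nat_lit 0) (p (nat_lit 0x38292) (nat_lit 0) (p (nat_lit 0x28212) (nat_lit 0) (p (nat_lit 0x38112) (nat_lit 0) (p (nat_lit 0x20092) (nat_lit 0) (p (nat_lit 0x10012) (nat_lit 0) pn)))))))))))))))))))))))) :=
  Cl.node (nat_lit 0x109) (nat_lit 2) (by decide +kernel) (ClAll.succ (ClAll.succ ClAll.zero n265) s767)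

def n290 : Cl (O (nat_lit 3)) (R (nat_lit 14353))
    (p (nat_lit 0x109) (nat_lit 0) (p (nat_lit 0x101) (nat_lit 0) (p (nat_lit 0xc1) (nat_lit 1) (p (nat_lit 0x81) (nat_lit 1) (p (nat_lit 0x41) (nat_lit 1) (p (nat_lit 0x8a0b0a89089a) (nat_lit 0) (p (nat_lit 0x98a8a08881a) (nat_lit 0) (p (nat_lit 0x89088988079a) (nat_lit 0) (p (nat_lit 0x8880907871a) (nat_lit 0) (p (nat_lit 0x80000800080887068a) (nat_lit 0) (p (nat_lit 0x8888068602) (nat_lit 0) (p (nat_lit 0x807860582) (nat_lit 0) (p (nat_lit 0x8607058502) (nat_lit 0) (p (nat_lit 0x586850482) (nat_lit 0) (p (nat_lit 0x160014) (nat_lit 0) (p (nat_lit 0x68612) (nat_lit 0) (p (nat_lit 0x50592) (nat_lit 0) (p (nat_lit 0x40512) (nat_lit 0) (p (nat_lit 0x50312) (nat_lit 0) (p (nat_lit 0x38292) (nat_lit 0) (p (nat_lit 0x28212) (nat_lit 0) (p (nat_lit 0x38112) (nat_lit 0) (p (nat_lit 0x20092) (nat_lit 0) (p (nat_lit 0x10012) (nat_lit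 0) pn)))))))))))))))))))))))) :=
  Cl.node (nat_lit 0x111) (nat_lit 2) (by decide +kernel) (ClAll.succ (ClAll.succ ClAll.zero n266) s781)

def n291 : Cl (O (nat_lit 3)) (R (nat_lit 14353))
    (p (nat_lit 0x119) (nat_lit 0) (p (nat_lit 0xd1) (nat_lit 0) (p (nat_lit 0x89) (nat_lit 0) (p (nat_lit 0x41) (nat_lit 0) (p (nat_lit 0x8a0b0a89089a) (nat_lit 0) (p (nat_lit 0x98a8a08881a) (nat_lit 0) (p (nat_lit 0x89088988079a) (nat_lit 0) (p (nat_lit 0x8880907871a) (nat_lit 0) (p (nat_lit 0x80000800080887068a) (nat_lit 0) (p (nat_lit 0x8888068602) (nat_lit 0) (p (nat_lit 0x807860582) (nat_lit 0) (p (nat_lit 0x8607058502) (nat_lit 0) (p (nat_lit 0x586850482) (nat_lit 0) (p (nat_lit 0x160014) (nat_lit 0) (p (nat_lit 0x68612) (nat_lit 0) (p (nat_lit 0x50592) (nat_lit 0) (p (nat_lit 0x40512) (nat_lit 0) (p (nat_lit 0x50312) (nat_lit 0) (p (nat_lit 0x38292) (nat_lit 0) (p (nat_lit 0x28212)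 (nat_lit 0) (p (nat_lit 0x38112) (nat_lit 0) (p (nat_lit 0x20092) (nat_lit 0) (p (nat_lit 0x10012) (nat_lit 0) pn))))))))))))))))))))))) :=
  Cl.node (nat_lit 0x101) (nat_lit 2) (by decide +kernel) (ClAll.succ (ClAll.succ ClAll.zero n267) n268)

def n292 : Cl (O (nat_lit 3)) (R (nat_lit 14353))
    (p (nat_lit 0x119) (nat_lit 1) (p (nat_lit 0xd1) (nat_lit 0) (p (nat_lit 0x89) (nat_lit 0) (p (nat_lit 0x41) (nat_lit 0) (p (nat_lit 0x8a0b0a89089a) (nat_lit 0) (p (nat_lit 0x98a8a08881a) (nat_lit 0) (p (nat_lit 0x89088988079a) (nat_lit 0) (p (nat_lit 0x8880907871a) (nat_lit 0) (p (nat_lit 0x80000800080887068a) (nat_lit 0) (p (nat_lit 0x8888068602) (nat_lit 0) (p (nat_lit 0x807860582) (nat_lit 0) (p (nat_lit 0x8607058502) (nat_lit 0) (p (nat_lit 0x586850482) (nat_lit 0) (p (nat_lit 0x160014) (nat_lit 0) (p (nat_lit 0x68612) (nat_lit 0) (p (nat_lit 0x50592) (nat_lit 0) (p (nat_lit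 0x40512) (nat_lit 0) (p (nat_lit 0x50312) (nat_lit 0) (p (nat_lit 0x38292) (nat_lit 0) (p (nat_lit 0x28212) (nat_lit 0) (p (nat_lit 0x38112) (nat_lit 0) (p (nat_lit 0x20092) (nat_lit 0) (p (nat_lit 0x10012) (nat_lit 0) pn))))))))))))))))))))))) :=
  Cl.node (nat_lit 0xc1) (nat_lit 2) (by decide +kernel) (ClAll.succ (ClAll.succ ClAll.zero n269) n270)

def n293 : Cl (O (nat_lit 3)) (R (nat_lit 14353))
    (p (nat_lit 0x111) (nat_lit 0) (p (nat_lit 0xd1) (nat_lit 1) (p (nat_lit 0x89) (nat_lit 0) (p (nat_lit 0x41) (nat_lit 0) (p (nat_lit 0x8a0b0a89089a) (nat_lit 0) (p (nat_lit 0x98a8a08881a) (nat_lit 0) (p (nat_lit 0x89088988079a) (nat_lit 0) (p (nat_lit 0x8880907871a) (nat_lit 0) (p (nat_lit 0x80000800080887068a) (nat_lit 0) (p (nat_lit 0x8888068602) (nat_lit 0) (p (nat_lit 0x807860582) (nat_lit 0) (p (nat_lit 0x8607058502) (nat_lit 0) (p (nat_lit 0x586850482) (nat_lit 0) (p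 (nat_lit 0x160014) (nat_lit 0) (p (nat_lit 0x68612) (nat_lit 0) (p (nat_lit 0x50592) (nat_lit 0) (p (nat_lit 0x40512) (nat_lit 0) (p (nat_lit 0x50312) (nat_lit 0) (p (nat_lit 0x38292) (nat_lit 0) (p (nat_lit 0x28212) (nat_lit 0) (p (nat_lit 0x38112) (nat_lit 0) (p (nat_lit 0x20092) (nat_lit 0) (p (nat_lit 0x10012) (nat_lit 0) pn))))))))))))))))))))))) :=
  Cl.node (nat_lit 0x101) (nat_lit 2) (by decide +kernel) (ClAll.succ (ClAll.succ ClAll.zero n271) n272)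

def n294 : Cl (O (nat_lit 3)) (R (nat_lit 14353))
    (p (nat_lit 0x111) (nat_lit 1) (p (nat_lit 0xd1) (nat_lit 1) (p (nat_lit 0x89) (nat_lit 0) (p (nat_lit 0x41) (nat_lit 0) (p (nat_lit 0x8a0b0a89089a) (nat_lit 0) (p (nat_lit 0x98a8a08881a) (nat_lit 0) (p (nat_lit 0x89088988079a) (nat_lit 0) (p (nat_lit 0x8880907871a) (nat_lit 0) (p (nat_lit 0x80000800080887068a) (nat_lit 0) (p (nat_lit 0x8888068602) (nat_lit 0) (p (nat_lit 0x807860582) (nat_lit 0) (p (nat_lit 0x8607058502) (nat_lit 0) (p (nat_lit 0x586850482) (nat_lit 0) (p (nat_lit 0x160014) (nat_lit 0) (p (nat_lit 0x68612) (nat_lit 0) (p (nat_lit 0x50592) (nat_lit 0) (p (nat_lit 0x40512) (nat_lit 0) (p (nat_lit 0x50312) (nat_lit 0) (p (nat_lit 0x38292) (nat_lit 0) (p (nat_lit 0x28212) (nat_lit 0) (p (nat_lit 0x38112) (nat_lit 0) (p (nat_lit 0x20092) (nat_lit 0) (p (nat_lit 0x10012) (nat_lit 0) pn)))))))))))))))))))))))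 :=
  Cl.node (nat_lit 0x81) (nat_lit 2) (by decide +kernel) (ClAll.succ (ClAll.succ ClAll.zero s205) n273)

def n295 : Cl (O (nat_lit 3)) (R (nat_lit 14353))
    (p (nat_lit 0x119) (nat_lit 0) (p (nat_lit 0xc9) (nat_lit 0) (p (nat_lit 0x89) (nat_lit 1) (p (nat_lit 0x41) (nat_lit 0) (p (nat_lit 0x8a0b0a89089a) (nat_lit 0) (p (nat_lit 0x98a8a08881a) (nat_lit 0) (p (nat_lit 0x89088988079a) (nat_lit 0) (p (nat_lit 0x8880907871a) (nat_lit 0) (p (nat_lit 0x80000800080887068a) (nat_lit 0) (p (nat_lit 0x8888068602) (nat_lit 0) (p (nat_lit 0x807860582) (nat_lit 0) (p (nat_lit 0x8607058502) (nat_lit 0) (p (nat_lit 0x586850482) (nat_lit 0) (p (nat_lit 0x160014) (nat_lit 0) (p (nat_lit 0x68612) (nat_lit 0) (p (nat_lit 0x50592) (nat_lit 0) (p (nat_lit 0x40512) (nat_lit 0) (p (nat_lit 0x50312) (nat_lit 0) (p (nat_lit 0x38292) (nat_lit 0) (p (nat_lit 0x28212) (nat_lit 0) (p (nat_lit 0x38112)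 (nat_lit 0) (p (nat_lit 0x20092) (nat_lit 0) (p (nat_lit 0x10012) (nat_lit 0) pn))))))))))))))))))))))) :=
  Cl.node (nat_lit 0x101) (nat_lit 2) (by decide +kernel) (ClAll.succ (ClAll.succ ClAll.zero n274) n275)

def n296 : Cl (O (nat_lit 3)) (R (nat_lit 14353))
    (p (nat_lit 0x119) (nat_lit 1) (p (nat_lit 0xc9) (nat_lit 0) (p (nat_lit 0x89) (nat_lit 1) (p (nat_lit 0x41) (nat_lit 0) (p (nat_lit 0x8a0b0a89089a) (nat_lit 0) (p (nat_lit 0x98a8a08881a) (nat_lit 0) (p (nat_lit 0x89088988079a) (nat_lit 0) (p (nat_lit 0x8880907871a) (nat_lit 0) (p (nat_lit 0x80000800080887068a) (nat_lit 0) (p (nat_lit 0x8888068602) (nat_lit 0) (p (nat_lit 0x807860582) (nat_lit 0) (p (nat_lit 0x8607058502) (nat_lit 0) (p (nat_lit 0x586850482) (nat_lit 0) (p (nat_lit 0x160014) (nat_lit 0) (p (nat_lit 0x68612) (nat_lit 0) (p (nat_lit 0x50592) (nat_lit 0) (p (nat_lit 0x40512) (nat_lit 0) (p (nat_lit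 0x50312) (nat_lit 0) (p (nat_lit 0x38292) (nat_lit 0) (p (nat_lit 0x28212) (nat_lit 0) (p (nat_lit 0x38112) (nat_lit 0) (p (nat_lit 0x20092) (nat_lit 0) (p (nat_lit 0x10012) (nat_lit 0) pn))))))))))))))))))))))) :=
  Cl.node (nat_lit 0xc1) (nat_lit 2) (by decide +kernel) (ClAll.succ (ClAll.succ ClAll.zero n276) n277)

def n297 : Cl (O (nat_lit 3)) (R (nat_lit 14353))
    (p (nat_lit 0x109) (nat_lit 0) (p (nat_lit 0xc9) (nat_lit 1) (p (nat_lit 0x89) (nat_lit 1) (p (nat_lit 0x41) (nat_lit 0) (p (nat_lit 0x8a0b0a89089a) (nat_lit 0) (p (nat_lit 0x98a8a08881a) (nat_lit 0) (p (nat_lit 0x89088988079a) (nat_lit 0) (p (nat_lit 0x8880907871a) (nat_lit 0) (p (nat_lit 0x80000800080887068a) (nat_lit 0) (p (nat_lit 0x8888068602) (nat_lit 0) (p (nat_lit 0x807860582) (nat_lit 0) (p (nat_lit 0x8607058502) (nat_lit 0) (p (nat_lit 0x586850482) (nat_lit 0) (p (nat_lit 0x160014) (nat_lit 0)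 (p (nat_lit 0x68612) (nat_lit 0) (p (nat_lit 0x50592) (nat_lit 0) (p (nat_lit 0x40512) (nat_lit 0) (p (nat_lit 0x50312) (nat_lit 0) (p (nat_lit 0x38292) (nat_lit 0) (p (nat_lit 0x28212) (nat_lit 0) (p (nat_lit 0x38112) (nat_lit 0) (p (nat_lit 0x20092) (nat_lit 0) (p (nat_lit 0x10012) (nat_lit 0) pn))))))))))))))))))))))) :=
  Cl.node (nat_lit 0x101) (nat_lit 2) (by decide +kernel) (ClAll.succ (ClAll.succ ClAll.zero n278) s353)

def n298 : Cl (O (nat_lit 3)) (R (nat_lit 14353))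
    (p (nat_lit 0x119) (nat_lit 0) (p (nat_lit 0xd1) (nat_lit 0) (p (nat_lit 0x81) (nat_lit 0) (p (nat_lit 0x41) (nat_lit 1) (p (nat_lit 0x8a0b0a89089a) (nat_lit 0) (p (nat_lit 0x98a8a08881a) (nat_lit 0) (p (nat_lit 0x89088988079a) (nat_lit 0) (p (nat_lit 0x8880907871a) (nat_lit 0) (p (nat_lit 0x80000800080887068a) (nat_lit 0) (p (nat_lit 0x8888068602) (nat_lit 0) (p (nat_lit 0x807860582) (nat_lit 0) (p (nat_lit 0x8607058502) (nat_lit 0) (p (nat_lit 0x586850482) (nat_lit 0) (p (nat_lit 0x160014) (nat_lit 0) (p (nat_lit 0x68612) (nat_lit 0) (p (nat_lit 0x50592) (nat_lit 0) (p (nat_lit 0x40512) (nat_lit 0) (p (nat_lit 0x50312) (nat_lit 0) (p (nat_lit 0x38292) (nat_lit 0) (p (nat_lit 0x28212) (nat_lit 0) (p (nat_lit 0x38112) (nat_lit 0) (p (nat_lit 0x20092) (nat_lit 0) (p (nat_lit 0x10012) (nat_lit 0) pn))))))))))))))))))))))) :=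
  Cl.node (nat_lit 0x101) (nat_lit 2) (by decide +kernel) (ClAll.succ (ClAll.succ ClAll.zero n279) n280)

def n299 : Cl (O (nat_lit 3)) (R (nat_lit 14353))
    (p (nat_lit 0x119) (nat_lit 1) (p (nat_lit 0xd1) (nat_lit 0) (p (nat_lit 0x81) (nat_lit 0) (p (nat_lit 0x41) (nat_lit 1) (p (nat_lit 0x8a0b0a89089a) (nat_lit 0) (p (nat_lit 0x98a8a08881a) (nat_lit 0) (p (nat_lit 0x89088988079a) (nat_lit 0) (p (nat_lit 0x8880907871a) (nat_lit 0) (p (nat_lit 0x80000800080887068a) (nat_lit 0) (p (nat_lit 0x8888068602) (nat_lit 0) (p (nat_lit 0x807860582) (nat_lit 0) (p (nat_lit 0x8607058502) (nat_lit 0) (p (nat_lit 0x586850482) (nat_lit 0) (p (nat_lit 0x160014) (nat_lit 0) (p (nat_lit 0x68612) (nat_lit 0) (p (nat_lit 0x50592) (nat_lit 0) (p (nat_lit 0x40512) (nat_lit 0) (p (nat_lit 0x50312) (nat_lit 0) (p (nat_lit 0x38292) (nat_lit 0) (p (nat_lit 0x28212) (nat_lit 0) (p (nat_lit 0x38112)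 (nat_lit 0) (p (nat_lit 0x20092) (nat_lit 0) (p (nat_lit 0x10012) (nat_lit 0) pn))))))))))))))))))))))) :=
  Cl.node (nat_lit 0xc1) (nat_lit 2) (by decide +kernel) (ClAll.succ (ClAll.succ ClAll.zero n281) n282)

def n300 : Cl (O (nat_lit 3)) (R (nat_lit 14353))
    (p (nat_lit 0x111) (nat_lit 0) (p (nat_lit 0xd1) (nat_lit 1) (p (nat_lit 0x81) (nat_lit 0) (p (nat_lit 0x41) (nat_lit 1) (p (nat_lit 0x8a0b0a89089a) (nat_lit 0) (p (nat_lit 0x98a8a08881a) (nat_lit 0) (p (nat_lit 0x89088988079a) (nat_lit 0) (p (nat_lit 0x8880907871a) (nat_lit 0) (p (nat_lit 0x80000800080887068a) (nat_lit 0) (p (nat_lit 0x8888068602) (nat_lit 0) (p (nat_lit 0x807860582) (nat_lit 0) (p (nat_lit 0x8607058502) (nat_lit 0) (p (nat_lit 0x586850482) (nat_lit 0) (p (nat_lit 0x160014) (nat_lit 0) (p (nat_lit 0x68612) (nat_lit 0) (p (nat_lit 0x50592) (nat_lit 0) (p (nat_lit 0x40512) (nat_lit 0) (p (nat_lit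 0x50312) (nat_lit 0) (p (nat_lit 0x38292) (nat_lit 0) (p (nat_lit 0x28212) (nat_lit 0) (p (nat_lit 0x38112) (nat_lit 0) (p (nat_lit 0x20092) (nat_lit 0) (p (nat_lit 0x10012) (nat_lit 0) pn))))))))))))))))))))))) :=
  Cl.node (nat_lit 0x101) (nat_lit 2) (by decide +kernel) (ClAll.succ (ClAll.succ ClAll.zero n283) n284)

def n301 : Cl (O (nat_lit 3)) (R (nat_lit 14353))
    (p (nat_lit 0x111) (nat_lit 1) (p (nat_lit 0xd1) (nat_lit 1) (p (nat_lit 0x81) (nat_lit 0) (p (nat_lit 0x41) (nat_lit 1) (p (nat_lit 0x8a0b0a89089a) (nat_lit 0) (p (nat_lit 0x98a8a08881a) (nat_lit 0) (p (nat_lit 0x89088988079a) (nat_lit 0) (p (nat_lit 0x8880907871a) (nat_lit 0) (p (nat_lit 0x80000800080887068a) (nat_lit 0) (p (nat_lit 0x8888068602) (nat_lit 0) (p (nat_lit 0x807860582) (nat_lit 0) (p (nat_lit 0x8607058502) (nat_lit 0) (p (nat_lit 0x586850482) (nat_lit 0) (p (nat_lit 0x160014) (nat_lit 0)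 (p (nat_lit 0x68612) (nat_lit 0) (p (nat_lit 0x50592) (nat_lit 0) (p (nat_lit 0x40512) (nat_lit 0) (p (nat_lit 0x50312) (nat_lit 0) (p (nat_lit 0x38292) (nat_lit 0) (p (nat_lit 0x28212) (nat_lit 0) (p (nat_lit 0x38112) (nat_lit 0) (p (nat_lit 0x20092) (nat_lit 0) (p (nat_lit 0x10012) (nat_lit 0) pn))))))))))))))))))))))) :=
  Cl.node (nat_lit 0x89) (nat_lit 2) (by decide +kernel) (ClAll.succ (ClAll.succ ClAll.zero s590) n285)

def n302 : Cl (O (nat_lit 3)) (R (nat_lit 14353))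
    (p (nat_lit 0x119) (nat_lit 0) (p (nat_lit 0xc1) (nat_lit 0) (p (nat_lit 0x81) (nat_lit 1) (p (nat_lit 0x41) (nat_lit 1) (p (nat_lit 0x8a0b0a89089a) (nat_lit 0) (p (nat_lit 0x98a8a08881a) (nat_lit 0) (p (nat_lit 0x89088988079a) (nat_lit 0) (p (nat_lit 0x8880907871a) (nat_lit 0) (p (nat_lit 0x80000800080887068a) (nat_lit 0) (p (nat_lit 0x8888068602) (nat_lit 0) (p (nat_lit 0x807860582) (nat_lit 0) (p (nat_lit 0x8607058502) (nat_lit 0) (p (nat_lit 0x586850482) (nat_lit 0) (p (nat_lit 0x160014) (nat_lit 0) (p (nat_lit 0x68612) (nat_lit 0) (p (nat_lit 0x50592) (nat_lit 0) (p (nat_lit 0x40512) (nat_lit 0) (p (nat_lit 0x50312) (nat_lit 0) (p (nat_lit 0x38292) (nat_lit 0) (p (nat_lit 0x28212) (nat_lit 0) (p (nat_lit 0x38112) (nat_lit 0) (p (nat_lit 0x20092) (nat_lit 0) (p (nat_lit 0x10012) (nat_lit 0) pn))))))))))))))))))))))) :=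
  Cl.node (nat_lit 0x101) (nat_lit 2) (by decide +kernel) (ClAll.succ (ClAll.succ ClAll.zero n286) n287)

def n303 : Cl (O (nat_lit 3)) (R (nat_lit 14353))
    (p (nat_lit 0x119) (nat_lit 1) (p (nat_lit 0xc1) (nat_lit 0) (p (nat_lit 0x81) (nat_lit 1) (p (nat_lit 0x41) (nat_lit 1) (p (nat_lit 0x8a0b0a89089a) (nat_lit 0) (p (nat_lit 0x98a8a08881a) (nat_lit 0) (p (nat_lit 0x89088988079a) (nat_lit 0) (p (nat_lit 0x8880907871a) (nat_lit 0) (p (nat_lit 0x80000800080887068a) (nat_lit 0) (p (nat_lit 0x8888068602) (nat_lit 0) (p (nat_lit 0x807860582) (nat_lit 0) (p (nat_lit 0x8607058502) (nat_lit 0) (p (nat_lit 0x586850482) (nat_lit 0) (p (nat_lit 0x160014) (nat_lit 0) (p (nat_lit 0x68612) (nat_lit 0) (p (nat_lit 0x50592) (nat_lit 0) (p (nat_lit 0x40512) (nat_lit 0) (p (nat_lit 0x50312) (nat_lit 0) (p (nat_lit 0x38292) (nat_lit 0) (p (nat_lit 0x28212) (nat_lit 0) (p (nat_lit 0x38112)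 (nat_lit 0) (p (nat_lit 0x20092) (nat_lit 0) (p (nat_lit 0x10012) (nat_lit 0) pn))))))))))))))))))))))) :=
  Cl.node (nat_lit 0xc9) (nat_lit 2) (by decide +kernel) (ClAll.succ (ClAll.succ ClAll.zero n288) n289)

def n304 : Cl (O (nat_lit 3)) (R (nat_lit 14353))
    (p (nat_lit 0x101) (nat_lit 0) (p (nat_lit 0xc1) (nat_lit 1) (p (nat_lit 0x81) (nat_lit 1) (p (nat_lit 0x41) (nat_lit 1) (p (nat_lit 0x8a0b0a89089a) (nat_lit 0) (p (nat_lit 0x98a8a08881a) (nat_lit 0) (p (nat_lit 0x89088988079a) (nat_lit 0) (p (nat_lit 0x8880907871a) (nat_lit 0) (p (nat_lit 0x80000800080887068a) (nat_lit 0) (p (nat_lit 0x8888068602) (nat_lit 0) (p (nat_lit 0x807860582) (nat_lit 0) (p (nat_lit 0x8607058502) (nat_lit 0) (p (nat_lit 0x586850482) (nat_lit 0) (p (nat_lit 0x160014) (nat_lit 0) (p (nat_lit 0x68612) (nat_lit 0) (p (nat_lit 0x50592) (nat_lit 0) (p (nat_lit 0x40512) (nat_lit 0) (p (nat_lit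 0x50312) (nat_lit 0) (p (nat_lit 0x38292) (nat_lit 0) (p (nat_lit 0x28212) (nat_lit 0) (p (nat_lit 0x38112) (nat_lit 0) (p (nat_lit 0x20092) (nat_lit 0) (p (nat_lit 0x10012) (nat_lit 0) pn))))))))))))))))))))))) :=
  Cl.node (nat_lit 0x109) (nat_lit 2) (by decide +kernel) (ClAll.succ (ClAll.succ ClAll.zero n290) s782)

def n305 : Cl (O (nat_lit 3)) (R (nat_lit 14353))
    (p (nat_lit 0xd1) (nat_lit 0) (p (nat_lit 0x89) (nat_lit 0) (p (nat_lit 0x41) (nat_lit 0) (p (nat_lit 0x8a0b0a89089a) (nat_lit 0) (p (nat_lit 0x98a8a08881a) (nat_lit 0) (p (nat_lit 0x89088988079a) (nat_lit 0) (p (nat_lit 0x8880907871a) (nat_lit 0) (p (nat_lit 0x80000800080887068a) (nat_lit 0) (p (nat_lit 0x8888068602) (nat_lit 0) (p (nat_lit 0x807860582) (nat_lit 0) (p (nat_lit 0x8607058502) (nat_lit 0) (p (nat_lit 0x586850482) (nat_lit 0) (p (nat_lit 0x160014) (nat_lit 0) (p (nat_lit 0x68612) (nat_lit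 0) (p (nat_lit 0x50592) (nat_lit 0) (p (nat_lit 0x40512) (nat_lit 0) (p (nat_lit 0x50312) (nat_lit 0) (p (nat_lit 0x38292) (nat_lit 0) (p (nat_lit 0x28212) (nat_lit 0) (p (nat_lit 0x38112) (nat_lit 0) (p (nat_lit 0x20092) (nat_lit 0) (p (nat_lit 0x10012) (nat_lit 0) pn)))))))))))))))))))))) :=
  Cl.node (nat_lit 0x119) (nat_lit 2) (by decide +kernel) (ClAll.succ (ClAll.succ ClAll.zero n291) n292)

def n306 : Cl (O (nat_lit 3)) (R (nat_lit 14353))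
    (p (nat_lit 0xd1) (nat_lit 1) (p (nat_lit 0x89) (nat_lit 0) (p (nat_lit 0x41) (nat_lit 0) (p (nat_lit 0x8a0b0a89089a) (nat_lit 0) (p (nat_lit 0x98a8a08881a) (nat_lit 0) (p (nat_lit 0x89088988079a) (nat_lit 0) (p (nat_lit 0x8880907871a) (nat_lit 0) (p (nat_lit 0x80000800080887068a) (nat_lit 0) (p (nat_lit 0x8888068602) (nat_lit 0) (p (nat_lit 0x807860582) (nat_lit 0) (p (nat_lit 0x8607058502) (nat_lit 0) (p (nat_lit 0x586850482) (nat_lit 0) (p (nat_lit 0x160014) (nat_lit 0) (p (nat_lit 0x68612) (nat_lit 0) (p (nat_lit 0x50592) (nat_lit 0) (p (nat_lit 0x40512) (nat_lit 0) (p (nat_lit 0x50312) (nat_lit 0) (p (nat_lit 0x38292) (nat_lit 0) (p (nat_lit 0x28212) (nat_lit 0) (p (nat_lit 0x38112) (nat_lit 0) (p (nat_lit 0x20092) (nat_lit 0) (p (nat_lit 0x10012) (nat_lit 0) pn)))))))))))))))))))))) :=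
  Cl.node (nat_lit 0x111) (nat_lit 2) (by decide +kernel) (ClAll.succ (ClAll.succ ClAll.zero n293) n294)

def n307 : Cl (O (nat_lit 3)) (R (nat_lit 14353))
    (p (nat_lit 0xc9) (nat_lit 0) (p (nat_lit 0x89) (nat_lit 1) (p (nat_lit 0x41) (nat_lit 0) (p (nat_lit 0x8a0b0a89089a) (nat_lit 0) (p (nat_lit 0x98a8a08881a) (nat_lit 0) (p (nat_lit 0x89088988079a) (nat_lit 0) (p (nat_lit 0x8880907871a) (nat_lit 0) (p (nat_lit 0x80000800080887068a) (nat_lit 0) (p (nat_lit 0x8888068602) (nat_lit 0) (p (nat_lit 0x807860582) (nat_lit 0) (p (nat_lit 0x8607058502) (nat_lit 0) (p (nat_lit 0x586850482) (nat_lit 0) (p (nat_lit 0x160014) (nat_lit 0) (p (nat_lit 0x68612) (nat_lit 0) (p (nat_lit 0x50592) (nat_lit 0) (p (nat_lit 0x40512) (nat_lit 0) (p (nat_lit 0x50312) (nat_lit 0) (p (nat_lit 0x38292) (nat_lit 0) (p (nat_lit 0x28212) (nat_lit 0) (p (nat_lit 0x38112) (nat_lit 0) (p (nat_lit 0x20092)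 (nat_lit 0) (p (nat_lit 0x10012) (nat_lit 0) pn)))))))))))))))))))))) :=
  Cl.node (nat_lit 0x119) (nat_lit 2) (by decide +kernel) (ClAll.succ (ClAll.succ ClAll.zero n295) n296)

def n308 : Cl (O (nat_lit 3)) (R (nat_lit 14353))
    (p (nat_lit 0xc9) (nat_lit 1) (p (nat_lit 0x89) (nat_lit 1) (p (nat_lit 0x41) (nat_lit 0) (p (nat_lit 0x8a0b0a89089a) (nat_lit 0) (p (nat_lit 0x98a8a08881a) (nat_lit 0) (p (nat_lit 0x89088988079a) (nat_lit 0) (p (nat_lit 0x8880907871a) (nat_lit 0) (p (nat_lit 0x80000800080887068a) (nat_lit 0) (p (nat_lit 0x8888068602) (nat_lit 0) (p (nat_lit 0x807860582) (nat_lit 0) (p (nat_lit 0x8607058502) (nat_lit 0) (p (nat_lit 0x586850482) (nat_lit 0) (p (nat_lit 0x160014) (nat_lit 0) (p (nat_lit 0x68612) (nat_lit 0) (p (nat_lit 0x50592) (nat_lit 0) (p (nat_lit 0x40512) (nat_lit 0) (p (nat_lit 0x50312) (nat_lit 0) (p (nat_lit 0x38292) (nat_lit 0) (p (nat_lit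 0x28212) (nat_lit 0) (p (nat_lit 0x38112) (nat_lit 0) (p (nat_lit 0x20092) (nat_lit 0) (p (nat_lit 0x10012) (nat_lit 0) pn)))))))))))))))))))))) :=
  Cl.node (nat_lit 0x109) (nat_lit 2) (by decide +kernel) (ClAll.succ (ClAll.succ ClAll.zero n297) s354)

def n309 : Cl (O (nat_lit 3)) (R (nat_lit 14353))
    (p (nat_lit 0xd1) (nat_lit 0) (p (nat_lit 0x81) (nat_lit 0) (p (nat_lit 0x41) (nat_lit 1) (p (nat_lit 0x8a0b0a89089a) (nat_lit 0) (p (nat_lit 0x98a8a08881a) (nat_lit 0) (p (nat_lit 0x89088988079a) (nat_lit 0) (p (nat_lit 0x8880907871a) (nat_lit 0) (p (nat_lit 0x80000800080887068a) (nat_lit 0) (p (nat_lit 0x8888068602) (nat_lit 0) (p (nat_lit 0x807860582) (nat_lit 0) (p (nat_lit 0x8607058502) (nat_lit 0) (p (nat_lit 0x586850482) (nat_lit 0) (p (nat_lit 0x160014) (nat_lit 0) (p (nat_lit 0x68612) (nat_lit 0) (p (nat_lit 0x50592) (nat_lit 0) (p (nat_lit 0x40512) (nat_lit 0)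 (p (nat_lit 0x50312) (nat_lit 0) (p (nat_lit 0x38292) (nat_lit 0) (p (nat_lit 0x28212) (nat_lit 0) (p (nat_lit 0x38112) (nat_lit 0) (p (nat_lit 0x20092) (nat_lit 0) (p (nat_lit 0x10012) (nat_lit 0) pn)))))))))))))))))))))) :=
  Cl.node (nat_lit 0x119) (nat_lit 2) (by decide +kernel) (ClAll.succ (ClAll.succ ClAll.zero n298) n299)

def n310 : Cl (O (nat_lit 3)) (R (nat_lit 14353))
    (p (nat_lit 0xd1) (nat_lit 1) (p (nat_lit 0x81) (nat_lit 0) (p (nat_lit 0x41) (nat_lit 1) (p (nat_lit 0x8a0b0a89089a) (nat_lit 0) (p (nat_lit 0x98a8a08881a) (nat_lit 0) (p (nat_lit 0x89088988079a) (nat_lit 0) (p (nat_lit 0x8880907871a) (nat_lit 0) (p (nat_lit 0x80000800080887068a) (nat_lit 0) (p (nat_lit 0x8888068602) (nat_lit 0) (p (nat_lit 0x807860582) (nat_lit 0) (p (nat_lit 0x8607058502) (nat_lit 0) (p (nat_lit 0x586850482) (nat_lit 0) (p (nat_lit 0x160014) (nat_lit 0) (p (nat_lit 0x68612)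 (nat_lit 0) (p (nat_lit 0x50592) (nat_lit 0) (p (nat_lit 0x40512) (nat_lit 0) (p (nat_lit 0x50312) (nat_lit 0) (p (nat_lit 0x38292) (nat_lit 0) (p (nat_lit 0x28212) (nat_lit 0) (p (nat_lit 0x38112) (nat_lit 0) (p (nat_lit 0x20092) (nat_lit 0) (p (nat_lit 0x10012) (nat_lit 0) pn)))))))))))))))))))))) :=
  Cl.node (nat_lit 0x111) (nat_lit 2) (by decide +kernel) (ClAll.succ (ClAll.succ ClAll.zero n300) n301)

def n311 : Cl (O (nat_lit 3)) (R (nat_lit 14353))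
    (p (nat_lit 0xc1) (nat_lit 0) (p (nat_lit 0x81) (nat_lit 1) (p (nat_lit 0x41) (nat_lit 1) (p (nat_lit 0x8a0b0a89089a) (nat_lit 0) (p (nat_lit 0x98a8a08881a) (nat_lit 0) (p (nat_lit 0x89088988079a) (nat_lit 0) (p (nat_lit 0x8880907871a) (nat_lit 0) (p (nat_lit 0x80000800080887068a) (nat_lit 0) (p (nat_lit 0x8888068602) (nat_lit 0) (p (nat_lit 0x807860582) (nat_lit 0) (p (nat_lit 0x8607058502) (nat_lit 0) (p (nat_lit 0x586850482) (nat_lit 0) (p (nat_lit 0x160014) (nat_lit 0) (p (nat_lit 0x68612) (nat_lit 0) (p (nat_lit 0x50592) (nat_lit 0) (p (nat_lit 0x40512) (nat_lit 0) (p (nat_lit 0x50312) (nat_lit 0) (p (nat_lit 0x38292) (nat_lit 0) (p (nat_lit 0x28212) (nat_lit 0) (p (nat_lit 0x38112) (nat_lit 0) (p (nat_lit 0x20092) (nat_lit 0) (p (nat_lit 0x10012) (nat_lit 0) pn)))))))))))))))))))))) :=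
  Cl.node (nat_lit 0x119) (nat_lit 2) (by decide +kernel) (ClAll.succ (ClAll.succ ClAll.zero n302) n303)

def n312 : Cl (O (nat_lit 3)) (R (nat_lit 14353))
    (p (nat_lit 0xc1) (nat_lit 1) (p (nat_lit 0x81) (nat_lit 1) (p (nat_lit 0x41) (nat_lit 1) (p (nat_lit 0x8a0b0a89089a) (nat_lit 0) (p (nat_lit 0x98a8a08881a) (nat_lit 0) (p (nat_lit 0x89088988079a) (nat_lit 0) (p (nat_lit 0x8880907871a) (nat_lit 0) (p (nat_lit 0x80000800080887068a) (nat_lit 0) (p (nat_lit 0x8888068602) (nat_lit 0) (p (nat_lit 0x807860582) (nat_lit 0) (p (nat_lit 0x8607058502) (nat_lit 0) (p (nat_lit 0x586850482) (nat_lit 0) (p (nat_lit 0x160014) (nat_lit 0) (p (nat_lit 0x68612) (nat_lit 0) (p (nat_lit 0x50592) (nat_lit 0) (p (nat_lit 0x40512) (nat_lit 0) (p (nat_lit 0x50312) (nat_lit 0) (p (nat_lit 0x38292) (nat_lit 0) (p (nat_lit 0x28212) (nat_lit 0) (p (nat_lit 0x38112) (nat_lit 0) (p (nat_lit 0x20092)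 (nat_lit 0) (p (nat_lit 0x10012) (nat_lit 0) pn)))))))))))))))))))))) :=
  Cl.node (nat_lit 0x101) (nat_lit 2) (by decide +kernel) (ClAll.succ (ClAll.succ ClAll.zero n304) s783)

def n313 : Cl (O (nat_lit 3)) (R (nat_lit 14353))
    (p (nat_lit 0x89) (nat_lit 0) (p (nat_lit 0x41) (nat_lit 0) (p (nat_lit 0x8a0b0a89089a) (nat_lit 0) (p (nat_lit 0x98a8a08881a) (nat_lit 0) (p (nat_lit 0x89088988079a) (nat_lit 0) (p (nat_lit 0x8880907871a) (nat_lit 0) (p (nat_lit 0x80000800080887068a) (nat_lit 0) (p (nat_lit 0x8888068602) (nat_lit 0) (p (nat_lit 0x807860582) (nat_lit 0) (p (nat_lit 0x8607058502) (nat_lit 0) (p (nat_lit 0x586850482) (nat_lit 0) (p (nat_lit 0x160014) (nat_lit 0) (p (nat_lit 0x68612) (nat_lit 0) (p (nat_lit 0x50592) (nat_lit 0) (p (nat_lit 0x40512) (nat_lit 0) (p (nat_lit 0x50312) (nat_lit 0) (p (nat_lit 0x38292) (nat_lit 0) (p (nat_lit 0x28212) (nat_lit 0) (p (nat_lit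 0x38112) (nat_lit 0) (p (nat_lit 0x20092) (nat_lit 0) (p (nat_lit 0x10012) (nat_lit 0) pn))))))))))))))))))))) :=
  Cl.node (nat_lit 0xd1) (nat_lit 2) (by decide +kernel) (ClAll.succ (ClAll.succ ClAll.zero n305) n306)

def n314 : Cl (O (nat_lit 3)) (R (nat_lit 14353))
    (p (nat_lit 0x89) (nat_lit 1) (p (nat_lit 0x41) (nat_lit 0) (p (nat_lit 0x8a0b0a89089a) (nat_lit 0) (p (nat_lit 0x98a8a08881a) (nat_lit 0) (p (nat_lit 0x89088988079a) (nat_lit 0) (p (nat_lit 0x8880907871a) (nat_lit 0) (p (nat_lit 0x80000800080887068a) (nat_lit 0) (p (nat_lit 0x8888068602) (nat_lit 0) (p (nat_lit 0x807860582) (nat_lit 0) (p (nat_lit 0x8607058502) (nat_lit 0) (p (nat_lit 0x586850482) (nat_lit 0) (p (nat_lit 0x160014) (nat_lit 0) (p (nat_lit 0x68612) (nat_lit 0) (p (nat_lit 0x50592) (nat_lit 0) (p (nat_lit 0x40512) (nat_lit 0) (p (nat_lit 0x50312) (nat_lit 0) (p (nat_lit 0x38292) (nat_lit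 0) (p (nat_lit 0x28212) (nat_lit 0) (p (nat_lit 0x38112) (nat_lit 0) (p (nat_lit 0x20092) (nat_lit 0) (p (nat_lit 0x10012) (nat_lit 0) pn))))))))))))))))))))) :=
  Cl.node (nat_lit 0xc9) (nat_lit 2) (by decide +kernel) (ClAll.succ (ClAll.succ ClAll.zero n307) n308)

def n315 : Cl (O (nat_lit 3)) (R (nat_lit 14353))
    (p (nat_lit 0x81) (nat_lit 0) (p (nat_lit 0x41) (nat_lit 1) (p (nat_lit 0x8a0b0a89089a) (nat_lit 0) (p (nat_lit 0x98a8a08881a) (nat_lit 0) (p (nat_lit 0x89088988079a) (nat_lit 0) (p (nat_lit 0x8880907871a) (nat_lit 0) (p (nat_lit 0x80000800080887068a) (nat_lit 0) (p (nat_lit 0x8888068602) (nat_lit 0) (p (nat_lit 0x807860582) (nat_lit 0) (p (nat_lit 0x8607058502) (nat_lit 0) (p (nat_lit 0x586850482) (nat_lit 0) (p (nat_lit 0x160014) (nat_lit 0) (p (nat_lit 0x68612) (nat_lit 0) (p (nat_lit 0x50592) (nat_lit 0) (p (nat_lit 0x40512) (nat_lit 0) (p (nat_lit 0x50312)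 (nat_lit 0) (p (nat_lit 0x38292) (nat_lit 0) (p (nat_lit 0x28212) (nat_lit 0) (p (nat_lit 0x38112) (nat_lit 0) (p (nat_lit 0x20092) (nat_lit 0) (p (nat_lit 0x10012) (nat_lit 0) pn))))))))))))))))))))) :=
  Cl.node (nat_lit 0xd1) (nat_lit 2) (by decide +kernel) (ClAll.succ (ClAll.succ ClAll.zero n309) n310)

def n316 : Cl (O (nat_lit 3)) (R (nat_lit 14353))
    (p (nat_lit 0x81) (nat_lit 1) (p (nat_lit 0x41) (nat_lit 1) (p (nat_lit 0x8a0b0a89089a) (nat_lit 0) (p (nat_lit 0x98a8a08881a) (nat_lit 0) (p (nat_lit 0x89088988079a) (nat_lit 0) (p (nat_lit 0x8880907871a) (nat_lit 0) (p (nat_lit 0x80000800080887068a) (nat_lit 0) (p (nat_lit 0x8888068602) (nat_lit 0) (p (nat_lit 0x807860582) (nat_lit 0) (p (nat_lit 0x8607058502) (nat_lit 0) (p (nat_lit 0x586850482) (nat_lit 0) (p (nat_lit 0x160014) (nat_lit 0) (p (nat_lit 0x68612) (nat_lit 0) (p (nat_lit 0x50592) (nat_lit 0) (p (nat_lit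 0x40512) (nat_lit 0) (p (nat_lit 0x50312) (nat_lit 0) (p (nat_lit 0x38292) (nat_lit 0) (p (nat_lit 0x28212) (nat_lit 0) (p (nat_lit 0x38112) (nat_lit 0) (p (nat_lit 0x20092) (nat_lit 0) (p (nat_lit 0x10012) (nat_lit 0) pn))))))))))))))))))))) :=
  Cl.node (nat_lit 0xc1) (nat_lit 2) (by decide +kernel) (ClAll.succ (ClAll.succ ClAll.zero n311) n312)

def n317 : Cl (O (nat_lit 3)) (R (nat_lit 14353))
    (p (nat_lit 0x41) (nat_lit 0) (p (nat_lit 0x8a0b0a89089a) (nat_lit 0) (p (nat_lit 0x98a8a08881a) (nat_lit 0) (p (nat_lit 0x89088988079a) (nat_lit 0) (p (nat_lit 0x8880907871a) (nat_lit 0) (p (nat_lit 0x80000800080887068a) (nat_lit 0) (p (nat_lit 0x8888068602) (nat_lit 0) (p (nat_lit 0x807860582) (nat_lit 0) (p (nat_lit 0x8607058502) (nat_lit 0) (p (nat_lit 0x586850482) (nat_lit 0) (p (nat_lit 0x160014) (nat_lit 0) (p (nat_lit 0x68612) (nat_lit 0) (p (nat_lit 0x50592) (nat_lit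 0) (p (nat_lit 0x40512) (nat_lit 0) (p (nat_lit 0x50312) (nat_lit 0) (p (nat_lit 0x38292) (nat_lit 0) (p (nat_lit 0x28212) (nat_lit 0) (p (nat_lit 0x38112) (nat_lit 0) (p (nat_lit 0x20092) (nat_lit 0) (p (nat_lit 0x10012) (nat_lit 0) pn)))))))))))))))))))) :=
  Cl.node (nat_lit 0x89) (nat_lit 2) (by decide +kernel) (ClAll.succ (ClAll.succ ClAll.zero n313) n314)

def n318 : Cl (O (nat_lit 3)) (R (nat_lit 14353))
    (p (nat_lit 0x41) (nat_lit 1) (p (nat_lit 0x8a0b0a89089a) (nat_lit 0) (p (nat_lit 0x98a8a08881a) (nat_lit 0) (p (nat_lit 0x89088988079a) (nat_lit 0) (p (nat_lit 0x8880907871a) (nat_lit 0) (p (nat_lit 0x80000800080887068a) (nat_lit 0) (p (nat_lit 0x8888068602) (nat_lit 0) (p (nat_lit 0x807860582) (nat_lit 0) (p (nat_lit 0x8607058502) (nat_lit 0) (p (nat_lit 0x586850482) (nat_lit 0) (p (nat_lit 0x160014) (nat_lit 0) (p (nat_lit 0x68612) (nat_lit 0) (p (nat_lit 0x50592)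 (nat_lit 0) (p (nat_lit 0x40512) (nat_lit 0) (p (nat_lit 0x50312) (nat_lit 0) (p (nat_lit 0x38292) (nat_lit 0) (p (nat_lit 0x28212) (nat_lit 0) (p (nat_lit 0x38112) (nat_lit 0) (p (nat_lit 0x20092) (nat_lit 0) (p (nat_lit 0x10012) (nat_lit 0) pn)))))))))))))))))))) :=
  Cl.node (nat_lit 0x81) (nat_lit 2) (by decide +kernel) (ClAll.succ (ClAll.succ ClAll.zero n315) n316)

def n319 : Cl (O (nat_lit 3)) (R (nat_lit 14353))
    (p (nat_lit 0x8a0b0a89089a) (nat_lit 0) (p (nat_lit 0x98a8a08881a) (nat_lit 0) (p (nat_lit 0x89088988079a) (nat_lit 0) (p (nat_lit 0x8880907871a) (nat_lit 0) (p (nat_lit 0x80000800080887068a) (nat_lit 0) (p (nat_lit 0x8888068602) (nat_lit 0) (p (nat_lit 0x807860582) (nat_lit 0) (p (nat_lit 0x8607058502) (nat_lit 0) (p (nat_lit 0x586850482) (nat_lit 0) (p (nat_lit 0x160014) (nat_lit 0) (p (nat_lit 0x68612) (nat_lit 0) (p (nat_lit 0x50592) (nat_lit 0) (p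 (nat_lit 0x40512) (nat_lit 0) (p (nat_lit 0x50312) (nat_lit 0) (p (nat_lit 0x38292) (nat_lit 0) (p (nat_lit 0x28212) (nat_lit 0) (p (nat_lit 0x38112) (nat_lit 0) (p (nat_lit 0x20092) (nat_lit 0) (p (nat_lit 0x10012) (nat_lit 0) pn))))))))))))))))))) :=
  Cl.node (nat_lit 0x41) (nat_lit 2) (by decide +kernel) (ClAll.succ (ClAll.succ ClAll.zero n317) n318)

def n320 : Cl (O (nat_lit 3)) (R (nat_lit 14353))
    (p (nat_lit 0x98a8a08881a) (nat_lit 0) (p (nat_lit 0x89088988079a) (nat_lit 0) (p (nat_lit 0x8880907871a) (nat_lit 0) (p (nat_lit 0x80000800080887068a) (nat_lit 0) (p (nat_lit 0x8888068602) (nat_lit 0) (p (nat_lit 0x807860582) (nat_lit 0) (p (nat_lit 0x8607058502) (nat_lit 0) (p (nat_lit 0x586850482) (nat_lit 0) (p (nat_lit 0x160014) (nat_lit 0) (p (nat_lit 0x68612) (nat_lit 0) (p (nat_lit 0x50592) (nat_lit 0) (p (nat_lit 0x40512) (nat_lit 0) (p (nat_lit 0x50312) (nat_lit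 0) (p (nat_lit 0x38292) (nat_lit 0) (p (nat_lit 0x28212) (nat_lit 0) (p (nat_lit 0x38112) (nat_lit 0) (p (nat_lit 0x20092) (nat_lit 0) (p (nat_lit 0x10012) (nat_lit 0) pn)))))))))))))))))) :=
  Cl.node (nat_lit 0x8a0b0a89089a) (nat_lit 1) (by decide +kernel) (ClAll.succ ClAll.zero n319)

def n321 : Cl (O (nat_lit 3)) (R (nat_lit 14353))
    (p (nat_lit 0x89088988079a) (nat_lit 0) (p (nat_lit 0x8880907871a) (nat_lit 0) (p (nat_lit 0x80000800080887068a) (nat_lit 0) (p (nat_lit 0x8888068602) (nat_lit 0) (p (nat_lit 0x807860582) (nat_lit 0) (p (nat_lit 0x8607058502) (nat_lit 0) (p (nat_lit 0x586850482) (nat_lit 0) (p (nat_lit 0x160014) (nat_lit 0) (p (nat_lit 0x68612) (nat_lit 0) (p (nat_lit 0x50592) (nat_lit 0) (p (nat_lit 0x40512) (nat_lit 0) (p (nat_lit 0x50312) (nat_lit 0) (p (nat_lit 0x38292) (nat_lit 0) (p (nat_lit 0x28212) (nat_lit 0) (p (nat_lit 0x38112) (nat_lit 0)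 (p (nat_lit 0x20092) (nat_lit 0) (p (nat_lit 0x10012) (nat_lit 0) pn))))))))))))))))) :=
  Cl.node (nat_lit 0x98a8a08881a) (nat_lit 1) (by decide +kernel) (ClAll.succ ClAll.zero n320)

def n322 : Cl (O (nat_lit 3)) (R (nat_lit 14353))
    (p (nat_lit 0x8880907871a) (nat_lit 0) (p (nat_lit 0x80000800080887068a) (nat_lit 0) (p (nat_lit 0x8888068602) (nat_lit 0) (p (nat_lit 0x807860582) (nat_lit 0) (p (nat_lit 0x8607058502) (nat_lit 0) (p (nat_lit 0x586850482) (nat_lit 0) (p (nat_lit 0x160014) (nat_lit 0) (p (nat_lit 0x68612) (nat_lit 0) (p (nat_lit 0x50592) (nat_lit 0) (p (nat_lit 0x40512) (nat_lit 0) (p (nat_lit 0x50312) (nat_lit 0) (p (nat_lit 0x38292) (nat_lit 0) (p (nat_lit 0x28212) (nat_lit 0) (p (nat_lit 0x38112) (nat_lit 0) (p (nat_lit 0x20092) (nat_lit 0) (p (nat_lit 0x10012) (nat_lit 0) pn)))))))))))))))) :=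
  Cl.node (nat_lit 0x89088988079a) (nat_lit 1) (by decide +kernel) (ClAll.succ ClAll.zero n321)

def n323 : Cl (O (nat_lit 3)) (R (nat_lit 14353))
    (p (nat_lit 0x80000800080887068a) (nat_lit 0) (p (nat_lit 0x8888068602) (nat_lit 0) (p (nat_lit 0x807860582) (nat_lit 0) (p (nat_lit 0x8607058502) (nat_lit 0) (p (nat_lit 0x586850482) (nat_lit 0) (p (nat_lit 0x160014) (nat_lit 0) (p (nat_lit 0x68612) (nat_lit 0) (p (nat_lit 0x50592) (nat_lit 0) (p (nat_lit 0x40512) (nat_lit 0) (p (nat_lit 0x50312) (nat_lit 0) (p (nat_lit 0x38292) (nat_lit 0) (p (nat_lit 0x28212) (nat_lit 0) (p (nat_lit 0x38112) (nat_lit 0) (p (nat_lit 0x20092) (nat_lit 0) (p (nat_lit 0x10012) (nat_lit 0) pn))))))))))))))) :=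
  Cl.node (nat_lit 0x8880907871a) (nat_lit 1) (by decide +kernel) (ClAll.succ ClAll.zero n322)

def n324 : Cl (O (nat_lit 3)) (R (nat_lit 14353))
    (p (nat_lit 0x8888068602) (nat_lit 0) (p (nat_lit 0x807860582) (nat_lit 0) (p (nat_lit 0x8607058502) (nat_lit 0) (p (nat_lit 0x586850482) (nat_lit 0) (p (nat_lit 0x160014) (nat_lit 0) (p (nat_lit 0x68612) (nat_lit 0) (p (nat_lit 0x50592) (nat_lit 0) (p (nat_lit 0x40512) (nat_lit 0) (p (nat_lit 0x50312) (nat_lit 0) (p (nat_lit 0x38292) (nat_lit 0) (p (nat_lit 0x28212) (nat_lit 0) (p (nat_lit 0x38112) (nat_lit 0) (p (nat_lit 0x20092) (nat_lit 0) (p (nat_lit 0x10012) (nat_lit 0) pn)))))))))))))) :=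
  Cl.node (nat_lit 0x80000800080887068a) (nat_lit 1) (by decide +kernel) (ClAll.succ ClAll.zero n323)

def n325 : Cl (O (nat_lit 3)) (R (nat_lit 14353))
    (p (nat_lit 0x807860582) (nat_lit 0) (p (nat_lit 0x8607058502) (nat_lit 0) (p (nat_lit 0x586850482) (nat_lit 0) (p (nat_lit 0x160014) (nat_lit 0) (p (nat_lit 0x68612) (nat_lit 0) (p (nat_lit 0x50592) (nat_lit 0) (p (nat_lit 0x40512) (nat_lit 0) (p (nat_lit 0x50312) (nat_lit 0) (p (nat_lit 0x38292) (nat_lit 0) (p (nat_lit 0x28212) (nat_lit 0) (p (nat_lit 0x38112) (nat_lit 0) (p (nat_lit 0x20092) (nat_lit 0) (p (nat_lit 0x10012) (nat_lit 0) pn))))))))))))) :=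
  Cl.node (nat_lit 0x8888068602) (nat_lit 1) (by decide +kernel) (ClAll.succ ClAll.zero n324)

def n326 : Cl (O (nat_lit 3)) (R (nat_lit 14353))
    (p (nat_lit 0x8607058502) (nat_lit 0) (p (nat_lit 0x586850482) (nat_lit 0) (p (nat_lit 0x160014) (nat_lit 0) (p (nat_lit 0x68612) (nat_lit 0) (p (nat_lit 0x50592) (nat_lit 0) (p (nat_lit 0x40512) (nat_lit 0) (p (nat_lit 0x50312) (nat_lit 0) (p (nat_lit 0x38292) (nat_lit 0) (p (nat_lit 0x28212) (nat_lit 0) (p (nat_lit 0x38112) (nat_lit 0) (p (nat_lit 0x20092) (nat_lit 0) (p (nat_lit 0x10012) (nat_lit 0) pn)))))))))))) :=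
  Cl.node (nat_lit 0x807860582) (nat_lit 1) (by decide +kernel) (ClAll.succ ClAll.zero n325)

def n327 : Cl (O (nat_lit 3)) (R (nat_lit 14353))
    (p (nat_lit 0x586850482) (nat_lit 0) (p (nat_lit 0x160014) (nat_lit 0) (p (nat_lit 0x68612) (nat_lit 0) (p (nat_lit 0x50592) (nat_lit 0) (p (nat_lit 0x40512) (nat_lit 0) (p (nat_lit 0x50312) (nat_lit 0) (p (nat_lit 0x38292) (nat_lit 0) (p (nat_lit 0x28212) (nat_lit 0) (p (nat_lit 0x38112) (nat_lit 0) (p (nat_lit 0x20092) (nat_lit 0) (p (nat_lit 0x10012) (nat_lit 0) pn))))))))))) :=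
  Cl.node (nat_lit 0x8607058502) (nat_lit 1) (by decide +kernel) (ClAll.succ ClAll.zero n326)

def n328 : Cl (O (nat_lit 3)) (R (nat_lit 14353))
    (p (nat_lit 0x160014) (nat_lit 0) (p (nat_lit 0x68612) (nat_lit 0) (p (nat_lit 0x50592) (nat_lit 0) (p (nat_lit 0x40512) (nat_lit 0) (p (nat_lit 0x50312) (nat_lit 0) (p (nat_lit 0x38292) (nat_lit 0) (p (nat_lit 0x28212) (nat_lit 0) (p (nat_lit 0x38112) (nat_lit 0) (p (nat_lit 0x20092) (nat_lit 0) (p (nat_lit 0x10012) (nat_lit 0) pn)))))))))) :=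
  Cl.node (nat_lit 0x586850482) (nat_lit 1) (by decide +kernel) (ClAll.succ ClAll.zero n327)

def n329 : Cl (O (nat_lit 3)) (R (nat_lit 14353))
    (p (nat_lit 0x68612) (nat_lit 0) (p (nat_lit 0x50592) (nat_lit 0) (p (nat_lit 0x40512) (nat_lit 0) (p (nat_lit 0x50312) (nat_lit 0) (p (nat_lit 0x38292) (nat_lit 0) (p (nat_lit 0x28212) (nat_lit 0) (p (nat_lit 0x38112) (nat_lit 0) (p (nat_lit 0x20092) (nat_lit 0) (p (nat_lit 0x10012) (nat_lit 0) pn))))))))) :=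
  Cl.node (nat_lit 0x160014) (nat_lit 2) (by decide +kernel) (ClAll.succ (ClAll.succ ClAll.zero n328) s784)

def n330 : Cl (O (nat_lit 3)) (R (nat_lit 14353))
    (p (nat_lit 0x50592) (nat_lit 0) (p (nat_lit 0x40512) (nat_lit 0) (p (nat_lit 0x50312) (nat_lit 0) (p (nat_lit 0x38292) (nat_lit 0) (p (nat_lit 0x28212) (nat_lit 0) (p (nat_lit 0x38112) (nat_lit 0) (p (nat_lit 0x20092) (nat_lit 0) (p (nat_lit 0x10012) (nat_lit 0) pn)))))))) :=
  Cl.node (nat_lit 0x68612) (nat_lit 1) (by decide +kernel) (ClAll.succ ClAll.zero n329)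

def n331 : Cl (O (nat_lit 3)) (R (nat_lit 14353))
    (p (nat_lit 0x40512) (nat_lit 0) (p (nat_lit 0x50312) (nat_lit 0) (p (nat_lit 0x38292) (nat_lit 0) (p (nat_lit 0x28212) (nat_lit 0) (p (nat_lit 0x38112) (nat_lit 0) (p (nat_lit 0x20092) (nat_lit 0) (p (nat_lit 0x10012) (nat_lit 0) pn))))))) :=
  Cl.node (nat_lit 0x50592) (nat_lit 1) (by decide +kernel) (ClAll.succ ClAll.zero n330)

def n332 : Cl (O (nat_lit 3)) (R (nat_lit 14353))
    (p (nat_lit 0x50312) (nat_lit 0) (p (nat_lit 0x38292) (nat_lit 0) (p (nat_lit 0x28212) (nat_lit 0) (p (nat_lit 0x38112) (nat_lit 0) (p (nat_lit 0x20092) (nat_lit 0) (p (nat_lit 0x10012) (nat_lit 0) pn)))))) :=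
  Cl.node (nat_lit 0x40512) (nat_lit 1) (by decide +kernel) (ClAll.succ ClAll.zero n331)

def n333 : Cl (O (nat_lit 3)) (R (nat_lit 14353))
    (p (nat_lit 0x38292) (nat_lit 0) (p (nat_lit 0x28212) (nat_lit 0) (p (nat_lit 0x38112) (nat_lit 0) (p (nat_lit 0x20092) (nat_lit 0) (p (nat_lit 0x10012) (nat_lit 0) pn))))) :=
  Cl.node (nat_lit 0x50312) (nat_lit 1) (by decide +kernel) (ClAll.succ ClAll.zero n332)

def n334 : Cl (O (nat_lit 3)) (R (nat_lit 14353))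
    (p (nat_lit 0x28212) (nat_lit 0) (p (nat_lit 0x38112) (nat_lit 0) (p (nat_lit 0x20092) (nat_lit 0) (p (nat_lit 0x10012) (nat_lit 0) pn)))) :=
  Cl.node (nat_lit 0x38292) (nat_lit 1) (by decide +kernel) (ClAll.succ ClAll.zero n333)

def n335 : Cl (O (nat_lit 3)) (R (nat_lit 14353))
    (p (nat_lit 0x38112) (nat_lit 0) (p (nat_lit 0x20092) (nat_lit 0) (p (nat_lit 0x10012) (nat_lit 0) pn))) :=
  Cl.node (nat_lit 0x28212) (nat_lit 1) (by decide +kernel) (ClAll.succ ClAll.zero n334)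

def n336 : Cl (O (nat_lit 3)) (R (nat_lit 14353))
    (p (nat_lit 0x20092) (nat_lit 0) (p (nat_lit 0x10012) (nat_lit 0) pn)) :=
  Cl.node (nat_lit 0x38112) (nat_lit 1) (by decide +kernel) (ClAll.succ ClAll.zero n335)

def n337 : Cl (O (nat_lit 3)) (R (nat_lit 14353))
    (p (nat_lit 0x10012) (nat_lit 0) pn) :=
  Cl.node (nat_lit 0x20092) (nat_lit 1) (by decide +kernel) (ClAll.succ ClAll.zero n336)

def n338 : Cl (O (nat_lit 3)) (R (nat_lit 14353))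
    pn :=
  Cl.node (nat_lit 0x10012) (nat_lit 1) (by decide +kernel) (ClAll.succ ClAll.zero n337)

theorem top : Cl (O (nat_lit 3)) (R (nat_lit 14353)) pn := n338

end Pool.Agent.Gen.F5.X12CD3Cm3
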